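import Mathlib

/-!
# Cryptogenography: the model

Protocols for `k` players with private random tapes, the winning probability against an
optimal eavesdropper, and the optimal value `cryptoValue k`.
-/

namespace Pool.Agent.Helper92.Crypto

open Finset

/-- A finite protocol tree for `k` players whose private random tapes lie in `Ω i`.
At a leaf the protocol stops and outputs the bit `out`.  At a node the player `i` writes one
bit on the blackboard; this bit `msg o r` depends on the position in the tree (that is, on the
transcript so far), on the player's own input `o` (`none` if the player is not the owner of the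
secret, `some x` if the player owns the secret bit `x`) and on its private random tape `r`.
The protocol continues with `t` if the bit is `true` and with `f` if it is `false`. -/
inductive Tree (k : ℕ) (Ω : Fin k → Type) : Type
  | leaf (out : Bool) : Tree k Ω
  | node (i : Fin k) (msg : Option Bool → Ω i → Bool) (t f : Tree k Ω) : Tree k Ω

namespace Tree

variable {k : ℕ} {Ω : Fin k → Type}

/-- The transcript written on the blackboard when the secret is `x`, its owner is `j` and the
private tapes are `ω`. -/
def transcript : Tree k Ω → Bool → Fin k → (∀ i, Ω i) → List Bool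
  | leaf _, _, _, _ => []
  | node i msg t f, x, j, ω =>
      if msg (if i = j then some x else none) (ω i) then true :: transcript t x j ω
      else false :: transcript f x j ω

/-- The output bit of the protocol when the secret is `x`, its owner is `j` and the
private tapes are `ω`. -/
def output : Tree k Ω → Bool → Fin k → (∀ i, Ω i) → Bool
  | leaf out, _, _, _ => out
  | node i msg t f, x, j, ω =>
      if msg (if i = j then some x else none) (ω i) then output t x j ω
      else output f x j ω

end Tree

/-- A protocol for `k` players: finite private tape spaces `Ω i` with probability weights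
`μ i`, and a protocol tree. -/
structure Protocol (k : ℕ) where
  Ω : Fin k → Type
  fin : ∀ i, Fintype (Ω i)
  μ : ∀ i, Ω i → ℝ
  μ_nonneg : ∀ i r, 0 ≤ μ i r
  μ_sum : ∀ i, ∑ r, μ i r = 1
  tree : Tree k Ω

attribute [instance] Protocol.fin

open Classical in
/-- The probability that the players win when the eavesdropper uses the guessing rule `g`:
the secret bit `x`, its owner `j` (both uniform) and the private tapes are independent, and the
players win if the output is `x` and the guess `g (transcript)` is not `j`. -/
noncomputable def winProb {k : ℕ} (P : Protocol k) (g : List Bool → Fin k) : ℝ :=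
  ∑ x : Bool, ∑ j : Fin k, ∑ ω : (∀ i, P.Ω i),
    (1 / (2 * (k : ℝ))) * (∏ i, P.μ i (ω i)) *
      (if P.tree.output x j ω = x ∧ g (P.tree.transcript x j ω) ≠ j then 1 else 0)

/-- The success probability of a protocol against an optimal eavesdropper. -/
noncomputable def success {k : ℕ} (P : Protocol k) : ℝ :=
  ⨅ g : List Bool → Fin k, winProb P g

/-- The optimal success probability `s_k` for `k` players. -/
noncomputable def cryptoValue (k : ℕ) : ℝ := ⨆ P : Protocol k, success P

/-! ## Weighted version -/

section weighted

variable {k : ℕ}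

/-- input of player `i` when the secret is `x` and its owner is `j` -/
def inp (x : Bool) (i j : Fin k) : Option Bool := if i = j then some x else none

open Classical in
/-- weighted winning amount for sub-measures `A i o` on the tapes -/
noncomputable def win {Ω : Fin k → Type} [∀ i, Fintype (Ω i)] (T : Tree k Ω)
    (A : ∀ i, Option Bool → Ω i → ℝ) (g : List Bool → Fin k) : ℝ :=
  ∑ x : Bool, ∑ j : Fin k, ∑ ω : (∀ i, Ω i),
    (∏ i, A i (inp x i j) (ω i)) *
      (if T.output x j ω = x ∧ g (T.transcript x j ω) ≠ j then 1 else 0)

/-- total masses of the sub-measures -/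
noncomputable def mass {Ω : Fin k → Type} [∀ i, Fintype (Ω i)]
    (A : ∀ i, Option Bool → Ω i → ℝ) (i : Fin k) (o : Option Bool) : ℝ := ∑ r, A i o r

/-- the weight of `(x, j)` in the state `S` -/
def wt (S : Fin k → Option Bool → ℝ) (x : Bool) (j : Fin k) : ℝ :=
  ∏ i, S i (inp x i j)

/-- A function of the state which is superadditive along the moves of each single player. -/
def SuperAdd (Φ : (Fin k → Option Bool → ℝ) → ℝ) : Prop :=
  ∀ (i : Fin k) (S : Fin k → Option Bool → ℝ) (p q : Option Bool → ℝ),
    (∀ l o, 0 ≤ S l o) → (∀ o, 0 ≤ p o) → (∀ o, 0 ≤ q o) →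
      Φ (Function.update S i p) + Φ (Function.update S i q) ≤ Φ (Function.update S i (p + q))

/-- A function of the state which dominates the payoff of stopping at once. -/
def Majorizes (Φ : (Fin k → Option Bool → ℝ) → ℝ) : Prop :=
  ∀ (S : Fin k → Option Bool → ℝ), (∀ l o, 0 ≤ S l o) →
    ∀ out, ∃ m, ∑ j, wt S out j - wt S out m ≤ Φ S

theorem sum_pi_prod {Ω : Fin k → Type} [∀ i, Fintype (Ω i)] (f : ∀ i, Ω i → ℝ) :
    ∑ ω : (∀ i, Ω i), ∏ i, f i (ω i) = ∏ i, ∑ r, f i r := by
  classical
  rw [Finset.prod_univ_sum]
  simp [Fintype.piFinset_univ]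

/-- restrict the measure of player `i` to the tapes on which it writes `b` -/
noncomputable def restrict {Ω : Fin k → Type} (A : ∀ i, Option Bool → Ω i → ℝ) (i : Fin k)
    (msg : Option Bool → Ω i → Bool) (b : Bool) : ∀ i, Option Bool → Ω i → ℝ :=
  Function.update A i (fun o r => if msg o r = b then A i o r else 0)

theorem restrict_nonneg {Ω : Fin k → Type}
    (A : ∀ i, Option Bool → Ω i → ℝ) (hA : ∀ i o r, 0 ≤ A i o r) (i : Fin k)
    (msg : Option Bool → Ω i → Bool) (b : Bool) : ∀ l o r, 0 ≤ restrict A i msg b l o r := by
  intro l o r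
  unfold restrict
  by_cases h : l = i
  · subst h
    rw [Function.update_self]
    split_ifs
    · exact hA _ _ _
    · exact le_rfl
  · rw [Function.update_of_ne h]
    exact hA _ _ _

theorem prod_restrict {Ω : Fin k → Type}
    (A : ∀ i, Option Bool → Ω i → ℝ) (i : Fin k)
    (msg : Option Bool → Ω i → Bool) (b : Bool) (x : Bool) (j : Fin k) (ω : ∀ i, Ω i) :
    ∏ l, restrict A i msg b l (inp x l j) (ω l) =
      (if msg (inp x i j) (ω i) = b then 1 else 0) * ∏ l, A l (inp x l j) (ω l) := by
  classical
  rw [← Finset.mul_prod_erase univ (fun l => restrict A i msg b l (inp x l j) (ω l)) (mem_univ i),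
    ← Finset.mul_prod_erase univ (fun l => A l (inp x l j) (ω l)) (mem_univ i)]
  have h1 : ∏ l ∈ univ.erase i, restrict A i msg b l (inp x l j) (ω l) =
      ∏ l ∈ univ.erase i, A l (inp x l j) (ω l) := by
    apply Finset.prod_congr rfl
    intro l hl
    have : l ≠ i := (Finset.mem_erase.mp hl).1
    unfold restrict
    rw [Function.update_of_ne this]
  have h2 : restrict A i msg b i (inp x i j) (ω i) =
      (if msg (inp x i j) (ω i) = b then 1 else 0) * A i (inp x i j) (ω i) := by
    unfold restrict
    rw [Function.update_self]
    split_ifs <;> simp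
  rw [h1, h2, mul_assoc]

theorem win_node {Ω : Fin k → Type} [∀ i, Fintype (Ω i)]
    (A : ∀ i, Option Bool → Ω i → ℝ) (i : Fin k) (msg : Option Bool → Ω i → Bool)
    (t f : Tree k Ω) (g : List Bool → Fin k) :
    win (Tree.node i msg t f) A g =
      win t (restrict A i msg true) (fun l => g (true :: l)) +
      win f (restrict A i msg false) (fun l => g (false :: l)) := by
  classical
  unfold win
  rw [← Finset.sum_add_distrib]
  apply Finset.sum_congr rfl
  intro x _
  rw [← Finset.sum_add_distrib]
  apply Finset.sum_congr rfl
  intro j _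
  rw [← Finset.sum_add_distrib]
  apply Finset.sum_congr rfl
  intro ω _
  rw [prod_restrict, prod_restrict]
  simp only [Tree.output, Tree.transcript]
  by_cases h : msg (inp x i j) (ω i) = true
  · have h' : msg (if i = j then some x else none) (ω i) = true := h
    simp [h, h']
  · have h2 : msg (inp x i j) (ω i) = false := by simpa using h
    have h' : msg (if i = j then some x else none) (ω i) = false := h2
    simp [h2, h']

theorem mass_restrict {Ω : Fin k → Type} [∀ i, Fintype (Ω i)]
    (A : ∀ i, Option Bool → Ω i → ℝ) (i : Fin k) (msg : Option Bool → Ω i → Bool) (b : Bool) :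
    mass (restrict A i msg b) =
      Function.update (mass A) i (fun o => ∑ r, if msg o r = b then A i o r else 0) := by
  funext l o
  by_cases h : l = i
  · subst h
    simp [mass, restrict]
  · simp [mass, restrict, Function.update_of_ne h]

theorem mass_restrict_add {Ω : Fin k → Type} [∀ i, Fintype (Ω i)]
    (A : ∀ i, Option Bool → Ω i → ℝ) (i : Fin k) (msg : Option Bool → Ω i → Bool) :
    Function.update (mass A) i ((fun o => ∑ r, if msg o r = true then A i o r else 0) +
      (fun o => ∑ r, if msg o r = false then A i o r else 0)) = mass A := by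
  funext l o
  by_cases h : l = i
  · subst h
    simp only [Function.update_self, Pi.add_apply, mass]
    rw [← Finset.sum_add_distrib]
    apply Finset.sum_congr rfl
    intro r _
    cases msg o r <;> simp
  · simp [Function.update_of_ne h]

theorem mass_nonneg {Ω : Fin k → Type} [∀ i, Fintype (Ω i)]
    (A : ∀ i, Option Bool → Ω i → ℝ) (hA : ∀ i o r, 0 ≤ A i o r) (i : Fin k) (o : Option Bool) :
    0 ≤ mass A i o := Finset.sum_nonneg fun r _ => hA _ _ _

/-- **Potential argument**: a superadditive majorant bounds the value from above. -/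
theorem exists_guess_le (hk : 0 < k) {Φ : (Fin k → Option Bool → ℝ) → ℝ} (hM : Majorizes Φ)
    (hS : SuperAdd Φ) {Ω : Fin k → Type} [∀ i, Fintype (Ω i)] (T : Tree k Ω) :
    ∀ (A : ∀ i, Option Bool → Ω i → ℝ), (∀ i o r, 0 ≤ A i o r) →
      ∃ g, win T A g ≤ Φ (mass A) := by
  classical
  induction T with
  | leaf out =>
    intro A hA
    obtain ⟨m, hm⟩ := hM (mass A) (mass_nonneg A hA) out
    refine ⟨fun _ => m, le_trans (le_of_eq ?_) hm⟩
    have key : win (Tree.leaf out) A (fun _ => m) =
        ∑ x : Bool, ∑ j : Fin k, wt (mass A) x j * (if out = x ∧ m ≠ j then (1 : ℝ) else 0) := by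
      unfold win
      refine Finset.sum_congr rfl fun x _ => Finset.sum_congr rfl fun j _ => ?_
      have : wt (mass A) x j = ∑ ω : (∀ i, Ω i), ∏ i, A i (inp x i j) (ω i) := by
        rw [sum_pi_prod]; rfl
      rw [this, Finset.sum_mul]
      refine Finset.sum_congr rfl fun ω _ => ?_
      congr 1
    rw [key, Finset.sum_eq_single out]
    · have : ∑ j, wt (mass A) out j - wt (mass A) out m =
          ∑ j, (wt (mass A) out j - if j = m then wt (mass A) out j else 0) := by
        rw [Finset.sum_sub_distrib]
        simp
      rw [this]
      apply Finset.sum_congr rfl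
      intro j _
      by_cases h : m = j
      · subst h; simp
      · have h' : j ≠ m := fun e => h e.symm
        simp [h, h']
    · intro b _ hb
      apply Finset.sum_eq_zero
      intro j _
      have : ¬ (out = b) := fun e => hb e.symm
      simp [this]
    · intro h; exact absurd (mem_univ _) h
  | node i msg t f iht ihf =>
    intro A hA
    obtain ⟨g1, h1⟩ := iht (restrict A i msg true) (restrict_nonneg A hA i msg true)
    obtain ⟨g2, h2⟩ := ihf (restrict A i msg false) (restrict_nonneg A hA i msg false)
    refine ⟨fun l => match l with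
      | [] => ⟨0, hk⟩
      | true :: l => g1 l
      | false :: l => g2 l, ?_⟩
    rw [win_node]
    rw [mass_restrict] at h1 h2
    have hs := hS i (mass A) (fun o => ∑ r, if msg o r = true then A i o r else 0)
      (fun o => ∑ r, if msg o r = false then A i o r else 0) (mass_nonneg A hA)
      (fun o => Finset.sum_nonneg fun r _ => by split_ifs; exacts [hA _ _ _, le_rfl])
      (fun o => Finset.sum_nonneg fun r _ => by split_ifs; exacts [hA _ _ _, le_rfl])
    rw [mass_restrict_add] at hs
    linarith

end weighted

theorem winProb_nonneg {k : ℕ} (P : Protocol k) (g : List Bool → Fin k) : 0 ≤ winProb P g := by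
  unfold winProb
  refine Finset.sum_nonneg fun x _ => Finset.sum_nonneg fun j _ => Finset.sum_nonneg fun ω _ => ?_
  refine mul_nonneg (mul_nonneg (by positivity) (Finset.prod_nonneg fun i _ => P.μ_nonneg _ _)) ?_
  split_ifs <;> norm_num

theorem bddBelow_winProb {k : ℕ} (P : Protocol k) : BddBelow (Set.range (winProb P)) :=
  ⟨0, by rintro _ ⟨g, rfl⟩; exact winProb_nonneg P g⟩

theorem winProb_eq_win {k : ℕ} (P : Protocol k) (g : List Bool → Fin k) :
    winProb P g = (1 / (2 * (k : ℝ))) * win P.tree (fun i _ r => P.μ i r) g := by
  unfold winProb win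
  simp only [Finset.mul_sum]
  refine Finset.sum_congr rfl fun x _ => Finset.sum_congr rfl fun j _ =>
    Finset.sum_congr rfl fun ω _ => ?_
  ring

theorem success_le_of_potential {k : ℕ} (hk : 0 < k) {Φ : (Fin k → Option Bool → ℝ) → ℝ}
    (hM : Majorizes Φ) (hS : SuperAdd Φ) (P : Protocol k) :
    success P ≤ (1 / (2 * (k : ℝ))) * Φ (fun _ _ => 1) := by
  obtain ⟨g, hg⟩ := exists_guess_le hk hM hS P.tree (fun i _ r => P.μ i r)
    (fun i _ r => P.μ_nonneg i r)
  have hw : mass (fun i (_ : Option Bool) r => P.μ i r) = fun _ _ => (1 : ℝ) := by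
    funext i o
    exact P.μ_sum i
  rw [hw] at hg
  refine le_trans (ciInf_le (bddBelow_winProb P) g) ?_
  rw [winProb_eq_win]
  exact mul_le_mul_of_nonneg_left hg (by positivity)

/-- the trivial protocol -/
def trivialProtocol (k : ℕ) : Protocol k where
  Ω := fun _ => Unit
  fin := fun _ => inferInstance
  μ := fun _ _ => 1
  μ_nonneg := fun _ _ => zero_le_one
  μ_sum := fun _ => by simp
  tree := Tree.leaf true

instance (k : ℕ) : Nonempty (Protocol k) := ⟨trivialProtocol k⟩

/-- **Upper bound for `s_k` from a potential.** -/
theorem cryptoValue_le_of_potential {k : ℕ} (hk : 0 < k) {Φ : (Fin k → Option Bool → ℝ) → ℝ}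
    (hM : Majorizes Φ) (hS : SuperAdd Φ) :
    cryptoValue k ≤ (1 / (2 * (k : ℝ))) * Φ (fun _ _ => 1) :=
  ciSup_le fun P => success_le_of_potential hk hM hS P

end Pool.Agent.Helper92.Crypto
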