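import Mathlib
import Pool.Agent.Helper92.Crypto

/-!
# Lower bounds for the cryptogenography problem

The weighted value `V W` of the game with prior weights `W x j`, its superadditivity along the
moves of a single player, and its homogeneity.
-/

namespace Pool.Agent.Helper92.Crypto

open Finset

variable {k : ℕ}

open Classical in
/-- weighted winning amount of a protocol with weights `W x j` -/
noncomputable def wwin (P : Protocol k) (W : Bool → Fin k → ℝ) (g : List Bool → Fin k) : ℝ :=
  ∑ x : Bool, ∑ j : Fin k, W x j * ∑ ω : (∀ i, P.Ω i), (∏ i, P.μ i (ω i)) *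
      (if P.tree.output x j ω = x ∧ g (P.tree.transcript x j ω) ≠ j then 1 else 0)

/-- weighted success -/
noncomputable def wsucc (P : Protocol k) (W : Bool → Fin k → ℝ) : ℝ := ⨅ g, wwin P W g

/-- weighted value of the game -/
noncomputable def V (W : Bool → Fin k → ℝ) : ℝ := ⨆ P : Protocol k, wsucc P W

theorem winProb_eq_wwin (P : Protocol k) (g : List Bool → Fin k) :
    winProb P g = wwin P (fun _ _ => 1 / (2 * (k : ℝ))) g := by
  unfold winProb wwin
  refine Finset.sum_congr rfl fun x _ => Finset.sum_congr rfl fun j _ => ?_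
  rw [Finset.mul_sum]
  refine Finset.sum_congr rfl fun ω _ => ?_
  ring

theorem cryptoValue_eq_V : cryptoValue k = V (k := k) (fun _ _ => 1 / (2 * (k : ℝ))) := by
  unfold cryptoValue V success wsucc
  congr 1
  funext P
  congr 1
  funext g
  exact winProb_eq_wwin P g

theorem sum_prod_mu (P : Protocol k) : ∑ ω : (∀ i, P.Ω i), ∏ i, P.μ i (ω i) = 1 := by
  rw [sum_pi_prod]
  exact Finset.prod_eq_one fun i _ => P.μ_sum i

theorem prod_mu_nonneg (P : Protocol k) (ω : ∀ i, P.Ω i) : 0 ≤ ∏ i, P.μ i (ω i) :=
  Finset.prod_nonneg fun i _ => P.μ_nonneg _ _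

theorem wwin_nonneg (P : Protocol k) (W : Bool → Fin k → ℝ) (hW : ∀ x j, 0 ≤ W x j)
    (g : List Bool → Fin k) : 0 ≤ wwin P W g := by
  unfold wwin
  refine Finset.sum_nonneg fun x _ => Finset.sum_nonneg fun j _ => mul_nonneg (hW x j)
    (Finset.sum_nonneg fun ω _ => mul_nonneg (prod_mu_nonneg P ω) ?_)
  split_ifs <;> norm_num

theorem wwin_le (P : Protocol k) (W : Bool → Fin k → ℝ) (hW : ∀ x j, 0 ≤ W x j)
    (g : List Bool → Fin k) : wwin P W g ≤ ∑ x, ∑ j, W x j := by
  unfold wwin
  refine Finset.sum_le_sum fun x _ => Finset.sum_le_sum fun j _ => ?_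
  refine mul_le_of_le_one_right (hW x j) ?_
  refine le_trans (Finset.sum_le_sum fun ω _ => ?_) (sum_prod_mu P).le
  refine mul_le_of_le_one_right (prod_mu_nonneg P ω) ?_
  split_ifs <;> norm_num

theorem bddBelow_wwin (P : Protocol k) (W : Bool → Fin k → ℝ) (hW : ∀ x j, 0 ≤ W x j) :
    BddBelow (Set.range (wwin P W)) :=
  ⟨0, by rintro _ ⟨g, rfl⟩; exact wwin_nonneg P W hW g⟩

theorem wsucc_le (hk : 0 < k) (P : Protocol k) (W : Bool → Fin k → ℝ) (hW : ∀ x j, 0 ≤ W x j) :
    wsucc P W ≤ ∑ x, ∑ j, W x j :=
  le_trans (ciInf_le (bddBelow_wwin P W hW) (fun _ => ⟨0, hk⟩)) (wwin_le P W hW _)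

theorem bddAbove_wsucc (hk : 0 < k) (W : Bool → Fin k → ℝ) (hW : ∀ x j, 0 ≤ W x j) :
    BddAbove (Set.range fun P : Protocol k => wsucc P W) :=
  ⟨∑ x, ∑ j, W x j, by rintro _ ⟨P, rfl⟩; exact wsucc_le hk P W hW⟩

theorem wsucc_le_V (hk : 0 < k) (W : Bool → Fin k → ℝ) (hW : ∀ x j, 0 ≤ W x j) (P : Protocol k) :
    wsucc P W ≤ V W := le_ciSup (bddAbove_wsucc hk W hW) P

/-! ### Stopping at once -/

/-- the protocol which stops at once -/
def stopProtocol (k : ℕ) (out : Bool) : Protocol k where
  Ω := fun _ => Unit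
  fin := fun _ => inferInstance
  μ := fun _ _ => 1
  μ_nonneg := fun _ _ => zero_le_one
  μ_sum := fun _ => by simp
  tree := Tree.leaf out

theorem wwin_stop (W : Bool → Fin k → ℝ) (out : Bool) (g : List Bool → Fin k) :
    wwin (stopProtocol k out) W g = ∑ j, W out j - W out (g []) := by
  classical
  have h : ∀ x j, (∑ ω : (∀ i, (stopProtocol k out).Ω i), (∏ i, (stopProtocol k out).μ i (ω i)) *
      (if (stopProtocol k out).tree.output x j ω = x ∧
        g ((stopProtocol k out).tree.transcript x j ω) ≠ j then (1 : ℝ) else 0)) =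
      if out = x ∧ g [] ≠ j then 1 else 0 := by
    intro x j
    have : ∀ ω : (∀ i, (stopProtocol k out).Ω i), (∏ i, (stopProtocol k out).μ i (ω i)) *
      (if (stopProtocol k out).tree.output x j ω = x ∧
        g ((stopProtocol k out).tree.transcript x j ω) ≠ j then (1 : ℝ) else 0) =
        (∏ i, (stopProtocol k out).μ i (ω i)) * (if out = x ∧ g [] ≠ j then 1 else 0) := by
      intro ω
      rfl
    rw [Finset.sum_congr rfl fun ω _ => this ω, ← Finset.sum_mul, sum_prod_mu, one_mul]
  unfold wwin
  simp_rw [h]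
  rw [Finset.sum_eq_single out]
  · have : ∑ j, W out j - W out (g []) = ∑ j, (W out j - if j = g [] then W out j else 0) := by
      rw [Finset.sum_sub_distrib]
      simp
    rw [this]
    apply Finset.sum_congr rfl
    intro j _
    by_cases hj : g [] = j
    · simp [hj]
    · have : j ≠ g [] := fun e => hj e.symm
      simp [hj, this]
  · intro b _ hb
    apply Finset.sum_eq_zero
    intro j _
    have : ¬ (out = b) := fun e => hb e.symm
    simp [this]
  · intro h; exact absurd (mem_univ _) h

/-- (V1) stopping at once -/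
theorem V_stop (hk : 0 < k) (W : Bool → Fin k → ℝ) (hW : ∀ x j, 0 ≤ W x j) (out : Bool) (M : ℝ)
    (hM : ∀ j, W out j ≤ M) : ∑ j, W out j - M ≤ V W := by
  refine le_trans ?_ (wsucc_le_V hk W hW (stopProtocol k out))
  haveI : Nonempty (List Bool → Fin k) := ⟨fun _ => ⟨0, hk⟩⟩
  refine le_ciInf fun g => ?_
  rw [wwin_stop]
  linarith [hM (g [])]

/-! ### Homogeneity -/

theorem wwin_smul (P : Protocol k) (W : Bool → Fin k → ℝ) (r : ℝ) (g : List Bool → Fin k) :
    wwin P (fun x j => r * W x j) g = r * wwin P W g := by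
  unfold wwin
  simp_rw [Finset.mul_sum]
  refine Finset.sum_congr rfl fun x _ => Finset.sum_congr rfl fun j _ =>
    Finset.sum_congr rfl fun ω _ => ?_
  ring

theorem V_smul (W : Bool → Fin k → ℝ) (r : ℝ) (hr : 0 ≤ r) :
    V (fun x j => r * W x j) = r * V W := by
  unfold V wsucc
  simp_rw [wwin_smul]
  rw [Real.mul_iSup_of_nonneg hr]
  congr 1
  funext P
  rw [Real.mul_iInf_of_nonneg hr]

/-! ### Superadditivity -/

/-- multiply the weights by a factor depending on the input of player `i` -/
def mulAt (i : Fin k) (p : Option Bool → ℝ) (R : Bool → Fin k → ℝ) (x : Bool) (j : Fin k) : ℝ :=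
  p (inp x i j) * R x j

/-- change the tapes -/
def Tree.lift {Ω Ω' : Fin k → Type} (π : ∀ l, Ω' l → Ω l) : Tree k Ω → Tree k Ω'
  | .leaf out => .leaf out
  | .node i msg t f => .node i (fun o r => msg o (π i r)) (Tree.lift π t) (Tree.lift π f)

theorem Tree.transcript_lift {Ω Ω' : Fin k → Type} (π : ∀ l, Ω' l → Ω l) (T : Tree k Ω)
    (x : Bool) (j : Fin k) (ω : ∀ l, Ω' l) :
    (T.lift π).transcript x j ω = T.transcript x j (fun l => π l (ω l)) := by
  induction T with
  | leaf out => rfl
  | node i msg t f iht ihf =>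
    simp only [Tree.lift, Tree.transcript, iht, ihf]

theorem Tree.output_lift {Ω Ω' : Fin k → Type} (π : ∀ l, Ω' l → Ω l) (T : Tree k Ω)
    (x : Bool) (j : Fin k) (ω : ∀ l, Ω' l) :
    (T.lift π).output x j ω = T.output x j (fun l => π l (ω l)) := by
  induction T with
  | leaf out => rfl
  | node i msg t f iht ihf =>
    simp only [Tree.lift, Tree.output, iht, ihf]

open Classical in
theorem sum_push {Ω Ω' : Fin k → Type} [∀ l, Fintype (Ω l)] [∀ l, Fintype (Ω' l)]
    (π : ∀ l, Ω' l → Ω l) (h : ∀ l, Ω' l → ℝ) (F : (∀ l, Ω l) → ℝ) :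
    ∑ ω' : (∀ l, Ω' l), (∏ l, h l (ω' l)) * F (fun l => π l (ω' l)) =
      ∑ ω : (∀ l, Ω l), (∏ l, ∑ s, if π l s = ω l then h l s else 0) * F ω := by
  have h1 : ∀ ω' : (∀ l, Ω' l), (∏ l, h l (ω' l)) * F (fun l => π l (ω' l)) =
      ∑ ω : (∀ l, Ω l), (∏ l, if π l (ω' l) = ω l then h l (ω' l) else 0) * F ω := by
    intro ω'
    rw [Finset.sum_eq_single (fun l => π l (ω' l))]
    · simp
    · intro ω _ hω
      have : ∃ l, π l (ω' l) ≠ ω l := by
        by_contra hcon
        push Not at hcon
        exact hω (funext fun l => (hcon l).symm)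
      obtain ⟨l, hl⟩ := this
      rw [Finset.prod_eq_zero (mem_univ l) (by rw [if_neg hl]), zero_mul]
    · intro hh; exact absurd (mem_univ _) hh
  simp_rw [h1]
  rw [Finset.sum_comm]
  refine Finset.sum_congr rfl fun ω _ => ?_
  rw [← Finset.sum_mul]
  congr 1
  rw [sum_pi_prod (fun l s => if π l s = ω l then h l s else 0)]

/-- weights of the coins -/
noncomputable def coin (α : Option Bool → ℝ) (c : Option Bool → Bool) : ℝ :=
  ∏ o, if c o then α o else 1 - α o

theorem coin_nonneg (α : Option Bool → ℝ) (h0 : ∀ o, 0 ≤ α o) (h1 : ∀ o, α o ≤ 1)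
    (c : Option Bool → Bool) : 0 ≤ coin α c := by
  refine Finset.prod_nonneg fun o _ => ?_
  split_ifs
  · exact h0 o
  · linarith [h1 o]

theorem sum_coin (α : Option Bool → ℝ) : ∑ c, coin α c = 1 := by
  unfold coin
  have := (Finset.prod_univ_sum (fun _ : Option Bool => (univ : Finset Bool))
    (fun o b => if b then α o else 1 - α o)).symm
  rw [Fintype.piFinset_univ] at this
  rw [this]
  apply Finset.prod_eq_one
  intro o _
  simp

theorem sum_coin_ite (α : Option Bool → ℝ) (o : Option Bool) (b : Bool) :
    ∑ c, (if c o = b then coin α c else 0) = if b then α o else 1 - α o := by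
  classical
  have h : ∀ c : Option Bool → Bool, (if c o = b then coin α c else 0) =
      ∏ o', (if o' = o then (if c o' = b then (if c o' then α o' else 1 - α o') else 0)
        else (if c o' then α o' else 1 - α o')) := by
    intro c
    by_cases hc : c o = b
    · rw [if_pos hc]
      unfold coin
      refine Finset.prod_congr rfl fun o' _ => ?_
      by_cases ho : o' = o
      · subst ho; simp [hc]
      · simp [ho]
    · rw [if_neg hc]
      symm
      apply Finset.prod_eq_zero (mem_univ o)
      simp [hc]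
  simp_rw [h]
  have := (Finset.prod_univ_sum (fun _ : Option Bool => (univ : Finset Bool))
    (fun o' b' => if o' = o then (if b' = b then (if b' then α o' else 1 - α o') else 0)
        else (if b' then α o' else 1 - α o'))).symm
  rw [Fintype.piFinset_univ] at this
  rw [this, ← Finset.mul_prod_erase univ _ (mem_univ o)]
  have h2 : ∀ o' ∈ univ.erase o, (∑ b' : Bool, (if o' = o then
      (if b' = b then (if b' then α o' else 1 - α o') else 0)
        else (if b' then α o' else 1 - α o'))) = 1 := by
    intro o' ho'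
    have : o' ≠ o := (Finset.mem_erase.mp ho').1
    simp [this]
  rw [Finset.prod_eq_one h2, mul_one]
  cases b <;> simp

/-- Player `i` writes a first bit, `true` with probability `α o` when its input is `o`, and the
players continue with `P` after `true` and with `Q` after `false`. -/
noncomputable def comb (i : Fin k) (α : Option Bool → ℝ) (h0 : ∀ o, 0 ≤ α o) (h1 : ∀ o, α o ≤ 1)
    (P Q : Protocol k) : Protocol k where
  Ω := fun l => (Option Bool → Bool) × P.Ω l × Q.Ω l
  fin := fun l => inferInstance
  μ := fun l s => coin α s.1 * (P.μ l s.2.1 * Q.μ l s.2.2)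
  μ_nonneg := fun l s => mul_nonneg (coin_nonneg α h0 h1 _)
    (mul_nonneg (P.μ_nonneg _ _) (Q.μ_nonneg _ _))
  μ_sum := fun l => by
    rw [Fintype.sum_prod_type]
    simp_rw [Fintype.sum_prod_type, ← Finset.mul_sum, Q.μ_sum, mul_one, P.μ_sum, mul_one]
    exact sum_coin α
  tree := Tree.node i (fun o s => s.1 o) (P.tree.lift fun _ s => s.2.1)
    (Q.tree.lift fun _ s => s.2.2)

theorem wwin_comb (i : Fin k) (α : Option Bool → ℝ) (h0 : ∀ o, 0 ≤ α o) (h1 : ∀ o, α o ≤ 1)
    (P Q : Protocol k) (W : Bool → Fin k → ℝ) (g : List Bool → Fin k) :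
    wwin (comb i α h0 h1 P Q) W g =
      wwin P (mulAt i α W) (fun l => g (true :: l)) +
      wwin Q (mulAt i (fun o => 1 - α o) W) (fun l => g (false :: l)) := by
  classical
  have key : ∀ (x : Bool) (j : Fin k),
      (∑ ω : (∀ l, (comb i α h0 h1 P Q).Ω l), (∏ l, (comb i α h0 h1 P Q).μ l (ω l)) *
        (if (comb i α h0 h1 P Q).tree.output x j ω = x ∧
          g ((comb i α h0 h1 P Q).tree.transcript x j ω) ≠ j then (1 : ℝ) else 0)) =
      α (inp x i j) * (∑ ω : (∀ l, P.Ω l), (∏ l, P.μ l (ω l)) *
        (if P.tree.output x j ω = x ∧ g (true :: P.tree.transcript x j ω) ≠ j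
          then (1 : ℝ) else 0)) +
      (1 - α (inp x i j)) * (∑ ω : (∀ l, Q.Ω l), (∏ l, Q.μ l (ω l)) *
        (if Q.tree.output x j ω = x ∧ g (false :: Q.tree.transcript x j ω) ≠ j
          then (1 : ℝ) else 0)) := by
    intro x j
    set F : (∀ l, P.Ω l) → ℝ := fun ω => (if P.tree.output x j ω = x ∧
      g (true :: P.tree.transcript x j ω) ≠ j then (1 : ℝ) else 0) with hF
    set G : (∀ l, Q.Ω l) → ℝ := fun ω => (if Q.tree.output x j ω = x ∧
      g (false :: Q.tree.transcript x j ω) ≠ j then (1 : ℝ) else 0) with hG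
    have d1 : ∀ (β : ℝ) (m : Fin k → ℝ), (∏ l, (if l = i then β else 1) * m l) =
        β * ∏ l, m l := by
      intro β m
      rw [Finset.prod_mul_distrib]
      congr 1
      rw [Finset.prod_eq_single i]
      · simp
      · intro l _ hl; simp [hl]
      · intro hh; exact absurd (mem_univ _) hh
    have e1 : ∀ ω : (∀ l, (Option Bool → Bool) × P.Ω l × Q.Ω l),
        (∏ l, (comb i α h0 h1 P Q).μ l (ω l)) *
        (if (comb i α h0 h1 P Q).tree.output x j ω = x ∧
          g ((comb i α h0 h1 P Q).tree.transcript x j ω) ≠ j then (1 : ℝ) else 0) =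
        (∏ l, (if l = i then (if (ω l).1 (inp x i j) = true then coin α (ω l).1 else 0)
            else coin α (ω l).1) * (P.μ l (ω l).2.1 * Q.μ l (ω l).2.2)) *
            F (fun l => (ω l).2.1) +
        (∏ l, (if l = i then (if (ω l).1 (inp x i j) = false then coin α (ω l).1 else 0)
            else coin α (ω l).1) * (P.μ l (ω l).2.1 * Q.μ l (ω l).2.2)) *
            G (fun l => (ω l).2.2) := by
      intro ω
      have hb : ∀ b : Bool, (∏ l, (if l = i then (if (ω l).1 (inp x i j) = b then
          coin α (ω l).1 else 0) else coin α (ω l).1) * (P.μ l (ω l).2.1 * Q.μ l (ω l).2.2)) =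
          (if (ω i).1 (inp x i j) = b then 1 else 0) *
          ∏ l, coin α (ω l).1 * (P.μ l (ω l).2.1 * Q.μ l (ω l).2.2) := by
        intro b
        rw [← d1]
        refine Finset.prod_congr rfl fun l _ => ?_
        by_cases hl : l = i
        · subst hl
          simp only [if_true]
          split_ifs <;> simp
        · simp [hl]
      rw [hb true, hb false]
      have hμ : (∏ l, (comb i α h0 h1 P Q).μ l (ω l)) =
          ∏ l, coin α (ω l).1 * (P.μ l (ω l).2.1 * Q.μ l (ω l).2.2) := rfl
      rw [hμ]
      have ho : (comb i α h0 h1 P Q).tree.output x j ω =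
          if (ω i).1 (inp x i j) = true then P.tree.output x j (fun l => (ω l).2.1)
          else Q.tree.output x j (fun l => (ω l).2.2) := by
        have := Tree.output_lift (fun l (s : (Option Bool → Bool) × P.Ω l × Q.Ω l) => s.2.1)
          P.tree x j ω
        have h' := Tree.output_lift (fun l (s : (Option Bool → Bool) × P.Ω l × Q.Ω l) => s.2.2)
          Q.tree x j ω
        rw [← this, ← h']
        rfl
      have ht : (comb i α h0 h1 P Q).tree.transcript x j ω =
          if (ω i).1 (inp x i j) = true then true :: P.tree.transcript x j (fun l => (ω l).2.1)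
          else false :: Q.tree.transcript x j (fun l => (ω l).2.2) := by
        have := Tree.transcript_lift (fun l (s : (Option Bool → Bool) × P.Ω l × Q.Ω l) => s.2.1)
          P.tree x j ω
        have h' := Tree.transcript_lift (fun l (s : (Option Bool → Bool) × P.Ω l × Q.Ω l) => s.2.2)
          Q.tree x j ω
        rw [← this, ← h']
        rfl
      rw [ho, ht]
      by_cases hc : (ω i).1 (inp x i j) = true
      · simp [hc, hF]
      · have hc' : (ω i).1 (inp x i j) = false := by simpa using hc
        simp [hc', hG]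
    refine Eq.trans (Finset.sum_congr rfl fun ω _ => e1 ω) ?_
    refine Eq.trans Finset.sum_add_distrib ?_
    have push1 := sum_push (fun l (s : (Option Bool → Bool) × P.Ω l × Q.Ω l) => s.2.1)
      (fun l s => (if l = i then (if s.1 (inp x i j) = true then coin α s.1 else 0)
            else coin α s.1) * (P.μ l s.2.1 * Q.μ l s.2.2)) F
    have push2 := sum_push (fun l (s : (Option Bool → Bool) × P.Ω l × Q.Ω l) => s.2.2)
      (fun l s => (if l = i then (if s.1 (inp x i j) = false then coin α s.1 else 0)
            else coin α s.1) * (P.μ l s.2.1 * Q.μ l s.2.2)) G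
    have c0 : ∀ (b : Bool) (l : Fin k), (∑ c : Option Bool → Bool,
        (if l = i then (if c (inp x i j) = b then coin α c else 0) else coin α c)) =
        if l = i then (if b then α (inp x i j) else 1 - α (inp x i j)) else 1 := by
      intro b l
      by_cases hl : l = i
      · simp only [hl, if_true]
        rw [sum_coin_ite]
      · simp only [hl, if_false]
        exact sum_coin α
    have c1 : ∀ (ω : ∀ l, P.Ω l) (l : Fin k), (∑ s : (Option Bool → Bool) × P.Ω l × Q.Ω l,
        if s.2.1 = ω l then (if l = i then (if s.1 (inp x i j) = true then coin α s.1 else 0)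
            else coin α s.1) * (P.μ l s.2.1 * Q.μ l s.2.2) else 0) =
        (if l = i then α (inp x i j) else 1) * P.μ l (ω l) := by
      intro ω l
      have := c0 true l
      simp only [if_true] at this
      rw [← this, Fintype.sum_prod_type, Finset.sum_mul]
      refine Finset.sum_congr rfl fun c _ => ?_
      rw [Fintype.sum_prod_type]
      simp only
      rw [Finset.sum_eq_single (ω l)]
      · simp only [if_true]
        rw [← Finset.mul_sum, ← Finset.mul_sum, Q.μ_sum, mul_one]
      · intro r _ hr
        simp [hr]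
      · intro hh; exact absurd (mem_univ _) hh
    have c2 : ∀ (ω : ∀ l, Q.Ω l) (l : Fin k), (∑ s : (Option Bool → Bool) × P.Ω l × Q.Ω l,
        if s.2.2 = ω l then (if l = i then (if s.1 (inp x i j) = false then coin α s.1 else 0)
            else coin α s.1) * (P.μ l s.2.1 * Q.μ l s.2.2) else 0) =
        (if l = i then 1 - α (inp x i j) else 1) * Q.μ l (ω l) := by
      intro ω l
      have := c0 false l
      simp only [Bool.false_eq_true, if_false] at this
      rw [← this, Fintype.sum_prod_type, Finset.sum_mul]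
      refine Finset.sum_congr rfl fun c _ => ?_
      rw [Fintype.sum_prod_type_right]
      simp only
      rw [Finset.sum_eq_single (ω l)]
      · simp only [if_true]
        rw [← Finset.mul_sum, ← Finset.sum_mul, P.μ_sum, one_mul]
      · intro r _ hr
        simp [hr]
      · intro hh; exact absurd (mem_univ _) hh
    refine congr_arg₂ (· + ·) ?_ ?_
    · refine push1.trans ?_
      simp_rw [c1, d1]
      rw [Finset.mul_sum]
      refine Finset.sum_congr rfl fun ω _ => ?_
      rw [mul_assoc]
    · refine push2.trans ?_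
      simp_rw [c2, d1]
      rw [Finset.mul_sum]
      refine Finset.sum_congr rfl fun ω _ => ?_
      rw [mul_assoc]
  unfold wwin
  simp_rw [key]
  rw [← Finset.sum_add_distrib]
  refine Finset.sum_congr rfl fun x _ => ?_
  rw [← Finset.sum_add_distrib]
  refine Finset.sum_congr rfl fun j _ => ?_
  simp only [mulAt]
  ring

/-- (V2) superadditivity of the value along the moves of a single player -/
theorem V_superadd (hk : 0 < k) (i : Fin k) (R : Bool → Fin k → ℝ) (p q : Option Bool → ℝ)
    (hR : ∀ x j, 0 ≤ R x j) (hp : ∀ o, 0 ≤ p o) (hq : ∀ o, 0 ≤ q o) :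
    V (mulAt i p R) + V (mulAt i q R) ≤ V (mulAt i (p + q) R) := by
  have hpq : ∀ o, 0 ≤ (p + q) o := fun o => add_nonneg (hp o) (hq o)
  have hmul : ∀ (r : Option Bool → ℝ), (∀ o, 0 ≤ r o) → ∀ x j, 0 ≤ mulAt i r R x j :=
    fun r hr x j => mul_nonneg (hr _) (hR _ _)
  set α : Option Bool → ℝ := fun o => p o / (p o + q o) with hα
  have h0 : ∀ o, 0 ≤ α o := fun o => div_nonneg (hp o) (hpq o)
  have h1 : ∀ o, α o ≤ 1 := fun o =>
    div_le_one_of_le₀ (by linarith [hq o]) (hpq o)
  have e1 : mulAt i α (mulAt i (p + q) R) = mulAt i p R := by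
    funext x j
    simp only [mulAt, hα, Pi.add_apply]
    rcases eq_or_lt_of_le (hpq (inp x i j)) with h | h
    · have hp' : p (inp x i j) = 0 := by
        have := hp (inp x i j); have := hq (inp x i j)
        simp only [Pi.add_apply] at h
        linarith
      simp [hp']
    · simp only [Pi.add_apply] at h
      field_simp
  have e2 : mulAt i (fun o => 1 - α o) (mulAt i (p + q) R) = mulAt i q R := by
    funext x j
    simp only [mulAt, hα, Pi.add_apply]
    rcases eq_or_lt_of_le (hpq (inp x i j)) with h | h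
    · simp only [Pi.add_apply] at h
      have hq' : q (inp x i j) = 0 := by
        have := hp (inp x i j); have := hq (inp x i j)
        linarith
      rw [← h, hq']; ring
    · simp only [Pi.add_apply] at h
      field_simp
      ring
  have main : ∀ P Q : Protocol k, wsucc P (mulAt i p R) + wsucc Q (mulAt i q R) ≤
      V (mulAt i (p + q) R) := by
    intro P Q
    refine le_trans ?_ (wsucc_le_V hk _ (hmul _ hpq) (comb i α h0 h1 P Q))
    have hne : Nonempty (List Bool → Fin k) := ⟨fun _ => ⟨0, hk⟩⟩
    refine le_ciInf fun g => ?_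
    rw [wwin_comb, e1, e2]
    exact add_le_add (ciInf_le (bddBelow_wwin P _ (hmul _ hp)) _)
      (ciInf_le (bddBelow_wwin Q _ (hmul _ hq)) _)
  have h3 : V (mulAt i p R) ≤ V (mulAt i (p + q) R) - V (mulAt i q R) := by
    refine ciSup_le fun P => ?_
    rw [le_sub_iff_add_le]
    have : V (mulAt i q R) ≤ V (mulAt i (p + q) R) - wsucc P (mulAt i p R) := by
      refine ciSup_le fun Q => ?_
      linarith [main P Q]
    linarith
  linarith

end Pool.Agent.Helper92.Crypto
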