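import Pool.Agent.Helper29.QP.Defs

/-!
# Two combinatorial lemmas on Whitehead graphs (MP_55050e_al, module QP-B23)
-/

set_option autoImplicit false

open MonoidAlgebra Module

namespace Pool.Agent.Helper92.QP

open Pool.Agent.Helper29.QP

universe u

variable {K : Type u} [Field K] {X : Type}

lemma linv_linv (s : X × Bool) : linv (linv s) = s := by
  simp [linv]

lemma linv_ne (s : X × Bool) : linv s ≠ s := by
  intro h
  have := congrArg Prod.snd h
  simp [linv] at this

lemma fst_eq_iff (s a : X × Bool) : s.1 = a.1 ↔ s = a ∨ s = linv a := by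
  obtain ⟨x, b⟩ := s
  obtain ⟨y, c⟩ := a
  constructor
  · intro h
    simp only at h
    subst h
    cases b <;> cases c <;> simp [linv]
  · rintro (h | h)
    · rw [h]
    · rw [h]; rfl

lemma deg_pos {n : ℕ} (cw : Fin (n + 1) → X × Bool) (x : X) (h : ∃ i, (cw i).1 = x) :
    0 < deg cw x := by
  classical
  obtain ⟨i, hi⟩ := h
  exact Finset.card_pos.mpr ⟨i, Finset.mem_filter.mpr ⟨Finset.mem_univ _, hi⟩⟩

/-- cyclic induction -/
lemma cyc_ind {n : ℕ} (Q : Fin (n + 1) → Prop) (i : Fin (n + 1)) (hi : Q i)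
    (hs : ∀ j, Q j → Q (j + 1)) : ∀ j, Q j := by
  have h1 : ∀ k : Fin (n + 1), Q (i + k) := by
    intro k
    induction k using Fin.induction with
    | zero => rwa [add_zero]
    | succ k ih =>
      rw [← Fin.coeSucc_eq_succ, ← add_assoc]
      exact hs _ ih
  intro j
  have h2 := h1 (j - i)
  rw [add_sub_cancel] at h2
  exact h2

/-- indicator -/
noncomputable def ind (p : Prop) : ℕ := by classical exact if p then 1 else 0

lemma ind_pos {p : Prop} (h : p) : ind p = 1 := by simp [ind, h]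

lemma ind_neg {p : Prop} (h : ¬ p) : ind p = 0 := by simp [ind, h]

lemma ind_le (p : Prop) : ind p ≤ 1 := by
  by_cases h : p
  · rw [ind_pos h]
  · rw [ind_neg h]; omega

lemma cap_eq_sum {n : ℕ} (cw : Fin (n + 1) → X × Bool) (Z : Set (X × Bool)) :
    cap cw Z = ∑ i, ind (¬ (linv (cw i) ∈ Z ↔ cw (i + 1) ∈ Z)) := by
  classical
  rw [cap, Finset.card_filter]
  apply Finset.sum_congr rfl
  intro i _
  rw [ind]
  congr

lemma deg_eq_sum {n : ℕ} (cw : Fin (n + 1) → X × Bool) (a : X × Bool) :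
    deg cw a.1 = ∑ i, (ind (linv (cw i) = a) + ind (cw (i + 1) = a)) := by
  classical
  rw [deg, Finset.card_filter, Finset.sum_add_distrib]
  have h1 : ∑ i : Fin (n + 1), ind (cw (i + 1) = a) = ∑ i : Fin (n + 1), ind (cw i = a) :=
    Equiv.sum_comp (Equiv.addRight (1 : Fin (n + 1))) (fun i => ind (cw i = a))
  rw [h1, ← Finset.sum_add_distrib]
  apply Finset.sum_congr rfl
  intro i _
  have h2 : linv (cw i) = a ↔ cw i = linv a := by
    constructor
    · intro h; rw [← h, linv_linv]
    · intro h; rw [h, linv_linv]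
  by_cases h3 : cw i = a
  · have h4 : cw i ≠ linv a := by rw [h3]; exact (linv_ne a).symm
    have h5 : (cw i).1 = a.1 := by rw [h3]
    rw [if_pos h5, ind_neg (by rwa [h2]), ind_pos h3]
  · by_cases h4 : cw i = linv a
    · rw [if_pos ((fst_eq_iff _ _).mpr (Or.inr h4)), ind_pos (h2.mpr h4), ind_neg h3]
    · rw [if_neg (by rw [fst_eq_iff]; exact not_or.mpr ⟨h3, h4⟩), ind_neg (by rwa [h2]), ind_neg h3]

theorem val_const {n : ℕ} (cw : Fin (n + 1) → X × Bool) (hred : CycRed cw)
    (hocc : ∀ x, ∃ i, (cw i).1 = x) (hmin : WMin cw) (a : X × Bool) (val : X × Bool → K)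
    (hval : ∀ i, linv (cw i) ≠ a → cw (i + 1) ≠ a → val (linv (cw i)) = val (cw (i + 1))) :
    ∀ b c, b ≠ a → c ≠ a → val b = val c := by
  classical
  intro b c hb hc
  by_contra hne
  obtain ⟨k, hk, l₀, hl₀a, hl₀⟩ : ∃ k : K, val (linv a) ≠ k ∧ ∃ l, l ≠ a ∧ val l = k := by
    by_cases h : val (linv a) = val b
    · exact ⟨val c, by rw [h]; exact hne, c, hc, rfl⟩
    · exact ⟨val b, h, b, hb, rfl⟩
  set Z1 : Set (X × Bool) := {l | l ≠ a ∧ val l = k} with hZ1
  have hla : linv a ∉ Z1 := fun h => hk h.2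
  have haZ : a ∉ Z1 := fun h => h.1 rfl
  set Z : Set (X × Bool) := Z1 ∪ {a} with hZ
  have h1 : ∀ i, linv (cw i) ∈ Z1 → cw (i + 1) ∈ Z := by
    intro i hi
    by_cases h : cw (i + 1) = a
    · right; exact h
    · left
      exact ⟨h, by rw [← hval i hi.1 h]; exact hi.2⟩
  have h2 : ∀ i, cw (i + 1) ∈ Z1 → linv (cw i) ∈ Z := by
    intro i hi
    by_cases h : linv (cw i) = a
    · right; exact h
    · left
      exact ⟨h, by rw [hval i h hi.1]; exact hi.2⟩
  have h3 := hmin a Z (Or.inr rfl) (by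
    rintro (h | h)
    · exact hla h
    · exact linv_ne a h)
  rw [deg_eq_sum, cap_eq_sum] at h3
  have h4 : ∀ i ∈ (Finset.univ : Finset (Fin (n + 1))),
      ind (¬ (linv (cw i) ∈ Z ↔ cw (i + 1) ∈ Z)) ≤
      (ind (linv (cw i) = a) + ind (cw (i + 1) = a)) := by
    intro i _
    have hle := ind_le (¬ (linv (cw i) ∈ Z ↔ cw (i + 1) ∈ Z))
    by_cases ha1 : linv (cw i) = a
    · rw [ind_pos ha1]
      omega
    · by_cases ha2 : cw (i + 1) = a
      · rw [ind_pos ha2]
        omega
      · rw [ind_neg ha1, ind_neg ha2, ind_neg]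
        rw [not_not]
        constructor
        · rintro (h | h)
          · exact h1 i h
          · exact absurd h ha1
        · rintro (h | h)
          · exact h2 i h
          · exact absurd h ha2
  have h5 := (Finset.sum_eq_sum_iff_of_le h4).mp (le_antisymm (Finset.sum_le_sum h4) h3)
  have h6 : ∀ i, (linv (cw i) ∈ Z1 ↔ cw (i + 1) ∈ Z1) := by
    intro i
    have h7 := h5 i (Finset.mem_univ i)
    constructor
    · intro h
      rcases h1 i h with h8 | h8
      · exact h8
      · exfalso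
        rw [Set.mem_singleton_iff] at h8
        rw [ind_pos h8, ind_neg h.1] at h7
        rw [ind_neg] at h7
        · omega
        · rw [not_not]
          exact ⟨fun _ => Or.inr h8, fun _ => Or.inl h⟩
    · intro h
      rcases h2 i h with h8 | h8
      · exact h8
      · exfalso
        rw [Set.mem_singleton_iff] at h8
        rw [ind_pos h8, ind_neg h.1] at h7
        rw [ind_neg] at h7
        · omega
        · rw [not_not]
          exact ⟨fun _ => Or.inl h, fun _ => Or.inr h8⟩
  have hcap : cap cw Z1 = 0 := by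
    rw [cap_eq_sum]
    apply Finset.sum_eq_zero
    intro i _
    rw [ind_neg]
    rw [not_not]
    exact h6 i
  have hinv : ∀ l ∈ Z1, linv l ∈ Z1 := by
    intro l hl
    by_contra hcon
    have h7 := hmin l Z1 hl hcon
    rw [hcap] at h7
    have := deg_pos cw l.1 (hocc l.1)
    omega
  have hl₀' : l₀ ∈ Z1 := ⟨hl₀a, hl₀⟩
  obtain ⟨i, hi⟩ := hocc l₀.1
  have hi' : cw i ∈ Z1 := by
    rcases (fst_eq_iff _ _).mp hi with h | h
    · rw [h]; exact hl₀'
    · rw [h]; exact hinv _ hl₀'
  have hall := cyc_ind (fun j => cw j ∈ Z1) i hi' (fun j hj => (h6 j).mp (hinv _ hj))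
  obtain ⟨j, hj⟩ := hocc a.1
  rcases (fst_eq_iff _ _).mp hj with h | h
  · exact haZ (h ▸ hall j)
  · exact hla (h ▸ hall j)

theorem exists_deg_one {n : ℕ} (cw : Fin (n + 1) → X × Bool)
    (hmin : WMin cw) (hocc : ∀ x, ∃ i, (cw i).1 = x)
    (Z : Set (X × Bool)) (h0 : cw 0 ∈ Z) (hl : linv (cw (Fin.last n)) ∉ Z)
    (hZ : ∀ i, i ≠ Fin.last n → (linv (cw i) ∈ Z ↔ cw (i + 1) ∈ Z)) : ∃ x, deg cw x = 1 := by
  classical
  have hcap : cap cw Z ≤ 1 := by
    rw [cap]
    calc _ ≤ ({Fin.last n} : Finset (Fin (n + 1))).card := by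
          apply Finset.card_le_card
          intro i hi
          rw [Finset.mem_singleton]
          by_contra hcon
          exact (Finset.mem_filter.mp hi).2 (hZ i hcon)
      _ = 1 := Finset.card_singleton _
  by_cases hinv : ∀ l ∈ Z, linv l ∈ Z
  · exfalso
    have h1 : ∀ j : Fin (n + 1), cw j ∈ Z := by
      intro j
      induction j using Fin.induction with
      | zero => exact h0
      | succ i ih =>
        have h2 := (hZ i.castSucc (Fin.castSucc_lt_last i).ne).mp (hinv _ ih)
        rwa [Fin.coeSucc_eq_succ] at h2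
    exact hl (hinv _ (h1 _))
  · push Not at hinv
    obtain ⟨l, hl1, hl2⟩ := hinv
    refine ⟨l.1, ?_⟩
    have h1 := hmin l Z hl1 hl2
    have h2 := deg_pos cw l.1 (hocc l.1)
    omega

end Pool.Agent.Helper92.QP
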