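import Pool.Agent.Helper16.FF10
import Pool.Agent.Helper16.TW3

set_option autoImplicit false
set_option linter.style.haveILetI false

namespace Pool.Agent.Helper92.BBCurve

open Polynomial IntermediateField IsDedekindDomain Pool.Agent.Helper16

section Forms

variable {K : Type} [Field K]

/-- The dehomogenisation `F(X, 1)`. -/
noncomputable def deh (F : MvPolynomial (Fin 2) K) : K[X] := MvPolynomial.aeval ![X, 1] F

theorem aeval_deh {A : Type} [CommRing A] [Algebra K A] (F : MvPolynomial (Fin 2) K) (x : A) :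
    aeval x (deh F) = MvPolynomial.aeval ![x, 1] F := by
  unfold deh
  have h : ((aeval x : K[X] →ₐ[K] A).comp (MvPolynomial.aeval ![X, 1] : MvPolynomial (Fin 2) K →ₐ[K] K[X]))
      = (MvPolynomial.aeval ![x, 1]) := by
    ext i
    fin_cases i <;> simp
  exact DFunLike.congr_fun h F

theorem natDegree_deh_le (n : ℕ) (F : MvPolynomial (Fin 2) K) (hF : F.IsHomogeneous n) :
    (deh F).natDegree ≤ n := by
  unfold deh
  rw [MvPolynomial.aeval_def, MvPolynomial.eval₂_eq']
  apply natDegree_sum_le_of_forall_le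
  intro d hd
  have h1 := hF (MvPolynomial.mem_support_iff.1 hd)
  rw [Finsupp.weight_apply, Finsupp.sum_fintype _ _ (by simp), Fin.sum_univ_two] at h1
  simp only [Pi.one_apply, smul_eq_mul, mul_one] at h1
  rw [Fin.prod_univ_two]
  simp only [Matrix.cons_val_zero, Matrix.cons_val_one, one_pow, mul_one]
  refine (natDegree_C_mul_X_pow_le _ _).trans ?_
  omega

theorem homogenize_deh (n : ℕ) (F : MvPolynomial (Fin 2) K) (hF : F.IsHomogeneous n) :
    (deh F).homogenize n = F := homogenize_eq_of_isHomogeneous hF rfl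

theorem deh_ne_zero (n : ℕ) (F : MvPolynomial (Fin 2) K) (hF : F.IsHomogeneous n) (hF0 : F ≠ 0) :
    deh F ≠ 0 := by
  intro h
  apply hF0
  rw [← homogenize_deh n F hF, h, homogenize_zero]

theorem squarefree_deh (n : ℕ) (F : MvPolynomial (Fin 2) K) (hF : F.IsHomogeneous n) (hF0 : F ≠ 0)
    (hsq : Squarefree F) : Squarefree (deh F) := by
  rintro g ⟨h, hgh⟩
  have hne := deh_ne_zero n F hF hF0
  have hg0 : g ≠ 0 := by
    rintro rfl
    apply hne
    rw [hgh]; simp
  have hh0 : h ≠ 0 := by
    rintro rfl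
    apply hne
    rw [hgh]; simp
  have hdeg : g.natDegree + g.natDegree + h.natDegree ≤ n := by
    have := natDegree_deh_le n F hF
    rw [hgh, natDegree_mul (mul_ne_zero hg0 hg0) hh0, natDegree_mul hg0 hg0] at this
    exact this
  have h1 : F = g.homogenize g.natDegree * g.homogenize g.natDegree *
      (h.homogenize (n - (g.natDegree + g.natDegree))) := by
    rw [← homogenize_mul _ _ le_rfl le_rfl, ← homogenize_mul _ _ natDegree_mul_le (by omega),
      ← hgh, Nat.add_sub_cancel' (by omega), homogenize_deh n F hF]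
  have h2 : IsUnit (g.homogenize g.natDegree) := hsq _ ⟨_, h1⟩
  have h3 := h2.map (MvPolynomial.aeval ![X, 1] : MvPolynomial (Fin 2) K →ₐ[K] K[X])
  rwa [aeval_homogenize_X_one g le_rfl] at h3

theorem natDegree_deh_pos (n : ℕ) (hn : 2 ≤ n) (F : MvPolynomial (Fin 2) K) (hF : F.IsHomogeneous n)
    (hsq : Squarefree F) : 0 < (deh F).natDegree := by
  by_contra h
  have h0 : (deh F).natDegree = 0 := by omega
  obtain ⟨c, hc⟩ := natDegree_eq_zero.1 h0
  have h1 := homogenize_deh n F hF
  rw [← hc, homogenize_C] at h1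
  have h2 : (MvPolynomial.X 1 : MvPolynomial (Fin 2) K) * MvPolynomial.X 1 ∣ F := by
    rw [← h1, ← pow_two]
    exact Dvd.dvd.mul_left (pow_dvd_pow _ hn) _
  have h3 := (hsq _ h2).map (MvPolynomial.aeval (fun _ => (0 : K)))
  rw [MvPolynomial.aeval_X] at h3
  exact not_isUnit_zero h3

/-- The form with the variables exchanged. -/
noncomputable def sw (F : MvPolynomial (Fin 2) K) : MvPolynomial (Fin 2) K :=
  MvPolynomial.rename (Equiv.swap 0 1) F

theorem sw_sw (F : MvPolynomial (Fin 2) K) : sw (sw F) = F := by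
  unfold sw
  rw [MvPolynomial.rename_rename]
  have : ((Equiv.swap (0 : Fin 2) 1) ∘ (Equiv.swap (0 : Fin 2) 1)) = id := by
    funext i
    simp
  rw [this, MvPolynomial.rename_id_apply]

theorem sw_mul (F G : MvPolynomial (Fin 2) K) : sw (F * G) = sw F * sw G := map_mul _ _ _

theorem sw_homogeneous (n : ℕ) (F : MvPolynomial (Fin 2) K) (hF : F.IsHomogeneous n) :
    (sw F).IsHomogeneous n := hF.rename_isHomogeneous

theorem sw_ne_zero (F : MvPolynomial (Fin 2) K) (hF : F ≠ 0) : sw F ≠ 0 := by
  intro h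
  apply hF
  rw [← sw_sw F, h]
  exact map_zero _

theorem sw_squarefree (F : MvPolynomial (Fin 2) K) (hF : Squarefree F) : Squarefree (sw F) := by
  rintro g ⟨h, hgh⟩
  have h1 : F = sw g * sw g * sw h := by
    rw [← sw_mul, ← sw_mul, ← hgh, sw_sw]
  have h2 : IsUnit (sw g) := hF _ ⟨_, h1⟩
  have h3 := h2.map (MvPolynomial.rename (R := K) (Equiv.swap (0 : Fin 2) 1))
  change IsUnit (sw (sw g)) at h3
  rwa [sw_sw] at h3

theorem aeval_sw {A : Type} [CommRing A] [Algebra K A] (F : MvPolynomial (Fin 2) K) (x y : A) :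
    MvPolynomial.aeval ![x, y] (sw F) = MvPolynomial.aeval ![y, x] F := by
  unfold sw
  rw [MvPolynomial.aeval_rename]
  congr 2
  funext i
  fin_cases i <;> simp

theorem aeval_hom {A : Type} [CommRing A] [Algebra K A] (n : ℕ) (F : MvPolynomial (Fin 2) K)
    (hF : F.IsHomogeneous n) (c x y : A) :
    MvPolynomial.aeval ![c * x, c * y] F = c ^ n * MvPolynomial.aeval ![x, y] F := by
  rw [MvPolynomial.aeval_def, MvPolynomial.aeval_def, MvPolynomial.eval₂_eq', MvPolynomial.eval₂_eq',
    Finset.mul_sum]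
  refine Finset.sum_congr rfl fun d hd => ?_
  have h1 := hF (MvPolynomial.mem_support_iff.1 hd)
  rw [Finsupp.weight_apply, Finsupp.sum_fintype _ _ (by simp), Fin.sum_univ_two] at h1
  simp only [Pi.one_apply, smul_eq_mul, mul_one] at h1
  rw [Fin.prod_univ_two, Fin.prod_univ_two, ← h1]
  simp only [Matrix.cons_val_zero, Matrix.cons_val_one]
  rw [mul_pow, mul_pow, pow_add]
  ring

end Forms

section Quad

/-- Integral elements of a quadratic extension. -/
theorem quad_integral {R L S : Type} [CommRing R] [IsDomain R] [GCDMonoid R]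
    [IsIntegrallyClosed R] [Field L] [Algebra R L] [IsFractionRing R L] [Field S] [Algebra L S]
    [Algebra R S] [IsScalarTower R L S] (h2 : IsUnit (2 : R)) (f : R) (hf : Squarefree f)
    (hfu : ¬ IsUnit f) (y : S) (hy : y ^ 2 = algebraMap R S f) (u v : L)
    (hz : IsIntegral R (algebraMap L S u + algebraMap L S v * y)) :
    (∃ p : R, u = algebraMap R L p) ∧ ∃ q : R, v = algebraMap R L q := by
  have hinj : Function.Injective (algebraMap R L) := IsFractionRing.injective R L
  have hinjS : Function.Injective (algebraMap L S) := (algebraMap L S).injective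
  have hyL : ∀ t : L, algebraMap L S t ≠ y := by
    intro t ht
    have h3 : t ^ 2 = algebraMap R L f := by
      apply hinjS
      rw [map_pow, ht, hy, ← IsScalarTower.algebraMap_apply]
    have h4 : IsIntegral R t := by
      refine ⟨X ^ 2 - C f, monic_X_pow_sub_C f two_ne_zero, ?_⟩
      simp [h3]
    obtain ⟨s, hs⟩ := IsIntegrallyClosed.isIntegral_iff.1 h4
    have h5 : s * s = f := by
      apply hinj
      rw [map_mul, hs, ← h3, pow_two]
    have h6 : IsUnit s := hf s ⟨1, by rw [mul_one, h5]⟩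
    exact hfu (h5 ▸ h6.mul h6)
  by_cases hv : v = 0
  · subst hv
    rw [map_zero, zero_mul, add_zero, isIntegral_algebraMap_iff hinjS] at hz
    obtain ⟨p, hp⟩ := IsIntegrallyClosed.isIntegral_iff.1 hz
    exact ⟨⟨p, hp.symm⟩, 0, by simp⟩
  · set z : S := algebraMap L S u + algebraMap L S v * y with hzdef
    have hzL : z ∉ (algebraMap L S).range := by
      rintro ⟨t, ht⟩
      apply hyL ((t - u) / v)
      have hv' : algebraMap L S v ≠ 0 := by simpa using hv
      rw [map_div₀, map_sub, ht, hzdef]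
      field_simp
      ring
    have hm : (minpoly L z).Monic := minpoly.monic (hz.tower_top (A := L))
    have hroot : aeval z (X ^ 2 - C (2 * u) * X + C (u ^ 2 - v ^ 2 * algebraMap R L f) : L[X]) = 0 := by
      simp only [map_add, map_sub, map_mul, map_pow, aeval_X, aeval_C, map_ofNat]
      rw [← IsScalarTower.algebraMap_apply, ← hy, hzdef]
      ring
    have hQm : (X ^ 2 - C (2 * u) * X + C (u ^ 2 - v ^ 2 * algebraMap R L f) : L[X]).Monic := by
      monicity!
    have hQd : (X ^ 2 - C (2 * u) * X + C (u ^ 2 - v ^ 2 * algebraMap R L f) : L[X]).natDegree = 2 := by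
      compute_degree!
    have hdeg : 2 ≤ (minpoly L z).natDegree := by
      rw [minpoly.two_le_natDegree_iff (hz.tower_top (A := L))]
      exact hzL
    have heq : minpoly L z = X ^ 2 - C (2 * u) * X + C (u ^ 2 - v ^ 2 * algebraMap R L f) := by
      refine (eq_of_monic_of_dvd_of_natDegree_le hm hQm (minpoly.dvd L z hroot) ?_).symm
      rw [hQd]; exact hdeg
    have hmap := minpoly.isIntegrallyClosed_eq_field_fractions' L hz
    rw [hmap] at heq
    have hc1 : algebraMap R L ((minpoly R z).coeff 1) = - (2 * u) := by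
      rw [← coeff_map, heq, coeff_add, coeff_sub, coeff_C_mul, coeff_X_pow, coeff_X_one, coeff_C]
      norm_num
    have hc0 : algebraMap R L ((minpoly R z).coeff 0) = u ^ 2 - v ^ 2 * algebraMap R L f := by
      rw [← coeff_map, heq, coeff_add, coeff_sub, coeff_C_mul, coeff_X_pow, coeff_X_zero, coeff_C]
      norm_num
    obtain ⟨e, he⟩ := h2.exists_right_inv
    have heL : (2 : L) * algebraMap R L e = 1 := by
      have := congrArg (algebraMap R L) he
      rwa [map_mul, map_ofNat, map_one] at this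
    have hu : u = algebraMap R L (- e * (minpoly R z).coeff 1) := by
      rw [map_mul, hc1, map_neg]
      linear_combination (-u) * heL
    refine ⟨⟨_, hu⟩, ?_⟩
    set p := - e * (minpoly R z).coeff 1
    have hvf : v ^ 2 * algebraMap R L f = algebraMap R L (p ^ 2 - (minpoly R z).coeff 0) := by
      rw [map_sub, hc0, map_pow, ← hu]
      ring
    obtain ⟨q, d, hd, hqd⟩ := IsFractionRing.div_surjective (A := R) v
    have hd0 : d ≠ 0 := nonZeroDivisors.ne_zero hd
    -- make q, d coprime
    obtain ⟨g, q', d', hcop, hq', hd'⟩ : ∃ g q' d' : R, IsUnit (gcd q' d') ∧ q = g * q' ∧ d = g * d' := by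
      obtain ⟨q', d', hq', hd', hcop⟩ := extract_gcd q d
      exact ⟨gcd q d, q', d', hcop, hq', hd'⟩
    have hg0 : g ≠ 0 := by
      rintro rfl
      rw [zero_mul] at hd'
      exact hd0 hd'
    have hd'0 : d' ≠ 0 := by
      rintro rfl
      rw [mul_zero] at hd'
      exact hd0 hd'
    have hvq : v * algebraMap R L d' = algebraMap R L q' := by
      have h7 : algebraMap R L g ≠ 0 := by
        rw [Ne, FaithfulSMul.algebraMap_eq_zero_iff]; exact hg0
      have h8 : algebraMap R L d' ≠ 0 := by
        rw [Ne, FaithfulSMul.algebraMap_eq_zero_iff]; exact hd'0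
      rw [← hqd, hq', hd', map_mul, map_mul, mul_div_mul_left _ _ h7]
      field_simp
    have hmain : q' ^ 2 * f = (p ^ 2 - (minpoly R z).coeff 0) * d' ^ 2 := by
      apply hinj
      rw [map_mul, map_mul, map_pow, map_pow, ← hvq, ← hvf]
      ring
    have hdvd : d' * d' ∣ f := by
      have h9 : d' ^ 2 ∣ q' ^ 2 * f := ⟨p ^ 2 - (minpoly R z).coeff 0, by rw [hmain]; ring⟩
      have h10 : IsUnit (gcd (d' ^ 2) (q' ^ 2)) := by
        have hrel : IsRelPrime d' q' := (gcd_isUnit_iff_isRelPrime.1 hcop).symm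
        rw [gcd_isUnit_iff_isRelPrime]
        exact hrel.pow
      rw [gcd_isUnit_iff_isRelPrime] at h10
      rw [← pow_two]
      exact h10.dvd_of_dvd_mul_left h9
    have hdu : IsUnit d' := hf _ hdvd
    obtain ⟨r, hr⟩ := hdu.exists_right_inv
    refine ⟨q' * r, ?_⟩
    rw [map_mul, ← hvq, mul_assoc, ← map_mul, hr, map_one, mul_one]

end Quad

section Curve

variable {K M : Type} [Field K] [Field M] [Algebra K M]

theorem adjoin_top {x y : M} (hM : IntermediateField.adjoin K {x, y} = ⊤) : K⟮x⟯⟮y⟯ = ⊤ := by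
  have h1 := IntermediateField.adjoin_adjoin_left K ({x} : Set M) {y}
  have h2 : ({x} ∪ {y} : Set M) = {x, y} := Set.singleton_union
  rw [h2, hM] at h1
  rw [eq_top_iff]
  intro z _
  have : z ∈ IntermediateField.restrictScalars K K⟮x⟯⟮y⟯ := by
    rw [h1]; trivial
  exact this

theorem integral_y {x y : M} (f : K[X]) (hy : y ^ 2 = aeval x f) : IsIntegral K⟮x⟯ y := by
  have h1 : aeval x f = algebraMap K⟮x⟯ M (aeval (AdjoinSimple.gen K x) f) := by
    rw [← aeval_algebraMap_apply, AdjoinSimple.algebraMap_gen]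
  refine ⟨X ^ 2 - C (aeval (AdjoinSimple.gen K x) f), monic_X_pow_sub_C _ two_ne_zero, ?_⟩
  rw [eval₂_sub, eval₂_X_pow, eval₂_C, hy, h1, sub_self]

theorem finite_x {x y : M} (f : K[X]) (hy : y ^ 2 = aeval x f)
    (hM : IntermediateField.adjoin K {x, y} = ⊤) : FiniteDimensional K⟮x⟯ M := by
  have h1 := adjoin_top hM
  haveI : FiniteDimensional K⟮x⟯ K⟮x⟯⟮y⟯ := adjoin.finiteDimensional (integral_y f hy)
  rw [h1] at this
  exact (IntermediateField.topEquiv (F := K⟮x⟯) (E := M)).toLinearEquiv.finiteDimensional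

theorem isFunctionField {x y : M} (hx : Transcendental K x) (f : K[X]) (hy : y ^ 2 = aeval x f)
    (hM : IntermediateField.adjoin K {x, y} = ⊤) : IsFunctionField K M := by
  haveI := finite_x f hy hM
  constructor
  · have h1 : Algebra.EssFiniteType K (⊤ : IntermediateField K M) := by
      rw [IntermediateField.essFiniteType_iff, ← hM]
      classical
      have h2 : ({x, y} : Set M) = ((({x, y} : Finset M)) : Set M) := by simp
      rw [h2]
      exact IntermediateField.fg_adjoin_finset _
    exact Algebra.EssFiniteType.of_surjective (IntermediateField.topEquiv (F := K) (E := M)).toAlgHom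
      (IntermediateField.topEquiv (F := K) (E := M)).surjective
  · letI := algX K x
    letI := algXF K x
    haveI := towerXF (K := K) x
    haveI := towerX (K := K) x
    haveI := isFractionRing_algXF x hx
    haveI := faithfulX x hx
    have h1 := trdeg_add_eq K K[X] (A := M)
    haveI : Algebra.IsAlgebraic K[X] M := by
      have : Algebra.IsAlgebraic K⟮x⟯ M := inferInstance
      exact (IsFractionRing.comap_isAlgebraic_iff (A := K[X]) (K := K⟮x⟯) (C := M)).2 this
    rw [Polynomial.trdeg_of_isDomain, trdeg_eq_zero (R := K[X]) (A := M), add_zero] at h1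
    exact h1.symm

/-- Every element has the form `u + v y`. -/
theorem exists_uv {x y : M} (f : K[X]) (hy : y ^ 2 = aeval x f)
    (hM : IntermediateField.adjoin K {x, y} = ⊤) (z : M) :
    ∃ u v : K⟮x⟯, z = algebraMap K⟮x⟯ M u + algebraMap K⟮x⟯ M v * y := by
  have h1 := adjoin_top hM
  have h2 : z ∈ K⟮x⟯⟮y⟯.toSubalgebra := by
    rw [h1]; trivial
  rw [IntermediateField.adjoin_simple_toSubalgebra_of_isAlgebraic (integral_y f hy).isAlgebraic,
    Algebra.adjoin_singleton_eq_range_aeval] at h2
  obtain ⟨p, hp⟩ := h2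
  have h3 : aeval x f = algebraMap K⟮x⟯ M (aeval (AdjoinSimple.gen K x) f) := by
    rw [← aeval_algebraMap_apply, AdjoinSimple.algebraMap_gen]
  set D : K⟮x⟯[X] := X ^ 2 - C (aeval (AdjoinSimple.gen K x) f)
  have hD : D.Monic := monic_X_pow_sub_C _ two_ne_zero
  have hDy : aeval y D = 0 := by
    simp only [D, map_sub, map_pow, aeval_X, aeval_C]
    rw [hy, h3, sub_self]
  have h4 : aeval y (p %ₘ D) = aeval y p := by
    conv_rhs => rw [← modByMonic_add_div p D]
    rw [map_add, map_mul, hDy, zero_mul, add_zero]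
  have hdeg : (p %ₘ D).natDegree < 2 := by
    have h5 := natDegree_modByMonic_lt p hD (by
      intro h
      have := congrArg natDegree h
      simp [D] at this)
    simpa [D] using h5
  refine ⟨(p %ₘ D).coeff 0, (p %ₘ D).coeff 1, ?_⟩
  have h6 : aeval y p = z := hp
  rw [← h6, ← h4, aeval_eq_sum_range' hdeg]
  simp [Finset.sum_range_succ, Algebra.smul_def]

theorem indep {x y : M} (hx : Transcendental K x) (f : K[X]) (hf : Squarefree f)
    (hfd : 0 < f.natDegree) (hy : y ^ 2 = aeval x f) (p q : K[X])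
    (h : aeval x p + aeval x q * y = 0) : p = 0 ∧ q = 0 := by
  have hinj := transcendental_iff_injective.1 hx
  have h1 : p ^ 2 = q ^ 2 * f := by
    apply hinj
    rw [map_pow, map_mul, map_pow, ← hy]
    have : aeval x p = - (aeval x q * y) := eq_neg_of_add_eq_zero_left h
    rw [this]
    ring
  by_cases hq : q = 0
  · subst hq
    rw [zero_pow two_ne_zero, zero_mul] at h1
    exact ⟨pow_eq_zero_iff two_ne_zero |>.1 h1, rfl⟩
  · exfalso
    have h2 : q ^ 2 ∣ p ^ 2 := ⟨f, h1⟩
    have h3 : q ∣ p := (IsIntegrallyClosed.pow_dvd_pow_iff two_ne_zero).1 h2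
    obtain ⟨r, rfl⟩ := h3
    have h4 : r ^ 2 = f := by
      have : q ^ 2 * r ^ 2 = q ^ 2 * f := by rw [← h1]; ring
      exact mul_left_cancel₀ (pow_ne_zero 2 hq) this
    have h5 : IsUnit r := hf r ⟨1, by rw [mul_one, ← h4, pow_two]⟩
    have h6 : IsUnit f := by rw [← h4]; exact h5.pow 2
    have := natDegree_eq_zero_of_isUnit h6
    omega

/-- The integral closure of `K[x]` is `K[x] + K[x] y`. -/
theorem exists_pq (hK : ringChar K ≠ 2) {x y : M} (hx : Transcendental K x) (f : K[X])
    (hf : Squarefree f) (hfd : 0 < f.natDegree) (hy : y ^ 2 = aeval x f)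
    (hM : IntermediateField.adjoin K {x, y} = ⊤) (z : M) (hz : IntOver K x z) :
    ∃ p q : K[X], z = aeval x p + aeval x q * y := by
  obtain ⟨u, v, huv⟩ := exists_uv f hy hM z
  letI := algX K x
  letI := algXF K x
  haveI := towerXF (K := K) x
  haveI := isFractionRing_algXF x hx
  letI : GCDMonoid K[X] := UniqueFactorizationMonoid.toGCDMonoid K[X]
  have h2 : IsUnit (2 : K[X]) := by
    have : (2 : K) ≠ 0 := Ring.two_ne_zero hK
    have h3 : (2 : K[X]) = C 2 := (map_ofNat C 2).symm
    rw [h3, isUnit_C]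
    exact this.isUnit
  have hfu : ¬ IsUnit f := fun h => by
    have := natDegree_eq_zero_of_isUnit h
    omega
  have hz' : IsIntegral K[X] (algebraMap K⟮x⟯ M u + algebraMap K⟮x⟯ M v * y) := by
    rw [← huv]; exact hz
  obtain ⟨⟨p, hp⟩, q, hq⟩ := quad_integral h2 f hf hfu y (by rw [hy]; rfl) u v hz'
  refine ⟨p, q, ?_⟩
  rw [huv, hp, hq, ← IsScalarTower.algebraMap_apply, ← IsScalarTower.algebraMap_apply]
  rfl

/-- Residues of regular functions. -/
theorem res_pq (w : Place K M) {x y : M} (hwx : w.val x ≤ 1) (hwy : w.val y ≤ 1)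
    (φ : w.resField →ₐ[K] AlgebraicClosure K) (p q : K[X]) :
    φ (w.res (aeval x p + aeval x q * y)) =
      aeval (φ (w.res x)) p + aeval (φ (w.res x)) q * φ (w.res y) := by
  have hx1 : x ∈ w.ring := hwx
  have hy1 : y ∈ w.ring := hwy
  have hp := w.res_aeval hx1 p
  have hq := w.res_aeval hx1 q
  rw [w.res_add hp.1 (mul_mem hq.1 hy1), w.res_mul hq.1 hy1, hp.2, hq.2, map_add, map_mul,
    ← aeval_algHom_apply, ← aeval_algHom_apply]

theorem val_lt_iff (w : Place K M) (φ : w.resField →ₐ[K] AlgebraicClosure K) (z : M)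
    (hz : w.val z ≤ 1) : w.val z < 1 ↔ φ (w.res z) = 0 := by
  rw [← w.res_eq_zero_iff (show z ∈ w.ring from hz), map_eq_zero_iff φ φ.toRingHom.injective]

theorem unique_aff (hK : ringChar K ≠ 2) {x y : M} (hx : Transcendental K x) (f : K[X])
    (hf : Squarefree f) (hfd : 0 < f.natDegree) (hy : y ^ 2 = aeval x f)
    (hM : IntermediateField.adjoin K {x, y} = ⊤) (w w' : Place K M)
    (φ : w.resField →ₐ[K] AlgebraicClosure K) (φ' : w'.resField →ₐ[K] AlgebraicClosure K)
    (hw : w.val x ≤ 1) (hw' : w'.val x ≤ 1) (h1 : φ (w.res x) = φ' (w'.res x))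
    (h2 : φ (w.res y) = φ' (w'.res y)) : w = w' := by
  haveI := finite_x f hy hM
  have hyint : IntOver K x y := by
    letI := algX K x
    change IsIntegral K[X] y
    refine ⟨X ^ 2 - C f, monic_X_pow_sub_C f two_ne_zero, ?_⟩
    rw [eval₂_sub, eval₂_X_pow, eval₂_C, hy]
    exact sub_self _
  have hwy := hyint.mem_ring w hw
  have hwy' := hyint.mem_ring w' hw'
  have key : ∀ z : M, IntOver K x z → (w.val z < 1 ↔ w'.val z < 1) := by
    intro z hz
    obtain ⟨p, q, hpq⟩ := exists_pq hK hx f hf hfd hy hM z hz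
    rw [val_lt_iff w φ z (hz.mem_ring w hw), val_lt_iff w' φ' z (hz.mem_ring w' hw'), hpq,
      res_pq w hw hwy, res_pq w' hw' hwy', h1, h2]
  obtain ⟨P, rfl⟩ := exists_placeOfPrime x hx w hw
  obtain ⟨Q, rfl⟩ := exists_placeOfPrime x hx w' hw'
  have : P = Q := by
    apply HeightOneSpectrum.ext
    ext b
    rw [← placeOfPrime_val_lt x hx P, ← placeOfPrime_val_lt x hx Q]
    exact key b b.2
  rw [this]

theorem exists_resEquiv' (s : M) (hs : Transcendental K s) [FiniteDimensional K⟮s⟯ M]
    (P : HeightOneSpectrum (IC K s)) :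
    letI := algX K s
    haveI := towerX (K := K) s
    ∃ e : (IC K s ⧸ P.asIdeal) ≃ₐ[K] (placeOfPrime s hs P).resField,
      ∀ b : IC K s, e (Ideal.Quotient.mk _ b) = (placeOfPrime s hs P).res (b : M) := by
  letI := algX K s
  haveI := towerX (K := K) s
  haveI := isDedekindDomain_IC s hs
  haveI := isFractionRing_IC s hs
  haveI : P.asIdeal.IsMaximal := P.isMaximal
  let v := placeOfPrime s hs P
  let ψ : IC K s →ₐ[K] v.resField :=
    { toFun := fun b => IsLocalRing.residue v.ring ⟨(b : M), placeOfPrime_val_algebraMap s hs P b⟩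
      map_one' := map_one _
      map_mul' := fun a b => by rw [← map_mul]; rfl
      map_zero' := map_zero _
      map_add' := fun a b => by rw [← map_add]; rfl
      commutes' := fun a => by
        have h1 : (⟨((algebraMap K (IC K s) a : IC K s) : M),
            placeOfPrime_val_algebraMap s hs P _⟩ : v.ring) = algebraMap K v.ring a := by
          rfl
        rw [h1]
        rfl }
  have hψ : ∀ b, ψ b = 0 ↔ b ∈ P.asIdeal := by
    intro b
    change IsLocalRing.residue v.ring _ = 0 ↔ _
    rw [IsLocalRing.residue_eq_zero_iff, Place.mem_maximalIdeal]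
    exact placeOfPrime_val_lt s hs P b
  have hsurj : Function.Surjective ψ := by
    intro r
    obtain ⟨⟨x, hx⟩, rfl⟩ := IsLocalRing.residue_surjective r
    obtain ⟨n, d, hnd⟩ := P.exists_primeCompl_mul_eq_of_integer (K := M) x hx
    obtain ⟨e, i, hi, he⟩ := P.isMaximal.exists_inv d.2
    refine ⟨n * e, ?_⟩
    change IsLocalRing.residue v.ring _ = IsLocalRing.residue v.ring _
    rw [← sub_eq_zero, ← map_sub, IsLocalRing.residue_eq_zero_iff, Place.mem_maximalIdeal]
    have h1 : (n * e : IC K s) = (n : M) * (e : M) := rfl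
    have h2 : (e : M) * ((d : IC K s) : M) + (i : M) = 1 := by
      have := congrArg (Subtype.val) he
      exact this
    have h3 : x * ((d : IC K s) : M) = (n : M) := hnd
    have h4 : ((n * e : IC K s) : M) - x = - (x * (i : M)) := by
      rw [h1, ← h3]
      linear_combination x * h2
    change v.val (((n * e : IC K s) : M) - x) < 1
    rw [h4, Valuation.map_neg, map_mul, mul_comm]
    exact mul_lt_one_of_lt_of_le ((placeOfPrime_val_lt s hs P i).2 hi) hx
  have hker : RingHom.ker ψ = P.asIdeal := by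
    ext b
    exact hψ b
  refine ⟨(Ideal.quotientEquivAlgOfEq K hker.symm).trans
    (Ideal.quotientKerAlgEquivOfSurjective hsurj), ?_⟩
  intro b
  have hb : (b : M) ∈ (placeOfPrime s hs P).ring := placeOfPrime_val_algebraMap s hs P b
  rw [Place.res_of_mem _ hb]
  rfl

theorem exists_aff (hK : ringChar K ≠ 2) {x y : M} (hx : Transcendental K x) (f : K[X])
    (hf : Squarefree f) (hfd : 0 < f.natDegree) (hy : y ^ 2 = aeval x f)
    (hM : IntermediateField.adjoin K {x, y} = ⊤) (a b : AlgebraicClosure K)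
    (hab : b ^ 2 = aeval a f) :
    ∃ (w : Place K M) (φ : w.resField →ₐ[K] AlgebraicClosure K),
      w.val x ≤ 1 ∧ φ (w.res x) = a ∧ φ (w.res y) = b := by
  haveI := finite_x f hy hM
  letI := algX K x
  haveI := towerX (K := K) x
  have hyint : IntOver K x y := by
    change IsIntegral K[X] y
    refine ⟨X ^ 2 - C f, monic_X_pow_sub_C f two_ne_zero, ?_⟩
    rw [eval₂_sub, eval₂_X_pow, eval₂_C, hy]
    exact sub_self _
  let ev : K[X][X] →+* IC K x := eval₂RingHom (algebraMap K[X] (IC K x)) ⟨y, hyint⟩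
  let evab : K[X][X] →+* AlgebraicClosure K :=
    eval₂RingHom ((aeval a : K[X] →ₐ[K] AlgebraicClosure K) : K[X] →+* AlgebraicClosure K) b
  have hevpq : ∀ p q : K[X], ((ev (C p + C q * X) : IC K x) : M) = aeval x p + aeval x q * y := by
    intro p q
    have : ev (C p + C q * X) = algebraMap K[X] (IC K x) p + algebraMap K[X] (IC K x) q * ⟨y, hyint⟩ := by
      simp [ev]
    rw [this]
    rfl
  have hsurj : Function.Surjective ev := by
    intro z
    obtain ⟨p, q, hpq⟩ := exists_pq hK hx f hf hfd hy hM z z.2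
    refine ⟨C p + C q * X, ?_⟩
    apply Subtype.ext
    rw [hevpq, hpq]
  have hker : RingHom.ker ev ≤ RingHom.ker evab := by
    intro P hP
    rw [RingHom.mem_ker] at hP ⊢
    set D : K[X][X] := X ^ 2 - C f
    have hD : D.Monic := monic_X_pow_sub_C _ two_ne_zero
    have hevD : ev D = 0 := by
      apply Subtype.ext
      have : ev D = ⟨y, hyint⟩ ^ 2 - algebraMap K[X] (IC K x) f := by
        simp [ev, D]
      rw [this]
      change y ^ 2 - aeval x f = 0
      rw [hy, sub_self]
    have hevabD : evab D = 0 := by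
      have : evab D = b ^ 2 - aeval a f := by
        simp [evab, D]
      rw [this, hab, sub_self]
    have hdeg : (P %ₘ D).natDegree < 2 := by
      have h5 := natDegree_modByMonic_lt P hD (by
        intro h
        have := congrArg natDegree h
        simp [D] at this)
      simpa [D] using h5
    have hPmod : P %ₘ D = C ((P %ₘ D).coeff 0) + C ((P %ₘ D).coeff 1) * X := by
      rw [add_comm]
      exact eq_X_add_C_of_natDegree_le_one (by omega)
    have h0 : ev (P %ₘ D) = 0 := by
      have : ev P = 0 := hP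
      rw [← modByMonic_add_div P D, map_add, map_mul, hevD, zero_mul, add_zero] at this
      exact this
    rw [hPmod] at h0
    have h1 := hevpq ((P %ₘ D).coeff 0) ((P %ₘ D).coeff 1)
    rw [h0] at h1
    obtain ⟨h2, h3⟩ := indep hx f hf hfd hy _ _ h1.symm
    have h4 : P %ₘ D = 0 := by
      rw [hPmod, h2, h3]
      simp
    rw [← modByMonic_add_div P D, h4, zero_add, map_mul, hevabD, zero_mul]
  let ψ : IC K x →+* AlgebraicClosure K := RingHom.liftOfSurjective ev hsurj ⟨evab, hker⟩
  have hψ : ∀ P, ψ (ev P) = evab P := fun P => RingHom.liftOfRightInverse_comp_apply _ _ _ ⟨evab, hker⟩ P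
  have hψC : ∀ p : K[X], ψ (algebraMap K[X] (IC K x) p) = aeval a p := by
    intro p
    have h1 : ev (C p) = algebraMap K[X] (IC K x) p := by simp [ev]
    have h2 : evab (C p) = aeval a p := by simp [evab]
    rw [← h1, hψ, h2]
  have hψy : ψ ⟨y, hyint⟩ = b := by
    have h1 : ev X = ⟨y, hyint⟩ := by simp [ev]
    have h2 : evab X = b := by simp [evab]
    rw [← h1, hψ, h2]
  have hprime : (RingHom.ker ψ).IsPrime := RingHom.ker_isPrime ψ
  have hne : RingHom.ker ψ ≠ ⊥ := by
    intro h
    obtain ⟨g, hg0, hg⟩ : IsAlgebraic K a := Algebra.IsAlgebraic.isAlgebraic a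
    have h1 : algebraMap K[X] (IC K x) g ∈ RingHom.ker ψ := by
      rw [RingHom.mem_ker, hψC, hg]
    rw [h, Ideal.mem_bot] at h1
    have h2 : aeval x g = 0 := congrArg (Subtype.val) h1
    exact hg0 ((transcendental_iff_injective.1 hx) (by rw [h2, map_zero]))
  let P : HeightOneSpectrum (IC K x) := ⟨RingHom.ker ψ, hprime, hne⟩
  obtain ⟨e, he⟩ := exists_resEquiv' x hx P
  let ψK : IC K x →ₐ[K] AlgebraicClosure K :=
    { ψ with
      commutes' := by
        intro c
        have h1 : algebraMap K (IC K x) c = algebraMap K[X] (IC K x) (C c) := by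
          rw [IsScalarTower.algebraMap_apply K K[X] (IC K x)]
          rfl
        change ψ (algebraMap K (IC K x) c) = _
        rw [h1, hψC, aeval_C] }
  let θ : (IC K x ⧸ P.asIdeal) →ₐ[K] AlgebraicClosure K :=
    Ideal.Quotient.liftₐ P.asIdeal ψK (fun z hz => hz)
  have hθ : ∀ z : IC K x, θ (Ideal.Quotient.mk _ z) = ψ z := fun z => rfl
  have hres : ∀ z : IC K x, (θ.comp e.symm.toAlgHom) ((placeOfPrime x hx P).res (z : M)) = ψ z := by
    intro z
    rw [← he z, ← hθ z]
    change θ (e.symm (e _)) = _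
    rw [e.symm_apply_apply]
  refine ⟨placeOfPrime x hx P, θ.comp e.symm.toAlgHom, ?_, ?_, ?_⟩
  · exact placeOfPrime_val_algebraMap x hx P (sIC K x)
  · have h1 := hres (sIC K x)
    rw [← algebraMap_X_IC, hψC, aeval_X] at h1
    have h2 : ((algebraMap K[X] (IC K x) X : IC K x) : M) = x := by
      rw [algebraMap_X_IC]
      rfl
    rwa [h2] at h1
  · have h1 := hres ⟨y, hyint⟩
    rw [hψy] at h1
    exact h1

end Curve

section Main

variable {K M : Type} [Field K] [Field M] [Algebra K M] (hK : ringChar K ≠ 2) (m : ℕ) (hm : 1 ≤ m)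
  (F : MvPolynomial (Fin 2) K) (hF : F.IsHomogeneous (2 * m)) (hF0 : F ≠ 0) (hsq : Squarefree F)
  (x y : M) (hx : Transcendental K x) (hy : y ^ 2 = MvPolynomial.aeval ![x, 1] F)
  (hM : IntermediateField.adjoin K {x, y} = ⊤)

include hx hy hM in
/-- The field of functions of the curve is a function field. -/
theorem functionField : IsFunctionField K M :=
  isFunctionField hx (deh F) (by rw [hy, aeval_deh]) hM

include hK hm hF hF0 hsq hx hy hM in
/-- Affine points: uniqueness of the place. -/
theorem unique_affine (w w' : Place K M)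
    (φ : w.resField →ₐ[K] AlgebraicClosure K) (φ' : w'.resField →ₐ[K] AlgebraicClosure K)
    (hw : w.val x ≤ 1) (hw' : w'.val x ≤ 1) (h1 : φ (w.res x) = φ' (w'.res x))
    (h2 : φ (w.res y) = φ' (w'.res y)) : w = w' :=
  unique_aff hK hx (deh F) (squarefree_deh _ F hF hF0 hsq) (natDegree_deh_pos _ (by omega) F hF hsq)
    (by rw [hy, aeval_deh]) hM w w' φ φ' hw hw' h1 h2

include hK hm hF hF0 hsq hx hy hM in
/-- Affine points: existence of the place. -/
theorem exists_affine (a b : AlgebraicClosure K) (h : b ^ 2 = MvPolynomial.aeval ![a, 1] F) :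
    ∃ (w : Place K M) (φ : w.resField →ₐ[K] AlgebraicClosure K),
      w.val x ≤ 1 ∧ φ (w.res x) = a ∧ φ (w.res y) = b :=
  exists_aff hK hx (deh F) (squarefree_deh _ F hF hF0 hsq) (natDegree_deh_pos _ (by omega) F hF hsq)
    (by rw [hy, aeval_deh]) hM a b (by rw [h, aeval_deh])

include hF hx hy in
theorem chart_eq : (y / x ^ m) ^ 2 = MvPolynomial.aeval ![x⁻¹, 1] (sw F) := by
  have hx0 : x ≠ 0 := transcendental_ne_zero hx
  have h1 := aeval_hom (2 * m) F hF x 1 x⁻¹
  rw [mul_one, mul_inv_cancel₀ hx0] at h1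
  rw [aeval_sw, div_pow, hy, h1, ← pow_mul, mul_comm m 2]
  field_simp

include hx hM in
theorem chart_adjoin : IntermediateField.adjoin K {x⁻¹, y / x ^ m} = ⊤ := by
  have hx0 : x ≠ 0 := transcendental_ne_zero hx
  rw [eq_top_iff, ← hM, IntermediateField.adjoin_le_iff]
  have h1 : x⁻¹ ∈ IntermediateField.adjoin K {x⁻¹, y / x ^ m} :=
    IntermediateField.subset_adjoin _ _ (by simp)
  have h2 : y / x ^ m ∈ IntermediateField.adjoin K {x⁻¹, y / x ^ m} :=
    IntermediateField.subset_adjoin _ _ (by simp)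
  have h3 : x ∈ IntermediateField.adjoin K {x⁻¹, y / x ^ m} := by
    have := inv_mem h1
    rwa [inv_inv] at this
  have h4 : y ∈ IntermediateField.adjoin K {x⁻¹, y / x ^ m} := by
    have := mul_mem h2 (pow_mem h3 m)
    rwa [div_mul_cancel₀ _ (pow_ne_zero m hx0)] at this
  intro z hz
  rcases hz with rfl | rfl
  · exact h3
  · exact h4

include hK hm hF hF0 hsq hx hy hM in
/-- Points in the chart at infinity: uniqueness of the place. -/
theorem unique_inf (w w' : Place K M)
    (φ : w.resField →ₐ[K] AlgebraicClosure K) (φ' : w'.resField →ₐ[K] AlgebraicClosure K)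
    (hw : w.val x⁻¹ ≤ 1) (hw' : w'.val x⁻¹ ≤ 1) (h1 : φ (w.res x⁻¹) = φ' (w'.res x⁻¹))
    (h2 : φ (w.res (y / x ^ m)) = φ' (w'.res (y / x ^ m))) : w = w' :=
  unique_affine hK m hm (sw F) (sw_homogeneous _ F hF) (sw_ne_zero F hF0) (sw_squarefree F hsq)
    x⁻¹ (y / x ^ m) (transcendental_inv hx) (chart_eq m F hF x y hx hy) (chart_adjoin m x y hx hM)
    w w' φ φ' hw hw' h1 h2

include hK hm hF hF0 hsq hx hy hM in
/-- Points at infinity: existence of the place. -/
theorem exists_inf (b : AlgebraicClosure K) (h : b ^ 2 = MvPolynomial.aeval ![1, 0] F) :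
    ∃ (w : Place K M) (φ : w.resField →ₐ[K] AlgebraicClosure K),
      w.val x⁻¹ < 1 ∧ φ (w.res (y / x ^ m)) = b := by
  obtain ⟨w, φ, h1, h2, h3⟩ := exists_affine hK m hm (sw F) (sw_homogeneous _ F hF)
    (sw_ne_zero F hF0) (sw_squarefree F hsq) x⁻¹ (y / x ^ m) (transcendental_inv hx)
    (chart_eq m F hF x y hx hy) (chart_adjoin m x y hx hM) 0 b (by rw [h, aeval_sw])
  refine ⟨w, φ, ?_, h3⟩
  rw [val_lt_iff w φ _ h1, h2]

end Main

end Pool.Agent.Helper92.BBCurve
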