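import Pool.Agent.Helper26.LC.Defs

/-!
# Homomorphisms from the fundamental group of a complex (MP_07bfe7_gt, module T4)
-/

set_option autoImplicit false

namespace Pool.Agent.Helper92.LCT4

open Pool.Agent.Helper26.LC unitInterval CategoryTheory Topology

section abstract_part

variable {K : Type*} [TopologicalSpace K] {Γ : Type*} [Group Γ]

/-- A multiplicative function on path classes. -/
structure Cocycle (K : Type*) [TopologicalSpace K] (Γ : Type*) [Group Γ] where
  /-- the function -/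
  f : ∀ {a b : K}, Path.Homotopic.Quotient a b → Γ
  mul : ∀ {a b c : K} (p : Path.Homotopic.Quotient a b) (q : Path.Homotopic.Quotient b c),
    f (p.trans q) = f p * f q

lemma Cocycle.refl (Θ : Cocycle K Γ) (a : K) : Θ.f (Path.Homotopic.Quotient.refl a) = 1 := by
  have h := Θ.mul (Path.Homotopic.Quotient.refl a) (Path.Homotopic.Quotient.refl a)
  have h1 : (Path.Homotopic.Quotient.refl a).trans (Path.Homotopic.Quotient.refl a) =
      Path.Homotopic.Quotient.refl a :=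
    Category.comp_id (X := FundamentalGroupoid.mk a) (Y := FundamentalGroupoid.mk a)
      (𝟙 (FundamentalGroupoid.mk a))
  rw [h1] at h
  exact (mul_eq_left.mp h.symm)

lemma Cocycle.cast (Θ : Cocycle K Γ) {a b a' b' : K} (c : Path.Homotopic.Quotient a b)
    (h1 : a' = a) (h2 : b' = b) : Θ.f (c.cast h1 h2) = Θ.f c := by
  subst h1 h2
  rw [Path.Homotopic.Quotient.cast_rfl_rfl]

/-- The cocycle of a homomorphism. -/
lemma exists_cocycle [PathConnectedSpace K] (x0 : K) (θ : FundamentalGroup K x0 →* Γ) :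
    ∃ Θ : Cocycle K Γ, (∀ (p : Path.Homotopic.Quotient x0 x0), Θ.f p = 1) → θ = 1 := by
  let P : ∀ a : K, (FundamentalGroupoid.mk x0 ⟶ FundamentalGroupoid.mk a) := fun a =>
    Path.Homotopic.Quotient.mk (PathConnectedSpace.somePath x0 a)
  let lp : ∀ {a b : K}, (FundamentalGroupoid.mk a ⟶ FundamentalGroupoid.mk b) →
      FundamentalGroup K x0 := fun {a b} f => P a ≫ f ≫ inv (P b)
  refine ⟨⟨fun {a b} p => (θ (lp (a := a) (b := b) p))⁻¹, ?_⟩, ?_⟩
  · intro a b c p q
    have h : lp (a := a) (b := c) (p.trans q) =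
        (lp (a := b) (b := c) q : FundamentalGroup K x0) * lp (a := a) (b := b) p := by
      have h1 : (lp (a := b) (b := c) q : FundamentalGroup K x0) * lp (a := a) (b := b) p =
          (P a ≫ (show FundamentalGroupoid.mk a ⟶ FundamentalGroupoid.mk b from p) ≫ inv (P b)) ≫
            (P b ≫ (show FundamentalGroupoid.mk b ⟶ FundamentalGroupoid.mk c from q) ≫
              inv (P c)) := rfl
      have h2 : lp (a := a) (b := c) (p.trans q) =
          P a ≫ ((show FundamentalGroupoid.mk a ⟶ FundamentalGroupoid.mk b from p) ≫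
            (show FundamentalGroupoid.mk b ⟶ FundamentalGroupoid.mk c from q)) ≫ inv (P c) := rfl
      rw [h1, h2]
      simp only [Category.assoc, IsIso.inv_hom_id_assoc]
    rw [h, map_mul, mul_inv_rev]
  · intro h
    ext ℓ
    have h1 := h ((inv (P x0) ≫ (show FundamentalGroupoid.mk x0 ⟶ FundamentalGroupoid.mk x0 from ℓ)
      ≫ P x0 : FundamentalGroupoid.mk x0 ⟶ FundamentalGroupoid.mk x0))
    rw [inv_eq_one] at h1
    rw [MonoidHom.one_apply, ← h1]
    congr 1
    have h2 : (P x0 ≫ (inv (P x0) ≫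
        (show FundamentalGroupoid.mk x0 ⟶ FundamentalGroupoid.mk x0 from ℓ) ≫ P x0) ≫
        inv (P x0)) = (show FundamentalGroupoid.mk x0 ⟶ FundamentalGroupoid.mk x0 from ℓ) := by
      simp only [Category.assoc, IsIso.hom_inv_id, Category.comp_id, IsIso.hom_inv_id_assoc]
    exact h2.symm

/-- **The local-to-global argument.** -/
theorem trivial_on_loops (Θ : Cocycle K Γ) {ι : Type*} (c : ι → K) (St : ι → Set K)
    (hop : ∀ w, IsOpen (St w)) (hcov : ∀ a, ∃ w, a ∈ St w) (h : ι → Γ) (H : K → Γ)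
    (hj : ∀ w, ∀ a ∈ St w, ∃ p : Path (c w) a, ∀ t, p t ∈ St w)
    (hH : ∀ w, ∀ a ∈ St w, ∀ p : Path (c w) a, (∀ t, p t ∈ St w) →
      Θ.f (Path.Homotopic.Quotient.mk p) = (h w)⁻¹ * H a)
    {a b : K} (γ : Path a b) : Θ.f (Path.Homotopic.Quotient.mk γ) = (H a)⁻¹ * H b := by
  -- a path in a star
  have key : ∀ w, ∀ {x y : K} (p : Path x y), (∀ t, p t ∈ St w) →
      Θ.f (Path.Homotopic.Quotient.mk p) = (H x)⁻¹ * H y := by
    intro w x y p hp
    have hx : x ∈ St w := by simpa using hp 0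
    have hy : y ∈ St w := by simpa using hp 1
    obtain ⟨q, hq⟩ := hj w x hx
    have h1 := hH w x hx q hq
    have h2 := hH w y hy (q.trans p) (by
      intro t
      have : (q.trans p) t ∈ Set.range (q.trans p) := ⟨t, rfl⟩
      rw [Path.trans_range] at this
      rcases this with ⟨s, hs⟩ | ⟨s, hs⟩
      · rw [← hs]; exact hq s
      · rw [← hs]; exact hp s)
    rw [Path.Homotopic.Quotient.mk_trans, Θ.mul, h1] at h2
    have h3 : H x * Θ.f (Path.Homotopic.Quotient.mk p) = H y := by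
      rw [mul_assoc] at h2
      exact mul_left_cancel h2
    rw [← h3, inv_mul_cancel_left]
  let φ : I → Γ := fun t => Θ.f (Path.Homotopic.Quotient.mk (γ.subpath 0 t)) * (H (γ t))⁻¹
  have hφ : IsLocallyConstant φ := by
    rw [IsLocallyConstant.iff_eventually_eq]
    intro t₀
    obtain ⟨w, hw⟩ := hcov (γ t₀)
    have hnb : γ ⁻¹' (St w) ∈ 𝓝 t₀ := (((hop w).preimage γ.continuous).mem_nhds hw)
    obtain ⟨ε, hε, hball⟩ := Metric.mem_nhds_iff.mp hnb
    filter_upwards [Metric.ball_mem_nhds t₀ hε] with t ht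
    have hin : ∀ s ∈ Set.uIcc t₀ t, γ s ∈ St w := by
      intro s hs
      apply hball
      rw [Metric.mem_ball] at ht ⊢
      have hs' : (s : ℝ) ∈ Set.uIcc (t₀ : ℝ) (t : ℝ) := by
        rw [Set.mem_uIcc] at hs ⊢
        exact_mod_cast hs
      have h1 := Real.dist_left_le_of_mem_uIcc hs'
      rw [Subtype.dist_eq] at ht ⊢
      rw [dist_comm] at ht ⊢
      exact lt_of_le_of_lt h1 ht
    have h1 : Θ.f (Path.Homotopic.Quotient.mk (γ.subpath t₀ t)) = (H (γ t₀))⁻¹ * H (γ t) := by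
      apply key w
      intro s
      have : (γ.subpath t₀ t) s ∈ Set.range (γ.subpath t₀ t) := ⟨s, rfl⟩
      rw [Path.range_subpath] at this
      obtain ⟨s', hs', hs''⟩ := this
      rw [← hs'']
      exact hin s' hs'
    have h2 : Path.Homotopic.Quotient.mk (γ.subpath 0 t) =
        (Path.Homotopic.Quotient.mk (γ.subpath 0 t₀)).trans
          (Path.Homotopic.Quotient.mk (γ.subpath t₀ t)) := by
      rw [← Path.Homotopic.Quotient.mk_trans, eq_comm, Path.Homotopic.Quotient.eq]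
      exact ⟨Path.Homotopy.subpathTransSubpath γ 0 t₀ t⟩
    simp only [φ]
    rw [h2, Θ.mul, h1]
    group
  have h1 := hφ.apply_eq_of_preconnectedSpace 1 0
  simp only [φ] at h1
  rw [Path.subpath_self, Path.subpath_zero_one, Path.Homotopic.Quotient.mk_cast, Θ.cast,
    Path.Homotopic.Quotient.mk_refl, Θ.refl, γ.source, γ.target, one_mul] at h1
  rw [← h1, inv_mul_cancel_right]

end abstract_part

section concrete

variable {V : Type*} [DecidableEq V] [Fintype V]

/-- The vertex `w` as a point. -/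
def vx (w : V) : V → ℝ := Pi.single w 1

/-- The simplex with vertex set `τ`. -/
def Sx (τ : Finset V) : Set (V → ℝ) :=
  {p | (∀ v, 0 ≤ p v) ∧ ∑ v, p v = 1 ∧ ∀ v, p v ≠ 0 → v ∈ τ}

/-- The open star of `w`. -/
def StV (F : Finset (Finset V)) (w : V) : Set (V → ℝ) := {p | p ∈ Space F ∧ 0 < p w}

omit [DecidableEq V] in
lemma Sx_sub {F : Finset (Finset V)} {τ : Finset V} (hτ : τ ∈ F) : Sx τ ⊆ Space F :=
  fun _ hp => ⟨hp.1, hp.2.1, τ, hτ, hp.2.2⟩

lemma vx_mem {τ : Finset V} {w : V} (hw : w ∈ τ) : vx w ∈ Sx τ := by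
  refine ⟨fun v => ?_, ?_, fun v hv => ?_⟩
  · rw [vx, Pi.single_apply]
    split_ifs <;> norm_num
  · simp [vx]
  · rw [vx, Pi.single_apply] at hv
    split_ifs at hv with h
    · rw [h]; exact hw
    · exact absurd rfl hv

lemma Sx_convex (τ : Finset V) : Convex ℝ (Sx τ) := by
  intro p hp q hq a b ha hb hab
  refine ⟨fun v => ?_, ?_, fun v hv => ?_⟩
  · simp only [Pi.add_apply, Pi.smul_apply, smul_eq_mul]
    exact add_nonneg (mul_nonneg ha (hp.1 v)) (mul_nonneg hb (hq.1 v))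
  · simp only [Pi.add_apply, Pi.smul_apply, smul_eq_mul, Finset.sum_add_distrib]
    rw [← Finset.mul_sum, ← Finset.mul_sum, hp.2.1, hq.2.1]
    linarith
  · simp only [Pi.add_apply, Pi.smul_apply, smul_eq_mul] at hv
    by_contra hcon
    have h1 : p v = 0 := by
      by_contra h
      exact hcon (hp.2.2 v h)
    have h2 : q v = 0 := by
      by_contra h
      exact hcon (hq.2.2 v h)
    apply hv
    rw [h1, h2]
    ring

lemma StV_star {F : Finset (Finset V)} {w : V} : StarConvex ℝ (vx w) (StV F w) := by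
  intro p hp a b ha hb hab
  obtain ⟨⟨h1, h2, τ, hτ, h3⟩, hw⟩ := hp
  have hwτ : w ∈ τ := h3 w hw.ne'
  have h4 := (Sx_convex τ) (vx_mem hwτ) ⟨h1, h2, h3⟩ ha hb hab
  refine ⟨Sx_sub hτ h4, ?_⟩
  simp only [Pi.add_apply, Pi.smul_apply, smul_eq_mul, vx, Pi.single_eq_same]
  rcases ha.eq_or_lt with h | h
  · have : b = 1 := by linarith
    rw [← h, this]
    linarith
  · have := mul_nonneg hb hw.le
    linarith

omit [DecidableEq V] [Fintype V] in
/-- Two paths in a star-shaped subset are homotopic. -/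
lemma hom_of_star {K S : Set (V → ℝ)} (hSK : S ⊆ K) {x : V → ℝ} (hx : x ∈ S)
    (hS : StarConvex ℝ x S) {a b : K} (p q : Path a b) (hp : ∀ t, (p t : V → ℝ) ∈ S)
    (hq : ∀ t, (q t : V → ℝ) ∈ S) :
    Path.Homotopic.Quotient.mk p = Path.Homotopic.Quotient.mk q := by
  rw [Path.Homotopic.Quotient.eq]
  have : ContractibleSpace S := hS.contractibleSpace ⟨x, hx⟩
  have ha : (a : V → ℝ) ∈ S := by simpa using hp 0
  have hb : (b : V → ℝ) ∈ S := by simpa using hp 1
  let lift : ∀ (r : Path a b) (_ : ∀ t, (r t : V → ℝ) ∈ S), Path (⟨a, ha⟩ : S) ⟨b, hb⟩ :=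
    fun r hr =>
    { toFun := fun t => ⟨r t, hr t⟩
      continuous_toFun := (continuous_subtype_val.comp r.continuous).subtype_mk _
      source' := by
        apply Subtype.ext
        simp
      target' := by
        apply Subtype.ext
        simp }
  let incl : C(S, K) := ⟨fun y => ⟨y.1, hSK y.2⟩, continuous_subtype_val.subtype_mk _⟩
  have h1 := (SimplyConnectedSpace.paths_homotopic (lift p hp) (lift q hq)).map incl
  exact h1

/-- The straight path. -/
noncomputable def seg {K : Set (V → ℝ)} (a b : K)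
    (h : ∀ t : I, AffineMap.lineMap (a : V → ℝ) (b : V → ℝ) (t : ℝ) ∈ K) : Path a b where
  toFun t := ⟨AffineMap.lineMap (a : V → ℝ) (b : V → ℝ) (t : ℝ), h t⟩
  continuous_toFun := by
    apply Continuous.subtype_mk
    exact (AffineMap.lineMap_continuous).comp continuous_subtype_val
  source' := by
    apply Subtype.ext
    simp
  target' := by
    apply Subtype.ext
    simp

omit [DecidableEq V] [Fintype V] in
lemma lineMap_mem {S : Set (V → ℝ)} {x y : V → ℝ} (hS : StarConvex ℝ x S) (hy : y ∈ S) (t : I) :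
    AffineMap.lineMap x y (t : ℝ) ∈ S := by
  rw [AffineMap.lineMap_apply_module]
  exact hS hy (by have := t.2.2; linarith) t.2.1 (by ring)

open Classical in
/-- The value of the cocycle on a straight path. -/
noncomputable def sv {Γ : Type*} [Group Γ] {K : Set (V → ℝ)} (Θ : Cocycle K Γ) (a b : V → ℝ) : Γ :=
  if h : ∃ (_ : a ∈ K) (_ : b ∈ K), ∀ t : I, AffineMap.lineMap a b (t : ℝ) ∈ K then
    Θ.f (Path.Homotopic.Quotient.mk (seg ⟨a, h.1⟩ ⟨b, h.2.1⟩ h.2.2)) else 1

lemma sv_eq {Γ : Type*} [Group Γ] {K : Set (V → ℝ)} (Θ : Cocycle K Γ) {S : Set (V → ℝ)}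
    (hSK : S ⊆ K) {a b : V → ℝ} (ha : a ∈ S) (hb : b ∈ S) (hS : StarConvex ℝ a S)
    (p : Path (⟨a, hSK ha⟩ : K) ⟨b, hSK hb⟩) (hp : ∀ t, (p t : V → ℝ) ∈ S) :
    Θ.f (Path.Homotopic.Quotient.mk p) = sv Θ a b := by
  have h : ∃ (ha : a ∈ K) (hb : b ∈ K), ∀ t : I, AffineMap.lineMap a b (t : ℝ) ∈ K :=
    ⟨hSK ha, hSK hb, fun t => hSK (lineMap_mem hS hb t)⟩
  rw [sv, dif_pos h]
  congr 1
  exact hom_of_star hSK ha hS _ _ hp (fun t => lineMap_mem hS hb t)

lemma sv_mul {Γ : Type*} [Group Γ] {K : Set (V → ℝ)} (Θ : Cocycle K Γ) {S : Set (V → ℝ)}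
    (hSK : S ⊆ K) (hS : Convex ℝ S) {a b c : V → ℝ} (ha : a ∈ S) (hb : b ∈ S) (hc : c ∈ S) :
    sv Θ a b * sv Θ b c = sv Θ a c := by
  let p : Path (⟨a, hSK ha⟩ : K) ⟨b, hSK hb⟩ :=
    seg _ _ (fun t => hSK (lineMap_mem (hS.starConvex ha) hb t))
  let q : Path (⟨b, hSK hb⟩ : K) ⟨c, hSK hc⟩ :=
    seg _ _ (fun t => hSK (lineMap_mem (hS.starConvex hb) hc t))
  have hp : ∀ t, (p t : V → ℝ) ∈ S := fun t => lineMap_mem (hS.starConvex ha) hb t
  have hq : ∀ t, (q t : V → ℝ) ∈ S := fun t => lineMap_mem (hS.starConvex hb) hc t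
  rw [← sv_eq Θ hSK ha hb (hS.starConvex ha) p hp, ← sv_eq Θ hSK hb hc (hS.starConvex hb) q hq,
    ← Θ.mul, ← Path.Homotopic.Quotient.mk_trans]
  apply sv_eq Θ hSK ha hc (hS.starConvex ha)
  intro t
  have : (p.trans q) t ∈ Set.range (p.trans q) := ⟨t, rfl⟩
  rw [Path.trans_range] at this
  rcases this with ⟨s, hs⟩ | ⟨s, hs⟩
  · rw [← hs]; exact hp s
  · rw [← hs]; exact hq s

/-- **Module T4.** -/
theorem pi1_of_triv (F : Finset (Finset V)) (_hF : ∀ τ ∈ F, τ.Nonempty)
    (hpc : PathConnectedSpace (Space F)) (x0 : Space F)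
    {Γ : Type*} [Group Γ] (hΓ : ∀ g : V → V → Γ, Flat F g → Triv F g)
    (θ : FundamentalGroup (Space F) x0 →* Γ) : θ = 1 := by
  classical
  obtain ⟨Θ, hΘ⟩ := exists_cocycle x0 θ
  apply hΘ
  obtain ⟨h, hh⟩ := hΓ (fun u v => sv Θ (vx u) (vx v)) (by
    intro τ hτ u hu v hv w hw
    exact sv_mul Θ (Sx_sub hτ) (Sx_convex τ) (vx_mem hu) (vx_mem hv) (vx_mem hw))
  -- every point is in a star
  have hex : ∀ a : Space F, ∃ w, 0 < (a : V → ℝ) w := by
    intro a
    by_contra hcon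
    push Not at hcon
    have h1 := a.2.2.1
    have h2 : ∑ v, (a : V → ℝ) v ≤ 0 := Finset.sum_nonpos (fun v _ => hcon v)
    linarith
  choose W hW using hex
  let H : Space F → Γ := fun a => h (W a) * sv Θ (vx (W a)) a
  have hHw : ∀ (a : Space F) (w : V), 0 < (a : V → ℝ) w → H a = h w * sv Θ (vx w) a := by
    intro a w hw
    obtain ⟨h1, h2, τ, hτ, h3⟩ := a.2
    have hwτ : w ∈ τ := h3 w hw.ne'
    have hWτ : W a ∈ τ := h3 (W a) (hW a).ne'
    have h4 := sv_mul Θ (Sx_sub hτ) (Sx_convex τ) (vx_mem hwτ) (vx_mem hWτ)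
      (⟨h1, h2, h3⟩ : (a : V → ℝ) ∈ Sx τ)
    have h5 := hh τ hτ w hwτ (W a) hWτ
    simp only at h5
    simp only [H]
    rw [← h4, h5]
    group
  -- the index set: vertices of the complex
  let ι := {w : V // ∃ τ ∈ F, w ∈ τ}
  have hvx : ∀ w : ι, vx w.1 ∈ Space F := by
    rintro ⟨w, τ, hτ, hw⟩
    exact Sx_sub hτ (vx_mem hw)
  have hcx : ∀ w : ι, vx w.1 ∈ StV F w.1 := by
    intro w
    refine ⟨hvx w, ?_⟩
    simp [vx]
  intro p
  induction p using Path.Homotopic.Quotient.ind with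
  | mk γ =>
  have h1 := trivial_on_loops Θ (ι := ι) (fun w => ⟨vx w.1, hvx w⟩)
    (fun w => {a : Space F | 0 < (a : V → ℝ) w.1}) ?_ ?_ (fun w => h w.1) H ?_ ?_ γ
  · rw [h1, inv_mul_cancel]
  · intro w
    exact isOpen_lt continuous_const ((continuous_apply w.1).comp continuous_subtype_val)
  · intro a
    obtain ⟨τ, hτ, h3⟩ := a.2.2.2
    exact ⟨⟨W a, τ, hτ, h3 _ (hW a).ne'⟩, hW a⟩
  · intro w a ha
    have hmem : (a : V → ℝ) ∈ StV F w.1 := ⟨a.2, ha⟩
    refine ⟨seg _ _ (fun t => (lineMap_mem StV_star hmem t).1), fun t => ?_⟩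
    exact (lineMap_mem StV_star hmem t).2
  · intro w a ha p hp
    have hmem : (a : V → ℝ) ∈ StV F w.1 := ⟨a.2, ha⟩
    have h2 := sv_eq Θ (S := StV F w.1) (fun _ h => h.1) (hcx w) hmem StV_star p
      (fun t => ⟨(p t).2, hp t⟩)
    rw [h2, hHw a w.1 ha, inv_mul_cancel_left]

end concrete

end Pool.Agent.Helper92.LCT4
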