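import Pool.Agent.Helper29.QP.Defs
import Pool.Agent.Helper92.QPB23

/-!
# A Whitehead automorphism shortens a cyclic word (MP_55050e_al, module QP-B1)
-/

set_option autoImplicit false

open MonoidAlgebra Module

namespace Pool.Agent.Helper92.QP

open Pool.Agent.Helper29.QP

variable {X : Type}

/-- the letter `s` as a group element -/
def Lt (s : X × Bool) : FreeGroup X := FreeGroup.mk [s]

lemma Lt_inv (s : X × Bool) : (Lt s)⁻¹ = Lt (linv s) := by
  simp [Lt, linv, FreeGroup.inv_mk, FreeGroup.invRev]

lemma Lt_true (x : X) : Lt (x, true) = FreeGroup.of x := rfl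

lemma Lt_false (x : X) : Lt (x, false) = (FreeGroup.of x)⁻¹ := by
  rw [← Lt_true, Lt_inv]; rfl

section
variable (a : X × Bool) (Z : Set (X × Bool))

/-- `a ^ χ(s)` -/
noncomputable def pw (e : ℤ) (s : X × Bool) : FreeGroup X := Lt a ^ (e * (ind (s ∈ Z) : ℤ))

open Classical in
/-- the Whitehead automorphism (`e = 1`) and its inverse (`e = -1`) -/
noncomputable def wh (e : ℤ) : FreeGroup X →* FreeGroup X :=
  FreeGroup.lift (fun x => if x = a.1 then FreeGroup.of x else
    pw a Z e (x, true) * FreeGroup.of x * (pw a Z e (x, false))⁻¹)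

lemma wh_of_eq (e : ℤ) : wh a Z e (FreeGroup.of a.1) = FreeGroup.of a.1 := by
  simp [wh]

lemma wh_of_ne (e : ℤ) {x : X} (h : x ≠ a.1) : wh a Z e (FreeGroup.of x) =
    pw a Z e (x, true) * FreeGroup.of x * (pw a Z e (x, false))⁻¹ := by
  simp [wh, h]

lemma wh_a (e : ℤ) : wh a Z e (Lt a) = Lt a := by
  obtain ⟨x, b⟩ := a
  cases b with
  | true => rw [Lt_true]; exact wh_of_eq (x, true) Z e
  | false => rw [Lt_false, map_inv]; rw [wh_of_eq (x, false) Z e]

lemma wh_pw (e e' : ℤ) (s : X × Bool) : wh a Z e (pw a Z e' s) = pw a Z e' s := by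
  rw [pw, map_zpow, wh_a]

lemma wh_comp (e : ℤ) (x : X) : wh a Z e (wh a Z (-e) (FreeGroup.of x)) = FreeGroup.of x := by
  by_cases h : x = a.1
  · subst h
    rw [wh_of_eq, wh_of_eq]
  · rw [wh_of_ne a Z (-e) h, map_mul, map_mul, map_inv, wh_pw, wh_pw, wh_of_ne a Z e h]
    have h1 : ∀ s, pw a Z (-e) s = (pw a Z e s)⁻¹ := by
      intro s
      rw [pw, pw, neg_mul, zpow_neg]
    rw [h1, h1]
    group

/-- the automorphism -/
noncomputable def whEquiv : FreeGroup X ≃* FreeGroup X :=
  MonoidHom.toMulEquiv (wh a Z 1) (wh a Z (-1))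
    (by
      ext x
      have := wh_comp a Z (-1) x
      rw [neg_neg] at this
      simpa using this)
    (by
      ext x
      have := wh_comp a Z 1 x
      simpa using this)

lemma whEquiv_apply (g : FreeGroup X) : whEquiv a Z g = wh a Z 1 g := rfl

open Classical in
/-- the middle part -/
noncomputable def mid (s : X × Bool) : FreeGroup X := if s.1 = a.1 then 1 else Lt s

variable {a Z}

lemma wh_Lt (ha : a ∈ Z) (ha' : linv a ∉ Z) (s : X × Bool) :
    wh a Z 1 (Lt s) = pw a Z 1 s * mid a s * (pw a Z 1 (linv s))⁻¹ := by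
  by_cases h : s.1 = a.1
  · rw [mid, if_pos h, mul_one]
    rcases (fst_eq_iff s a).mp h with h | h
    · subst h
      rw [wh_a, pw, pw, ind_pos ha, ind_neg ha']
      simp
    · subst h
      rw [← Lt_inv, map_inv, wh_a, pw, pw, linv_linv, ind_pos ha, ind_neg ha']
      simp
  · rw [mid, if_neg h]
    obtain ⟨x, b⟩ := s
    cases b with
    | true =>
      rw [Lt_true, wh_of_ne a Z 1 h]
      rfl
    | false =>
      rw [Lt_false, map_inv, wh_of_ne a Z 1 h]
      have : linv (x, false) = (x, true) := rfl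
      rw [this]
      group

end

lemma telescope {G : Type} [Group G] (x y z : ℕ → G) (m : ℕ) :
    ((List.range m).map (fun k => x k * y k * z k)).prod * x m =
      x 0 * ((List.range m).map (fun k => y k * z k * x (k + 1))).prod := by
  induction m with
  | zero => simp
  | succ m ih =>
    rw [List.range_succ, List.map_append, List.map_append, List.prod_append, List.prod_append]
    simp only [List.map_cons, List.map_nil, List.prod_cons, List.prod_nil, mul_one]
    have h1 : ((List.range m).map (fun k => y k * z k * x (k + 1))).prod =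
        (x 0)⁻¹ * (((List.range m).map (fun k => x k * y k * z k)).prod * x m) := by
      rw [ih]; group
    rw [h1]
    group

lemma mk_flatMap {α : Type} (l : List α) (f : α → List (X × Bool)) :
    FreeGroup.mk (l.flatMap f) = (l.map (fun k => FreeGroup.mk (f k))).prod := by
  induction l with
  | nil => simp [FreeGroup.one_eq_mk]
  | cons b l ih => rw [List.flatMap_cons, ← FreeGroup.mul_mk, ih]; simp

lemma mk_eq_prod (l : List (X × Bool)) : FreeGroup.mk l = (l.map Lt).prod := by
  induction l with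
  | nil => simp [FreeGroup.one_eq_mk]
  | cons b l ih =>
    rw [List.map_cons, List.prod_cons, ← ih, Lt, FreeGroup.mul_mk]
    rfl

lemma range_map_eq {n : ℕ} {α : Type} (f : Fin (n + 1) → α) :
    (List.range (n + 1)).map (fun k => f (Fin.ofNat (n + 1) k)) = List.ofFn f := by
  apply List.ext_getElem
  · simp
  · intro k h1 h2
    simp only [List.getElem_map, List.getElem_range, List.getElem_ofFn]
    congr 1
    apply Fin.ext
    simp only [List.length_map, List.length_range] at h1
    simp [Fin.ofNat, Nat.mod_eq_of_lt h1]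

theorem whitehead_step {n : ℕ} (cw : Fin (n + 1) → X × Bool) (a : X × Bool) (Z : Set (X × Bool))
    (ha : a ∈ Z) (ha' : linv a ∉ Z) (hlt : cap cw Z < deg cw a.1) :
    ∃ (α : FreeGroup X ≃* FreeGroup X) (W' : List (X × Bool)) (g : FreeGroup X),
      α (FreeGroup.mk (List.ofFn cw)) = g * FreeGroup.mk W' * g⁻¹ ∧ W'.length < n + 1 := by
  classical
  -- the words
  let m1 : Fin (n + 1) → List (X × Bool) := fun i => if (cw i).1 = a.1 then [] else [cw i]
  let m2 : Fin (n + 1) → List (X × Bool) := fun i =>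
    if (linv (cw i) ∈ Z ↔ cw (i + 1) ∈ Z) then [] else if cw (i + 1) ∈ Z then [a] else [linv a]
  have hm1 : ∀ i, FreeGroup.mk (m1 i) = mid a (cw i) := by
    intro i
    simp only [m1, mid]
    split_ifs
    · exact FreeGroup.one_eq_mk.symm
    · rfl
  have hm2 : ∀ i, FreeGroup.mk (m2 i) = (pw a Z 1 (linv (cw i)))⁻¹ * pw a Z 1 (cw (i + 1)) := by
    intro i
    simp only [m2, pw]
    by_cases h1 : linv (cw i) ∈ Z
    · by_cases h2 : cw (i + 1) ∈ Z
      · rw [if_pos (by simp [h1, h2]), ind_pos h1, ind_pos h2]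
        simp [FreeGroup.one_eq_mk]
      · rw [if_neg (by simp [h1, h2]), if_neg h2, ind_pos h1, ind_neg h2]
        have h3 : FreeGroup.mk [linv a] = (Lt a)⁻¹ := (Lt_inv a).symm
        rw [h3]
        simp
    · by_cases h2 : cw (i + 1) ∈ Z
      · rw [if_neg (by simp [h1, h2]), if_pos h2, ind_neg h1, ind_pos h2]
        simp [Lt]
      · rw [if_pos (by simp [h1, h2]), ind_neg h1, ind_neg h2]
        simp [FreeGroup.one_eq_mk]
  refine ⟨whEquiv a Z, (List.ofFn (fun i => m1 i ++ m2 i)).flatten, pw a Z 1 (cw 0), ?_, ?_⟩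
  · rw [whEquiv_apply, mk_eq_prod, map_list_prod, List.map_map]
    have h1 : (List.ofFn cw).map (⇑(wh a Z 1) ∘ Lt) = (List.range (n + 1)).map
        (fun k => (fun i => pw a Z 1 (cw i) * mid a (cw i) * (pw a Z 1 (linv (cw i)))⁻¹)
          (Fin.ofNat (n + 1) k)) := by
      rw [range_map_eq (fun i => pw a Z 1 (cw i) * mid a (cw i) * (pw a Z 1 (linv (cw i)))⁻¹),
        List.map_ofFn]
      congr 1
      funext i
      exact wh_Lt ha ha' (cw i)
    have h2 := telescope (fun k => pw a Z 1 (cw (Fin.ofNat (n + 1) k)))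
      (fun k => mid a (cw (Fin.ofNat (n + 1) k)))
      (fun k => (pw a Z 1 (linv (cw (Fin.ofNat (n + 1) k))))⁻¹) (n + 1)
    have h3 : (Fin.ofNat (n + 1) (n + 1)) = 0 := by
      apply Fin.ext
      simp [Fin.ofNat]
    have h4 : (Fin.ofNat (n + 1) 0) = 0 := by
      apply Fin.ext
      simp [Fin.ofNat]
    have h5 : ∀ k : ℕ, (Fin.ofNat (n + 1) (k + 1)) = Fin.ofNat (n + 1) k + 1 := by
      intro k
      apply Fin.ext
      simp only [Fin.ofNat, Fin.val_add]
      cases n with
      | zero => simp
      | succ n => simp [Nat.add_mod]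
    simp only [h3, h4, h5] at h2
    have h6 : (List.range (n + 1)).map (fun k => mid a (cw (Fin.ofNat (n + 1) k)) *
        (pw a Z 1 (linv (cw (Fin.ofNat (n + 1) k))))⁻¹ *
          pw a Z 1 (cw (Fin.ofNat (n + 1) k + 1))) =
        (List.ofFn (fun i => m1 i ++ m2 i)).map FreeGroup.mk := by
      rw [range_map_eq (fun i => mid a (cw i) * (pw a Z 1 (linv (cw i)))⁻¹ *
          pw a Z 1 (cw (i + 1))), List.map_ofFn]
      congr 1
      funext i
      rw [Function.comp_apply, ← FreeGroup.mul_mk, hm1, hm2, mul_assoc]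
    rw [h6] at h2
    have h7 : ∀ l : List (List (X × Bool)), FreeGroup.mk l.flatten = (l.map FreeGroup.mk).prod := by
      intro l
      induction l with
      | nil => simp [FreeGroup.one_eq_mk]
      | cons b l ih => rw [List.flatten_cons, ← FreeGroup.mul_mk, ih]; simp
    rw [h7, ← h2, h1]
    group
  · rw [List.length_flatten, List.map_ofFn, List.sum_ofFn]
    have h1 : ∀ i, (List.length ∘ fun i => m1 i ++ m2 i) i + ind ((cw i).1 = a.1) =
        1 + ind (¬ (linv (cw i) ∈ Z ↔ cw (i + 1) ∈ Z)) := by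
      intro i
      simp only [Function.comp_apply, List.length_append, m1, m2]
      by_cases h1 : (cw i).1 = a.1
      · rw [if_pos h1, ind_pos h1]
        by_cases h2 : (linv (cw i) ∈ Z ↔ cw (i + 1) ∈ Z)
        · rw [if_pos h2, ind_neg (not_not.mpr h2)]
          simp
        · rw [if_neg h2, ind_pos h2]
          split_ifs <;> simp
      · rw [if_neg h1, ind_neg h1]
        by_cases h2 : (linv (cw i) ∈ Z ↔ cw (i + 1) ∈ Z)
        · rw [if_pos h2, ind_neg (not_not.mpr h2)]
          simp
        · rw [if_neg h2, ind_pos h2]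
          split_ifs <;> simp
    have h2 := Finset.sum_congr (rfl : (Finset.univ : Finset (Fin (n + 1))) = Finset.univ)
      (fun i _ => h1 i)
    rw [Finset.sum_add_distrib, Finset.sum_add_distrib, ← cap_eq_sum] at h2
    have h3 : ∑ i, ind ((cw i).1 = a.1) = deg cw a.1 := by
      rw [deg, Finset.card_filter]
      apply Finset.sum_congr rfl
      intro i _
      rw [ind]
    rw [h3] at h2
    simp only [Finset.sum_const, Finset.card_univ, Fintype.card_fin, smul_eq_mul, mul_one] at h2
    omega

end Pool.Agent.Helper92.QP
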