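import Mathlib
import Pool.Agent.Helper80.CRL.Defs
import Pool.Agent.Helper80.CRL.Lang

/-!
# The language `Lang` is Church-Rosser

An explicit length-reducing confluent system.
-/

set_option autoImplicit false

namespace Pool.Agent.Helper92.CRLA

open Pool.Agent.Helper80.CRL

/-- The alphabet. -/
inductive Ltr
  | e
  | y (t : Bool × Bool) (c : Bool)
  | yh (t : Bool × Bool)
  | G
  | H (s : Option (Fin 4)) (f : Bool)
  | K (s : Fin 5)
  | cent
  | dol
  | Z
  deriving DecidableEq, Fintype

open Ltr

/-- The right side of the rule with left side `a eⁿ b`, if there is one. -/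
def rho : Ltr → ℕ → Ltr → Option (List Ltr)
  | .H s _, n, .e => if n = 4 then some [.e, .H s true, .e] else none
  | .H s f, n, .y t c =>
      if (n = 4 ∨ (f = true ∧ 1 ≤ n ∧ n ≤ 3)) ∧ (s = none ∨ s = some (Fin.ofNat 4 n)) then
        some (List.replicate (n / 4) .e ++
          [.y t (decide (4 ≤ n % 4 + c.toNat)), .H (some (Fin.ofNat 4 (n + c.toNat))) false])
      else none
  | .H s f, n, .dol => if n = 0 ∧ f = false ∧ s ≠ none then some [.dol] else none
  | .G, n, .e => if n = 4 then some [.G, .e, .H none true, .e] else none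
  | .G, n, .y t c =>
      if n = 4 then some [.G, .e, .y t false, .H (some (Fin.ofNat 4 (n + c.toNat))) false]
      else if 1 ≤ n ∧ n ≤ 3 then some [.yh t, .K (Fin.ofNat 5 (n + c.toNat))] else none
  | .K s, n, .y t c =>
      if 1 ≤ n ∧ n ≤ 3 ∧ (s : ℕ) = n then some [.yh t, .K (Fin.ofNat 5 (n + c.toNat))] else none
  | .K _, n, .dol => if n = 0 then some [.dol] else none
  | .yh (true, b), n, .yh (false, b') => if n = 0 ∧ b = b' then some [] else none
  | .cent, n, .dol => if n = 0 then some [.Z] else none
  | _, _, _ => none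

/-- The left side `a eⁿ b`. -/
def lhs (a : Ltr) (n : ℕ) (b : Ltr) : List Ltr := a :: (List.replicate n .e ++ [b])

/-- The system. -/
def R : Set (List Ltr × List Ltr) := {p | ∃ a n b, p.1 = lhs a n b ∧ rho a n b = some p.2}

/-- Letters that can occur inside a left side. -/
def tl : Ltr → Bool
  | .e => true
  | .y _ _ => true
  | .dol => true
  | .yh (false, _) => true
  | _ => false

/-- Letters on the right of the heads. -/
def low : Ltr → Bool
  | .e => true
  | .y _ _ => true
  | .dol => true
  | _ => false

/-- Heads. -/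
def hd : Ltr → Bool
  | .G => true
  | .H _ _ => true
  | .K _ => true
  | _ => false

lemma low_tl {a : Ltr} (h : low a = true) : tl a = true := by
  cases a <;> simp_all [low, tl]

lemma hd_not_tl {a : Ltr} (h : hd a = true) : tl a = false := by
  cases a <;> simp_all [hd, tl]

lemma rho_spec {a : Ltr} {n : ℕ} {b : Ltr} {r : List Ltr} (h : rho a n b = some r) :
    tl a = false ∧ tl b = true ∧ n ≤ 4 ∧ (b = .e → n = 4) ∧ r.length < n + 2 := by
  unfold rho at h
  split at h
  · split_ifs at h with h1
    simp only [Option.some.injEq] at h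
    subst h
    subst h1
    simp [tl]
  · split_ifs at h with h1
    simp only [Option.some.injEq] at h
    subst h
    have : n / 4 + 2 < n + 2 := by omega
    simp [tl]
    omega
  · split_ifs at h with h1
    simp only [Option.some.injEq] at h
    subst h
    simp [tl, h1.1]
  · split_ifs at h with h1
    simp only [Option.some.injEq] at h
    subst h
    simp [tl, h1]
  · split_ifs at h with h1 h2
    · simp only [Option.some.injEq] at h
      subst h
      simp [tl, h1]
    · simp only [Option.some.injEq] at h
      subst h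
      simp [tl]
      omega
  · split_ifs at h with h1
    simp only [Option.some.injEq] at h
    subst h
    simp [tl]
    omega
  · split_ifs at h with h1
    simp only [Option.some.injEq] at h
    subst h
    simp [tl, h1]
  · split_ifs at h with h1
    simp only [Option.some.injEq] at h
    subst h
    simp [tl, h1.1]
  · split_ifs at h with h1
    simp only [Option.some.injEq] at h
    subst h
    simp [tl, h1]
  · simp at h

lemma parse {n n' : ℕ} {b b' : Ltr} {v v' : List Ltr} (hn : n ≤ 4) (hn' : n' ≤ 4)
    (hb : b = .e → n = 4) (hb' : b' = .e → n' = 4)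
    (h : List.replicate n Ltr.e ++ b :: v = List.replicate n' Ltr.e ++ b' :: v') :
    n = n' ∧ b = b' ∧ v = v' := by
  have key : ∀ {n n' : ℕ} {b b' : Ltr} {v v' : List Ltr}, n' ≤ 4 → (b = .e → n = 4) →
      List.replicate n Ltr.e ++ b :: v = List.replicate n' Ltr.e ++ b' :: v' → ¬ n < n' := by
    intro n n' b b' v v' hn' hb h hlt
    have h1 := congrArg (fun l => l[n]?) h
    beta_reduce at h1
    rw [List.getElem?_append_right (by simp), List.getElem?_append_left (by simpa using hlt)] at h1
    simp [hlt] at h1
    have := hb h1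
    omega
  have h1 : n = n' := by
    rcases lt_trichotomy n n' with h1 | h1 | h1
    · exact absurd h1 (key hn' hb h)
    · exact h1
    · exact absurd h1 (key hn hb' h.symm)
  subst h1
  rw [List.append_cancel_left_eq, List.cons.injEq] at h
  exact ⟨rfl, h.1, h.2⟩

lemma overlap {u₁ u₂ t₁ t₂ : List Ltr} {a₁ a₂ : Ltr} (ht : ∀ a ∈ t₁, tl a = true)
    (ha : tl a₂ = false) (hl : u₁.length < u₂.length) {v₁ : List Ltr}
    (h : u₁ ++ a₁ :: (t₁ ++ v₁) = u₂ ++ a₂ :: t₂) :
    ∃ m, u₂ = u₁ ++ a₁ :: (t₁ ++ m) ∧ v₁ = m ++ a₂ :: t₂ := by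
  rw [List.append_eq_append_iff] at h
  rcases h with ⟨w, hw1, hw2⟩ | ⟨w, hw1, hw2⟩
  · cases w with
    | nil => simp at hw1; subst hw1; simp at hl
    | cons a w =>
      rw [List.cons_append, List.cons.injEq] at hw2
      obtain ⟨rfl, hw2⟩ := hw2
      rw [List.append_eq_append_iff] at hw2
      rcases hw2 with ⟨m, hm1, hm2⟩ | ⟨m, hm1, hm2⟩
      · exact ⟨m, by rw [hw1, hm1], hm2⟩
      · cases m with
        | nil =>
          simp at hm1 hm2
          refine ⟨[], ?_, ?_⟩
          · rw [hw1, hm1]; simp
          · simp [hm2]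
        | cons b m =>
          rw [List.cons_append, List.cons.injEq] at hm2
          obtain ⟨rfl, hm2⟩ := hm2
          have := ht a₂ (by rw [hm1]; simp)
          rw [ha] at this
          exact absurd this (by simp)
  · have := congrArg List.length hw1
    simp at this
    omega

/-! ### Confluence -/

lemma step_mk {a : Ltr} {n : ℕ} {b : Ltr} {r : List Ltr} (h : rho a n b = some r)
    (u v : List Ltr) : Rewrites R (u ++ a :: (List.replicate n .e ++ b :: v)) (u ++ (r ++ v)) :=
  ⟨u, v, lhs a n b, r, ⟨a, n, b, rfl, h⟩, by simp [lhs], by simp⟩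

lemma step_elim {x x' : List Ltr} (h : Rewrites R x x') :
    ∃ u v a n b r, rho a n b = some r ∧ x = u ++ a :: ((List.replicate n .e ++ [b]) ++ v) ∧
      x' = u ++ (r ++ v) := by
  obtain ⟨u, v, l, r, ⟨a, n, b, h1, h2⟩, h3, h4⟩ := h
  simp only at h1 h2
  exact ⟨u, v, a, n, b, r, h2, by rw [h3, h1]; simp [lhs], by rw [h4]; simp⟩

lemma tail_tl {n : ℕ} {b : Ltr} (hb : tl b = true) :
    ∀ a ∈ List.replicate n Ltr.e ++ [b], tl a = true := by
  intro a ha
  rw [List.mem_append, List.mem_replicate, List.mem_singleton] at ha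
  rcases ha with ⟨-, rfl⟩ | rfl
  · rfl
  · exact hb

lemma diamond (x x₁ x₂ : List Ltr) (h₁ : Rewrites R x x₁) (h₂ : Rewrites R x x₂) :
    x₁ = x₂ ∨ ∃ w, Rewrites R x₁ w ∧ Rewrites R x₂ w := by
  have key : ∀ {u₁ v₁ u₂ v₂ : List Ltr} {a₁ a₂ b₁ b₂ : Ltr} {n₁ n₂ : ℕ} {r₁ r₂ : List Ltr},
      rho a₁ n₁ b₁ = some r₁ → rho a₂ n₂ b₂ = some r₂ →
      u₁ ++ a₁ :: ((List.replicate n₁ .e ++ [b₁]) ++ v₁) =
        u₂ ++ a₂ :: ((List.replicate n₂ .e ++ [b₂]) ++ v₂) → u₁.length < u₂.length →
      ∃ w, Rewrites R (u₁ ++ (r₁ ++ v₁)) w ∧ Rewrites R (u₂ ++ (r₂ ++ v₂)) w := by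
    intro u₁ v₁ u₂ v₂ a₁ a₂ b₁ b₂ n₁ n₂ r₁ r₂ h₁ h₂ he hl
    obtain ⟨m, hm1, hm2⟩ := overlap (tail_tl (rho_spec h₁).2.1) (rho_spec h₂).1 hl he
    refine ⟨u₁ ++ (r₁ ++ (m ++ (r₂ ++ v₂))), ?_, ?_⟩
    · have := step_mk h₂ (u₁ ++ r₁ ++ m) v₂
      rw [hm2]
      simpa using this
    · have := step_mk h₁ u₁ (m ++ (r₂ ++ v₂))
      rw [hm1]
      simpa using this
  obtain ⟨u₁, v₁, a₁, n₁, b₁, r₁, hr₁, hx₁, rfl⟩ := step_elim h₁
  obtain ⟨u₂, v₂, a₂, n₂, b₂, r₂, hr₂, hx₂, rfl⟩ := step_elim h₂
  have he := hx₁.symm.trans hx₂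
  rcases lt_trichotomy u₁.length u₂.length with hl | hl | hl
  · exact Or.inr (key hr₁ hr₂ he hl)
  · left
    obtain ⟨h1, h2⟩ := List.append_inj he hl
    rw [List.cons.injEq] at h2
    obtain ⟨h3, h4⟩ := h2
    have h5 := rho_spec hr₁
    have h6 := rho_spec hr₂
    simp only [List.append_assoc, List.singleton_append] at h4
    obtain ⟨h7, h8, h9⟩ := parse h5.2.2.1 h6.2.2.1 h5.2.2.2.1 h6.2.2.2.1 h4
    subst h1 h3 h7 h8 h9
    rw [hr₁, Option.some.injEq] at hr₂
    rw [hr₂]
  · obtain ⟨w, h1, h2⟩ := key hr₂ hr₁ he.symm hl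
    exact Or.inr ⟨w, h2, h1⟩

lemma confluent : Confluent R := by
  intro x y z hxy hxz
  exact Relation.church_rosser (fun a b c hab hac => by
    rcases diamond a b c hab hac with h | ⟨w, h1, h2⟩
    · subst h
      exact ⟨b, Relation.ReflGen.refl, Relation.ReflTransGen.refl⟩
    · exact ⟨w, Relation.ReflGen.single h1, Relation.ReflTransGen.single h2⟩) hxy hxz

lemma lengthReducing : LengthReducing R := by
  rintro ⟨l, r⟩ ⟨a, n, b, h1, h2⟩
  simp only at h1 h2
  have := (rho_spec h2).2.2.2.2
  subst h1
  simp only [lhs, List.length_cons, List.length_append, List.length_replicate, List.length_nil]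
  omega

lemma finite : R.Finite := by
  have h1 : R ⊆ (fun q : Ltr × Fin 5 × Ltr => (lhs q.1 q.2.1 q.2.2,
      (rho q.1 q.2.1 q.2.2).getD [])) '' Set.univ := by
    rintro ⟨l, r⟩ ⟨a, n, b, h1, h2⟩
    simp only at h1 h2
    have h3 := (rho_spec h2).2.2.1
    exact ⟨(a, ⟨n, by omega⟩, b), trivial, by simp [h1, h2]⟩
  exact (Set.finite_univ.image _).subset h1

/-! ### Reductions -/

lemma red_ctx {x x' : List Ltr} (h : Reduces R x x') (u v : List Ltr) :
    Reduces R (u ++ (x ++ v)) (u ++ (x' ++ v)) := by
  induction h with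
  | refl => exact Relation.ReflTransGen.refl
  | tail _ h2 ih =>
    refine ih.tail ?_
    obtain ⟨p, q, l, r, h3, h4, h5⟩ := h2
    exact ⟨u ++ p, q ++ v, l, r, h3, by rw [h4]; simp, by rw [h5]; simp⟩

lemma red_trans {x y z : List Ltr} (h : Reduces R x y) (h' : Reduces R y z) : Reduces R x z :=
  Relation.ReflTransGen.trans h h'

lemma red_left {x x' : List Ltr} (h : Reduces R x x') (u : List Ltr) :
    Reduces R (u ++ x) (u ++ x') := by
  simpa using red_ctx h u []

lemma red_step {a : Ltr} {n : ℕ} {b : Ltr} {r : List Ltr} (h : rho a n b = some r)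
    (v : List Ltr) : Reduces R (a :: (List.replicate n .e ++ b :: v)) (r ++ v) := by
  have := step_mk h [] v
  exact Relation.ReflTransGen.single (by simpa using this)

lemma irr_len {x : List Ltr} (h : x.length ≤ 1) : Irreducible R x := by
  intro x' hx
  obtain ⟨u, v, a, n, b, r, -, h1, -⟩ := step_elim hx
  have := congrArg List.length h1
  simp at this
  omega

lemma irr_Z : Irreducible R [Z] := irr_len (by simp)

lemma red_iff {x x' : List Ltr} (h : Reduces R x x') : Reduces R x [Z] ↔ Reduces R x' [Z] := by
  constructor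
  · intro h1
    obtain ⟨w, hw1, hw2⟩ := confluent x x' [Z] h h1
    rcases Relation.ReflTransGen.cases_head hw2 with h3 | ⟨c, h3, -⟩
    · rw [h3]; exact hw1
    · exact absurd h3 (irr_Z c)
  · exact fun h1 => h.trans h1

/-! ### Stuck words -/

/-- A head that will never move, with only letters of low type to its right. -/
def Stuck (x : List Ltr) : Prop :=
  ∃ (u : List Ltr) (h : Ltr) (v : List Ltr), x = u ++ h :: v ∧ hd h = true ∧
    (∀ a ∈ v, low a = true) ∧
    ∀ n b v', v = List.replicate n .e ++ b :: v' → rho h n b = none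

lemma stuck_step {x x' : List Ltr} (hx : Stuck x) (hrw : Rewrites R x x') : Stuck x' := by
  obtain ⟨u, h, v, hx, hh, hv, hno⟩ := hx
  obtain ⟨u', v', a, n, b, r, hr, hx1, rfl⟩ := step_elim hrw
  have he := hx1.symm.trans hx
  rcases lt_trichotomy u'.length u.length with hl | hl | hl
  · obtain ⟨m, hm1, hm2⟩ := overlap (tail_tl (rho_spec hr).2.1) (hd_not_tl hh) hl he
    exact ⟨u' ++ r ++ m, h, v, by rw [hm2]; simp, hh, hv, hno⟩
  · obtain ⟨h1, h2⟩ := List.append_inj he hl
    rw [List.cons.injEq] at h2
    obtain ⟨rfl, h4⟩ := h2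
    have := hno n b v' (by rw [← h4]; simp)
    rw [this] at hr
    exact absurd hr (by simp)
  · exfalso
    rw [List.append_eq_append_iff] at he
    rcases he with ⟨w, hw1, hw2⟩ | ⟨w, hw1, hw2⟩
    · have := congrArg List.length hw1
      simp at this
      omega
    · cases w with
      | nil => simp at hw1; subst hw1; simp at hl
      | cons c w =>
        rw [List.cons_append, List.cons.injEq] at hw2
        have h1 := hv a (by rw [hw2.2]; simp)
        have h2 := (rho_spec hr).1
        rw [low_tl h1] at h2
        exact absurd h2 (by simp)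

lemma stuck_not {x : List Ltr} (hx : Stuck x) : ¬ Reduces R x [Z] := by
  intro h
  have h1 : ∀ {x x' : List Ltr}, Stuck x → Reduces R x x' → Stuck x' := by
    intro x x' hx h
    induction h with
    | refl => exact hx
    | tail _ h2 ih => exact stuck_step ih h2
  obtain ⟨u, h, v, hx, hh, -⟩ := h1 hx h
  cases u with
  | nil =>
    simp at hx
    rw [← hx.1] at hh
    simp [hd] at hh
  | cons a u => simp at hx

lemma stuck_left {x : List Ltr} (hx : Stuck x) (u : List Ltr) : Stuck (u ++ x) := by
  obtain ⟨u', h, v, rfl, hh⟩ := hx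
  exact ⟨u ++ u', h, v, by simp, hh⟩

/-- `x` reduces to a stuck word. -/
def Dead (x : List Ltr) : Prop := ∃ x', Reduces R x x' ∧ Stuck x'

lemma dead_not {x : List Ltr} (hx : Dead x) : ¬ Reduces R x [Z] := by
  obtain ⟨x', h1, h2⟩ := hx
  rw [red_iff h1]
  exact stuck_not h2

lemma dead_of_red {x x' : List Ltr} (h : Reduces R x x') (hx : Dead x') : Dead x := by
  obtain ⟨x'', h1, h2⟩ := hx
  exact ⟨x'', h.trans h1, h2⟩

lemma dead_left {x : List Ltr} (hx : Dead x) (u : List Ltr) : Dead (u ++ x) := by
  obtain ⟨x', h1, h2⟩ := hx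
  exact ⟨u ++ x', red_left h1 u, stuck_left h2 u⟩

lemma dead_mk {h : Ltr} {n : ℕ} {b : Ltr} {v : List Ltr} (hh : hd h = true) (hb : low b = true)
    (hbe : b ≠ .e) (hv : ∀ a ∈ v, low a = true)
    (h1 : n ≤ 4 → rho h n b = none) (h2 : 5 ≤ n → rho h 4 .e = none) :
    Dead (h :: (List.replicate n .e ++ b :: v)) := by
  refine ⟨_, Relation.ReflTransGen.refl, [], h, _, rfl, hh, ?_, ?_⟩
  · intro a ha
    rw [List.mem_append, List.mem_replicate, List.mem_cons] at ha
    rcases ha with ⟨-, rfl⟩ | rfl | ha
    · rfl
    · exact hb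
    · exact hv a ha
  · intro n' b' v' he
    by_contra hcon
    obtain ⟨r, hr⟩ := Option.ne_none_iff_exists'.mp hcon
    have hs := rho_spec hr
    by_cases hn : n ≤ 4
    · obtain ⟨h3, h4, -⟩ := parse hn hs.2.2.1 (fun h => absurd h hbe) hs.2.2.2.1 he
      subst h3 h4
      rw [h1 hn] at hr
      exact absurd hr (by simp)
    · have h5 : List.replicate n Ltr.e = List.replicate 4 .e ++ .e :: List.replicate (n - 5) .e := by
        rw [← List.replicate_succ, ← List.replicate_add]
        congr 1
        omega
      rw [h5, List.append_assoc, List.cons_append] at he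
      obtain ⟨h3, h4, -⟩ := parse le_rfl hs.2.2.1 (fun _ => rfl) hs.2.2.2.1 he
      subst h3 h4
      rw [h2 (by omega)] at hr
      exact absurd hr (by simp)

/-! ### Semantics -/

/-- A block `e^p y_t^c`. -/
abbrev B := ℕ × (Bool × Bool) × Bool

/-- The word of a list of blocks. -/
def enc : List B → List Ltr
  | [] => []
  | (p, t, c) :: l => List.replicate p .e ++ .y t c :: enc l

lemma enc_low (l : List B) : ∀ a ∈ enc l, low a = true := by
  induction l with
  | nil => simp [enc]
  | cons b l ih =>
    obtain ⟨p, t, c⟩ := b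
    intro a ha
    rw [enc, List.mem_append, List.mem_replicate, List.mem_cons] at ha
    rcases ha with ⟨-, rfl⟩ | rfl | ha
    · rfl
    · rfl
    · exact ih a ha

lemma tail_low (l : List B) (k : ℕ) :
    ∀ a ∈ enc l ++ (List.replicate k .e ++ [dol]), low a = true := by
  intro a ha
  rw [List.mem_append, List.mem_append, List.mem_replicate, List.mem_singleton] at ha
  rcases ha with ha | ⟨-, rfl⟩ | rfl
  · exact enc_low l a ha
  · rfl
  · rfl

/-- Division of a block by four. -/
def divB (a : B) : B := (a.1 / 4, a.2.1, decide (4 ≤ a.1 % 4 + a.2.2.toNat))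

/-- The head with expected remainder `s` passes the blocks. -/
def OKH : Fin 4 → List B → Prop
  | _, [] => True
  | s, (p, _, c) :: l => 4 ≤ p ∧ s = Fin.ofNat 4 p ∧ OKH (Fin.ofNat 4 (p + c.toNat)) l

/-- The final head with expected block `s` passes the blocks. -/
def OKK : Fin 5 → List B → Prop
  | _, [] => True
  | s, (p, _, c) :: l => 1 ≤ p ∧ p ≤ 3 ∧ (s : ℕ) = p ∧ OKK (Fin.ofNat 5 (p + c.toNat)) l

lemma ofNat_sub {p : ℕ} (hp : 4 ≤ p) (c : ℕ) :
    Fin.ofNat 4 (p - 4 + c) = Fin.ofNat 4 (p + c) := by
  apply Fin.ext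
  simp only [Fin.ofNat]
  omega

lemma Hblock (p : ℕ) : ∀ (s : Option (Fin 4)) (f : Bool) (t : Bool × Bool) (c : Bool)
    (v : List Ltr),
    (((4 ≤ p ∨ (f = true ∧ 1 ≤ p)) ∧ (s = none ∨ s = some (Fin.ofNat 4 p))) →
      Reduces R (.H s f :: (List.replicate p .e ++ .y t c :: v))
        (List.replicate (p / 4) .e ++ .y t (decide (4 ≤ p % 4 + c.toNat)) ::
          .H (some (Fin.ofNat 4 (p + c.toNat))) false :: v)) ∧
    (¬ ((4 ≤ p ∨ (f = true ∧ 1 ≤ p)) ∧ (s = none ∨ s = some (Fin.ofNat 4 p))) →
      (∀ a ∈ v, low a = true) → Dead (.H s f :: (List.replicate p .e ++ .y t c :: v))) := by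
  induction p using Nat.strong_induction_on with
  | _ p ih =>
    intro s f t c v
    by_cases hp : 5 ≤ p
    · have h1 : List.replicate p Ltr.e = List.replicate 4 .e ++ .e :: List.replicate (p - 5) .e := by
        rw [← List.replicate_succ, ← List.replicate_add]
        congr 1
        omega
      have h2 : Reduces R (.H s f :: (List.replicate p .e ++ .y t c :: v))
          ([.e] ++ .H s true :: (List.replicate (p - 4) .e ++ .y t c :: v)) := by
        have h3 := red_step (a := .H s f) (n := 4) (b := .e) (r := [.e, .H s true, .e])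
          (by simp [rho]) (List.replicate (p - 5) .e ++ .y t c :: v)
        have h4 : List.replicate (p - 4) Ltr.e = .e :: List.replicate (p - 5) .e := by
          rw [← List.replicate_succ]
          congr 1
          omega
        rw [h1, h4]
        simpa using h3
      have h5 : Fin.ofNat 4 (p - 4) = Fin.ofNat 4 p := by
        have := ofNat_sub (p := p) (by omega) 0
        simpa using this
      obtain ⟨h6, h7⟩ := ih (p - 4) (by omega) s true t c v
      refine ⟨fun h => red_trans h2 ?_, fun h hv => dead_of_red h2 (dead_left (h7 ?_ hv) _)⟩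
      · have h8 := red_left (h6 ⟨Or.inr ⟨rfl, by omega⟩, by rw [h5]; exact h.2⟩) [.e]
        have h9 : p / 4 = (p - 4) / 4 + 1 := by omega
        have h10 : p % 4 = (p - 4) % 4 := by omega
        rw [ofNat_sub (by omega)] at h8
        rw [h9, h10, List.replicate_succ]
        simpa using h8
      · rw [h5]
        intro h8
        exact h ⟨Or.inl (by omega), h8.2⟩
    · push Not at hp
      refine ⟨fun h => ?_, fun h hv => ?_⟩
      · have h1 : rho (.H s f) p (.y t c) = some (List.replicate (p / 4) .e ++
          [.y t (decide (4 ≤ p % 4 + c.toNat)), .H (some (Fin.ofNat 4 (p + c.toNat))) false]) := by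
          simp only [rho]
          rw [if_pos]
          refine ⟨?_, h.2⟩
          rcases h.1 with h1 | h1
          · left; omega
          · by_cases h2 : p = 4
            · exact Or.inl h2
            · exact Or.inr ⟨h1.1, h1.2, by omega⟩
        have := red_step h1 v
        simpa using this
      · apply dead_mk rfl rfl (by simp) hv
        · intro _
          simp only [rho]
          rw [if_neg]
          intro h1
          apply h
          refine ⟨?_, h1.2⟩
          rcases h1.1 with h1 | h1
          · left; omega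
          · exact Or.inr ⟨h1.1, h1.2.1⟩
        · intro h1; omega

/-- A head never passes trailing letters `e`. -/
lemma Htail (k : ℕ) : ∀ (s : Option (Fin 4)) (f : Bool), 1 ≤ k →
    Dead (.H s f :: (List.replicate k .e ++ [dol])) := by
  induction k using Nat.strong_induction_on with
  | _ k ih =>
    intro s f hk
    by_cases hp : 5 ≤ k
    · have h1 : List.replicate k Ltr.e = List.replicate 4 .e ++ .e :: List.replicate (k - 5) .e := by
        rw [← List.replicate_succ, ← List.replicate_add]
        congr 1
        omega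
      have h2 : Reduces R (.H s f :: (List.replicate k .e ++ [dol]))
          ([.e] ++ .H s true :: (List.replicate (k - 4) .e ++ [dol])) := by
        have h3 := red_step (a := .H s f) (n := 4) (b := .e) (r := [.e, .H s true, .e])
          (by simp [rho]) (List.replicate (k - 5) .e ++ [dol])
        have h4 : List.replicate (k - 4) Ltr.e = .e :: List.replicate (k - 5) .e := by
          rw [← List.replicate_succ]
          congr 1
          omega
        rw [h1, h4]
        simpa using h3
      exact dead_of_red h2 (dead_left (ih (k - 4) (by omega) s true (by omega)) _)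
    · apply dead_mk rfl rfl (by simp) (by simp)
      · intro _
        simp only [rho]
        rw [if_neg]
        rintro ⟨h, -⟩
        omega
      · intro h; omega

lemma Hrun_ok (l : List B) : ∀ (s : Fin 4), OKH s l →
    Reduces R (.H (some s) false :: (enc l ++ [dol])) (enc (l.map divB) ++ [dol]) := by
  induction l with
  | nil =>
    intro s _
    have := red_step (a := .H (some s) false) (n := 0) (b := .dol) (r := [.dol])
      (by simp [rho]) []
    simpa [enc] using this
  | cons b l ih =>
    obtain ⟨p, t, c⟩ := b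
    intro s h
    obtain ⟨h1, h2, h3⟩ := h
    have h4 := (Hblock p (some s) false t c (enc l ++ [dol])).1 ⟨Or.inl h1, Or.inr (by rw [h2])⟩
    have h5 := red_left (ih _ h3)
      (List.replicate (p / 4) .e ++ [.y t (decide (4 ≤ p % 4 + c.toNat))])
    have h6 : Reduces R (.H (some s) false :: (List.replicate p .e ++ .y t c :: (enc l ++ [dol])))
      (List.replicate (p / 4) .e ++ .y t (decide (4 ≤ p % 4 + c.toNat)) ::
        (enc (l.map divB) ++ [dol])) :=
        red_trans h4 (by simpa using h5)
    simpa [enc, divB] using h6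

lemma Hrun_bad (l : List B) (k : ℕ) : ∀ (s : Fin 4), ¬ (k = 0 ∧ OKH s l) →
    Dead (.H (some s) false :: (enc l ++ (List.replicate k .e ++ [dol]))) := by
  induction l with
  | nil =>
    intro s h
    have hk : 1 ≤ k := by
      by_contra hcon
      exact h ⟨by omega, trivial⟩
    simpa [enc] using Htail k (some s) false hk
  | cons b l ih =>
    obtain ⟨p, t, c⟩ := b
    intro s h
    have h0 := Hblock p (some s) false t c (enc l ++ (List.replicate k .e ++ [dol]))
    by_cases h1 : 4 ≤ p ∧ s = Fin.ofNat 4 p
    · have h2 := h0.1 ⟨Or.inl h1.1, Or.inr (by rw [h1.2])⟩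
      have h3 := ih (Fin.ofNat 4 (p + c.toNat)) (fun h3 => h ⟨h3.1, h1.1, h1.2, h3.2⟩)
      have h4 := dead_left h3 (List.replicate (p / 4) .e ++ [.y t (decide (4 ≤ p % 4 + c.toNat))])
      have h5 := dead_of_red h2 (by simpa using h4)
      simpa [enc] using h5
    · have h2 := h0.2 (by
        rintro ⟨h2 | h2, h3⟩
        · rcases h3 with h3 | h3
          · simp at h3
          · exact h1 ⟨h2, by simpa using h3⟩
        · simp at h2) (tail_low l k)
      simpa [enc] using h2

lemma Krun_ok (l : List B) : ∀ (s : Fin 5), OKK s l →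
    Reduces R (.K s :: (enc l ++ [dol])) (l.map (fun a => Ltr.yh a.2.1) ++ [dol]) := by
  induction l with
  | nil =>
    intro s _
    have := red_step (a := .K s) (n := 0) (b := .dol) (r := [.dol]) (by simp [rho]) []
    simpa [enc] using this
  | cons b l ih =>
    obtain ⟨p, t, c⟩ := b
    intro s h
    obtain ⟨h1, h2, h3, h4⟩ := h
    have h5 : rho (.K s) p (.y t c) = some [.yh t, .K (Fin.ofNat 5 (p + c.toNat))] := by
      simp only [rho]
      rw [if_pos ⟨h1, h2, h3⟩]
    have h6 := red_step h5 (enc l ++ [dol])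
    have h7 := red_left (ih _ h4) [.yh t]
    have h8 : Reduces R (.K s :: (List.replicate p .e ++ .y t c :: (enc l ++ [dol])))
      (.yh t :: (l.map (fun a => Ltr.yh a.2.1) ++ [dol])) :=
      red_trans (by simpa using h6) (by simpa using h7)
    simpa [enc] using h8

lemma Krun_bad (l : List B) (k : ℕ) : ∀ (s : Fin 5), ¬ (k = 0 ∧ OKK s l) →
    Dead (.K s :: (enc l ++ (List.replicate k .e ++ [dol]))) := by
  induction l with
  | nil =>
    intro s h
    have hk : 1 ≤ k := by
      by_contra hcon
      exact h ⟨by omega, trivial⟩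
    have h1 : Dead (.K s :: (List.replicate k .e ++ .dol :: [])) := by
      apply dead_mk rfl rfl (by simp) (by simp)
      · intro _
        simp only [rho]
        rw [if_neg (by omega)]
      · intro _
        rfl
    simpa [enc] using h1
  | cons b l ih =>
    obtain ⟨p, t, c⟩ := b
    intro s h
    by_cases h1 : 1 ≤ p ∧ p ≤ 3 ∧ (s : ℕ) = p
    · have h5 : rho (.K s) p (.y t c) = some [.yh t, .K (Fin.ofNat 5 (p + c.toNat))] := by
        simp only [rho]
        rw [if_pos h1]
      have h6 := red_step h5 (enc l ++ (List.replicate k .e ++ [dol]))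
      have h3 := ih (Fin.ofNat 5 (p + c.toNat))
        (fun h3 => h ⟨h3.1, h1.1, h1.2.1, h1.2.2, h3.2⟩)
      have h4 := dead_left h3 [.yh t]
      have h5 := dead_of_red h6 (by simpa using h4)
      simpa [enc] using h5
    · have h2 : Dead (.K s :: (List.replicate p .e ++ .y t c ::
          (enc l ++ (List.replicate k .e ++ [dol])))) := by
        apply dead_mk rfl rfl (by simp) (tail_low l k)
        · intro _
          simp only [rho]
          rw [if_neg h1]
        · intro _
          rfl
      simpa [enc] using h2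

/-! ### Brackets -/

lemma run_pairs (w : List (Bool × Bool)) : ∀ s : List Bool, run s w = some [] →
    Reduces R (s.reverse.map (fun b => Ltr.yh (true, b)) ++ w.map Ltr.yh) [] := by
  induction w with
  | nil =>
    intro s h
    simp [run] at h
    subst h
    exact Relation.ReflTransGen.refl
  | cons a w ih =>
    intro s h
    obtain ⟨d, b⟩ := a
    cases d with
    | true =>
      simp only [run] at h
      have := ih (b :: s) h
      simpa using this
    | false =>
      cases s with
      | nil => simp [run] at h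
      | cons c s =>
        simp only [run] at h
        split_ifs at h with h1
        subst h1
        have h2 := red_step (a := .yh (true, c)) (n := 0) (b := .yh (false, c)) (r := [])
          (by simp [rho]) (w.map Ltr.yh)
        have h3 := red_left h2 (s.reverse.map (fun b => Ltr.yh (true, b)))
        have h4 := ih s h
        simp only [List.replicate_zero, List.nil_append] at h3
        have := red_trans h3 h4
        simpa using this

lemma run_append (u : List (Bool × Bool)) : ∀ (s : List Bool) (v : List (Bool × Bool)),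
    run s (u ++ v) = (run s u).bind (fun s' => run s' v) := by
  induction u with
  | nil => intro s v; simp [run]
  | cons a u ih =>
    intro s v
    obtain ⟨d, b⟩ := a
    cases d with
    | true => simp only [run, List.cons_append]; exact ih _ _
    | false =>
      cases s with
      | nil => simp [run]
      | cons c s =>
        simp only [run, List.cons_append]
        split_ifs
        · exact ih _ _
        · rfl

lemma run_cancel (u v : List (Bool × Bool)) (b : Bool) (s : List Bool) :
    run s (u ++ (true, b) :: (false, b) :: v) = run s (u ++ v) := by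
  rw [run_append, run_append]
  cases run s u with
  | none => rfl
  | some s' => simp [run]

lemma brackets_conv {x : List Ltr} (h : Reduces R x [Z]) : ∀ w : List (Bool × Bool),
    x = .cent :: (w.map Ltr.yh ++ [dol]) → run [] w = some [] := by
  induction h using Relation.ReflTransGen.head_induction_on with
  | refl => intro w hw; simp at hw
  | head h1 h2 ih =>
    rename_i x x'
    intro w hw
    obtain ⟨u, v, a, n, b, r, hr, hx, rfl⟩ := step_elim h1
    rw [hw] at hx
    cases u with
    | nil =>
      rw [List.nil_append, List.cons.injEq] at hx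
      obtain ⟨rfl, hx⟩ := hx
      -- the rule `cent dol → Z`
      have hb : b = .dol ∧ n = 0 := by
        unfold rho at hr
        split at hr <;> simp_all
      obtain ⟨rfl, rfl⟩ := hb
      cases w with
      | nil => rfl
      | cons a w => simp at hx
    | cons c u =>
      rw [List.cons_append, List.cons.injEq] at hx
      obtain ⟨rfl, hx⟩ := hx
      have hs := rho_spec hr
      have hmem : ∀ z ∈ u ++ a :: ((List.replicate n .e ++ [b]) ++ v),
          z = .dol ∨ ∃ t ∈ w, z = .yh t := by
        intro z hz
        rw [← hx, List.mem_append, List.mem_map, List.mem_singleton] at hz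
        rcases hz with ⟨t, ht, rfl⟩ | rfl
        · exact Or.inr ⟨t, ht, rfl⟩
        · exact Or.inl rfl
      have ha : ∃ q, a = .yh (true, q) := by
        rcases hmem a (by simp) with rfl | ⟨⟨d, q⟩, -, rfl⟩
        · simp [tl] at hs
        · cases d with
          | true => exact ⟨q, rfl⟩
          | false => simp [tl] at hs
      obtain ⟨q, rfl⟩ := ha
      have hb : n = 0 ∧ b = .yh (false, q) ∧ r = [] := by
        unfold rho at hr
        split at hr <;> simp_all
      obtain ⟨rfl, rfl, rfl⟩ := hb
      simp only [List.replicate_zero, List.nil_append, List.singleton_append] at hx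
      -- split `w`
      have hsplit : ∃ w₁ w₂, w = w₁ ++ (true, q) :: (false, q) :: w₂ ∧ u = w₁.map Ltr.yh ∧
          v = w₂.map Ltr.yh ++ [dol] := by
        clear hmem h1 h2 ih hr hs hw
        induction w generalizing u with
        | nil =>
          cases u with
          | nil => simp at hx
          | cons c u =>
            have := congrArg List.length hx
            simp at this
        | cons d w ih =>
          cases u with
          | nil =>
            simp only [List.map_cons, List.cons_append, List.nil_append, List.cons.injEq,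
              Ltr.yh.injEq] at hx
            obtain ⟨rfl, hx⟩ := hx
            cases w with
            | nil => simp at hx
            | cons d' w =>
              simp only [List.map_cons, List.cons_append, List.cons.injEq,
                Ltr.yh.injEq] at hx
              obtain ⟨rfl, hx⟩ := hx
              exact ⟨[], w, rfl, rfl, hx.symm⟩
          | cons c u =>
            simp only [List.map_cons, List.cons_append, List.cons.injEq] at hx
            obtain ⟨rfl, hx⟩ := hx
            obtain ⟨w₁, w₂, rfl, rfl, rfl⟩ := ih u hx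
            exact ⟨d :: w₁, w₂, rfl, rfl, rfl⟩
      obtain ⟨w₁, w₂, rfl, rfl, rfl⟩ := hsplit
      rw [run_cancel]
      apply ih
      simp

lemma brackets (w : List (Bool × Bool)) :
    Reduces R (.cent :: (w.map Ltr.yh ++ [dol])) [Z] ↔ run [] w = some [] := by
  constructor
  · exact fun h => brackets_conv h w rfl
  · intro h
    have h1 := red_ctx (run_pairs w [] h) [.cent] [dol]
    have h2 := red_step (a := .cent) (n := 0) (b := .dol) (r := [.Z]) (by simp [rho]) []
    simp only [List.reverse_nil, List.map_nil, List.nil_append] at h1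
    simp only [List.replicate_zero, List.nil_append, List.append_nil] at h2
    exact h1.trans h2

/-! ### The main equivalence -/

/-- The starting word. -/
def W (l : List B) (k : ℕ) : List Ltr :=
  .cent :: .G :: (enc l ++ (List.replicate k .e ++ [dol]))

/-- The list of blocks describes a word of the language. -/
def Good (l : List B) : Prop :=
  List.IsChain (fun a b : B => b.1 = a.1 + a.2.2.toNat) l ∧
  (∃ m : ℕ, ∀ a ∈ l, 4 ^ m ≤ a.1 ∧ a.1 < 4 ^ (m + 1)) ∧
  run [] (l.map (fun a => a.2.1)) = some []

lemma toNat_le (c : Bool) : c.toNat ≤ 1 := by cases c <;> simp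

lemma okk_iff (l : List B) : ∀ (p : ℕ) (t : Bool × Bool) (c : Bool), p ≤ 3 →
    (OKK (Fin.ofNat 5 (p + c.toNat)) l ↔
      List.IsChain (fun a b : B => b.1 = a.1 + a.2.2.toNat) ((p, t, c) :: l) ∧
        ∀ a ∈ l, 1 ≤ a.1 ∧ a.1 ≤ 3) := by
  induction l with
  | nil => intro p t c _; simp [OKK]
  | cons b l ih =>
    obtain ⟨p', t', c'⟩ := b
    intro p t c hp
    have hc := toNat_le c
    have h1 : ((Fin.ofNat 5 (p + c.toNat) : Fin 5) : ℕ) = p + c.toNat := by
      simp only [Fin.ofNat]
      omega
    rw [OKK, List.isChain_cons_cons, h1]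
    simp only [List.mem_cons, forall_eq_or_imp]
    constructor
    · rintro ⟨h2, h3, h4, h5⟩
      obtain ⟨h6, h7⟩ := (ih p' t' c' h3).mp h5
      exact ⟨⟨h4.symm, h6⟩, ⟨h2, h3⟩, h7⟩
    · rintro ⟨⟨h4, h6⟩, ⟨h2, h3⟩, h7⟩
      exact ⟨h2, h3, h4.symm, (ih p' t' c' h3).mpr ⟨h6, h7⟩⟩

lemma okh_iff (l : List B) : ∀ (p : ℕ) (t : Bool × Bool) (c : Bool),
    (OKH (Fin.ofNat 4 (p + c.toNat)) l ∧
      List.IsChain (fun a b : B => b.1 = a.1 + a.2.2.toNat) (divB (p, t, c) :: l.map divB) ↔
      List.IsChain (fun a b : B => b.1 = a.1 + a.2.2.toNat) ((p, t, c) :: l) ∧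
        ∀ a ∈ l, 4 ≤ a.1) := by
  induction l with
  | nil => intro p t c; simp [OKH]
  | cons b l ih =>
    obtain ⟨p', t', c'⟩ := b
    intro p t c
    have hc := toNat_le c
    have h1 : (Fin.ofNat 4 (p + c.toNat) = Fin.ofNat 4 p' ∧
        (divB (p', t', c')).1 = (divB (p, t, c)).1 + (divB (p, t, c)).2.2.toNat) ↔
        p' = p + c.toNat := by
      simp only [divB, Fin.ext_iff, Fin.ofNat]
      by_cases h : 4 ≤ p % 4 + c.toNat
      · simp only [h, decide_true, Bool.toNat_true]
        omega
      · simp only [h, decide_false, Bool.toNat_false]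
        omega
    have h2 := ih p' t' c'
    rw [OKH, List.isChain_cons_cons, List.map_cons, List.isChain_cons_cons]
    simp only [List.mem_cons, forall_eq_or_imp]
    constructor
    · rintro ⟨⟨h3, h4, h5⟩, h6, h7⟩
      obtain ⟨h8, h9⟩ := h2.mp ⟨h5, h7⟩
      exact ⟨⟨h1.mp ⟨h4, h6⟩, h8⟩, h3, h9⟩
    · rintro ⟨⟨h3, h4⟩, h5, h6⟩
      obtain ⟨h7, h8⟩ := h2.mpr ⟨h4, h6⟩
      obtain ⟨h9, h10⟩ := h1.mpr h3
      exact ⟨⟨h5, h9, h7⟩, h10, h8⟩

lemma good_small {p : ℕ} (t : Bool × Bool) (c : Bool) (l : List B) (hp1 : 1 ≤ p) (hp : p ≤ 3) :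
    Good ((p, t, c) :: l) ↔ OKK (Fin.ofNat 5 (p + c.toNat)) l ∧
      run [] (t :: l.map (fun a => a.2.1)) = some [] := by
  rw [okk_iff l p t c hp, Good]
  constructor
  · rintro ⟨h1, ⟨m, hm⟩, h2⟩
    have hm0 : m = 0 := by
      by_contra hcon
      have h3 := (hm _ (List.mem_cons_self)).1
      have h4 : 4 ^ 1 ≤ 4 ^ m := Nat.pow_le_pow_right (by norm_num) (by omega)
      simp only at h3
      omega
    subst hm0
    refine ⟨⟨h1, fun a ha => ?_⟩, h2⟩
    have := hm a (List.mem_cons_of_mem _ ha)
    simp at this
    omega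
  · rintro ⟨⟨h1, h2⟩, h3⟩
    refine ⟨h1, ⟨0, fun a ha => ?_⟩, h3⟩
    rw [List.mem_cons] at ha
    rcases ha with rfl | ha
    · simp; omega
    · have := h2 a ha
      simp; omega

lemma good_big {p : ℕ} (t : Bool × Bool) (c : Bool) (l : List B) (hp : 4 ≤ p) :
    Good ((p, t, c) :: l) ↔ OKH (Fin.ofNat 4 (p + c.toNat)) l ∧
      Good (divB (p, t, c) :: l.map divB) := by
  have key : (∃ m : ℕ, ∀ a ∈ ((p, t, c) :: l : List B), 4 ^ m ≤ a.1 ∧ a.1 < 4 ^ (m + 1)) ↔
      (∀ a ∈ l, 4 ≤ a.1) ∧ (∃ m : ℕ, ∀ a ∈ divB (p, t, c) :: l.map divB,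
        4 ^ m ≤ a.1 ∧ a.1 < 4 ^ (m + 1)) := by
    constructor
    · rintro ⟨m, hm⟩
      have hm0 : m ≠ 0 := by
        rintro rfl
        have := (hm _ (List.mem_cons_self)).2
        simp at this
        omega
      obtain ⟨m, rfl⟩ := Nat.exists_eq_succ_of_ne_zero hm0
      have h1 : ∀ a ∈ ((p, t, c) :: l : List B), 4 ≤ a.1 ∧ 4 ^ m ≤ (divB a).1 ∧
          (divB a).1 < 4 ^ (m + 1) := by
        intro a ha
        obtain ⟨h2, h3⟩ := hm a ha
        have h4 : 1 ≤ 4 ^ m := Nat.one_le_pow _ _ (by norm_num)
        simp only [divB]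
        simp only [Nat.succ_eq_add_one, pow_succ] at h2 h3 ⊢
        generalize 4 ^ m = z at *
        omega
      refine ⟨fun a ha => (h1 a (List.mem_cons_of_mem _ ha)).1, m, fun a ha => ?_⟩
      rw [List.mem_cons, List.mem_map] at ha
      rcases ha with rfl | ⟨a, ha, rfl⟩
      · exact (h1 _ (List.mem_cons_self)).2
      · exact (h1 a (List.mem_cons_of_mem _ ha)).2
    · rintro ⟨-, m, hm⟩
      have h1 : ∀ a : B, 4 ^ m ≤ (divB a).1 ∧ (divB a).1 < 4 ^ (m + 1) →
          4 ^ (m + 1) ≤ a.1 ∧ a.1 < 4 ^ (m + 1 + 1) := by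
        rintro a ⟨h2, h3⟩
        simp only [divB] at h2 h3
        simp only [pow_succ] at h2 h3 ⊢
        generalize 4 ^ m = z at *
        omega
      refine ⟨m + 1, fun a ha => h1 a ?_⟩
      rw [List.mem_cons] at ha
      rcases ha with rfl | ha
      · exact hm _ (List.mem_cons_self)
      · exact hm _ (List.mem_cons_of_mem _ (List.mem_map_of_mem ha))
  have h2 := okh_iff l p t c
  have h3 : (divB (p, t, c) :: l.map divB).map (fun a => a.2.1) =
      ((p, t, c) :: l : List B).map (fun a => a.2.1) := by
    simp [divB, Function.comp_def]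
  rw [Good, Good, key, h3]
  constructor
  · rintro ⟨h4, ⟨h5, h6⟩, h7⟩
    obtain ⟨h8, h9⟩ := h2.mpr ⟨h4, h5⟩
    exact ⟨h8, h9, h6, h7⟩
  · rintro ⟨h8, h9, h6, h7⟩
    obtain ⟨h4, h5⟩ := h2.mp ⟨h8, h9⟩
    exact ⟨h4, ⟨h5, h6⟩, h7⟩

lemma G_step (k : ℕ) (hk : 5 ≤ k) (v : List Ltr) :
    Reduces R (.G :: (List.replicate k .e ++ v))
      ([.G, .e] ++ .H none true :: (List.replicate (k - 4) .e ++ v)) := by
  have h1 : List.replicate k Ltr.e = List.replicate 4 .e ++ .e :: List.replicate (k - 5) .e := by
    rw [← List.replicate_succ, ← List.replicate_add]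
    congr 1
    omega
  have h3 := red_step (a := .G) (n := 4) (b := .e) (r := [.G, .e, .H none true, .e])
    (by simp [rho]) (List.replicate (k - 5) .e ++ v)
  have h4 : List.replicate (k - 4) Ltr.e = .e :: List.replicate (k - 5) .e := by
    rw [← List.replicate_succ]
    congr 1
    omega
  rw [h1, h4]
  simpa using h3

lemma G_block {p : ℕ} (hp : 4 ≤ p) (t : Bool × Bool) (c : Bool) (v : List Ltr) :
    Reduces R (.G :: (List.replicate p .e ++ .y t c :: v))
      ([.G] ++ (List.replicate (p / 4) .e ++ .y t (decide (4 ≤ p % 4 + c.toNat)) ::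
          .H (some (Fin.ofNat 4 (p + c.toNat))) false :: v)) := by
  by_cases h5 : 5 ≤ p
  · have h1 := G_step p h5 (.y t c :: v)
    have h2 := (Hblock (p - 4) none true t c v).1 ⟨Or.inr ⟨rfl, by omega⟩, Or.inl rfl⟩
    have h3 := red_trans h1 (red_left h2 [.G, .e])
    have h9 : p / 4 = (p - 4) / 4 + 1 := by omega
    have h10 : p % 4 = (p - 4) % 4 := by omega
    rw [ofNat_sub hp] at h3
    rw [h9, h10, List.replicate_succ]
    simpa using h3
  · have h4 : p = 4 := by omega
    subst h4
    have h1 : rho .G 4 (.y t c) =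
        some [.G, .e, .y t false, .H (some (Fin.ofNat 4 (4 + c.toNat))) false] := by
      simp [rho]
    have h2 := red_step h1 v
    have h3 : decide (4 ≤ 4 % 4 + c.toNat) = false := by
      have := toNat_le c
      rw [decide_eq_false_iff_not]
      omega
    rw [h3]
    simpa using h2

theorem main (p : ℕ) : ∀ (t : Bool × Bool) (c : Bool) (l : List B) (k : ℕ),
    Reduces R (W ((p, t, c) :: l) k) [Z] ↔ k = 0 ∧ Good ((p, t, c) :: l) := by
  induction p using Nat.strong_induction_on with
  | _ p ih =>
    intro t c l k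
    have hW : W ((p, t, c) :: l) k = [.cent] ++ .G :: (List.replicate p .e ++ .y t c ::
        (enc l ++ (List.replicate k .e ++ [dol]))) := by
      simp [W, enc]
    by_cases hp4 : 4 ≤ p
    · -- division by four
      have h1 := red_left (G_block hp4 t c (enc l ++ (List.replicate k .e ++ [dol]))) [.cent]
      rw [hW, red_iff h1]
      by_cases hok : k = 0 ∧ OKH (Fin.ofNat 4 (p + c.toNat)) l
      · obtain ⟨rfl, hok⟩ := hok
        have h2 := red_left (Hrun_ok l _ hok) ([.cent, .G] ++ (List.replicate (p / 4) .e ++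
          [.y t (decide (4 ≤ p % 4 + c.toNat))]))
        have h3 : [Ltr.cent] ++ ([Ltr.G] ++ (List.replicate (p / 4) .e ++
            .y t (decide (4 ≤ p % 4 + c.toNat)) ::
            .H (some (Fin.ofNat 4 (p + c.toNat))) false ::
              (enc l ++ (List.replicate 0 .e ++ [dol])))) =
            ([.cent, .G] ++ (List.replicate (p / 4) .e ++
              [.y t (decide (4 ≤ p % 4 + c.toNat))])) ++
              .H (some (Fin.ofNat 4 (p + c.toNat))) false :: (enc l ++ [dol]) := by
          simp
        rw [h3, red_iff h2]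
        have h4 : ([.cent, .G] ++ (List.replicate (p / 4) .e ++
              [.y t (decide (4 ≤ p % 4 + c.toNat))])) ++ (enc (l.map divB) ++ [dol]) =
            W (divB (p, t, c) :: l.map divB) 0 := by
          simp [W, enc, divB]
        rw [h4]
        have h5 := ih (p / 4) (by omega) t (decide (4 ≤ p % 4 + c.toNat)) (l.map divB) 0
        rw [good_big t c l hp4]
        have h6 : divB (p, t, c) = (p / 4, t, decide (4 ≤ p % 4 + c.toNat)) := rfl
        rw [h6, h5]
        exact ⟨fun h => ⟨rfl, hok, h.2⟩, fun h => ⟨rfl, h.2.2⟩⟩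
      · have h2 := dead_left (Hrun_bad l k _ hok) ([.cent, .G] ++ (List.replicate (p / 4) .e ++
          [.y t (decide (4 ≤ p % 4 + c.toNat))]))
        have h3 := dead_not h2
        rw [good_big t c l hp4]
        constructor
        · intro h4
          exact absurd (by simpa using h4) (by simpa using h3)
        · rintro ⟨h4, h5, -⟩
          exact absurd ⟨h4, h5⟩ hok
    · by_cases hp1 : 1 ≤ p
      · -- the final pass
        have hp3 : p ≤ 3 := by omega
        have h5 : rho .G p (.y t c) = some [.yh t, .K (Fin.ofNat 5 (p + c.toNat))] := by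
          simp only [rho]
          rw [if_neg (by omega), if_pos ⟨hp1, hp3⟩]
        have h1 := red_left (red_step h5 (enc l ++ (List.replicate k .e ++ [dol]))) [.cent]
        rw [hW, red_iff h1, good_small t c l hp1 hp3]
        by_cases hok : k = 0 ∧ OKK (Fin.ofNat 5 (p + c.toNat)) l
        · obtain ⟨rfl, hok⟩ := hok
          have h2 := red_left (Krun_ok l _ hok) [.cent, .yh t]
          have h3 : [Ltr.cent] ++ ([Ltr.yh t, .K (Fin.ofNat 5 (p + c.toNat))] ++
              (enc l ++ (List.replicate 0 .e ++ [dol]))) =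
              [.cent, .yh t] ++ .K (Fin.ofNat 5 (p + c.toNat)) :: (enc l ++ [dol]) := by
            simp
          rw [h3, red_iff h2]
          have h4 : [.cent, .yh t] ++ (l.map (fun a => Ltr.yh a.2.1) ++ [dol]) =
              .cent :: ((t :: l.map (fun a => a.2.1)).map Ltr.yh ++ [dol]) := by
            simp [Function.comp_def]
          rw [h4, brackets]
          exact ⟨fun h => ⟨rfl, hok, h⟩, fun h => h.2.2⟩
        · have h2 := dead_left (Krun_bad l k _ hok) [.cent, .yh t]
          have h3 := dead_not h2
          constructor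
          · intro h4
            exact absurd (by simpa using h4) (by simpa using h3)
          · rintro ⟨h4, h5, -⟩
            exact absurd ⟨h4, h5⟩ hok
      · -- the first block is empty
        have hp0 : p = 0 := by omega
        subst hp0
        have h1 : Dead (.G :: (List.replicate 0 .e ++ .y t c ::
            (enc l ++ (List.replicate k .e ++ [dol])))) := by
          apply dead_mk rfl rfl (by simp) (tail_low l k)
          · intro _
            simp [rho]
          · intro h; omega
        have h2 := dead_not (dead_left h1 [.cent])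
        rw [hW]
        constructor
        · exact fun h => absurd h h2
        · rintro ⟨-, -, ⟨m, hm⟩, -⟩
          have h3 := (hm _ (List.mem_cons_self)).1
          have h4 : 1 ≤ 4 ^ m := Nat.one_le_pow _ _ (by norm_num)
          simp only at h3
          omega

lemma main_nil (k : ℕ) : ¬ Reduces R (W [] k) [Z] := by
  have h1 : Dead (.G :: (List.replicate k .e ++ [dol])) := by
    by_cases hk : 5 ≤ k
    · exact dead_of_red (G_step k hk [dol]) (dead_left (Htail (k - 4) none true (by omega)) _)
    · apply dead_mk rfl rfl (by simp) (by simp)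
      · intro _
        simp [rho]
      · intro h; omega
  have h2 := dead_not (dead_left h1 [.cent])
  simpa [W, enc] using h2

/-! ### The language -/

/-- The terminals. -/
def iota : Sym → Ltr
  | none => .e
  | some t => .y t true

lemma exists_word (w : List Sym) : ∃ (l : List (ℕ × (Bool × Bool))) (k : ℕ),
    w = word l ++ List.replicate k none := by
  induction w with
  | nil => exact ⟨[], 0, rfl⟩
  | cons a w ih =>
    obtain ⟨l, k, hw⟩ := ih
    cases a with
    | none =>
      cases l with
      | nil => exact ⟨[], k + 1, by rw [hw]; simp [word, List.replicate_succ]⟩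
      | cons b l =>
        obtain ⟨p, t⟩ := b
        exact ⟨(p + 1, t) :: l, k, by rw [hw]; simp [word, List.replicate_succ]⟩
    | some t => exact ⟨(0, t) :: l, k, by rw [hw]; simp [word]⟩

lemma map_iota (l : List (ℕ × (Bool × Bool))) :
    (word l).map iota = enc (l.map (fun a => (a.1, a.2, true))) := by
  induction l with
  | nil => rfl
  | cons b l ih =>
    obtain ⟨p, t⟩ := b
    simp [word, enc, iota, ih]

lemma chain_iff (l : List (ℕ × (Bool × Bool))) :
    List.IsChain (fun a b : B => b.1 = a.1 + a.2.2.toNat) (l.map (fun a => (a.1, a.2, true))) ↔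
      List.IsChain (fun a b : ℕ × (Bool × Bool) => b.1 = a.1 + 1) l := by
  induction l with
  | nil => simp
  | cons a l ih =>
    cases l with
    | nil => simp
    | cons b l =>
      simp only [List.map_cons, List.isChain_cons_cons] at ih ⊢
      rw [ih]
      simp

lemma good_iff (l : List (ℕ × (Bool × Bool))) :
    Good (l.map (fun a => (a.1, a.2, true))) ↔
      List.IsChain (fun a b => b.1 = a.1 + 1) l ∧
      (∃ m : ℕ, ∀ a ∈ l, 4 ^ m ≤ a.1 ∧ a.1 < 4 ^ (m + 1)) ∧
      run [] (l.map Prod.snd) = some [] := by
  rw [Good, chain_iff, List.map_map]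
  simp only [List.forall_mem_map]
  rfl

theorem word_iff (l : List (ℕ × (Bool × Bool))) (k : ℕ) :
    Reduces R ([.cent, .G] ++ (word l ++ List.replicate k none).map iota ++ [dol]) [Z] ↔
      k = 0 ∧ l ≠ [] ∧ List.IsChain (fun a b => b.1 = a.1 + 1) l ∧
      (∃ m : ℕ, ∀ a ∈ l, 4 ^ m ≤ a.1 ∧ a.1 < 4 ^ (m + 1)) ∧
      run [] (l.map Prod.snd) = some [] := by
  have h1 : [.cent, .G] ++ (word l ++ List.replicate k none).map iota ++ [dol] =
      W (l.map (fun a => (a.1, a.2, true))) k := by
    rw [List.map_append, map_iota]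
    simp [W, iota]
  rw [h1, ← good_iff]
  cases l with
  | nil => simpa using main_nil k
  | cons a l =>
    rw [List.map_cons, main]
    simp

/-- **`Lang` is a Church-Rosser language.** -/
theorem isChurchRosser_Lang : IsChurchRosser Lang := by
  refine ⟨Ltr, iota, R, [.cent, .G], [.dol], .Z, inferInstance, ?_, ?_, finite, lengthReducing,
    confluent, ?_, ?_, ?_, ?_, irr_len (by simp), irr_Z, ?_⟩
  · intro a b h
    cases a <;> cases b <;> simp_all [iota]
  · intro h
    obtain ⟨a, ha⟩ := h .Z
    cases a <;> simp [iota] at ha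
  · intro g hg
    simp only [List.mem_cons, List.not_mem_nil, or_false] at hg
    rintro ⟨a, ha⟩
    rcases hg with rfl | rfl <;> cases a <;> simp [iota] at ha
  · intro g hg
    simp only [List.mem_cons, List.not_mem_nil, or_false] at hg
    rintro ⟨a, ha⟩
    subst hg
    cases a <;> simp [iota] at ha
  · rintro ⟨a, ha⟩
    cases a <;> simp [iota] at ha
  · intro x hx
    obtain ⟨u, v, a, n, b, r, hr, hx, -⟩ := step_elim hx
    cases u with
    | nil =>
      rw [List.nil_append, List.cons.injEq] at hx
      obtain ⟨rfl, hx⟩ := hx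
      cases n with
      | zero =>
        simp at hx
        rw [← hx.1] at hr
        simp [rho] at hr
      | succ n =>
        rw [List.replicate_succ] at hx
        simp at hx
    | cons c u =>
      have := congrArg List.length hx
      simp at this
      omega
  · intro w
    constructor
    · rintro ⟨l, hl, rfl, h1, h2, h3⟩
      have := (word_iff l 0).mpr ⟨rfl, hl, h1, h2, h3⟩
      simpa using this
    · intro h
      obtain ⟨l, k, rfl⟩ := exists_word w
      obtain ⟨rfl, hl, h1, h2, h3⟩ := (word_iff l k).mp h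
      exact ⟨l, hl, by simp, h1, h2, h3⟩

end Pool.Agent.Helper92.CRLA
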