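import Mathlib
import Pool.Agent.Helper92.Crypto

/-!
# Death levels

For a state `S` of the cryptogenography game and a scale `w` the volume `J` of the set of
all `v` (one coordinate `0 < v j < S j none` for every player) for which, for every `l` with
`2 ≤ l ≤ r`, fewer than `l` players have `v j < w * c l * S j (some false)`, and fewer than `l`
players have `S j none - v j < w * c l * S j (some true)`.
-/

namespace Pool.Agent.Helper92.Crypto

open Finset MeasureTheory
open scoped ENNReal

variable {k : ℕ}

open Classical in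
/-- fewer than `l` players with `v i < w * c l * x i`, for all `l` with `2 ≤ l ≤ r` -/
def okk (c : ℕ → ℝ) (r : ℕ) (w : ℝ) (x v : Fin k → ℝ) : Prop :=
  ∀ l ∈ Finset.Icc 2 r, #{i | v i < w * c l * x i} < l

/-- the set whose volume is `J` -/
def ES (c : ℕ → ℝ) (r : ℕ) (w : ℝ) (S : Fin k → Option Bool → ℝ) : Set (Fin k → ℝ) :=
  {v | (∀ j, 0 < v j ∧ v j < S j none) ∧ okk c r w (fun i => S i (some false)) v ∧
    okk c r w (fun i => S i (some true)) (fun i => S i none - v i)}

/-- the volume -/
noncomputable def J (c : ℕ → ℝ) (r : ℕ) (w : ℝ) (S : Fin k → Option Bool → ℝ) : ℝ≥0∞ :=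
  volume (ES c r w S)

open Classical in
theorem measurableSet_card_lt (a : Fin k → ℝ) (l : ℕ) :
    MeasurableSet {v : Fin k → ℝ | #{i | v i < a i} < l} := by
  have h : Measurable fun v : Fin k → ℝ => #{i | v i < a i} := by
    have : (fun v : Fin k → ℝ => #{i | v i < a i}) =
        fun v => ∑ i, if v i < a i then 1 else 0 := by
      funext v
      rw [Finset.card_filter]
    rw [this]
    refine Finset.measurable_sum _ fun i _ => ?_
    exact Measurable.ite (measurableSet_lt (measurable_pi_apply i) measurable_const)
      measurable_const measurable_const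
  exact h (measurableSet_Iio (a := l))

theorem measurableSet_okk (c : ℕ → ℝ) (r : ℕ) (w : ℝ) (x : Fin k → ℝ) :
    MeasurableSet {v : Fin k → ℝ | okk c r w x v} := by
  have : {v : Fin k → ℝ | okk c r w x v} =
      ⋂ l ∈ Finset.Icc 2 r, {v : Fin k → ℝ | #{i | v i < w * c l * x i} < l} := by
    ext v
    simp only [okk, Set.mem_ofPred_eq, Set.mem_iInter]
  rw [this]
  exact Finset.measurableSet_biInter _ fun l _ => measurableSet_card_lt _ l

theorem measurableSet_ES (c : ℕ → ℝ) (r : ℕ) (w : ℝ) (S : Fin k → Option Bool → ℝ) :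
    MeasurableSet (ES c r w S) := by
  have h1 : MeasurableSet {v : Fin k → ℝ | ∀ j, 0 < v j ∧ v j < S j none} := by
    rw [Set.ofPred_forall]
    refine MeasurableSet.iInter fun j => ?_
    exact (measurableSet_lt measurable_const (measurable_pi_apply j)).inter
      (measurableSet_lt (measurable_pi_apply j) measurable_const)
  have h2 : MeasurableSet {v : Fin k → ℝ |
      okk c r w (fun i => S i (some true)) (fun i => S i none - v i)} := by
    have hm : Measurable fun v : Fin k → ℝ => fun i => S i none - v i :=
      measurable_pi_lambda _ fun i => measurable_const.sub (measurable_pi_apply i)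
    exact hm (measurableSet_okk c r w _)
  exact h1.inter ((measurableSet_okk c r w _).inter h2)

open Classical in
/-- dependence of `okk` on one coordinate -/
theorem okk_section (c : ℕ → ℝ) (hc0 : ∀ l, 0 ≤ c l) (hc : Monotone c) (r : ℕ) (w : ℝ)
    (hw : 0 ≤ w) (j : Fin k) (x v : Fin k → ℝ) :
    (∀ a y, ¬ okk c r w (Function.update x j a) (Function.update v j y)) ∨
    ∃ D, 0 ≤ D ∧ D ≤ c r ∧ ∀ a y, 0 ≤ a → 0 ≤ y →
      (okk c r w (Function.update x j a) (Function.update v j y) ↔ w * (D * a) ≤ y) := by
  set A : ℕ → ℕ := fun l => #{i | i ≠ j ∧ v i < w * c l * x i} with hA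
  have key : ∀ l a y, #{i | Function.update v j y i < w * c l * Function.update x j a i} =
      A l + if y < w * c l * a then 1 else 0 := by
    intro l a y
    have h1 : ({i | Function.update v j y i < w * c l * Function.update x j a i} : Finset (Fin k)) =
        ({i | i ≠ j ∧ v i < w * c l * x i} : Finset (Fin k)) ∪
          (if y < w * c l * a then {j} else ∅) := by
      ext i
      by_cases hi : i = j
      · subst hi
        by_cases hy : y < w * c l * a <;> simp [hy]
      · by_cases hy : y < w * c l * a <;> simp [hy, hi]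
    rw [h1, Finset.card_union_of_disjoint]
    · congr 1
      split_ifs <;> simp
    · rw [Finset.disjoint_left]
      intro i hi
      split_ifs
      · simp only [Finset.mem_singleton]
        simp only [mem_filter] at hi
        exact hi.2.1
      · simp
  by_cases hbad : ∃ l ∈ Finset.Icc 2 r, l ≤ A l
  · left
    obtain ⟨l, hl, hle⟩ := hbad
    intro a y h
    have := h l hl
    rw [key] at this
    omega
  · right
    push Not at hbad
    set Tt : Finset ℕ := (Finset.Icc 2 r).filter (fun l => A l + 1 = l) with hTt
    have hiff : ∀ a y, okk c r w (Function.update x j a) (Function.update v j y) ↔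
        ∀ l ∈ Tt, w * c l * a ≤ y := by
      intro a y
      constructor
      · intro h l hl
        rw [hTt, mem_filter] at hl
        have := h l hl.1
        rw [key] at this
        by_contra hcon
        push Not at hcon
        rw [if_pos hcon] at this
        omega
      · intro h l hl
        rw [key]
        have h1 := hbad l hl
        by_cases ht : A l + 1 = l
        · have := h l (by rw [hTt, mem_filter]; exact ⟨hl, ht⟩)
          rw [if_neg (not_lt.mpr this)]
          omega
        · split_ifs <;> omega
    by_cases hne : Tt.Nonempty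
    · refine ⟨c (Tt.max' hne), hc0 _, ?_, ?_⟩
      · apply hc
        have h3 : ∀ l ∈ Tt, l ≤ r := by
          intro l hl
          rw [hTt, mem_filter, Finset.mem_Icc] at hl
          exact hl.1.2
        exact h3 _ (Finset.max'_mem Tt hne)
      · intro a y ha hy
        rw [hiff]
        constructor
        · intro h
          have := h _ (Finset.max'_mem Tt hne)
          rw [← mul_assoc]; exact this
        · intro h l hl
          have h1 : c l ≤ c (Tt.max' hne) := hc (Finset.le_max' Tt l hl)
          refine le_trans ?_ h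
          rw [← mul_assoc]
          exact mul_le_mul_of_nonneg_right (mul_le_mul_of_nonneg_left h1 hw) ha
    · refine ⟨0, le_rfl, hc0 _, ?_⟩
      intro a y ha hy
      rw [hiff]
      rw [Finset.not_nonempty_iff_eq_empty] at hne
      rw [hne]
      simpa using hy

/-- one dimensional section of `ES` -/
noncomputable def gsec (c : ℕ → ℝ) (r : ℕ) (w : ℝ) (S : Fin k → Option Bool → ℝ) (j : Fin k)
    (p : Option Bool → ℝ) (v : Fin k → ℝ) : ℝ≥0∞ :=
  ∫⁻ y : ℝ, (ES c r w (Function.update S j p)).indicator (fun _ => (1 : ℝ≥0∞))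
    (Function.update v j y)

theorem J_eq_lmarginal (c : ℕ → ℝ) (r : ℕ) (w : ℝ) (S : Fin k → Option Bool → ℝ) (j : Fin k)
    (p : Option Bool → ℝ) (v0 : Fin k → ℝ) :
    J c r w (Function.update S j p) =
      lmarginal (fun _ => volume) (univ.erase j) (gsec c r w S j p) v0 := by
  have hm : Measurable ((ES c r w (Function.update S j p)).indicator
      (fun _ => (1 : ℝ≥0∞)) : (Fin k → ℝ) → ℝ≥0∞) :=
    measurable_const.indicator (measurableSet_ES c r w _)
  have h1 : J c r w (Function.update S j p) =
      ∫⁻ v, (ES c r w (Function.update S j p)).indicator (fun _ => (1 : ℝ≥0∞)) v := by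
    rw [lintegral_indicator (measurableSet_ES c r w _)]
    simp [J]
  rw [h1, volume_pi, lintegral_eq_lmarginal_univ v0,
    lmarginal_erase' _ hm (i := j) (mem_univ j)]
  rfl

theorem measurable_gsec (c : ℕ → ℝ) (r : ℕ) (w : ℝ) (S : Fin k → Option Bool → ℝ) (j : Fin k)
    (p : Option Bool → ℝ) : Measurable (gsec c r w S j p) := by
  have hm : Measurable ((ES c r w (Function.update S j p)).indicator
      (fun _ => (1 : ℝ≥0∞)) : (Fin k → ℝ) → ℝ≥0∞) :=
    measurable_const.indicator (measurableSet_ES c r w _)
  have := hm.lmarginal (fun _ : Fin k => (volume : Measure ℝ)) (s := {j})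
  rw [lmarginal_singleton] at this
  exact this

/-- formula for the sections -/
theorem gsec_formula (c : ℕ → ℝ) (hc0 : ∀ l, 0 ≤ c l) (hc : Monotone c) (r : ℕ) (w : ℝ)
    (hw : 0 ≤ w) (S : Fin k → Option Bool → ℝ) (j : Fin k) (v : Fin k → ℝ) :
    (∀ p : Option Bool → ℝ, (∀ o, 0 ≤ p o) → gsec c r w S j p v = 0) ∨
    ∃ D D', 0 ≤ D ∧ D ≤ c r ∧ 0 ≤ D' ∧ D' ≤ c r ∧ ∀ p : Option Bool → ℝ, (∀ o, 0 ≤ p o) →
      gsec c r w S j p v =
        ENNReal.ofReal (p none - w * (D * p (some false)) - w * (D' * p (some true))) := by
  have upd : ∀ (p : Option Bool → ℝ) (o : Option Bool),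
      (fun i => Function.update S j p i o) = Function.update (fun i => S i o) j (p o) := by
    intro p o
    funext i
    by_cases hi : i = j
    · subst hi; simp
    · simp [hi]
  have upd2 : ∀ (p : Option Bool → ℝ) (y : ℝ),
      (fun i => Function.update S j p i none - Function.update v j y i) =
        Function.update (fun i => S i none - v i) j (p none - y) := by
    intro p y
    funext i
    by_cases hi : i = j
    · subst hi; simp
    · simp [hi]
  have mem : ∀ (p : Option Bool → ℝ) (y : ℝ),
      Function.update v j y ∈ ES c r w (Function.update S j p) ↔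
      (∀ i, i ≠ j → 0 < v i ∧ v i < S i none) ∧ (0 < y ∧ y < p none) ∧
      okk c r w (Function.update (fun i => S i (some false)) j (p (some false)))
        (Function.update v j y) ∧
      okk c r w (Function.update (fun i => S i (some true)) j (p (some true)))
        (Function.update (fun i => S i none - v i) j (p none - y)) := by
    intro p y
    simp only [ES, Set.mem_ofPred_eq, upd, upd2]
    have hbx : (∀ i, 0 < Function.update v j y i ∧
        Function.update v j y i < Function.update S j p i none) ↔
        (∀ i, i ≠ j → 0 < v i ∧ v i < S i none) ∧ (0 < y ∧ y < p none) := by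
      constructor
      · intro h
        refine ⟨fun i hi => ?_, ?_⟩
        · have := h i
          rwa [Function.update_of_ne hi, Function.update_of_ne hi] at this
        · have := h j
          rwa [Function.update_self, Function.update_self] at this
      · rintro ⟨h1, h2⟩ i
        by_cases hi : i = j
        · subst hi; rw [Function.update_self, Function.update_self]; exact h2
        · rw [Function.update_of_ne hi, Function.update_of_ne hi]; exact h1 i hi
    rw [hbx, and_assoc]
  have gz : ∀ p : Option Bool → ℝ,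
      (∀ y, Function.update v j y ∉ ES c r w (Function.update S j p)) →
      gsec c r w S j p v = 0 := by
    intro p h
    unfold gsec
    rw [lintegral_eq_zero_iff' ?_]
    · filter_upwards with y
      rw [Set.indicator_of_notMem (h y)]
      rfl
    · have : (fun y : ℝ => (ES c r w (Function.update S j p)).indicator
          (fun _ => (1 : ℝ≥0∞)) (Function.update v j y)) = fun _ => 0 := by
        funext y
        rw [Set.indicator_of_notMem (h y)]
      rw [this]
      exact aemeasurable_const
  by_cases hbox : ∀ i, i ≠ j → 0 < v i ∧ v i < S i none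
  swap
  · left
    intro p _
    refine gz p fun y hy => hbox ((mem p y).mp hy).1
  rcases okk_section c hc0 hc r w hw j (fun i => S i (some false)) v with hA | ⟨D, hD0, hD1, hA⟩
  · left
    intro p _
    exact gz p fun y hy => hA _ _ ((mem p y).mp hy).2.2.1
  rcases okk_section c hc0 hc r w hw j (fun i => S i (some true)) (fun i => S i none - v i) with
    hB | ⟨D', hD0', hD1', hB⟩
  · left
    intro p _
    exact gz p fun y hy => hB _ _ ((mem p y).mp hy).2.2.2
  right
  refine ⟨D, D', hD0, hD1, hD0', hD1', fun p hp => ?_⟩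
  set lo : ℝ := w * (D * p (some false)) with hlo
  set hi : ℝ := p none - w * (D' * p (some true)) with hhi
  have hlo0 : 0 ≤ lo := mul_nonneg hw (mul_nonneg hD0 (hp _))
  have hhi0 : hi ≤ p none := by
    have : 0 ≤ w * (D' * p (some true)) := mul_nonneg hw (mul_nonneg hD0' (hp _))
    linarith
  have hset : ∀ y, Function.update v j y ∈ ES c r w (Function.update S j p) ↔
      (0 < y ∧ y < p none) ∧ lo ≤ y ∧ y ≤ hi := by
    intro y
    rw [mem]
    constructor
    · rintro ⟨_, hy, h1, h2⟩
      refine ⟨hy, ?_, ?_⟩
      · exact (hA _ _ (hp _) hy.1.le).mp h1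
      · have := (hB _ _ (hp _) (by linarith [hy.2])).mp h2
        linarith
    · rintro ⟨hy, h1, h2⟩
      refine ⟨hbox, hy, ?_, ?_⟩
      · exact (hA _ _ (hp _) hy.1.le).mpr h1
      · exact (hB _ _ (hp _) (by linarith [hy.2])).mpr (by linarith)
  set Q : Set ℝ := Set.Ioo 0 (p none) ∩ Set.Icc lo hi with hQdef
  have hQ : ∀ y, y ∈ Q ↔ (0 < y ∧ y < p none) ∧ lo ≤ y ∧ y ≤ hi := fun y => by
    rw [hQdef, Set.mem_inter_iff, Set.mem_Ioo, Set.mem_Icc]
  have hg : gsec c r w S j p v = volume Q := by
    unfold gsec
    have hms : MeasurableSet Q := measurableSet_Ioo.inter measurableSet_Icc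
    rw [← lintegral_indicator_one hms]
    refine lintegral_congr fun y => ?_
    by_cases hy : Function.update v j y ∈ ES c r w (Function.update S j p)
    · rw [Set.indicator_of_mem hy, Set.indicator_of_mem ((hQ y).mpr ((hset y).mp hy))]; rfl
    · rw [Set.indicator_of_notMem hy,
        Set.indicator_of_notMem fun h => hy ((hset y).mpr ((hQ y).mp h))]
  rw [hg]
  have e : p none - w * (D * p (some false)) - w * (D' * p (some true)) = hi - lo := by
    rw [hlo, hhi]; ring
  rw [e]
  apply le_antisymm
  · calc volume Q ≤ volume (Set.Icc lo hi) := measure_mono Set.inter_subset_right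
      _ = _ := Real.volume_Icc
  · calc ENNReal.ofReal (hi - lo) = volume (Set.Ioo lo hi) := Real.volume_Ioo.symm
      _ ≤ _ := by
        refine measure_mono fun y hy => ?_
        rw [Set.mem_Ioo] at hy
        exact (hQ y).mpr ⟨⟨lt_of_le_of_lt hlo0 hy.1, lt_of_lt_of_le hy.2 hhi0⟩, hy.1.le, hy.2.le⟩

theorem J_le_add (c : ℕ → ℝ) (r : ℕ) (w : ℝ) (S : Fin k → Option Bool → ℝ) (j : Fin k)
    (p q t : Option Bool → ℝ) (h : ∀ v, gsec c r w S j t v ≤ gsec c r w S j p v +
      gsec c r w S j q v) :
    J c r w (Function.update S j t) ≤ J c r w (Function.update S j p) +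
      J c r w (Function.update S j q) := by
  rw [J_eq_lmarginal c r w S j t 0, J_eq_lmarginal c r w S j p 0, J_eq_lmarginal c r w S j q 0]
  unfold lmarginal
  rw [← lintegral_add_left]
  · exact lintegral_mono fun y => h _
  · exact (measurable_gsec c r w S j p).comp measurable_updateFinset

theorem add_le_J (c : ℕ → ℝ) (r : ℕ) (w : ℝ) (S : Fin k → Option Bool → ℝ) (j : Fin k)
    (p q t : Option Bool → ℝ) (h : ∀ v, gsec c r w S j p v + gsec c r w S j q v ≤
      gsec c r w S j t v) :
    J c r w (Function.update S j p) + J c r w (Function.update S j q) ≤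
      J c r w (Function.update S j t) := by
  rw [J_eq_lmarginal c r w S j t 0, J_eq_lmarginal c r w S j p 0, J_eq_lmarginal c r w S j q 0]
  unfold lmarginal
  refine le_trans (le_lintegral_add _ _) ?_
  exact lintegral_mono fun y => h _

/-- `J` is subadditive in each player. -/
theorem J_sub (c : ℕ → ℝ) (hc0 : ∀ l, 0 ≤ c l) (hc : Monotone c) (r : ℕ) (w : ℝ)
    (hw : 0 ≤ w) (S : Fin k → Option Bool → ℝ) (j : Fin k) (p q : Option Bool → ℝ)
    (hp : ∀ o, 0 ≤ p o) (hq : ∀ o, 0 ≤ q o) :
    J c r w (Function.update S j (p + q)) ≤ J c r w (Function.update S j p) +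
      J c r w (Function.update S j q) := by
  apply J_le_add
  intro v
  have hpq : ∀ o, 0 ≤ (p + q) o := fun o => add_nonneg (hp o) (hq o)
  rcases gsec_formula c hc0 hc r w hw S j v with h | ⟨D, D', _, _, _, _, h⟩
  · rw [h _ hpq]; exact zero_le
  · rw [h _ hpq, h _ hp, h _ hq]
    refine le_trans (ENNReal.ofReal_le_ofReal ?_) ENNReal.ofReal_add_le
    apply le_of_eq
    simp only [Pi.add_apply]
    ring

/-- a state of a player for which no level is saturated -/
def light (c : ℕ → ℝ) (r : ℕ) (w : ℝ) (p : Option Bool → ℝ) : Prop :=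
  (∀ o, 0 ≤ p o) ∧ w * c r * (p (some false) + p (some true)) ≤ p none

theorem light_nonneg (c : ℕ → ℝ) (r : ℕ) (w : ℝ) (hw : 0 ≤ w) (p : Option Bool → ℝ)
    (hp : light c r w p) (D D' : ℝ) (hD : D ≤ c r) (hD' : D' ≤ c r) :
    0 ≤ p none - w * (D * p (some false)) - w * (D' * p (some true)) := by
  have h1 : w * (D * p (some false)) ≤ w * (c r * p (some false)) :=
    mul_le_mul_of_nonneg_left (mul_le_mul_of_nonneg_right hD (hp.1 _)) hw
  have h2 : w * (D' * p (some true)) ≤ w * (c r * p (some true)) :=
    mul_le_mul_of_nonneg_left (mul_le_mul_of_nonneg_right hD' (hp.1 _)) hw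
  have h3 := hp.2
  nlinarith

/-- `J` is additive on light states. -/
theorem J_add (c : ℕ → ℝ) (hc0 : ∀ l, 0 ≤ c l) (hc : Monotone c) (r : ℕ) (w : ℝ)
    (hw : 0 ≤ w) (S : Fin k → Option Bool → ℝ) (j : Fin k) (p q : Option Bool → ℝ)
    (hp : light c r w p) (hq : light c r w q) :
    J c r w (Function.update S j (p + q)) = J c r w (Function.update S j p) +
      J c r w (Function.update S j q) := by
  apply le_antisymm (J_sub c hc0 hc r w hw S j p q hp.1 hq.1)
  apply add_le_J
  intro v
  have hpq : ∀ o, 0 ≤ (p + q) o := fun o => add_nonneg (hp.1 o) (hq.1 o)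
  rcases gsec_formula c hc0 hc r w hw S j v with h | ⟨D, D', _, hD, _, hD', h⟩
  · rw [h _ hp.1, h _ hq.1, add_zero]; exact zero_le
  · rw [h _ hpq, h _ hp.1, h _ hq.1, ← ENNReal.ofReal_add (light_nonneg c r w hw p hp D D' hD hD')
      (light_nonneg c r w hw q hq D D' hD hD')]
    apply ENNReal.ofReal_le_ofReal
    apply le_of_eq
    simp only [Pi.add_apply]
    ring

/-- `J` is homogeneous in each player. -/
theorem J_smul (c : ℕ → ℝ) (hc0 : ∀ l, 0 ≤ c l) (hc : Monotone c) (r : ℕ) (w : ℝ)
    (hw : 0 ≤ w) (S : Fin k → Option Bool → ℝ) (j : Fin k) (p : Option Bool → ℝ)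
    (hp : ∀ o, 0 ≤ p o) (t : ℝ) (ht : 0 ≤ t) :
    J c r w (Function.update S j (fun o => t * p o)) =
      ENNReal.ofReal t * J c r w (Function.update S j p) := by
  rw [J_eq_lmarginal c r w S j _ 0, J_eq_lmarginal c r w S j p 0]
  unfold lmarginal
  rw [← lintegral_const_mul' _ _ ENNReal.ofReal_ne_top]
  refine lintegral_congr fun y => ?_
  have htp : ∀ o, 0 ≤ t * p o := fun o => mul_nonneg ht (hp o)
  rcases gsec_formula c hc0 hc r w hw S j (Function.updateFinset 0 (univ.erase j) y) with
    h | ⟨D, D', _, _, _, _, h⟩
  · rw [h _ htp, h _ hp, mul_zero]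
  · rw [h _ htp, h _ hp, ← ENNReal.ofReal_mul ht]
    congr 1
    ring

end Pool.Agent.Helper92.Crypto
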