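import Mathlib
import Pool.Agent.Helper92.CryptoJ

/-!
# The potential built from death levels
-/

namespace Pool.Agent.Helper92.Crypto

open Finset MeasureTheory
open scoped ENNReal

variable {k : ℕ}

/-! ### The potential argument with values in `[0, ∞]` -/

theorem win_leaf {Ω : Fin k → Type} [∀ i, Fintype (Ω i)] (out : Bool)
    (A : ∀ i, Option Bool → Ω i → ℝ) (m : Fin k) :
    win (Tree.leaf out) A (fun _ => m) = ∑ j, wt (mass A) out j - wt (mass A) out m := by
  classical
  have key : win (Tree.leaf out) A (fun _ => m) =
      ∑ x : Bool, ∑ j : Fin k, wt (mass A) x j * (if out = x ∧ m ≠ j then (1 : ℝ) else 0) := by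
    unfold win
    refine Finset.sum_congr rfl fun x _ => Finset.sum_congr rfl fun j _ => ?_
    have : wt (mass A) x j = ∑ ω : (∀ i, Ω i), ∏ i, A i (inp x i j) (ω i) := by
      rw [sum_pi_prod]; rfl
    rw [this, Finset.sum_mul]
    refine Finset.sum_congr rfl fun ω _ => ?_
    congr 1
  rw [key, Finset.sum_eq_single out]
  · have : ∑ j, wt (mass A) out j - wt (mass A) out m =
        ∑ j, (wt (mass A) out j - if j = m then wt (mass A) out j else 0) := by
      rw [Finset.sum_sub_distrib]
      simp
    rw [this]
    apply Finset.sum_congr rfl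
    intro j _
    by_cases h : m = j
    · subst h; simp
    · have h' : j ≠ m := fun e => h e.symm
      simp [h, h']
  · intro b _ hb
    apply Finset.sum_eq_zero
    intro j _
    have : ¬ (out = b) := fun e => hb e.symm
    simp [this]
  · intro h; exact absurd (mem_univ _) h

/-- superadditivity for potentials with values in `[0, ∞]` -/
def ESuper (F : (Fin k → Option Bool → ℝ) → ℝ≥0∞) : Prop :=
  ∀ (i : Fin k) (S : Fin k → Option Bool → ℝ) (p q : Option Bool → ℝ),
    (∀ l o, 0 ≤ S l o) → (∀ o, 0 ≤ p o) → (∀ o, 0 ≤ q o) →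
      F (Function.update S i p) + F (Function.update S i q) ≤ F (Function.update S i (p + q))

/-- the potential dominates the payoff of stopping at once -/
def EMajor (F : (Fin k → Option Bool → ℝ) → ℝ≥0∞) : Prop :=
  ∀ (S : Fin k → Option Bool → ℝ), (∀ l o, 0 ≤ S l o) →
    ∀ out, ∃ m, ENNReal.ofReal (∑ j, wt S out j - wt S out m) ≤ F S

theorem exists_guess_ele (hk : 0 < k) {F : (Fin k → Option Bool → ℝ) → ℝ≥0∞} (hM : EMajor F)
    (hS : ESuper F) {Ω : Fin k → Type} [∀ i, Fintype (Ω i)] (T : Tree k Ω) :
    ∀ (A : ∀ i, Option Bool → Ω i → ℝ), (∀ i o r, 0 ≤ A i o r) →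
      ∃ g, ENNReal.ofReal (win T A g) ≤ F (mass A) := by
  classical
  induction T with
  | leaf out =>
    intro A hA
    obtain ⟨m, hm⟩ := hM (mass A) (mass_nonneg A hA) out
    exact ⟨fun _ => m, by rw [win_leaf]; exact hm⟩
  | node i msg t f iht ihf =>
    intro A hA
    obtain ⟨g1, h1⟩ := iht (restrict A i msg true) (restrict_nonneg A hA i msg true)
    obtain ⟨g2, h2⟩ := ihf (restrict A i msg false) (restrict_nonneg A hA i msg false)
    refine ⟨fun l => match l with
      | [] => ⟨0, hk⟩
      | true :: l => g1 l
      | false :: l => g2 l, ?_⟩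
    rw [win_node]
    rw [mass_restrict] at h1 h2
    have hs := hS i (mass A) (fun o => ∑ r, if msg o r = true then A i o r else 0)
      (fun o => ∑ r, if msg o r = false then A i o r else 0) (mass_nonneg A hA)
      (fun o => Finset.sum_nonneg fun r _ => by split_ifs; exacts [hA _ _ _, le_rfl])
      (fun o => Finset.sum_nonneg fun r _ => by split_ifs; exacts [hA _ _ _, le_rfl])
    rw [mass_restrict_add] at hs
    exact le_trans ENNReal.ofReal_add_le (le_trans (add_le_add h1 h2) hs)

theorem cryptoValue_le_of_epotential (hk : 0 < k) {F : (Fin k → Option Bool → ℝ) → ℝ≥0∞}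
    (hM : EMajor F) (hS : ESuper F) (B : ℝ) (hB0 : 0 ≤ B)
    (hB : F (fun _ _ => 1) ≤ ENNReal.ofReal B) : cryptoValue k ≤ 1 / (2 * (k : ℝ)) * B := by
  refine ciSup_le fun P => ?_
  obtain ⟨g, hg⟩ := exists_guess_ele hk hM hS P.tree (fun i _ r => P.μ i r)
    (fun i _ r => P.μ_nonneg i r)
  have hw : mass (fun i (_ : Option Bool) r => P.μ i r) = fun _ _ => (1 : ℝ) := by
    funext i o
    exact P.μ_sum i
  rw [hw] at hg
  have h1 := le_trans hg hB
  rw [ENNReal.ofReal_le_ofReal_iff hB0] at h1
  refine le_trans (ciInf_le (bddBelow_winProb P) g) ?_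
  rw [winProb_eq_win]
  exact mul_le_mul_of_nonneg_left h1 (by positivity)

/-! ### Splitting several players -/

/-- repeated splitting, superadditive version -/
theorem split_ge {F : (Fin k → Option Bool → ℝ) → ℝ≥0∞} (hF : ESuper F)
    (f g : Fin k → Option Bool → ℝ) (hf : ∀ i o, 0 ≤ f i o) (hg : ∀ i o, 0 ≤ g i o)
    (s : Finset (Fin k)) (S : Fin k → Option Bool → ℝ) (hS : ∀ i o, 0 ≤ S i o)
    (e : ∀ i ∈ s, S i = f i + g i) :
    ∑ T ∈ s.powerset, F (fun i => if i ∈ T then f i else if i ∈ s then g i else S i) ≤ F S := by
  induction s using Finset.induction_on with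
  | empty => simp
  | insert i s hi ih =>
    refine le_trans ?_ (ih fun j hj => e j (mem_insert_of_mem hj))
    rw [Finset.sum_powerset_insert hi, ← Finset.sum_add_distrib]
    refine Finset.sum_le_sum fun T hT => ?_
    have hTs : T ⊆ s := mem_powerset.mp hT
    have hiT : i ∉ T := fun h => hi (hTs h)
    have h := hF i (fun j => if j ∈ T then f j else if j ∈ s then g j else S j) (f i) (g i)
      (by intro j o
          by_cases h1 : j ∈ T
          · simp only [h1, if_true]; exact hf j o
          · by_cases h2 : j ∈ s
            · simp only [h1, h2, if_true, if_false]; exact hg j o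
            · simp only [h1, h2, if_false]; exact hS j o) (hf i) (hg i)
    have u0 : Function.update (fun j => if j ∈ T then f j else if j ∈ s then g j else S j) i
        (f i + g i) = fun j => if j ∈ T then f j else if j ∈ s then g j else S j := by
      funext j
      by_cases hj : j = i
      · subst hj; simp [hiT, hi, e j (mem_insert_self j s)]
      · rw [Function.update_of_ne hj]
    have u1 : Function.update (fun j => if j ∈ T then f j else if j ∈ s then g j else S j) i
        (f i) = fun j => if j ∈ insert i T then f j else if j ∈ insert i s then g j else S j := by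
      funext j
      by_cases hj : j = i
      · subst hj; simp
      · rw [Function.update_of_ne hj]; simp [hj]
    have u2 : Function.update (fun j => if j ∈ T then f j else if j ∈ s then g j else S j) i
        (g i) = fun j => if j ∈ T then f j else if j ∈ insert i s then g j else S j := by
      funext j
      by_cases hj : j = i
      · subst hj; simp [hiT]
      · rw [Function.update_of_ne hj]; simp [hj]
    rw [u0, u1, u2] at h
    rw [add_comm]
    exact h

/-- repeated splitting for an additive function on a class `Q` of states of a player -/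
theorem split_eq {F : (Fin k → Option Bool → ℝ) → ℝ≥0∞} (Q : (Option Bool → ℝ) → Prop)
    (hF : ∀ (i : Fin k) (S : Fin k → Option Bool → ℝ) (p q : Option Bool → ℝ), Q p → Q q →
      F (Function.update S i (p + q)) = F (Function.update S i p) + F (Function.update S i q))
    (f g : Fin k → Option Bool → ℝ) (s : Finset (Fin k)) (S : Fin k → Option Bool → ℝ)
    (hf : ∀ i ∈ s, Q (f i)) (hg : ∀ i ∈ s, Q (g i)) (e : ∀ i ∈ s, S i = f i + g i) :
    F S = ∑ T ∈ s.powerset, F (fun i => if i ∈ T then f i else if i ∈ s then g i else S i) := by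
  induction s using Finset.induction_on with
  | empty => simp
  | insert i s hi ih =>
    rw [ih (fun j hj => hf j (mem_insert_of_mem hj)) (fun j hj => hg j (mem_insert_of_mem hj))
      (fun j hj => e j (mem_insert_of_mem hj))]
    rw [Finset.sum_powerset_insert hi, ← Finset.sum_add_distrib]
    refine Finset.sum_congr rfl fun T hT => ?_
    have hTs : T ⊆ s := mem_powerset.mp hT
    have hiT : i ∉ T := fun h => hi (hTs h)
    have h := hF i (fun j => if j ∈ T then f j else if j ∈ s then g j else S j) (f i) (g i)
      (hf i (mem_insert_self i s)) (hg i (mem_insert_self i s))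
    have u0 : Function.update (fun j => if j ∈ T then f j else if j ∈ s then g j else S j) i
        (f i + g i) = fun j => if j ∈ T then f j else if j ∈ s then g j else S j := by
      funext j
      by_cases hj : j = i
      · subst hj; simp [hiT, hi, e j (mem_insert_self j s)]
      · rw [Function.update_of_ne hj]
    have u1 : Function.update (fun j => if j ∈ T then f j else if j ∈ s then g j else S j) i
        (f i) = fun j => if j ∈ insert i T then f j else if j ∈ insert i s then g j else S j := by
      funext j
      by_cases hj : j = i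
      · subst hj; simp
      · rw [Function.update_of_ne hj]; simp [hj]
    have u2 : Function.update (fun j => if j ∈ T then f j else if j ∈ s then g j else S j) i
        (g i) = fun j => if j ∈ T then f j else if j ∈ insert i s then g j else S j := by
      funext j
      by_cases hj : j = i
      · subst hj; simp [hiT]
      · rw [Function.update_of_ne hj]; simp [hj]
    rw [u0, u1, u2] at h
    rw [h, add_comm]

/-- homogeneity in several players -/
theorem smul_all {F : (Fin k → Option Bool → ℝ) → ℝ≥0∞}
    (hF : ∀ (i : Fin k) (S : Fin k → Option Bool → ℝ) (p : Option Bool → ℝ) (t : ℝ),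
      (∀ l o, 0 ≤ S l o) → (∀ o, 0 ≤ p o) → 0 ≤ t →
      F (Function.update S i (fun o => t * p o)) = ENNReal.ofReal t * F (Function.update S i p))
    (t : Fin k → ℝ) (ht : ∀ i, 0 ≤ t i) (S : Fin k → Option Bool → ℝ) (hS : ∀ i o, 0 ≤ S i o)
    (s : Finset (Fin k)) :
    F (fun i o => (if i ∈ s then t i else 1) * S i o) = ENNReal.ofReal (∏ i ∈ s, t i) * F S := by
  induction s using Finset.induction_on with
  | empty => simp
  | insert i s hi ih =>
    have h := hF i (fun j o => (if j ∈ s then t j else 1) * S j o) (S i) (t i)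
      (by intro l o
          refine mul_nonneg ?_ (hS l o)
          split_ifs
          · exact ht l
          · exact zero_le_one) (hS i) (ht i)
    have u1 : Function.update (fun j o => (if j ∈ s then t j else 1) * S j o) i
        (fun o => t i * S i o) = fun j o => (if j ∈ insert i s then t j else 1) * S j o := by
      funext j o
      by_cases hj : j = i
      · subst hj; simp
      · rw [Function.update_of_ne hj]; simp [hj]
    have u2 : Function.update (fun j o => (if j ∈ s then t j else 1) * S j o) i (S i) =
        fun j o => (if j ∈ s then t j else 1) * S j o := by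
      funext j o
      by_cases hj : j = i
      · subst hj; simp [hi]
      · rw [Function.update_of_ne hj]
    rw [u1, u2, ih] at h
    rw [h, ← mul_assoc, ← ENNReal.ofReal_mul (ht i), Finset.prod_insert hi]

theorem smul_univ {F : (Fin k → Option Bool → ℝ) → ℝ≥0∞}
    (hF : ∀ (i : Fin k) (S : Fin k → Option Bool → ℝ) (p : Option Bool → ℝ) (t : ℝ),
      (∀ l o, 0 ≤ S l o) → (∀ o, 0 ≤ p o) → 0 ≤ t →
      F (Function.update S i (fun o => t * p o)) = ENNReal.ofReal t * F (Function.update S i p))
    (t : Fin k → ℝ) (ht : ∀ i, 0 ≤ t i) (S : Fin k → Option Bool → ℝ) (hS : ∀ i o, 0 ≤ S i o) :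
    F (fun i o => t i * S i o) = ENNReal.ofReal (∏ i, t i) * F S := by
  have := smul_all hF t ht S hS univ
  simpa using this

/-! ### The potential -/

/-- the potential -/
noncomputable def Phi (c : ℕ → ℝ) (r : ℕ) (S : Fin k → Option Bool → ℝ) : ℝ≥0∞ :=
  ∫⁻ w in Set.Ioi (0 : ℝ), (ENNReal.ofReal (∏ j, S j none) - J c r w S) *
    ENNReal.ofReal (1 / w ^ 2)

theorem J_le (c : ℕ → ℝ) (r : ℕ) (w : ℝ) (S : Fin k → Option Bool → ℝ) (hS : ∀ i o, 0 ≤ S i o) :
    J c r w S ≤ ENNReal.ofReal (∏ j, S j none) := by
  have h : ES c r w S ⊆ Set.pi Set.univ (fun j => Set.Ioo (0 : ℝ) (S j none)) := by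
    intro v hv
    rw [Set.mem_pi]
    intro j _
    exact Set.mem_Ioo.mpr (hv.1 j)
  refine le_trans (measure_mono h) ?_
  rw [Real.volume_pi_Ioo]
  simp only [sub_zero]
  rw [ENNReal.ofReal_prod_of_nonneg fun j _ => hS j none]

theorem prod_update_none (S : Fin k → Option Bool → ℝ) (j : Fin k) (p : Option Bool → ℝ) :
    ∏ i, Function.update S j p i none = p none * ∏ i ∈ univ.erase j, S i none := by
  rw [← Finset.mul_prod_erase univ _ (mem_univ j), Function.update_self]
  congr 1
  refine Finset.prod_congr rfl fun i hi => ?_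
  rw [Function.update_of_ne (Finset.ne_of_mem_erase hi)]

theorem update_nonneg {S : Fin k → Option Bool → ℝ} (hS : ∀ i o, 0 ≤ S i o) (j : Fin k)
    {p : Option Bool → ℝ} (hp : ∀ o, 0 ≤ p o) : ∀ i o, 0 ≤ Function.update S j p i o := by
  intro i o
  by_cases hi : i = j
  · subst hi; rw [Function.update_self]; exact hp o
  · rw [Function.update_of_ne hi]; exact hS i o

theorem Phi_super (c : ℕ → ℝ) (hc0 : ∀ l, 0 ≤ c l) (hc : Monotone c) (r : ℕ) :
    ESuper (k := k) (Phi c r) := by
  intro i S p q hS hp hq
  unfold Phi
  refine le_trans (le_lintegral_add _ _) ?_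
  refine lintegral_mono_ae ?_
  filter_upwards [ae_restrict_mem measurableSet_Ioi] with w hw
  have hw0 : 0 ≤ w := le_of_lt hw
  rw [← add_mul]
  refine mul_le_mul_left ?_ _
  have hJ := J_sub c hc0 hc r w hw0 S i p q hp hq
  have hpq : ∀ o, 0 ≤ (p + q) o := fun o => add_nonneg (hp o) (hq o)
  have h1 := J_le c r w _ (update_nonneg hS i hp)
  have h2 := J_le c r w _ (update_nonneg hS i hq)
  have h3 := J_le c r w _ (update_nonneg hS i hpq)
  have hP : 0 ≤ ∏ j ∈ univ.erase i, S j none := Finset.prod_nonneg fun j _ => hS j none
  have hN : ENNReal.ofReal (∏ j, Function.update S i (p + q) j none) =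
      ENNReal.ofReal (∏ j, Function.update S i p j none) +
      ENNReal.ofReal (∏ j, Function.update S i q j none) := by
    rw [← ENNReal.ofReal_add (by rw [prod_update_none]; exact mul_nonneg (hp _) hP)
      (by rw [prod_update_none]; exact mul_nonneg (hq _) hP)]
    congr 1
    rw [prod_update_none, prod_update_none, prod_update_none, Pi.add_apply]
    ring
  have ht : J c r w (Function.update S i (p + q)) ≠ ∞ :=
    ne_top_of_le_ne_top ENNReal.ofReal_ne_top h3
  refine ENNReal.le_sub_of_add_le_right ht ?_
  rw [hN]
  calc _ ≤ (ENNReal.ofReal (∏ j, Function.update S i p j none) - J c r w (Function.update S i p)) +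
        (ENNReal.ofReal (∏ j, Function.update S i q j none) - J c r w (Function.update S i q)) +
        (J c r w (Function.update S i p) + J c r w (Function.update S i q)) :=
        add_le_add le_rfl hJ
    _ = ((ENNReal.ofReal (∏ j, Function.update S i p j none) - J c r w (Function.update S i p)) +
        J c r w (Function.update S i p)) +
        ((ENNReal.ofReal (∏ j, Function.update S i q j none) - J c r w (Function.update S i q)) +
        J c r w (Function.update S i q)) := by ring
    _ = _ := by rw [tsub_add_cancel_of_le h1, tsub_add_cancel_of_le h2]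

theorem Phi_smul (c : ℕ → ℝ) (hc0 : ∀ l, 0 ≤ c l) (hc : Monotone c) (r : ℕ) (i : Fin k)
    (S : Fin k → Option Bool → ℝ) (p : Option Bool → ℝ) (t : ℝ) (hp : ∀ o, 0 ≤ p o)
    (ht : 0 ≤ t) :
    Phi c r (Function.update S i (fun o => t * p o)) =
      ENNReal.ofReal t * Phi c r (Function.update S i p) := by
  unfold Phi
  rw [← lintegral_const_mul' _ _ ENNReal.ofReal_ne_top]
  refine lintegral_congr_ae ?_
  filter_upwards [ae_restrict_mem measurableSet_Ioi] with w hw
  have hw0 : 0 ≤ w := le_of_lt hw
  rw [J_smul c hc0 hc r w hw0 S i p hp t ht, prod_update_none, prod_update_none, mul_assoc t,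
    ENNReal.ofReal_mul ht, ← ENNReal.mul_sub (fun _ _ => ENNReal.ofReal_ne_top), mul_assoc]

end Pool.Agent.Helper92.Crypto
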