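import Mathlib
import Pool.Agent.Helper92.CryptoPhi

/-!
# Evaluation of `J` at special states
-/

namespace Pool.Agent.Helper92.Crypto

open Finset MeasureTheory
open scoped ENNReal

variable {k : ℕ}

theorem sum_powerset_card2 (S : Finset (Fin k)) (r : ℝ) (f : ℕ → ℝ) :
    ∑ U ∈ S.powerset, r ^ #U * (1 - r) ^ (#S - #U) * f #U =
      ∑ j ∈ range (#S + 1), (#S).choose j * (r ^ j * (1 - r) ^ (#S - j) * f j) := by
  have := Finset.sum_powerset_apply_card (fun j => r ^ j * (1 - r) ^ (#S - j) * f j) (x := S)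
  rw [this]
  refine Finset.sum_congr rfl fun j _ => ?_
  simp [nsmul_eq_mul]

/-- the suspects of type `false` are the players in `A`, with level `x`; those of type `true`
are the players in `B`, with level `y` -/
def vst (A B : Finset (Fin k)) (x y : ℝ) (i : Fin k) (o : Option Bool) : ℝ :=
  match o with
  | none => 1
  | some false => if i ∈ A then x else 0
  | some true => if i ∈ B then y else 0

theorem vst_nonneg (A B : Finset (Fin k)) (x y : ℝ) (hx : 0 ≤ x) (hy : 0 ≤ y) :
    ∀ i o, 0 ≤ vst A B x y i o := by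
  intro i o
  match o with
  | none => exact zero_le_one
  | some false => by_cases h : i ∈ A <;> simp [vst, h, hx]
  | some true => by_cases h : i ∈ B <;> simp [vst, h, hy]

theorem prod_weights (T s : Finset (Fin k)) (hT : T ⊆ s) (t : ℝ) :
    ∏ i, (if i ∈ T then t else if i ∈ s then 1 - t else 1) = t ^ #T * (1 - t) ^ (#s - #T) := by
  have h1 : ∏ i, (if i ∈ T then t else if i ∈ s then 1 - t else 1) =
      (∏ i, if i ∈ T then t else 1) * ∏ i, if i ∈ s \ T then 1 - t else 1 := by
    rw [← Finset.prod_mul_distrib]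
    refine Finset.prod_congr rfl fun i _ => ?_
    by_cases h : i ∈ T
    · simp [h]
    · by_cases h' : i ∈ s <;> simp [h, h']
  rw [h1, Finset.prod_ite_mem, Finset.prod_ite_mem, univ_inter, univ_inter, Finset.prod_const,
    Finset.prod_const, Finset.card_sdiff_of_subset hT]

/-- several players split, additive version for `J` -/
theorem J_split (c : ℕ → ℝ) (hc0 : ∀ l, 0 ≤ c l) (hc : Monotone c) (r : ℕ) (w : ℝ)
    (hw : 0 ≤ w) (t : ℝ) (ht : 0 ≤ t) (ht1 : t ≤ 1) (f g : Fin k → Option Bool → ℝ)
    (hf : ∀ i o, 0 ≤ f i o) (hg : ∀ i o, 0 ≤ g i o) (s : Finset (Fin k))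
    (S : Fin k → Option Bool → ℝ) (hS : ∀ i o, 0 ≤ S i o)
    (hlf : ∀ i ∈ s, light c r w (fun o => t * f i o))
    (hlg : ∀ i ∈ s, light c r w (fun o => (1 - t) * g i o))
    (e : ∀ i ∈ s, ∀ o, S i o = t * f i o + (1 - t) * g i o) :
    J c r w S = ∑ T ∈ s.powerset, ENNReal.ofReal (t ^ #T * (1 - t) ^ (#s - #T)) *
      J c r w (fun i => if i ∈ T then f i else if i ∈ s then g i else S i) := by
  rw [split_eq (light c r w) (fun i S p q hp hq => J_add c hc0 hc r w hw S i p q hp hq)
    (fun i o => t * f i o) (fun i o => (1 - t) * g i o) s S hlf hlg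
    (fun i hi => by funext o; simp only [Pi.add_apply]; exact e i hi o)]
  refine Finset.sum_congr rfl fun T hT => ?_
  have hTs : T ⊆ s := mem_powerset.mp hT
  have h := smul_univ (F := J c r w)
    (fun i S p t _ hp ht => J_smul c hc0 hc r w hw S i p hp t ht)
    (fun i => if i ∈ T then t else if i ∈ s then 1 - t else 1)
    (by intro i
        split_ifs
        · exact ht
        · linarith
        · exact zero_le_one)
    (fun i => if i ∈ T then f i else if i ∈ s then g i else S i)
    (by intro i o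
        by_cases h1 : i ∈ T
        · simp only [h1, if_true]; exact hf i o
        · by_cases h2 : i ∈ s
          · simp only [h1, h2, if_true, if_false]; exact hg i o
          · simp only [h1, h2, if_false]; exact hS i o)
  rw [prod_weights T s hTs t] at h
  rw [← h]
  congr 1
  funext i
  by_cases h1 : i ∈ T
  · simp [h1]
  · by_cases h2 : i ∈ s
    · simp [h1, h2]
    · simp [h1, h2]

theorem J_raise_left (c : ℕ → ℝ) (hc0 : ∀ l, 0 ≤ c l) (hc : Monotone c) (r : ℕ) (w : ℝ)
    (hw : 0 ≤ w) (A B : Finset (Fin k)) (hAB : Disjoint A B) (x x' y : ℝ) (hx : 0 ≤ x)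
    (hxx : x ≤ x') (hx' : 0 < x') (hy : 0 ≤ y) (hwx : w * c r * x' ≤ 1) :
    J c r w (vst A B x y) = ∑ U ∈ A.powerset,
      ENNReal.ofReal ((x / x') ^ #U * (1 - x / x') ^ (#A - #U)) * J c r w (vst U B x' y) := by
  have ht : 0 ≤ x / x' := div_nonneg hx hx'.le
  have ht1 : x / x' ≤ 1 := div_le_one_of_le₀ hxx hx'.le
  have hwc : 0 ≤ w * c r := mul_nonneg hw (hc0 r)
  rw [J_split c hc0 hc r w hw (x / x') ht ht1 (vst univ ∅ x' 0) (vst ∅ ∅ 0 0)
    (vst_nonneg _ _ _ _ hx'.le le_rfl) (vst_nonneg _ _ _ _ le_rfl le_rfl) A (vst A B x y)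
    (vst_nonneg _ _ _ _ hx hy)]
  · refine Finset.sum_congr rfl fun U hU => ?_
    have hUA : U ⊆ A := mem_powerset.mp hU
    congr 2
    funext i o
    by_cases h1 : i ∈ U
    · have hiB : i ∉ B := fun h => (Finset.disjoint_left.mp hAB) (hUA h1) h
      match o with
      | none => simp [h1, vst]
      | some false => simp [h1, vst]
      | some true => simp [h1, vst, hiB]
    · by_cases h2 : i ∈ A
      · have hiB : i ∉ B := fun h => (Finset.disjoint_left.mp hAB) h2 h
        match o with
        | none => simp [h1, h2, vst]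
        | some false => simp [h1, h2, vst]
        | some true => simp [h1, h2, vst, hiB]
      · match o with
        | none => simp [h1, h2, vst]
        | some false => simp [h1, h2, vst]
        | some true => simp [h1, h2, vst]
  · intro i _
    refine ⟨fun o => mul_nonneg ht (vst_nonneg _ _ _ _ hx'.le le_rfl i o), ?_⟩
    simp only [vst, mem_univ, if_true, notMem_empty, if_false, mul_zero, add_zero, mul_one]
    have : w * c r * (x / x' * x') = (x / x') * (w * c r * x') := by ring
    rw [this]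
    exact mul_le_of_le_one_right ht hwx
  · intro i _
    refine ⟨fun o => mul_nonneg (by linarith) (vst_nonneg _ _ _ _ le_rfl le_rfl i o), ?_⟩
    simp only [vst, notMem_empty, if_false, mul_zero, add_zero, mul_one]
    linarith
  · intro i hi o
    have hiB : i ∉ B := fun h => (Finset.disjoint_left.mp hAB) hi h
    match o with
    | none => simp [vst]
    | some false => simp [vst, hi]; field_simp
    | some true => simp [vst, hiB]

theorem J_raise_right (c : ℕ → ℝ) (hc0 : ∀ l, 0 ≤ c l) (hc : Monotone c) (r : ℕ) (w : ℝ)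
    (hw : 0 ≤ w) (A B : Finset (Fin k)) (hAB : Disjoint A B) (x y y' : ℝ) (hy : 0 ≤ y)
    (hyy : y ≤ y') (hy' : 0 < y') (hx : 0 ≤ x) (hwy : w * c r * y' ≤ 1) :
    J c r w (vst A B x y) = ∑ U ∈ B.powerset,
      ENNReal.ofReal ((y / y') ^ #U * (1 - y / y') ^ (#B - #U)) * J c r w (vst A U x y') := by
  have ht : 0 ≤ y / y' := div_nonneg hy hy'.le
  have ht1 : y / y' ≤ 1 := div_le_one_of_le₀ hyy hy'.le
  have hwc : 0 ≤ w * c r := mul_nonneg hw (hc0 r)
  rw [J_split c hc0 hc r w hw (y / y') ht ht1 (vst ∅ univ 0 y') (vst ∅ ∅ 0 0)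
    (vst_nonneg _ _ _ _ le_rfl hy'.le) (vst_nonneg _ _ _ _ le_rfl le_rfl) B (vst A B x y)
    (vst_nonneg _ _ _ _ hx hy)]
  · refine Finset.sum_congr rfl fun U hU => ?_
    have hUB : U ⊆ B := mem_powerset.mp hU
    congr 2
    funext i o
    by_cases h1 : i ∈ U
    · have hiA : i ∉ A := fun h => (Finset.disjoint_left.mp hAB) h (hUB h1)
      match o with
      | none => simp [h1, vst]
      | some false => simp [h1, vst, hiA]
      | some true => simp [h1, vst]
    · by_cases h2 : i ∈ B
      · have hiA : i ∉ A := fun h => (Finset.disjoint_left.mp hAB) h h2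
        match o with
        | none => simp [h1, h2, vst]
        | some false => simp [h1, h2, vst, hiA]
        | some true => simp [h1, h2, vst]
      · match o with
        | none => simp [h1, h2, vst]
        | some false => simp [h1, h2, vst]
        | some true => simp [h1, h2, vst]
  · intro i _
    refine ⟨fun o => mul_nonneg ht (vst_nonneg _ _ _ _ le_rfl hy'.le i o), ?_⟩
    simp only [vst, mem_univ, if_true, notMem_empty, if_false, mul_zero, zero_add, mul_one]
    have : w * c r * (y / y' * y') = (y / y') * (w * c r * y') := by ring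
    rw [this]
    exact mul_le_of_le_one_right ht hwy
  · intro i _
    refine ⟨fun o => mul_nonneg (by linarith) (vst_nonneg _ _ _ _ le_rfl le_rfl i o), ?_⟩
    simp only [vst, notMem_empty, if_false, mul_zero, add_zero, mul_one]
    linarith
  · intro i hi o
    have hiA : i ∉ A := fun h => (Finset.disjoint_left.mp hAB) h hi
    match o with
    | none => simp [vst]
    | some false => simp [vst, hiA]
    | some true => simp [vst, hi]; field_simp

/-- dropping the last constraint -/
theorem J_drop (c : ℕ → ℝ) (l : ℕ) (hl : 1 ≤ l) (w : ℝ) (A B : Finset (Fin k))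
    (L : ℝ) (hL : w * c (l + 1) * L = 1) :
    J c (l + 1) w (vst A B L L) =
      if #A < l + 1 ∧ #B < l + 1 then J c l w (vst A B L L) else 0 := by
  classical
  have hok : ∀ x v : Fin k → ℝ, okk c (l + 1) w x v ↔
      okk c l w x v ∧ #{i | v i < w * c (l + 1) * x i} < l + 1 := by
    intro x v
    unfold okk
    constructor
    · intro h
      refine ⟨fun m hm => h m ?_, h (l + 1) ?_⟩
      · rw [Finset.mem_Icc] at hm ⊢; omega
      · rw [Finset.mem_Icc]; omega
    · rintro ⟨h1, h2⟩ m hm
      rw [Finset.mem_Icc] at hm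
      rcases Nat.eq_or_lt_of_le hm.2 with h | h
      · subst h; exact h2
      · exact h1 m (by rw [Finset.mem_Icc]; omega)
  have hA : ∀ v : Fin k → ℝ, (∀ j, 0 < v j ∧ v j < vst A B L L j none) →
      ({i | v i < w * c (l + 1) * vst A B L L i (some false)} : Finset (Fin k)) = A := by
    intro v hv
    ext i
    rw [Finset.mem_filter]
    have h0 := hv i
    simp only [vst] at h0
    by_cases h : i ∈ A
    · simp only [vst, mem_univ, true_and, h, if_true, hL, iff_true]
      exact h0.2
    · simp only [vst, mem_univ, true_and, h, if_false, mul_zero, iff_false, not_lt]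
      exact h0.1.le
  have hB : ∀ v : Fin k → ℝ, (∀ j, 0 < v j ∧ v j < vst A B L L j none) →
      ({i | vst A B L L i none - v i < w * c (l + 1) * vst A B L L i (some true)} :
        Finset (Fin k)) = B := by
    intro v hv
    ext i
    rw [Finset.mem_filter]
    have h0 := hv i
    simp only [vst] at h0
    by_cases h : i ∈ B
    · simp only [vst, mem_univ, true_and, h, if_true, hL, iff_true]
      linarith [h0.1]
    · simp only [vst, mem_univ, true_and, h, if_false, mul_zero, iff_false, not_lt]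
      linarith [h0.2]
  by_cases hcond : #A < l + 1 ∧ #B < l + 1
  · rw [if_pos hcond]
    unfold J
    congr 1
    ext v
    simp only [ES, Set.mem_ofPred_eq]
    constructor
    · rintro ⟨h0, h1, h2⟩
      exact ⟨h0, ((hok _ _).mp h1).1, ((hok _ _).mp h2).1⟩
    · rintro ⟨h0, h1, h2⟩
      refine ⟨h0, (hok _ _).mpr ⟨h1, ?_⟩, (hok _ _).mpr ⟨h2, ?_⟩⟩
      · rw [hA v h0]; exact hcond.1
      · rw [hB v h0]; exact hcond.2
  · rw [if_neg hcond]
    unfold J
    have : ES c (l + 1) w (vst A B L L) = ∅ := by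
      rw [Set.eq_empty_iff_forall_notMem]
      rintro v ⟨h0, h1, h2⟩
      apply hcond
      constructor
      · have := ((hok _ _).mp h1).2
        rwa [hA v h0] at this
      · have := ((hok _ _).mp h2).2
        rwa [hB v h0] at this
    rw [this, measure_empty]

theorem J_one (c : ℕ → ℝ) (w : ℝ) (A B : Finset (Fin k)) (x y : ℝ) :
    J c 1 w (vst A B x y) = 1 := by
  have h : ES c 1 w (vst A B x y) = Set.pi Set.univ (fun _ => Set.Ioo (0 : ℝ) 1) := by
    ext v
    rw [Set.mem_univ_pi]
    constructor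
    · intro hv j
      have := hv.1 j
      exact Set.mem_Ioo.mpr (by simpa [vst] using this)
    · intro hv
      refine ⟨fun j => ?_, ?_, ?_⟩
      · have := Set.mem_Ioo.mp (hv j)
        simpa [vst] using this
      · intro l hl; rw [Finset.mem_Icc] at hl; omega
      · intro l hl; rw [Finset.mem_Icc] at hl; omega
  unfold J
  rw [h, Real.volume_pi_Ioo]
  simp

/-- the conditional probabilities of the nested constraints -/
noncomputable def om (c : ℕ → ℝ) : ℕ → ℕ → ℝ
  | 0, _ => 1
  | 1, _ => 1
  | l + 2, n => if n < l + 2 then ∑ j ∈ range (n + 1), (n.choose j : ℝ) *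
      ((c (l + 1) / c (l + 2)) ^ j * (1 - c (l + 1) / c (l + 2)) ^ (n - j) * om c (l + 1) j) else 0

theorem ratio_bounds (c : ℕ → ℝ) (hc0 : ∀ l, 0 ≤ c l) (hc : Monotone c) (l : ℕ) :
    0 ≤ c l / c (l + 1) ∧ c l / c (l + 1) ≤ 1 :=
  ⟨div_nonneg (hc0 _) (hc0 _), div_le_one_of_le₀ (hc (Nat.le_succ l)) (hc0 _)⟩

theorem sum_binom (n : ℕ) (x : ℝ) :
    ∑ j ∈ range (n + 1), (n.choose j : ℝ) * (x ^ j * (1 - x) ^ (n - j)) = 1 := by
  have := add_pow x (1 - x) n
  rw [add_sub_cancel, one_pow] at this
  refine (Finset.sum_congr rfl fun j _ => ?_).trans this.symm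
  ring

theorem om_bounds (c : ℕ → ℝ) (hc0 : ∀ l, 0 ≤ c l) (hc : Monotone c) :
    ∀ l n, 0 ≤ om c l n ∧ om c l n ≤ 1
  | 0, n => by simp [om]
  | 1, n => by simp [om]
  | l + 2, n => by
    have ih := om_bounds c hc0 hc (l + 1)
    obtain ⟨hr0, hr1⟩ := ratio_bounds c hc0 hc (l + 1)
    rw [om]
    split_ifs with h
    · constructor
      · refine Finset.sum_nonneg fun j _ => mul_nonneg (Nat.cast_nonneg _) (mul_nonneg
          (mul_nonneg (pow_nonneg hr0 _) (pow_nonneg (by linarith) _)) (ih j).1)
      · refine le_trans (Finset.sum_le_sum fun j _ => ?_)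
          (le_of_eq (sum_binom n (c (l + 1) / c (l + 2))))
        refine mul_le_mul_of_nonneg_left ?_ (Nat.cast_nonneg _)
        exact mul_le_of_le_one_right
          (mul_nonneg (pow_nonneg hr0 _) (pow_nonneg (by linarith) _)) (ih j).2
    · exact ⟨le_rfl, zero_le_one⟩

theorem om_zero (c : ℕ → ℝ) : ∀ l, om c l 0 = 1
  | 0 => rfl
  | 1 => rfl
  | l + 2 => by
    rw [om, if_pos (by omega)]
    simp [om_zero c (l + 1)]

theorem om_one (c : ℕ → ℝ) : ∀ l, om c l 1 = 1
  | 0 => rfl
  | 1 => rfl
  | l + 2 => by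
    rw [om, if_pos (by omega)]
    simp [Finset.sum_range_succ, om_zero c (l + 1), om_one c (l + 1)]

theorem om_of_le (c : ℕ → ℝ) (l n : ℕ) (hl : 2 ≤ l) (h : l ≤ n) : om c l n = 0 := by
  obtain ⟨m, rfl⟩ : ∃ m, l = m + 2 := ⟨l - 2, by omega⟩
  rw [om, if_neg (by omega)]

theorem J_vst (c : ℕ → ℝ) (hc0 : ∀ l, 0 ≤ c l) (hc : Monotone c) (h1 : c 1 = 0)
    (hpos : ∀ l, 2 ≤ l → 0 < c l) (w : ℝ) (hw : 0 < w) (l : ℕ) (hl : 2 ≤ l) :
    ∀ A B : Finset (Fin k), Disjoint A B →
    J c l w (vst A B (1 / (w * c l)) (1 / (w * c l))) = ENNReal.ofReal (om c l #A * om c l #B) := by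
  induction l, hl using Nat.le_induction with
  | base =>
    intro A B _
    have hc2 : 0 < c 2 := hpos 2 le_rfl
    rw [J_drop c 1 le_rfl w A B (1 / (w * c 2)) (by field_simp), J_one]
    have ho : ∀ n, om c 2 n = if n < 2 then 1 else 0 := by
      intro n
      rw [om]
      by_cases hn : n < 0 + 2
      · rw [if_pos hn, if_pos (by omega)]
        interval_cases n
        · simp [om]
        · simp [om, h1, Finset.sum_range_succ]
      · rw [if_neg hn, if_neg (by omega)]
    rw [ho, ho]
    by_cases hA : #A < 2 <;> by_cases hB : #B < 2 <;> simp [hA, hB]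
  | succ l hl ih =>
    intro A B hAB
    have hcl : 0 < c l := hpos l hl
    have hcl1 : 0 < c (l + 1) := hpos (l + 1) (by omega)
    rw [J_drop c l (by omega) w A B (1 / (w * c (l + 1))) (by field_simp)]
    obtain ⟨m, rfl⟩ : ∃ m, l = m + 1 := ⟨l - 1, by omega⟩
    by_cases hcond : #A < m + 1 + 1 ∧ #B < m + 1 + 1
    swap
    · rw [if_neg hcond]
      rw [not_and_or] at hcond
      rcases hcond with h | h
      · rw [om_of_le c (m + 1 + 1) #A (by omega) (by omega), zero_mul, ENNReal.ofReal_zero]
      · rw [om_of_le c (m + 1 + 1) #B (by omega) (by omega), mul_zero, ENNReal.ofReal_zero]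
    rw [if_pos hcond]
    obtain ⟨hr0, hr1⟩ := ratio_bounds c hc0 hc (m + 1)
    have hle : 1 / (w * c (m + 1 + 1)) ≤ 1 / (w * c (m + 1)) := by
      apply one_div_le_one_div_of_le (by positivity)
      exact mul_le_mul_of_nonneg_left (hc (Nat.le_succ _)) hw.le
    have hLpos : 0 < 1 / (w * c (m + 1)) := by positivity
    have hL'pos : 0 < 1 / (w * c (m + 1 + 1)) := by positivity
    have hlev : w * c (m + 1) * (1 / (w * c (m + 1))) ≤ 1 := by
      apply le_of_eq; field_simp
    have hratio : 1 / (w * c (m + 1 + 1)) / (1 / (w * c (m + 1))) = c (m + 1) / c (m + 1 + 1) := by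
      field_simp
    set ρ := c (m + 1) / c (m + 1 + 1) with hρ
    rw [J_raise_left c hc0 hc (m + 1) w hw.le A B hAB _ (1 / (w * c (m + 1))) _ hL'pos.le hle hLpos
      hL'pos.le hlev, hratio]
    have hstep : ∀ U ∈ A.powerset, ENNReal.ofReal (ρ ^ #U * (1 - ρ) ^ (#A - #U)) *
        J c (m + 1) w (vst U B (1 / (w * c (m + 1))) (1 / (w * c (m + 1 + 1)))) =
        ENNReal.ofReal (ρ ^ #U * (1 - ρ) ^ (#A - #U) * om c (m + 1) #U *
          om c (m + 1 + 1) #B) := by
      intro U hU
      have hUA : U ⊆ A := mem_powerset.mp hU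
      have hUB : Disjoint U B := Finset.disjoint_of_subset_left hUA hAB
      rw [J_raise_right c hc0 hc (m + 1) w hw.le U B hUB _ _ (1 / (w * c (m + 1))) hL'pos.le hle
        hLpos hLpos.le hlev, hratio]
      have h3 : ∀ U' ∈ B.powerset, ENNReal.ofReal (ρ ^ #U' * (1 - ρ) ^ (#B - #U')) *
          J c (m + 1) w (vst U U' (1 / (w * c (m + 1))) (1 / (w * c (m + 1)))) =
          ENNReal.ofReal (ρ ^ #U' * (1 - ρ) ^ (#B - #U') * om c (m + 1) #U' *
            om c (m + 1) #U) := by
        intro U' hU'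
        have hUB' : U' ⊆ B := mem_powerset.mp hU'
        rw [ih U U' (Finset.disjoint_of_subset_right hUB' hUB), ← ENNReal.ofReal_mul
          (mul_nonneg (pow_nonneg hr0 _) (pow_nonneg (by linarith) _))]
        congr 1
        ring
      rw [Finset.sum_congr rfl h3, ← ENNReal.ofReal_sum_of_nonneg, ← Finset.sum_mul,
        sum_powerset_card2 B ρ (om c (m + 1)), ← ENNReal.ofReal_mul
          (mul_nonneg (pow_nonneg hr0 _) (pow_nonneg (by linarith) _))]
      · congr 1
        have h4 : om c (m + 1 + 1) #B = ∑ j ∈ range (#B + 1), ((#B).choose j : ℝ) *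
            (ρ ^ j * (1 - ρ) ^ (#B - j) * om c (m + 1) j) := by
          rw [om, if_pos hcond.2]
        rw [h4]
        ring
      · intro U' _
        exact mul_nonneg (mul_nonneg (mul_nonneg (pow_nonneg hr0 _) (pow_nonneg (by linarith) _))
          (om_bounds c hc0 hc _ _).1) (om_bounds c hc0 hc _ _).1
    rw [Finset.sum_congr rfl hstep, ← ENNReal.ofReal_sum_of_nonneg, ← Finset.sum_mul,
      sum_powerset_card2 A ρ (om c (m + 1))]
    · have h4 : om c (m + 1 + 1) #A = ∑ j ∈ range (#A + 1), ((#A).choose j : ℝ) *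
          (ρ ^ j * (1 - ρ) ^ (#A - j) * om c (m + 1) j) := by
        rw [om, if_pos hcond.1]
      rw [h4]
    · intro U _
      exact mul_nonneg (mul_nonneg (mul_nonneg (pow_nonneg hr0 _) (pow_nonneg (by linarith) _))
        (om_bounds c hc0 hc _ _).1) (om_bounds c hc0 hc _ _).1

end Pool.Agent.Helper92.Crypto
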