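import Mathlib
import Pool.Agent.Helper92.CryptoEval

/-!
# The upper bound given by the death level potential
-/

namespace Pool.Agent.Helper92.Crypto

open Finset MeasureTheory
open scoped ENNReal

variable {k : ℕ}

/-! ### Integrals -/

theorem beta_int (a b : ℕ) : ∫ x in (0 : ℝ)..1, x ^ a * (1 - x) ^ b =
    (a.factorial * b.factorial : ℝ) / ((a + b + 1).factorial : ℝ) := by
  induction b generalizing a with
  | zero =>
    simp only [pow_zero, mul_one, Nat.factorial_zero, Nat.cast_one, Nat.add_zero]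
    rw [integral_pow]
    rw [Nat.factorial_succ]
    have : (a.factorial : ℝ) ≠ 0 := by positivity
    push_cast
    field_simp
    simp
  | succ b ih =>
    have hd : ∀ x ∈ Set.uIcc (0 : ℝ) 1, HasDerivAt
        (fun x : ℝ => x ^ (a + 1) * (1 - x) ^ (b + 1))
        ((a + 1) * (x ^ a * (1 - x) ^ (b + 1)) - (b + 1) * (x ^ (a + 1) * (1 - x) ^ b)) x := by
      intro x _
      have h1 := (hasDerivAt_pow (a + 1) x).mul
        (((hasDerivAt_id x).const_sub 1).pow (b + 1))
      refine h1.congr_deriv ?_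
      simp only [Nat.add_sub_cancel, id, Pi.pow_apply]
      push_cast
      ring
    have hint : IntervalIntegrable (fun x : ℝ => (a + 1) * (x ^ a * (1 - x) ^ (b + 1)) -
        (b + 1) * (x ^ (a + 1) * (1 - x) ^ b)) volume 0 1 := by
      apply Continuous.intervalIntegrable
      fun_prop
    have h := intervalIntegral.integral_eq_sub_of_hasDerivAt hd hint
    rw [intervalIntegral.integral_sub, intervalIntegral.integral_const_mul,
      intervalIntegral.integral_const_mul, ih (a + 1)] at h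
    · simp only [one_pow, sub_self, ne_eq, Nat.add_eq_zero_iff, one_ne_zero, and_false,
        not_false_eq_true, zero_pow, mul_zero, zero_mul, sub_zero] at h
      have e1 : a + 1 + b + 1 = a + b + 2 := by omega
      have e2 : a + (b + 1) + 1 = a + b + 2 := by omega
      rw [e1] at h
      rw [e2]
      have hf : ((a + 1).factorial : ℝ) = (a + 1) * a.factorial := by
        rw [Nat.factorial_succ]; push_cast; ring
      have hg : ((b + 1).factorial : ℝ) = (b + 1) * b.factorial := by
        rw [Nat.factorial_succ]; push_cast; ring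
      rw [hf] at h
      rw [hg]
      have ha : (a : ℝ) + 1 ≠ 0 := by positivity
      have h2 : ((a : ℝ) + 1) * ∫ x in (0 : ℝ)..1, x ^ a * (1 - x) ^ (b + 1) =
          ((a : ℝ) + 1) * ((a.factorial * ((b + 1) * b.factorial) : ℝ) /
            ((a + b + 2).factorial : ℝ)) := by
        have := sub_eq_zero.mp h
        rw [this]
        ring
      exact mul_left_cancel₀ ha h2
    · apply Continuous.intervalIntegrable; fun_prop
    · apply Continuous.intervalIntegrable; fun_prop

theorem term_int (n j : ℕ) (hj : 2 ≤ j) (hjn : j ≤ n) (b : ℝ) (hb : 0 < b) :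
    ∫ w in (0 : ℝ)..b, (n.choose j : ℝ) * ((w / b) ^ (j - 2) * (1 - w / b) ^ (n - j)) / b ^ 2 =
      1 / b * (n / (j * (j - 1))) := by
  have h1 := intervalIntegral.integral_comp_div
    (fun x : ℝ => (n.choose j : ℝ) * (x ^ (j - 2) * (1 - x) ^ (n - j)) / b ^ 2)
    (a := 0) (b := b) hb.ne'
  rw [h1, zero_div, div_self hb.ne', intervalIntegral.integral_div,
    intervalIntegral.integral_const_mul, beta_int, smul_eq_mul]
  obtain ⟨i, rfl⟩ : ∃ i, j = i + 2 := ⟨j - 2, by omega⟩
  obtain ⟨m, rfl⟩ : ∃ m, n = i + 2 + m := ⟨n - (i + 2), by omega⟩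
  have e1 : i + 2 - 2 = i := by omega
  have e2 : i + 2 + m - (i + 2) = m := by omega
  rw [e1, e2]
  have hch : ((i + 2 + m).choose (i + 2) : ℝ) * ((i + 2).factorial * m.factorial) =
      (i + 2 + m).factorial := by
    have := Nat.choose_mul_factorial_mul_factorial (n := i + 2 + m) (k := i + 2) (by omega)
    rw [e2] at this
    have h' : (((i + 2 + m).choose (i + 2) * (i + 2).factorial * m.factorial : ℕ) : ℝ) =
      ((i + 2 + m).factorial : ℝ) := by rw [this]
    push_cast at h'
    linarith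
  have hf1 : ((i + 2).factorial : ℝ) = (i + 2) * (i + 1) * i.factorial := by
    rw [Nat.factorial_succ, Nat.factorial_succ]; push_cast; ring
  have e3 : i + 2 + m = (i + m + 1) + 1 := by omega
  have hf2 : ((i + 2 + m).factorial : ℝ) = (i + m + 2) * (i + m + 1).factorial := by
    rw [e3, Nat.factorial_succ]; push_cast; ring
  rw [hf2, hf1] at hch
  have hfp : (0 : ℝ) < ((i + m + 1).factorial : ℝ) := by positivity
  have hb' : b ≠ 0 := hb.ne'
  have key : ((i + 2 + m).choose (i + 2) : ℝ) * ((i.factorial : ℝ) * m.factorial /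
      ((i + m + 1).factorial : ℝ)) = (i + m + 2) / ((i + 2) * (i + 1)) := by
    rw [mul_div_assoc', div_eq_div_iff hfp.ne' (by positivity)]
    linarith
  have e4 : (((i + 2 : ℕ) : ℝ) - 1) = i + 1 := by push_cast; ring
  rw [key, e4]
  push_cast
  have h5 : (i : ℝ) + 1 ≠ 0 := by positivity
  have h6 : (i : ℝ) + 2 ≠ 0 := by positivity
  field_simp
  ring

/-- main integral -/
theorem int_core (n : ℕ) (θ : ℕ → ℝ) (hθ : ∀ j, 0 ≤ θ j ∧ θ j ≤ 1) (h0 : θ 0 = 1)
    (h1 : θ 1 = 1) (b : ℝ) (hb : 0 < b) :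
    ∫⁻ w in Set.Ioo 0 b, ENNReal.ofReal (1 - ∑ j ∈ range (n + 1), (n.choose j : ℝ) *
      ((w / b) ^ j * (1 - w / b) ^ (n - j) * θ j)) * ENNReal.ofReal (1 / w ^ 2) =
      ENNReal.ofReal (1 / b * ∑ j ∈ Finset.Icc 2 n, (n / (j * (j - 1)) : ℝ) * (1 - θ j)) := by
  set G : ℝ → ℝ := fun w => ∑ j ∈ Finset.Icc 2 n, (1 - θ j) *
    ((n.choose j : ℝ) * ((w / b) ^ (j - 2) * (1 - w / b) ^ (n - j)) / b ^ 2) with hG
  have hGc : Continuous G := by
    apply continuous_finsetSum
    intro j _
    fun_prop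
  have hGnn : ∀ w ∈ Set.Ioo 0 b, 0 ≤ G w := by
    intro w hw
    have hw' := Set.mem_Ioo.mp hw
    have hx0 : 0 ≤ w / b := div_nonneg hw'.1.le hb.le
    have hx1 : w / b ≤ 1 := div_le_one_of_le₀ hw'.2.le hb.le
    refine Finset.sum_nonneg fun j _ => mul_nonneg (by linarith [(hθ j).2]) ?_
    refine div_nonneg (mul_nonneg (Nat.cast_nonneg _) (mul_nonneg (pow_nonneg hx0 _)
      (pow_nonneg (by linarith) _))) (by positivity)
  have hpt : ∀ w ∈ Set.Ioo 0 b, ENNReal.ofReal (1 - ∑ j ∈ range (n + 1), (n.choose j : ℝ) *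
      ((w / b) ^ j * (1 - w / b) ^ (n - j) * θ j)) * ENNReal.ofReal (1 / w ^ 2) =
      ENNReal.ofReal (G w) := by
    intro w hw
    have hw' := Set.mem_Ioo.mp hw
    have hw0 : w ≠ 0 := hw'.1.ne'
    rw [← ENNReal.ofReal_mul' (by positivity)]
    congr 1
    have e1 : 1 - ∑ j ∈ range (n + 1), (n.choose j : ℝ) *
        ((w / b) ^ j * (1 - w / b) ^ (n - j) * θ j) =
        ∑ j ∈ range (n + 1), (1 - θ j) * ((n.choose j : ℝ) *
          ((w / b) ^ j * (1 - w / b) ^ (n - j))) := by
      have hb1 := sum_binom n (w / b)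
      calc 1 - ∑ j ∈ range (n + 1), (n.choose j : ℝ) *
          ((w / b) ^ j * (1 - w / b) ^ (n - j) * θ j) =
          ∑ j ∈ range (n + 1), (n.choose j : ℝ) * ((w / b) ^ j * (1 - w / b) ^ (n - j)) -
          ∑ j ∈ range (n + 1), (n.choose j : ℝ) *
          ((w / b) ^ j * (1 - w / b) ^ (n - j) * θ j) := by rw [hb1]
        _ = _ := by
          rw [← Finset.sum_sub_distrib]
          refine Finset.sum_congr rfl fun j _ => ?_
          ring
    have e2 : ∑ j ∈ range (n + 1), (1 - θ j) * ((n.choose j : ℝ) *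
        ((w / b) ^ j * (1 - w / b) ^ (n - j))) =
        ∑ j ∈ Finset.Icc 2 n, (1 - θ j) * ((n.choose j : ℝ) *
          ((w / b) ^ j * (1 - w / b) ^ (n - j))) := by
      symm
      apply Finset.sum_subset
      · intro j hj
        rw [Finset.mem_Icc] at hj
        rw [Finset.mem_range]; omega
      · intro j hj hj'
        rw [Finset.mem_range] at hj
        rw [Finset.mem_Icc] at hj'
        have : j = 0 ∨ j = 1 := by omega
        rcases this with rfl | rfl
        · rw [h0]; ring
        · rw [h1]; ring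
    rw [e1, e2, hG, Finset.sum_mul]
    refine Finset.sum_congr rfl fun j hj => ?_
    rw [Finset.mem_Icc] at hj
    have e3 : (w / b) ^ j = (w / b) ^ (j - 2) * (w / b) ^ 2 := by
      rw [← pow_add]; congr 1; omega
    rw [e3]
    have hb' : b ≠ 0 := hb.ne'
    rw [div_pow w b 2]
    field_simp
  rw [setLIntegral_congr_fun measurableSet_Ioo hpt]
  have hint : IntegrableOn G (Set.Ioo 0 b) volume :=
    (hGc.integrableOn_Icc (a := 0) (b := b)).mono_set Set.Ioo_subset_Icc_self
  rw [← ofReal_integral_eq_lintegral_ofReal hint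
    ((ae_restrict_iff' measurableSet_Ioo).mpr (Filter.Eventually.of_forall hGnn))]
  congr 1
  rw [← integral_Ioc_eq_integral_Ioo, ← intervalIntegral.integral_of_le hb.le, hG,
    intervalIntegral.integral_finsetSum]
  · rw [Finset.mul_sum]
    refine Finset.sum_congr rfl fun j hj => ?_
    rw [Finset.mem_Icc] at hj
    rw [intervalIntegral.integral_const_mul, term_int n j hj.1 hj.2 b hb]
    ring
  · intro j _
    apply Continuous.intervalIntegrable
    fun_prop

/-- integral of `1 / w ^ 2` at infinity -/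
theorem int_tail (b : ℝ) (hb : 0 < b) :
    ∫⁻ w in Set.Ioi b, ENNReal.ofReal (1 / w ^ 2) = ENNReal.ofReal (1 / b) := by
  have h1 : ∀ w ∈ Set.Ioi b, (1 / w ^ 2 : ℝ) = w ^ (-2 : ℝ) := by
    intro w hw
    have hw0 : 0 < w := lt_trans hb (Set.mem_Ioi.mp hw)
    rw [Real.rpow_neg hw0.le]
    norm_num
  have hint : IntegrableOn (fun w : ℝ => w ^ (-2 : ℝ)) (Set.Ioi b) :=
    integrableOn_Ioi_rpow_of_lt (by norm_num) hb
  rw [setLIntegral_congr_fun measurableSet_Ioi (fun w hw => by rw [h1 w hw])]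
  rw [← ofReal_integral_eq_lintegral_ofReal hint
    ((ae_restrict_iff' measurableSet_Ioi).mpr (Filter.Eventually.of_forall fun w hw =>
      Real.rpow_nonneg (lt_trans hb (Set.mem_Ioi.mp hw)).le _))]
  rw [integral_Ioi_rpow_of_lt (by norm_num) hb]
  congr 1
  have : (-2 : ℝ) + 1 = -1 := by norm_num
  rw [this, Real.rpow_neg_one]
  ring

end Pool.Agent.Helper92.Crypto
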