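import Mathlib
import Pool.Agent.Helper92.CryptoBound

/-!
# The upper bound given by the death level potential, main theorem
-/

namespace Pool.Agent.Helper92.Crypto

open Finset MeasureTheory
open scoped ENNReal

variable {k : ℕ}

/-- coefficients for the initial state -/
noncomputable def th (c : ℕ → ℝ) (r N : ℕ) : ℝ :=
  ∑ a ∈ range (N + 1), (N.choose a : ℝ) *
    ((1 / 2 : ℝ) ^ a * (1 - 1 / 2) ^ (N - a) * (om c r a * om c r (N - a)))

theorem th_bounds (c : ℕ → ℝ) (hc0 : ∀ l, 0 ≤ c l) (hc : Monotone c) (r N : ℕ) :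
    0 ≤ th c r N ∧ th c r N ≤ 1 := by
  unfold th
  have hb := om_bounds c hc0 hc r
  constructor
  · refine Finset.sum_nonneg fun a _ => mul_nonneg (Nat.cast_nonneg _) (mul_nonneg (by positivity)
      (mul_nonneg (hb _).1 (hb _).1))
  · refine le_trans (Finset.sum_le_sum fun a _ => ?_) (le_of_eq (sum_binom N (1 / 2)))
    refine mul_le_mul_of_nonneg_left ?_ (Nat.cast_nonneg _)
    refine mul_le_of_le_one_right (by positivity) ?_
    exact mul_le_one₀ (hb _).2 (hb _).1 (hb _).2

theorem th_zero (c : ℕ → ℝ) (r : ℕ) : th c r 0 = 1 := by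
  simp [th, om_zero]

theorem th_one (c : ℕ → ℝ) (r : ℕ) : th c r 1 = 1 := by
  simp [th, Finset.sum_range_succ, om_zero, om_one]

theorem J_mono_r (c : ℕ → ℝ) (l r : ℕ) (hlr : l ≤ r) (w : ℝ) (S : Fin k → Option Bool → ℝ) :
    J c r w S ≤ J c l w S := by
  refine measure_mono ?_
  rintro v ⟨h0, h1, h2⟩
  refine ⟨h0, fun m hm => h1 m ?_, fun m hm => h2 m ?_⟩ <;>
  · rw [Finset.mem_Icc] at hm ⊢; omega

/-- `J` at a state of suspects of type `false` of equal level -/
theorem J_eqlev (c : ℕ → ℝ) (hc0 : ∀ l, 0 ≤ c l) (hc : Monotone c) (h1 : c 1 = 0)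
    (hpos : ∀ l, 2 ≤ l → 0 < c l) (w : ℝ) (hw : 0 < w) (l : ℕ) (hl : 2 ≤ l)
    (T : Finset (Fin k)) (y : ℝ) (hy : 0 < y) (hwy : w * c l * y ≤ 1) :
    J c l w (vst T ∅ y 0) = ENNReal.ofReal (∑ j ∈ range (#T + 1), ((#T).choose j : ℝ) *
      ((w * c l * y) ^ j * (1 - w * c l * y) ^ (#T - j) * om c l j)) := by
  have hcl : 0 < c l := hpos l hl
  have hL : 0 < 1 / (w * c l) := by positivity
  have hyL : y ≤ 1 / (w * c l) := by
    rw [le_div_iff₀ (by positivity)]
    linarith
  have hrat : y / (1 / (w * c l)) = w * c l * y := by field_simp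
  rw [J_raise_left c hc0 hc l w hw.le T ∅ (Finset.disjoint_empty_right _) y (1 / (w * c l)) 0
    hy.le hyL hL le_rfl (le_of_eq (by field_simp)), hrat]
  have hx0 : 0 ≤ w * c l * y := by positivity
  have h3 : ∀ U ∈ T.powerset, ENNReal.ofReal ((w * c l * y) ^ #U * (1 - w * c l * y) ^ (#T - #U)) *
      J c l w (vst U ∅ (1 / (w * c l)) 0) =
      ENNReal.ofReal ((w * c l * y) ^ #U * (1 - w * c l * y) ^ (#T - #U) * om c l #U) := by
    intro U _
    have e : vst U ∅ (1 / (w * c l)) 0 = vst U ∅ (1 / (w * c l)) (1 / (w * c l)) := by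
      funext i o
      match o with
      | none => rfl
      | some false => rfl
      | some true => simp [vst]
    rw [e, J_vst c hc0 hc h1 hpos w hw l hl U ∅ (Finset.disjoint_empty_right _),
      ← ENNReal.ofReal_mul (mul_nonneg (pow_nonneg hx0 _) (pow_nonneg (by linarith) _)),
      card_empty, om_zero, mul_one]
  rw [Finset.sum_congr rfl h3, ← ENNReal.ofReal_sum_of_nonneg, sum_powerset_card2]
  intro U _
  exact mul_nonneg (mul_nonneg (pow_nonneg hx0 _) (pow_nonneg (by linarith) _))
    (om_bounds c hc0 hc _ _).1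

theorem J_eqlev_zero (c : ℕ → ℝ) (w : ℝ) (r l : ℕ) (hl : 2 ≤ l) (hlr : l ≤ r)
    (T : Finset (Fin k)) (hT : l ≤ #T) (y : ℝ) (hwy : 1 ≤ w * c l * y) :
    J c r w (vst T ∅ y 0) = 0 := by
  classical
  unfold J
  have : ES c r w (vst T ∅ y 0) = ∅ := by
    rw [Set.eq_empty_iff_forall_notMem]
    rintro v ⟨h0, h1, _⟩
    have h2 : #{i | v i < w * c l * vst T ∅ y 0 i (some false)} < l :=
      h1 l (by rw [Finset.mem_Icc]; omega)
    have h3 : T ⊆ ({i | v i < w * c l * vst T ∅ y 0 i (some false)} : Finset (Fin k)) := by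
      intro i hi
      rw [Finset.mem_filter]
      have h4 := (h0 i).2
      simp only [vst] at h4
      refine ⟨mem_univ i, ?_⟩
      simp only [vst, hi, if_true]
      linarith
    have := Finset.card_le_card h3
    omega
  rw [this, measure_empty]

/-- `J` at the initial state -/
theorem J_init (c : ℕ → ℝ) (hc0 : ∀ l, 0 ≤ c l) (hc : Monotone c) (h1 : c 1 = 0)
    (hpos : ∀ l, 2 ≤ l → 0 < c l) (w : ℝ) (hw : 0 < w) (r : ℕ) (hr : 2 ≤ r)
    (hwr : 2 * w * c r ≤ 1) :
    J (k := k) c r w (fun _ _ => 1) = ENNReal.ofReal (∑ N ∈ range (k + 1), (k.choose N : ℝ) *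
      ((2 * w * c r) ^ N * (1 - 2 * w * c r) ^ (k - N) * th c r N)) := by
  have hcr : 0 < c r := hpos r hr
  set x : ℝ := 2 * w * c r with hx
  have hx0 : 0 < x := by positivity
  set L : ℝ := 1 / (w * c r) with hL
  have hL0 : 0 < L := by positivity
  have hwL : w * c r * L = 1 := by rw [hL]; field_simp
  have hxL : x * (L / 2) = 1 := by rw [hx]; linarith
  rw [J_split c hc0 hc r w hw.le x hx0.le hwr (vst univ univ (L / 2) (L / 2)) (vst ∅ ∅ 0 0)
    (vst_nonneg _ _ _ _ (by positivity) (by positivity)) (vst_nonneg _ _ _ _ le_rfl le_rfl)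
    univ (fun _ _ => 1) (fun _ _ => zero_le_one)]
  · have h3 : ∀ T ∈ (univ : Finset (Fin k)).powerset,
        J c r w (fun i => if i ∈ T then vst univ univ (L / 2) (L / 2) i
          else if i ∈ (univ : Finset (Fin k)) then vst ∅ ∅ 0 0 i else fun _ => 1) =
        ENNReal.ofReal (th c r #T) := by
      intro T _
      rw [J_split c hc0 hc r w hw.le (1 / 2) (by norm_num) (by norm_num) (vst univ ∅ L 0)
        (vst ∅ univ 0 L) (vst_nonneg _ _ _ _ hL0.le le_rfl) (vst_nonneg _ _ _ _ le_rfl hL0.le)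
        T _ ?_]
      · have h4 : ∀ A ∈ T.powerset, ENNReal.ofReal ((1 / 2 : ℝ) ^ #A * (1 - 1 / 2) ^ (#T - #A)) *
            J c r w (fun i => if i ∈ A then vst univ ∅ L 0 i else if i ∈ T then vst ∅ univ 0 L i
              else if i ∈ T then vst univ univ (L / 2) (L / 2) i
              else if i ∈ (univ : Finset (Fin k)) then vst ∅ ∅ 0 0 i else fun _ => 1) =
            ENNReal.ofReal ((1 / 2 : ℝ) ^ #A * (1 - 1 / 2) ^ (#T - #A) *
              (om c r #A * om c r (#T - #A))) := by
          intro A hA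
          have hAT : A ⊆ T := mem_powerset.mp hA
          have e : (fun i => if i ∈ A then vst univ ∅ L 0 i else if i ∈ T then vst ∅ univ 0 L i
              else if i ∈ T then vst univ univ (L / 2) (L / 2) i
              else if i ∈ (univ : Finset (Fin k)) then vst ∅ ∅ 0 0 i else fun _ => 1) =
              vst A (T \ A) L L := by
            funext i o
            by_cases h5 : i ∈ A
            · match o with
              | none => simp [h5, vst]
              | some false => simp [h5, vst]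
              | some true => simp [h5, vst]
            · by_cases h6 : i ∈ T
              · match o with
                | none => simp [h5, h6, vst]
                | some false => simp [h5, h6, vst]
                | some true => simp [h5, h6, vst]
              · match o with
                | none => simp [h5, h6, vst]
                | some false => simp [h5, h6, vst]
                | some true => simp [h5, h6, vst]
          rw [e, hL, J_vst c hc0 hc h1 hpos w hw r hr A (T \ A) Finset.disjoint_sdiff,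
            Finset.card_sdiff_of_subset hAT, ← ENNReal.ofReal_mul (by positivity)]
        rw [Finset.sum_congr rfl h4, ← ENNReal.ofReal_sum_of_nonneg]
        · congr 1
          have := sum_powerset_card2 T (1 / 2) (fun a => om c r a * om c r (#T - a))
          rw [this]
          rfl
        · intro A _
          exact mul_nonneg (by positivity)
            (mul_nonneg (om_bounds c hc0 hc _ _).1 (om_bounds c hc0 hc _ _).1)
      · intro i _
        refine ⟨fun o => mul_nonneg (by norm_num) (vst_nonneg _ _ _ _ hL0.le le_rfl i o), ?_⟩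
        simp only [vst, mem_univ, if_true, notMem_empty, if_false, mul_zero, add_zero, mul_one]
        linarith
      · intro i _
        refine ⟨fun o => mul_nonneg (by norm_num) (vst_nonneg _ _ _ _ le_rfl hL0.le i o), ?_⟩
        simp only [vst, mem_univ, if_true, notMem_empty, if_false, mul_zero, zero_add, mul_one]
        linarith
      · intro i hi o
        match o with
        | none => simp [vst, hi]
        | some false => simp [vst, hi]; ring
        | some true => simp [vst, hi]; ring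
      · intro i o
        by_cases h5 : i ∈ T
        · simp only [h5, if_true]
          exact vst_nonneg _ _ _ _ (by positivity) (by positivity) i o
        · simp only [h5, if_false, mem_univ, if_true]
          exact vst_nonneg _ _ _ _ le_rfl le_rfl i o
    have h6 : ∀ T ∈ (univ : Finset (Fin k)).powerset,
        ENNReal.ofReal (x ^ #T * (1 - x) ^ (#(univ : Finset (Fin k)) - #T)) *
        J c r w (fun i => if i ∈ T then vst univ univ (L / 2) (L / 2) i
          else if i ∈ (univ : Finset (Fin k)) then vst ∅ ∅ 0 0 i else fun _ => 1) =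
        ENNReal.ofReal (x ^ #T * (1 - x) ^ (#(univ : Finset (Fin k)) - #T) * th c r #T) := by
      intro T hT
      rw [h3 T hT, ← ENNReal.ofReal_mul
        (mul_nonneg (pow_nonneg hx0.le _) (pow_nonneg (by linarith) _))]
    rw [Finset.sum_congr rfl h6, ← ENNReal.ofReal_sum_of_nonneg, sum_powerset_card2, card_univ,
      Fintype.card_fin]
    intro T _
    exact mul_nonneg (mul_nonneg (pow_nonneg hx0.le _) (pow_nonneg (by linarith) _))
      (th_bounds c hc0 hc _ _).1
  · intro i _
    refine ⟨fun o => mul_nonneg hx0.le (vst_nonneg _ _ _ _ (by positivity) (by positivity) i o), ?_⟩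
    simp only [vst, mem_univ, if_true, mul_one]
    rw [hxL]
    linarith
  · intro i _
    refine ⟨fun o => mul_nonneg (by linarith) (vst_nonneg _ _ _ _ le_rfl le_rfl i o), ?_⟩
    simp only [vst, notMem_empty, if_false, mul_zero, add_zero, mul_one]
    linarith
  · intro i _ o
    match o with
    | none => simp [vst]
    | some false => simp [vst, hxL]
    | some true => simp [vst, hxL]

/-! ### Telescoping -/

theorem tele (n : ℕ) (hn : 1 ≤ n) :
    ∑ j ∈ Finset.Icc 2 n, (n / (j * (j - 1)) : ℝ) = n - 1 := by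
  have h : ∀ m : ℕ, 1 ≤ m → ∑ j ∈ Finset.Icc 2 m, (1 / (j * (j - 1)) : ℝ) = 1 - 1 / m := by
    intro m hm
    induction m, hm using Nat.le_induction with
    | base => simp
    | succ m hm ih =>
      rw [Finset.sum_Icc_succ_top (by omega), ih]
      have h1 : (m : ℝ) ≠ 0 := by positivity
      have h2 : (m : ℝ) + 1 ≠ 0 := by positivity
      push_cast
      have e : (m : ℝ) + 1 - 1 = m := by ring
      rw [e]
      field_simp
      ring
  have hn' : (n : ℝ) ≠ 0 := by positivity
  calc ∑ j ∈ Finset.Icc 2 n, (n / (j * (j - 1)) : ℝ) =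
      n * ∑ j ∈ Finset.Icc 2 n, (1 / (j * (j - 1)) : ℝ) := by
        rw [Finset.mul_sum]
        refine Finset.sum_congr rfl fun j _ => ?_
        ring
    _ = n * (1 - 1 / n) := by rw [h n hn]
    _ = n - 1 := by field_simp

/-- the quantity `sigma` -/
noncomputable def sg (c : ℕ → ℝ) (l : ℕ) : ℝ :=
  ∑ j ∈ Finset.Icc 2 (l - 1), om c l j / (j * (j - 1))

theorem sum_om (c : ℕ → ℝ) (l n : ℕ) (hl : 2 ≤ l) (hln : l ≤ n) :
    ∑ j ∈ Finset.Icc 2 n, (n / (j * (j - 1)) : ℝ) * (1 - om c l j) = n - 1 - n * sg c l := by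
  have h1 : ∑ j ∈ Finset.Icc 2 n, (n / (j * (j - 1)) : ℝ) * (1 - om c l j) =
      ∑ j ∈ Finset.Icc 2 n, (n / (j * (j - 1)) : ℝ) -
      n * ∑ j ∈ Finset.Icc 2 n, om c l j / (j * (j - 1)) := by
    rw [Finset.mul_sum, ← Finset.sum_sub_distrib]
    refine Finset.sum_congr rfl fun j _ => ?_
    ring
  have h2 : ∑ j ∈ Finset.Icc 2 n, om c l j / (j * (j - 1) : ℝ) = sg c l := by
    unfold sg
    symm
    apply Finset.sum_subset
    · intro j hj
      rw [Finset.mem_Icc] at hj ⊢
      omega
    · intro j hj hj'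
      rw [Finset.mem_Icc] at hj hj'
      rw [om_of_le c l j hl (by omega), zero_div]
  rw [h1, h2, tele n (by omega)]

/-- lower bound for the potential at a state of suspects of equal level -/
theorem Phi_vst (c : ℕ → ℝ) (hc0 : ∀ l, 0 ≤ c l) (hc : Monotone c) (h1 : c 1 = 0)
    (hpos : ∀ l, 2 ≤ l → 0 < c l) (r : ℕ) (hr : 2 ≤ r)
    (hN : ∀ n : ℕ, 2 ≤ n → n ≤ k →
      (n : ℝ) - 1 ≤ n * (c (min n r) * (1 - sg c (min n r))))
    (T : Finset (Fin k)) (y : ℝ) (hy : 0 ≤ y) :
    ENNReal.ofReal (((#T : ℝ) - 1) * y) ≤ Phi c r (vst T ∅ y 0) := by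
  rcases eq_or_lt_of_le hy with hy0 | hy0
  · rw [← hy0, mul_zero, ENNReal.ofReal_zero]; exact zero_le
  rcases Nat.lt_or_ge #T 2 with hT | hT
  · have : ((#T : ℝ) - 1) * y ≤ 0 := by
      apply mul_nonpos_of_nonpos_of_nonneg _ hy
      have : (#T : ℝ) ≤ 1 := by exact_mod_cast (by omega : #T ≤ 1)
      linarith
    rw [ENNReal.ofReal_of_nonpos this]; exact zero_le
  set n := #T with hn
  set l := min n r with hl
  have hl2 : 2 ≤ l := by rw [hl]; exact le_min hT hr
  have hln : l ≤ n := min_le_left _ _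
  have hlr : l ≤ r := min_le_right _ _
  have hcl : 0 < c l := hpos l hl2
  set b : ℝ := 1 / (c l * y) with hb
  have hb0 : 0 < b := by positivity
  have hdiv : ∀ w : ℝ, w / b = w * c l * y := by intro w; rw [hb]; field_simp
  have hnone : ∏ j, vst T ∅ y 0 j none = 1 := by simp [vst]
  unfold Phi
  rw [hnone, ENNReal.ofReal_one]
  have hsub : Set.Ioo 0 b ∪ Set.Ioi b ⊆ Set.Ioi (0 : ℝ) := by
    rintro w (hw | hw)
    · exact hw.1
    · exact lt_trans hb0 hw
  have hdisj : Disjoint (Set.Ioo 0 b) (Set.Ioi b) := by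
    rw [Set.disjoint_left]
    intro w hw hw'
    exact absurd hw.2 (not_lt.mpr (le_of_lt hw'))
  refine le_trans ?_ (lintegral_mono_set hsub)
  rw [lintegral_union measurableSet_Ioi hdisj]
  have hI1 : ENNReal.ofReal (1 / b * ∑ j ∈ Finset.Icc 2 n, (n / (j * (j - 1)) : ℝ) *
      (1 - om c l j)) ≤ ∫⁻ w in Set.Ioo 0 b, (1 - J c r w (vst T ∅ y 0)) *
        ENNReal.ofReal (1 / w ^ 2) := by
    rw [← int_core n (om c l) (om_bounds c hc0 hc l) (om_zero c l) (om_one c l) b hb0]
    refine setLIntegral_mono' measurableSet_Ioo fun w hw => ?_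
    have hw0 : 0 < w := hw.1
    refine mul_le_mul_left ?_ _
    rw [hdiv w]
    have hx1 : w * c l * y ≤ 1 := by
      rw [← hdiv w]; exact div_le_one_of_le₀ hw.2.le hb0.le
    have hx0 : 0 ≤ w * c l * y := by positivity
    have hJ := le_trans (J_mono_r c l r hlr w (vst T ∅ y 0))
      (le_of_eq (J_eqlev c hc0 hc h1 hpos w hw0 l hl2 T y hy0 hx1))
    have hs0 : 0 ≤ ∑ j ∈ range (#T + 1), ((#T).choose j : ℝ) *
      ((w * c l * y) ^ j * (1 - w * c l * y) ^ (#T - j) * om c l j) :=
      Finset.sum_nonneg fun j _ => mul_nonneg (Nat.cast_nonneg _) (mul_nonneg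
        (mul_nonneg (pow_nonneg hx0 _) (pow_nonneg (by linarith) _)) (om_bounds c hc0 hc _ _).1)
    rw [ENNReal.ofReal_sub _ hs0, ENNReal.ofReal_one]
    exact tsub_le_tsub_left hJ _
  have hI2 : ENNReal.ofReal (1 / b) ≤ ∫⁻ w in Set.Ioi b, (1 - J c r w (vst T ∅ y 0)) *
        ENNReal.ofReal (1 / w ^ 2) := by
    rw [← int_tail b hb0]
    refine setLIntegral_mono' measurableSet_Ioi fun w hw => ?_
    have hw' : b < w := hw
    have hx1 : 1 ≤ w * c l * y := by
      rw [← hdiv w, le_div_iff₀ hb0, one_mul]; exact hw'.le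
    rw [J_eqlev_zero c w r l hl2 hlr T hln y hx1, tsub_zero, one_mul]
  refine le_trans ?_ (add_le_add hI1 hI2)
  rw [sum_om c l n hl2 hln]
  refine le_trans ?_ ENNReal.ofReal_add_le
  refine ENNReal.ofReal_le_ofReal ?_
  have e1 : 1 / b * ((n : ℝ) - 1 - n * sg c l) + 1 / b = n * (c l * (1 - sg c l)) * y := by
    rw [hb]; field_simp; ring
  rw [e1]
  refine mul_le_mul_of_nonneg_right ?_ hy
  exact hN n hT (le_trans (Finset.card_le_univ T) (by simp))

theorem hN_of (c : ℕ → ℝ) (r : ℕ)
    (hE : ∀ l, 2 ≤ l → l < r → ((l : ℝ) - 1) / l ≤ c l * (1 - sg c l))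
    (hEr : 1 ≤ c r * (1 - sg c r)) (n : ℕ) (hn : 2 ≤ n) :
    (n : ℝ) - 1 ≤ n * (c (min n r) * (1 - sg c (min n r))) := by
  have hnpos : (0 : ℝ) < n := by exact_mod_cast (by omega : 0 < n)
  rcases Nat.lt_or_ge n r with h | h
  · rw [min_eq_left h.le]
    have := hE n hn h
    rw [div_le_iff₀ hnpos] at this
    linarith
  · rw [min_eq_right h]
    have : (n : ℝ) * 1 ≤ n * (c r * (1 - sg c r)) := mul_le_mul_of_nonneg_left hEr hnpos.le
    linarith

end Pool.Agent.Helper92.Crypto
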