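import Mathlib
import Pool.Agent.Helper92.CryptoMain

/-!
# The upper bound given by the death level potential, conclusion
-/

namespace Pool.Agent.Helper92.Crypto

open Finset MeasureTheory
open scoped ENNReal

variable {k : ℕ}

/-! ### The symmetry exchanging the two secrets -/

/-- exchange the two values of the secret -/
def swp (S : Fin k → Option Bool → ℝ) (i : Fin k) (o : Option Bool) : ℝ := S i (o.map (!·))

theorem J_swp (c : ℕ → ℝ) (r : ℕ) (w : ℝ) (S : Fin k → Option Bool → ℝ) :
    J c r w (swp S) = J c r w S := by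
  have hmp : MeasurePreserving (fun v : Fin k → ℝ => (fun i => S i none) - v) volume volume :=
    Measure.measurePreserving_sub_left volume _
  unfold J
  rw [← hmp.measure_preimage (measurableSet_ES c r w S).nullMeasurableSet]
  congr 1
  ext v
  simp only [ES, Set.mem_ofPred_eq, Set.mem_preimage, swp, Option.map_none, Option.map_some,
    Bool.not_false, Bool.not_true, Pi.sub_apply, sub_sub_cancel]
  constructor
  · rintro ⟨h0, h1, h2⟩
    exact ⟨fun j => ⟨by linarith [(h0 j).2], by linarith [(h0 j).1]⟩, h2, h1⟩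
  · rintro ⟨h0, h1, h2⟩
    exact ⟨fun j => ⟨by linarith [(h0 j).2], by linarith [(h0 j).1]⟩, h2, h1⟩

theorem Phi_swp (c : ℕ → ℝ) (r : ℕ) (S : Fin k → Option Bool → ℝ) :
    Phi c r (swp S) = Phi c r S := by
  unfold Phi
  refine lintegral_congr fun w => ?_
  rw [J_swp]
  rfl

theorem wt_swp (S : Fin k → Option Bool → ℝ) (x : Bool) (j : Fin k) :
    wt (swp S) x j = wt S (!x) j := by
  unfold wt
  refine Finset.prod_congr rfl fun i _ => ?_
  unfold inp swp
  split_ifs <;> simp

/-! ### Products and sums over subsets -/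

theorem sum_weights_card (t : Fin k → ℝ) :
    ∑ T ∈ (univ : Finset (Fin k)).powerset, (∏ i, if i ∈ T then t i else 1 - t i) *
      ((#T : ℝ) - 1) = ∑ i, t i - 1 := by
  have hone : ∑ T ∈ (univ : Finset (Fin k)).powerset, (∏ i, (if i ∈ T then t i else 1 - t i)) =
      1 := by
    have h := Finset.prod_add t (fun i => 1 - t i) (univ : Finset (Fin k))
    simp only [add_sub_cancel, Finset.prod_const_one] at h
    refine Eq.trans ?_ h.symm
    refine Finset.sum_congr rfl fun T _ => ?_
    rw [Finset.prod_ite]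
    congr 1
    · refine Finset.prod_congr ?_ fun _ _ => rfl
      ext i; simp
    · refine Finset.prod_congr ?_ fun _ _ => rfl
      ext i; simp
  have hi : ∀ i : Fin k, ∑ T ∈ (univ : Finset (Fin k)).powerset,
      ((∏ j, if j ∈ T then t j else 1 - t j) * (if i ∈ T then 1 else 0)) = t i := by
    intro i
    have h := Finset.prod_add t (fun j => if j = i then 0 else 1 - t j) (univ : Finset (Fin k))
    have e1 : ∏ j, (t j + if j = i then 0 else 1 - t j) = t i := by
      rw [← Finset.mul_prod_erase univ _ (mem_univ i)]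
      simp only [if_true, add_zero]
      rw [Finset.prod_eq_one, mul_one]
      intro j hj
      rw [if_neg (Finset.ne_of_mem_erase hj)]
      ring
    rw [e1] at h
    rw [h]
    refine Finset.sum_congr rfl fun T _ => ?_
    by_cases hiT : i ∈ T
    · rw [if_pos hiT, mul_one, Finset.prod_ite]
      congr 1
      · refine Finset.prod_congr ?_ fun _ _ => rfl
        ext j; simp
      · refine Finset.prod_congr ?_ fun j hj => ?_
        · ext j; simp
        · have : j ≠ i := by
            rintro rfl
            simp at hj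
            exact hj hiT
          rw [if_neg this]
    · rw [if_neg hiT, mul_zero]
      symm
      apply mul_eq_zero_of_right
      apply Finset.prod_eq_zero (i := i)
      · simp [hiT]
      · simp
  calc ∑ T ∈ (univ : Finset (Fin k)).powerset, (∏ i, if i ∈ T then t i else 1 - t i) *
      ((#T : ℝ) - 1) =
      ∑ T ∈ (univ : Finset (Fin k)).powerset, (∏ i, if i ∈ T then t i else 1 - t i) * (#T : ℝ) -
      ∑ T ∈ (univ : Finset (Fin k)).powerset, (∏ i, if i ∈ T then t i else 1 - t i) := by
        rw [← Finset.sum_sub_distrib]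
        refine Finset.sum_congr rfl fun T _ => ?_
        ring
    _ = ∑ i, t i - 1 := by
        rw [hone]
        congr 1
        have : ∀ T ∈ (univ : Finset (Fin k)).powerset,
            (∏ i, if i ∈ T then t i else 1 - t i) * (#T : ℝ) =
            ∑ i, (∏ j, if j ∈ T then t j else 1 - t j) * (if i ∈ T then 1 else 0) := by
          intro T _
          rw [← Finset.mul_sum]
          congr 1
          simp
        rw [Finset.sum_congr rfl this, Finset.sum_comm]
        exact Finset.sum_congr rfl fun i _ => hi i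

theorem ofReal_sum_le' {ι : Type*} (s : Finset ι) (f : ι → ℝ) :
    ENNReal.ofReal (∑ i ∈ s, f i) ≤ ∑ i ∈ s, ENNReal.ofReal (f i) := by
  classical
  induction s using Finset.induction_on with
  | empty => simp
  | insert a s ha ih =>
    rw [Finset.sum_insert ha, Finset.sum_insert ha]
    exact le_trans ENNReal.ofReal_add_le (add_le_add le_rfl ih)

/-! ### The potential dominates the payoff -/

theorem Phi_major_false (c : ℕ → ℝ) (hc0 : ∀ l, 0 ≤ c l) (hc : Monotone c) (h1 : c 1 = 0)
    (hpos : ∀ l, 2 ≤ l → 0 < c l) (r : ℕ) (hr : 2 ≤ r)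
    (hN : ∀ n : ℕ, 2 ≤ n → n ≤ k →
      (n : ℝ) - 1 ≤ n * (c (min n r) * (1 - sg c (min n r))))
    (hk : 0 < k) (S : Fin k → Option Bool → ℝ)
    (hS : ∀ i o, 0 ≤ S i o) :
    ∃ m, ENNReal.ofReal (∑ j, wt S false j - wt S false m) ≤ Phi c r S := by
  have hwt : ∀ j, wt S false j = S j (some false) * ∏ i ∈ univ.erase j, S i none := by
    intro j
    unfold wt
    rw [← Finset.mul_prod_erase univ _ (mem_univ j)]
    congr 1
    · simp [inp]
    · refine Finset.prod_congr rfl fun i hi => ?_
      simp [inp, Finset.ne_of_mem_erase hi]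
  by_cases hz : ∃ i0, S i0 none = 0
  · obtain ⟨i0, hi0⟩ := hz
    refine ⟨i0, ?_⟩
    have : ∑ j, wt S false j - wt S false i0 = 0 := by
      rw [sub_eq_zero]
      refine Finset.sum_eq_single i0 (fun j _ hj => ?_) (fun h => absurd (mem_univ _) h)
      rw [hwt, Finset.prod_eq_zero (Finset.mem_erase.mpr ⟨Ne.symm hj, mem_univ i0⟩) hi0, mul_zero]
    rw [this, ENNReal.ofReal_zero]
    exact zero_le
  push Not at hz
  have hn : ∀ i, 0 < S i none := fun i => lt_of_le_of_ne (hS i none) (Ne.symm (hz i))
  set P : ℝ := ∏ i, S i none with hP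
  have hPpos : 0 < P := Finset.prod_pos fun i _ => hn i
  set x : Fin k → ℝ := fun i => S i (some false) / S i none with hx
  have hx0 : ∀ i, 0 ≤ x i := fun i => div_nonneg (hS _ _) (hS _ _)
  have hwt' : ∀ j, wt S false j = P * x j := by
    intro j
    rw [hwt, hP, ← Finset.mul_prod_erase univ (fun i => S i none) (mem_univ j), hx]
    have := (hn j).ne'
    field_simp
  obtain ⟨m, -, hm⟩ := Finset.exists_max_image univ x ⟨⟨0, hk⟩, mem_univ _⟩
  refine ⟨m, ?_⟩
  set y := x m with hy
  have hpay : ∑ j, wt S false j - wt S false m = P * (∑ j, x j - y) := by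
    rw [hwt', Finset.sum_congr rfl fun j _ => hwt' j, ← Finset.mul_sum, hy]
    ring
  rw [hpay, ENNReal.ofReal_mul hPpos.le]
  -- scaling
  set S1 : Fin k → Option Bool → ℝ := fun i o => S i o / S i none with hS1
  have hS10 : ∀ i o, 0 ≤ S1 i o := fun i o => div_nonneg (hS _ _) (hS _ _)
  have hsc : Phi c r S = ENNReal.ofReal P * Phi c r S1 := by
    have h := smul_univ (F := Phi c r)
      (fun i S p t _ hp ht => Phi_smul c hc0 hc r i S p t hp ht) (fun i => S i none)
      (fun i => hS i none) S1 hS10
    rw [← hP] at h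
    rw [← h]
    congr 1
    funext i o
    have := (hn i).ne'
    simp only [hS1]
    field_simp
  rw [hsc]
  refine mul_le_mul_right ?_ _
  have hsuper := Phi_super (k := k) c hc0 hc r
  -- drop the other suspicion
  set S2 : Fin k → Option Bool → ℝ := fun i o => match o with
    | none => 1
    | some false => x i
    | some true => 0 with hS2
  have hS20 : ∀ i o, 0 ≤ S2 i o := by
    intro i o
    match o with
    | none => exact zero_le_one
    | some false => exact hx0 i
    | some true => exact le_rfl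
  set Z : Fin k → Option Bool → ℝ := fun i o => match o with
    | none => 0
    | some false => 0
    | some true => S1 i (some true) with hZ
  have hZ0 : ∀ i o, 0 ≤ Z i o := by
    intro i o
    match o with
    | none => exact le_rfl
    | some false => exact le_rfl
    | some true => exact hS10 i _
  have hdrop : Phi c r S2 ≤ Phi c r S1 := by
    have h := split_ge hsuper S2 Z hS20 hZ0 univ S1 hS10 (by
      intro i _
      funext o
      match o with
      | none =>
        have := (hn i).ne'
        simp only [hS1, Pi.add_apply, hS2, hZ]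
        field_simp
        ring
      | some false => simp [hS1, hS2, hZ, hx]
      | some true => simp [hS1, hS2, hZ])
    refine le_trans ?_ h
    have h2 := Finset.single_le_sum (f := fun T : Finset (Fin k) => Phi c r (fun i =>
      if i ∈ T then S2 i else if i ∈ (univ : Finset (Fin k)) then Z i else S1 i))
      (s := (univ : Finset (Fin k)).powerset) (fun T _ => zero_le)
      (mem_powerset.mpr (Finset.Subset.refl _))
    refine le_trans (le_of_eq ?_) h2
    congr 1
    funext i
    simp
  refine le_trans ?_ hdrop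
  rcases eq_or_lt_of_le (hx0 m) with hy0 | hy0
  · have : ∑ j, x j - y = 0 := by
      rw [← hy] at hy0
      rw [← hy0, sub_zero]
      refine Finset.sum_eq_zero fun j _ => le_antisymm ?_ (hx0 j)
      rw [hy0]; exact hm j (mem_univ j)
    rw [this, ENNReal.ofReal_zero]
    exact zero_le
  rw [← hy] at hy0
  set t : Fin k → ℝ := fun i => x i / y with ht
  have ht0 : ∀ i, 0 ≤ t i := fun i => div_nonneg (hx0 i) hy0.le
  have ht1 : ∀ i, t i ≤ 1 := fun i => div_le_one_of_le₀ (hm i (mem_univ i)) hy0.le
  have hsplit := split_ge hsuper (fun i o => t i * vst univ ∅ y 0 i o)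
    (fun i o => (1 - t i) * vst ∅ ∅ 0 0 i o)
    (fun i o => mul_nonneg (ht0 i) (vst_nonneg _ _ _ _ hy0.le le_rfl i o))
    (fun i o => mul_nonneg (by linarith [ht1 i]) (vst_nonneg _ _ _ _ le_rfl le_rfl i o))
    univ S2 hS20 (by
      intro i _
      funext o
      match o with
      | none => simp [hS2, vst]
      | some false =>
        simp only [hS2, vst, Pi.add_apply, mem_univ, if_true, notMem_empty, if_false, mul_zero,
          add_zero, ht]
        field_simp
      | some true => simp [hS2, vst])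
  refine le_trans ?_ hsplit
  have hterm : ∀ T ∈ (univ : Finset (Fin k)).powerset,
      ENNReal.ofReal ((∏ i, if i ∈ T then t i else 1 - t i) * ((#T : ℝ) - 1) * y) ≤
      Phi c r (fun i => if i ∈ T then (fun o => t i * vst univ ∅ y 0 i o) else
        if i ∈ (univ : Finset (Fin k)) then (fun o => (1 - t i) * vst ∅ ∅ 0 0 i o) else S2 i) := by
    intro T _
    have hw0 : ∀ i, 0 ≤ (if i ∈ T then t i else 1 - t i) := by
      intro i
      split_ifs
      · exact ht0 i
      · linarith [ht1 i]
    have h := smul_univ (F := Phi c r)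
      (fun i S p t _ hp ht => Phi_smul c hc0 hc r i S p t hp ht)
      (fun i => if i ∈ T then t i else 1 - t i) hw0 (vst T ∅ y 0)
      (vst_nonneg _ _ _ _ hy0.le le_rfl)
    have e : (fun i => if i ∈ T then (fun o => t i * vst univ ∅ y 0 i o) else
        if i ∈ (univ : Finset (Fin k)) then (fun o => (1 - t i) * vst ∅ ∅ 0 0 i o) else S2 i) =
        fun i o => (if i ∈ T then t i else 1 - t i) * vst T ∅ y 0 i o := by
      funext i o
      by_cases hi : i ∈ T
      · match o with
        | none => simp [hi, vst]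
        | some false => simp [hi, vst]
        | some true => simp [hi, vst]
      · match o with
        | none => simp [hi, vst]
        | some false => simp [hi, vst]
        | some true => simp [hi, vst]
    rw [e, h, mul_assoc, ENNReal.ofReal_mul (Finset.prod_nonneg fun i _ => hw0 i)]
    exact mul_le_mul_right (Phi_vst c hc0 hc h1 hpos r hr hN T y hy0.le) _
  refine le_trans ?_ (Finset.sum_le_sum hterm)
  refine le_trans ?_ (ofReal_sum_le' _ _)
  refine ENNReal.ofReal_le_ofReal ?_
  rw [← Finset.sum_mul, sum_weights_card t]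
  apply le_of_eq
  rw [ht, ← Finset.sum_div]
  field_simp

theorem Phi_major (c : ℕ → ℝ) (hc0 : ∀ l, 0 ≤ c l) (hc : Monotone c) (h1 : c 1 = 0)
    (hpos : ∀ l, 2 ≤ l → 0 < c l) (r : ℕ) (hr : 2 ≤ r)
    (hN : ∀ n : ℕ, 2 ≤ n → n ≤ k →
      (n : ℝ) - 1 ≤ n * (c (min n r) * (1 - sg c (min n r))))
    (hk : 0 < k) : EMajor (k := k) (Phi c r) := by
  intro S hS out
  match out with
  | false => exact Phi_major_false c hc0 hc h1 hpos r hr hN hk S hS
  | true =>
    obtain ⟨m, hm⟩ := Phi_major_false c hc0 hc h1 hpos r hr hN hk (swp S)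
      (fun i o => hS i _)
    refine ⟨m, ?_⟩
    rw [Phi_swp] at hm
    have e : ∀ j, wt (swp S) false j = wt S true j := fun j => wt_swp S false j
    rw [Finset.sum_congr rfl fun j _ => e j, e m] at hm
    exact hm

/-! ### The initial state -/

theorem Phi_init (c : ℕ → ℝ) (hc0 : ∀ l, 0 ≤ c l) (hc : Monotone c) (h1 : c 1 = 0)
    (hpos : ∀ l, 2 ≤ l → 0 < c l) (r : ℕ) (hr : 2 ≤ r) (hk : 0 < k) :
    Phi (k := k) c r (fun _ _ => 1) ≤ ENNReal.ofReal (2 * k * (c r *
      (1 - ∑ N ∈ Finset.Icc 2 k, th c r N / (N * (N - 1))))) := by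
  have hcr : 0 < c r := hpos r hr
  set b : ℝ := 1 / (2 * c r) with hb
  have hb0 : 0 < b := by positivity
  have hdiv : ∀ w : ℝ, w / b = 2 * w * c r := by intro w; rw [hb]; field_simp
  unfold Phi
  simp only [Finset.prod_const_one, ENNReal.ofReal_one]
  have hsub : Set.Ioi (0 : ℝ) ⊆ Set.Ioo 0 b ∪ ({b} ∪ Set.Ioi b) := by
    intro w hw
    rcases lt_trichotomy w b with h | h | h
    · exact Or.inl ⟨hw, h⟩
    · exact Or.inr (Or.inl h)
    · exact Or.inr (Or.inr h)
  refine le_trans (lintegral_mono_set hsub) ?_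
  refine le_trans (lintegral_union_le _ _ _) ?_
  refine le_trans (add_le_add le_rfl (lintegral_union_le _ _ _)) ?_
  rw [Measure.restrict_singleton, Real.volume_singleton, zero_smul, lintegral_zero_measure,
    zero_add]
  have hI1 : ∫⁻ w in Set.Ioo 0 b, (1 - J (k := k) c r w (fun _ _ => 1)) *
      ENNReal.ofReal (1 / w ^ 2) = ENNReal.ofReal (1 / b * ∑ j ∈ Finset.Icc 2 k,
      (k / (j * (j - 1)) : ℝ) * (1 - th c r j)) := by
    rw [← int_core k (th c r) (th_bounds c hc0 hc r) (th_zero c r) (th_one c r) b hb0]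
    refine setLIntegral_congr_fun measurableSet_Ioo fun w hw => ?_
    have hw0 : 0 < w := hw.1
    have hx1 : 2 * w * c r ≤ 1 := by
      rw [← hdiv w]; exact div_le_one_of_le₀ hw.2.le hb0.le
    have hx0 : 0 ≤ 2 * w * c r := by positivity
    rw [J_init c hc0 hc h1 hpos w hw0 r hr hx1, hdiv w]
    have hs0 : 0 ≤ ∑ N ∈ range (k + 1), (k.choose N : ℝ) *
      ((2 * w * c r) ^ N * (1 - 2 * w * c r) ^ (k - N) * th c r N) :=
      Finset.sum_nonneg fun j _ => mul_nonneg (Nat.cast_nonneg _) (mul_nonneg
        (mul_nonneg (pow_nonneg hx0 _) (pow_nonneg (by linarith) _)) (th_bounds c hc0 hc _ _).1)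
    rw [ENNReal.ofReal_sub _ hs0, ENNReal.ofReal_one]
  have hI2 : ∫⁻ w in Set.Ioi b, (1 - J (k := k) c r w (fun _ _ => 1)) *
        ENNReal.ofReal (1 / w ^ 2) ≤ ENNReal.ofReal (1 / b) := by
    rw [← int_tail b hb0]
    refine setLIntegral_mono' measurableSet_Ioi fun w _ => ?_
    exact mul_le_of_le_one_left zero_le tsub_le_self
  refine le_trans (add_le_add (le_of_eq hI1) hI2) ?_
  have hnn : 0 ≤ 1 / b * ∑ j ∈ Finset.Icc 2 k, (k / (j * (j - 1)) : ℝ) * (1 - th c r j) := by
    refine mul_nonneg (by positivity) (Finset.sum_nonneg fun j hj => mul_nonneg ?_ ?_)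
    · rw [Finset.mem_Icc] at hj
      have : (2 : ℝ) ≤ j := by exact_mod_cast hj.1
      exact div_nonneg (Nat.cast_nonneg _) (mul_nonneg (by linarith) (by linarith))
    · linarith [(th_bounds c hc0 hc r j).2]
  rw [← ENNReal.ofReal_add hnn (by positivity)]
  refine ENNReal.ofReal_le_ofReal (le_of_eq ?_)
  have e1 : ∑ j ∈ Finset.Icc 2 k, (k / (j * (j - 1)) : ℝ) * (1 - th c r j) =
      (k - 1) - k * ∑ N ∈ Finset.Icc 2 k, th c r N / (N * (N - 1)) := by
    rw [← tele k hk, Finset.mul_sum, ← Finset.sum_sub_distrib]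
    refine Finset.sum_congr rfl fun j _ => ?_
    ring
  rw [e1, hb]
  field_simp
  ring

/-- **The upper bound given by the death level potential.** -/
theorem cryptoValue_le_death (c : ℕ → ℝ) (hc0 : ∀ l, 0 ≤ c l) (hc : Monotone c) (h1 : c 1 = 0)
    (hpos : ∀ l, 2 ≤ l → 0 < c l) (r : ℕ) (hr : 2 ≤ r)
    (hE : ∀ l, 2 ≤ l → l < r → ((l : ℝ) - 1) / l ≤ c l * (1 - sg c l))
    (hEr : 1 ≤ c r * (1 - sg c r)) (hk : 0 < k) :
    cryptoValue k ≤ c r * (1 - ∑ N ∈ Finset.Icc 2 k, th c r N / (N * (N - 1))) := by
  have hk' : (0 : ℝ) < k := by exact_mod_cast hk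
  have hnn : 0 ≤ c r * (1 - ∑ N ∈ Finset.Icc 2 k, th c r N / (N * (N - 1))) := by
    refine mul_nonneg (hc0 r) ?_
    have h : ∑ N ∈ Finset.Icc 2 k, th c r N / (N * (N - 1) : ℝ) ≤
        ∑ N ∈ Finset.Icc 2 k, 1 / (N * (N - 1) : ℝ) := by
      refine Finset.sum_le_sum fun N hN => ?_
      rw [Finset.mem_Icc] at hN
      have : (2 : ℝ) ≤ N := by exact_mod_cast hN.1
      exact div_le_div_of_nonneg_right (th_bounds c hc0 hc r N).2
        (mul_nonneg (by linarith) (by linarith))
    have h2 : k * ∑ N ∈ Finset.Icc 2 k, 1 / (N * (N - 1) : ℝ) = k - 1 := by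
      rw [← tele k hk, Finset.mul_sum]
      refine Finset.sum_congr rfl fun j _ => ?_
      ring
    have h3 : ∑ N ∈ Finset.Icc 2 k, 1 / (N * (N - 1) : ℝ) = 1 - 1 / k := by
      field_simp
      linarith
    have h4 : (0 : ℝ) ≤ 1 / k := by positivity
    linarith
  refine le_trans (cryptoValue_le_of_epotential hk
    (Phi_major c hc0 hc h1 hpos r hr (fun n hn _ => hN_of c r hE hEr n hn) hk) (Phi_super c hc0 hc r)
    (2 * k * (c r * (1 - ∑ N ∈ Finset.Icc 2 k, th c r N / (N * (N - 1)))))
    (by positivity) (Phi_init c hc0 hc h1 hpos r hr hk)) (le_of_eq ?_)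
  field_simp

end Pool.Agent.Helper92.Crypto
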