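import Mathlib
import Pool.Agent.Helper92.CryptoFinal

/-!
# Numerical certificates for the death level potential
-/

namespace Pool.Agent.Helper92.Crypto

open Finset

namespace Cert

/-! ### The computation -/

def stepAux (d : ℕ) : ℕ → List ℕ → List ℕ
  | _, [] => []
  | x, y :: l => (d * x + y) :: stepAux d y l

def stepL (d : ℕ) : List ℕ → List ℕ
  | [] => []
  | x :: l => stepAux d x l

/-- binomial transform of the list `a` -/
def heads (d : ℕ) : ℕ → List ℕ → List ℕ
  | 0, _ => []
  | n + 1, a => a.headD 0 :: heads d n (stepL d a)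

/-- upper bound for `M` times the sum of the `t_i / (pw * C ^ i * (j + i) * (j + i - 1))` -/
def sgUp (M C : ℕ) : ℕ → ℕ → List ℕ → ℕ
  | _, _, [] => 0
  | j, pw, x :: t => (M * x) / (pw * (j * (j - 1))) + 1 + sgUp M C (j + 1) (pw * C) t

def dot : List ℕ → List ℕ → ℕ
  | [], _ => 0
  | _ :: _, [] => 0
  | x :: u, y :: w => x * y + dot u w

def dd (u : List ℕ) : List ℕ → List ℕ → ℕ
  | [], _ => 0
  | x :: v, w => x * dot u w + dd u v w.tail

def ul : List ℕ → ℕ → ℕ → List ℕ
  | [], _, _ => []
  | x :: t, a, f => x * f :: ul t (a + 1) (f / (a + 1))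

def wl (c2 : ℕ) : ℕ → ℕ → ℕ → List ℕ
  | 0, _, _ => []
  | m + 1, N, f => f * c2 ^ m :: wl c2 m (N + 1) (f * (N - 1))

/-- check of the condition at level `l < r` -/
def okE (Q M l C : ℕ) (row : List ℕ) : Bool :=
  decide ((l - 1) * Q * M + l * C * sgUp M C 2 (C * C) (row.drop 2) ≤ l * C * M)

/-- check of the condition at level `r` -/
def okL (Q M C : ℕ) (row : List ℕ) : Bool :=
  decide (Q * M + C * sgUp M C 2 (C * C) (row.drop 2) ≤ C * M)

/-- check of the final bound -/
def fin (Q num den r C : ℕ) (row : List ℕ) : Bool :=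
  let F := (r - 1).factorial
  let U := ul row 0 F
  let W := 0 :: 0 :: wl (2 * C) (2 * r - 3) 2 1
  let D := (2 * C) ^ (2 * r - 2) * (F * F)
  decide (C * D * den ≤ num * Q * D + C * den * dd U U W)

/-- the complete check -/
def run (Q M num den : ℕ) : ℕ → ℕ → List ℕ → List ℕ → Bool
  | l, C, row, [] => okL Q M C row && fin Q num den l C row
  | l, C, row, C' :: t => okE Q M l C row &&
      run Q M num den (l + 1) C' (heads (C' - C) (l + 1) (row ++ [0])) t

/-! ### Correctness of the list operations -/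

theorem stepAux_length (d : ℕ) (l : List ℕ) : ∀ x, (stepAux d x l).length = l.length := by
  induction l with
  | nil => intro x; rfl
  | cons y l ih => intro x; simp [stepAux, ih]

theorem stepAux_getD (d : ℕ) (l : List ℕ) : ∀ x i, i < l.length →
    (stepAux d x l).getD i 0 = d * (x :: l).getD i 0 + l.getD i 0 := by
  induction l with
  | nil => intro x i hi; simp at hi
  | cons y l ih =>
    intro x i hi
    rcases i with _ | i
    · simp [stepAux]
    · have := ih y i (by simpa using hi)
      simpa [stepAux] using this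

theorem stepL_length (d : ℕ) (a : List ℕ) : (stepL d a).length = a.length - 1 := by
  rcases a with _ | ⟨x, l⟩
  · rfl
  · simp [stepL, stepAux_length]

theorem stepL_getD (d : ℕ) (a : List ℕ) (i : ℕ) (hi : i + 1 < a.length) :
    (stepL d a).getD i 0 = d * a.getD i 0 + a.getD (i + 1) 0 := by
  rcases a with _ | ⟨x, l⟩
  · simp at hi
  · have := stepAux_getD d l x i (by simpa using hi)
    simpa [stepL] using this

theorem pascal (d : ℕ) (a : ℕ → ℕ) (i : ℕ) :
    ∑ j ∈ range (i + 1), i.choose j * d ^ (i - j) * (d * a j + a (j + 1)) =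
      ∑ j ∈ range (i + 2), (i + 1).choose j * d ^ (i + 1 - j) * a j := by
  rw [Finset.sum_range_succ' _ (i + 1)]
  have h1 : ∀ j ∈ range (i + 1), (i + 1).choose (j + 1) * d ^ (i + 1 - (j + 1)) * a (j + 1) =
      i.choose j * d ^ (i - j) * a (j + 1) + i.choose (j + 1) * d ^ (i - j) * a (j + 1) := by
    intro j _
    rw [Nat.choose_succ_succ, Nat.add_sub_add_right]
    ring
  rw [Finset.sum_congr rfl h1, Finset.sum_add_distrib, Finset.sum_range_succ
    (fun j => i.choose (j + 1) * d ^ (i - j) * a (j + 1)), Nat.choose_succ_self]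
  have h2 : ∑ j ∈ range (i + 1), i.choose j * d ^ (i - j) * (d * a j + a (j + 1)) =
      ∑ j ∈ range (i + 1), i.choose j * d ^ (i - j) * (d * a j) +
      ∑ j ∈ range (i + 1), i.choose j * d ^ (i - j) * a (j + 1) := by
    rw [← Finset.sum_add_distrib]
    refine Finset.sum_congr rfl fun j _ => ?_
    ring
  rw [h2, Finset.sum_range_succ' (fun j => i.choose j * d ^ (i - j) * (d * a j)) i]
  have h3 : ∀ j ∈ range i, i.choose (j + 1) * d ^ (i - (j + 1)) * (d * a (j + 1)) =
      i.choose (j + 1) * d ^ (i - j) * a (j + 1) := by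
    intro j hj
    rw [mem_range] at hj
    have : i - j = (i - (j + 1)) + 1 := by omega
    rw [this, pow_succ]
    ring
  rw [Finset.sum_congr rfl h3]
  simp only [Nat.choose_zero_right, Nat.sub_zero, pow_succ]
  ring

theorem heads_length (d n : ℕ) : ∀ a, (heads d n a).length = n := by
  induction n with
  | zero => intro a; rfl
  | succ n ih => intro a; simp [heads, ih]

theorem heads_getD (d n : ℕ) : ∀ a : List ℕ, n ≤ a.length → ∀ i < n,
    (heads d n a).getD i 0 = ∑ j ∈ range (i + 1), i.choose j * d ^ (i - j) * a.getD j 0 := by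
  induction n with
  | zero => intro a _ i hi; omega
  | succ n ih =>
    intro a ha i hi
    rcases i with _ | i
    · rcases a with _ | ⟨x, l⟩
      · simp at ha
      · simp [heads]
    · have h1 : (heads d (n + 1) a).getD (i + 1) 0 = (heads d n (stepL d a)).getD i 0 := by
        simp [heads]
      rw [h1, ih (stepL d a) (by rw [stepL_length]; omega) i (by omega),
        ← pascal d (fun j => a.getD j 0) i]
      refine Finset.sum_congr rfl fun j hj => ?_
      rw [mem_range] at hj
      rw [stepL_getD d a j (by omega)]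

theorem dot_eq (u : List ℕ) : ∀ w, dot u w = ∑ i ∈ range u.length, u.getD i 0 * w.getD i 0 := by
  induction u with
  | nil => intro w; simp [dot]
  | cons x u ih =>
    intro w
    rcases w with _ | ⟨y, w⟩
    · simp [dot]
    · rw [List.length_cons, Finset.sum_range_succ']
      simp only [dot, List.getD_cons_succ, List.getD_cons_zero]
      rw [ih w]
      ring

theorem tail_getD (w : List ℕ) (i : ℕ) : w.tail.getD i 0 = w.getD (i + 1) 0 := by
  rcases w with _ | ⟨y, w⟩
  · simp
  · simp

theorem dd_eq (u v : List ℕ) : ∀ w, dd u v w = ∑ j ∈ range v.length, v.getD j 0 *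
    ∑ i ∈ range u.length, u.getD i 0 * w.getD (i + j) 0 := by
  induction v with
  | nil => intro w; simp [dd]
  | cons x v ih =>
    intro w
    rw [List.length_cons, Finset.sum_range_succ']
    simp only [dd, List.getD_cons_succ, List.getD_cons_zero]
    rw [ih w.tail, dot_eq]
    simp only [tail_getD, add_zero]
    rw [add_comm]
    congr 1

theorem ul_length (t : List ℕ) : ∀ a f, (ul t a f).length = t.length := by
  induction t with
  | nil => intro a f; rfl
  | cons x t ih => intro a f; simp [ul, ih]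

theorem ul_getD (F : ℕ) (t : List ℕ) : ∀ a i, 
    (ul t a (F / a.factorial)).getD i 0 = t.getD i 0 * (F / (a + i).factorial) := by
  induction t with
  | nil => intro a i; simp [ul]
  | cons x t ih =>
    intro a i
    have h : F / a.factorial / (a + 1) = F / (a + 1).factorial := by
      rw [Nat.div_div_eq_div_mul, Nat.factorial_succ, mul_comm]
    rcases i with _ | i
    · simp [ul]
    · simp only [ul, List.getD_cons_succ]
      rw [h, ih (a + 1) i]
      congr 3
      omega

theorem wl_getD (c2 m : ℕ) : ∀ N i, 2 ≤ N → i < m →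
    (wl c2 m N (N - 2).factorial).getD i 0 = (N + i - 2).factorial * c2 ^ (m - 1 - i) := by
  induction m with
  | zero => intro N i _ hi; omega
  | succ m ih =>
    intro N i hN hi
    rcases i with _ | i
    · simp [wl]
    · simp only [wl, List.getD_cons_succ]
      have h : (N - 2).factorial * (N - 1) = (N + 1 - 2).factorial := by
        have : N + 1 - 2 = (N - 2) + 1 := by omega
        rw [this, Nat.factorial_succ, mul_comm]
        congr 1
      rw [h, ih (N + 1) i (by omega) (by omega)]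
      congr 2
      · congr 1
        omega
      · omega

theorem sgUp_ge (M C : ℕ) (hC : 0 < C) (t : List ℕ) : ∀ j pw : ℕ, 2 ≤ j → 0 < pw →
    (M : ℝ) * ∑ i ∈ range t.length, (t.getD i 0 : ℝ) /
      (pw * C ^ i * ((j + i) * (j + i - 1))) ≤ sgUp M C j pw t := by
  induction t with
  | nil => intro j pw _ _; simp [sgUp]
  | cons x t ih =>
    intro j pw hj hpw
    have h := ih (j + 1) (pw * C) (by omega) (by positivity)
    rw [List.length_cons, Finset.sum_range_succ', mul_add]
    simp only [sgUp, List.getD_cons_succ, List.getD_cons_zero]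
    push_cast
    rw [add_comm]
    refine add_le_add ?_ ?_
    · have h1 := Nat.lt_div_mul_add (a := M * x) (b := pw * (j * (j - 1)))
        (by apply Nat.mul_pos hpw; apply Nat.mul_pos <;> omega)
      have hj' : ((j - 1 : ℕ) : ℝ) = (j : ℝ) - 1 := by
        rw [Nat.cast_sub (by omega)]; simp
      have hjr : (2 : ℝ) ≤ j := by exact_mod_cast hj
      have hpos : (0 : ℝ) < pw * (j * (j - 1)) := by
        have : (0 : ℝ) < pw := by exact_mod_cast hpw
        apply mul_pos this
        apply mul_pos <;> linarith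
      have h2 : ((M * x : ℕ) : ℝ) < ((M * x / (pw * (j * (j - 1))) * (pw * (j * (j - 1))) +
        pw * (j * (j - 1)) : ℕ) : ℝ) := by exact_mod_cast h1
      push_cast [hj'] at h2
      simp only [pow_zero, mul_one, add_zero]
      rw [← mul_div_assoc, div_le_iff₀ hpos]
      linarith
    · refine le_trans (le_of_eq ?_) h
      congr 1
      refine Finset.sum_congr rfl fun i _ => ?_
      push_cast
      congr 1
      ring

/-! ### Correctness of the checks -/

/-- the invariant -/
def Inv (c : ℕ → ℝ) (Q l C : ℕ) (row : List ℕ) : Prop :=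
  c l = C / Q ∧ row.length = l ∧ ∀ j < l, (row.getD j 0 : ℝ) = C ^ j * om c l j

theorem getD_append_zero (row : List ℕ) (j : ℕ) : (row ++ [0]).getD j 0 = row.getD j 0 := by
  rcases lt_trichotomy j row.length with h | h | h
  · rw [List.getD_append _ _ _ _ h]
  · rw [List.getD_append_right _ _ _ _ h.ge]
    subst h
    simp
  · rw [List.getD_append_right _ _ _ _ h.le, List.getD_eq_default _ _ (by simp; omega),
      List.getD_eq_default _ _ h.le]

theorem inv_step (c : ℕ → ℝ) (Q l C C' : ℕ) (row : List ℕ) (hQ : 0 < Q) (hl : 2 ≤ l)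
    (h : Inv c Q l C row) (hc : c (l + 1) = C' / Q) (hCC : C ≤ C') (hC' : 0 < C') :
    Inv c Q (l + 1) C' (heads (C' - C) (l + 1) (row ++ [0])) := by
  obtain ⟨h1, h2, h3⟩ := h
  refine ⟨hc, heads_length _ _ _, fun n hn => ?_⟩
  rw [heads_getD _ _ _ (by simp [h2]) n hn]
  obtain ⟨m, rfl⟩ : ∃ m, l = m + 1 := ⟨l - 1, by omega⟩
  rw [show om c (m + 1 + 1) n = ∑ j ∈ range (n + 1), (n.choose j : ℝ) *
      ((c (m + 1) / c (m + 2)) ^ j * (1 - c (m + 1) / c (m + 2)) ^ (n - j) * om c (m + 1) j) by
    rw [om, if_pos hn]]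
  have hQ' : (0 : ℝ) < Q := by exact_mod_cast hQ
  have hC'' : (0 : ℝ) < C' := by exact_mod_cast hC'
  have hr : c (m + 1) / c (m + 2) = C / C' := by
    rw [h1, hc]; field_simp
  rw [hr]
  push_cast
  rw [Finset.mul_sum]
  refine Finset.sum_congr rfl fun j hj => ?_
  rw [mem_range] at hj
  rw [getD_append_zero]
  have h4 : (row.getD j 0 : ℝ) = C ^ j * om c (m + 1) j := by
    rcases Nat.lt_or_ge j (m + 1) with h | h
    · exact h3 j h
    · rw [List.getD_eq_default _ _ (by omega), om_of_le c (m + 1) j hl h]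
      simp
  have h5 : ((C' - C : ℕ) : ℝ) = C' - C := Nat.cast_sub hCC
  rw [h4, h5]
  have h6 : (C' : ℝ) ^ n = C' ^ j * C' ^ (n - j) := by
    rw [← pow_add]; congr 1; omega
  have h7 : (1 - (C : ℝ) / C') = (C' - C) / C' := by field_simp
  rw [h6, h7, div_pow, div_pow]
  field_simp

theorem sg_le (c : ℕ → ℝ) (Q M l C : ℕ) (row : List ℕ) (hM : 0 < M) (hC : 0 < C) (hl : 2 ≤ l)
    (h : Inv c Q l C row) : sg c l ≤ (sgUp M C 2 (C * C) (row.drop 2) : ℝ) / M := by
  obtain ⟨h1, h2, h3⟩ := h
  have hM' : (0 : ℝ) < M := by exact_mod_cast hM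
  have hC' : (0 : ℝ) < C := by exact_mod_cast hC
  rw [le_div_iff₀ hM', mul_comm]
  refine le_trans (le_of_eq ?_) (sgUp_ge M C hC (row.drop 2) 2 (C * C) le_rfl (by positivity))
  congr 1
  unfold sg
  rw [List.length_drop, h2]
  have e : Finset.Icc 2 (l - 1) = Finset.Ico 2 l := by
    ext x; rw [Finset.mem_Icc, Finset.mem_Ico]; omega
  rw [e, Finset.sum_Ico_eq_sum_range]
  refine Finset.sum_congr rfl fun i hi => ?_
  rw [mem_range] at hi
  have h4 : (row.drop 2).getD i 0 = row.getD (2 + i) 0 := by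
    rw [List.getD_eq_getElem?_getD, List.getD_eq_getElem?_getD, List.getElem?_drop]
  rw [h4, h3 (2 + i) (by omega)]
  push_cast
  have h5 : (0 : ℝ) < 2 + i := by positivity
  have h6 : (2 + (i : ℝ) - 1) = 1 + i := by ring
  rw [h6, pow_add]
  field_simp

theorem okE_spec (c : ℕ → ℝ) (Q M l C : ℕ) (row : List ℕ) (hQ : 0 < Q) (hM : 0 < M) (hC : 0 < C)
    (hl : 2 ≤ l) (h : Inv c Q l C row) (hok : okE Q M l C row = true) :
    ((l : ℝ) - 1) / l ≤ c l * (1 - sg c l) := by
  have hs := sg_le c Q M l C row hM hC hl h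
  obtain ⟨h1, h2, h3⟩ := h
  have hM' : (0 : ℝ) < M := by exact_mod_cast hM
  have hC' : (0 : ℝ) < C := by exact_mod_cast hC
  have hQ' : (0 : ℝ) < Q := by exact_mod_cast hQ
  have hl' : (0 : ℝ) < l := by exact_mod_cast (by omega : 0 < l)
  unfold okE at hok
  have h4 := of_decide_eq_true hok
  set s := sgUp M C 2 (C * C) (row.drop 2) with hsdef
  have h5 : (((l - 1) * Q * M + l * C * s : ℕ) : ℝ) ≤ ((l * C * M : ℕ) : ℝ) := by exact_mod_cast h4
  have h6 : ((l - 1 : ℕ) : ℝ) = (l : ℝ) - 1 := by rw [Nat.cast_sub (by omega)]; simp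
  push_cast [h6] at h5
  have h7 : (C : ℝ) / Q * (1 - s / M) ≤ c l * (1 - sg c l) := by
    rw [h1]
    exact mul_le_mul_of_nonneg_left (by linarith) (by positivity)
  refine le_trans ?_ h7
  rw [div_le_iff₀ hl']
  have e : (C : ℝ) / Q * (1 - s / M) * l = (l * C * M - l * C * s) / (Q * M) := by field_simp
  rw [e, le_div_iff₀ (by positivity)]
  linarith

theorem okL_spec (c : ℕ → ℝ) (Q M l C : ℕ) (row : List ℕ) (hQ : 0 < Q) (hM : 0 < M) (hC : 0 < C)
    (hl : 2 ≤ l) (h : Inv c Q l C row) (hok : okL Q M C row = true) :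
    1 ≤ c l * (1 - sg c l) := by
  have hs := sg_le c Q M l C row hM hC hl h
  obtain ⟨h1, h2, h3⟩ := h
  have hM' : (0 : ℝ) < M := by exact_mod_cast hM
  have hC' : (0 : ℝ) < C := by exact_mod_cast hC
  have hQ' : (0 : ℝ) < Q := by exact_mod_cast hQ
  unfold okL at hok
  have h4 := of_decide_eq_true hok
  set s := sgUp M C 2 (C * C) (row.drop 2) with hsdef
  have h5 : ((Q * M + C * s : ℕ) : ℝ) ≤ ((C * M : ℕ) : ℝ) := by exact_mod_cast h4
  push_cast at h5
  have h7 : (C : ℝ) / Q * (1 - s / M) ≤ c l * (1 - sg c l) := by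
    rw [h1]
    exact mul_le_mul_of_nonneg_left (by linarith) (by positivity)
  refine le_trans ?_ h7
  have e : (C : ℝ) / Q * (1 - s / M) = (C * M - C * s) / (Q * M) := by field_simp
  rw [e, le_div_iff₀ (by positivity)]
  linarith

/-- the double sum -/
noncomputable def T2 (c : ℕ → ℝ) (r : ℕ) : ℝ :=
  ∑ j ∈ range r, ∑ i ∈ range r, if 2 ≤ i + j then ((i + j - 2).factorial : ℝ) /
    (i.factorial * j.factorial) * (om c r i * om c r j) / 2 ^ (i + j) else 0

theorem T2_le (c : ℕ → ℝ) (hc0 : ∀ l, 0 ≤ c l) (hc : Monotone c) (r k : ℕ) (hk : 2 * r ≤ k + 2) :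
    T2 c r ≤ ∑ N ∈ Finset.Icc 2 k, th c r N / (N * (N - 1)) := by
  have hb := om_bounds c hc0 hc r
  set g : ℕ × ℕ → ℝ := fun p => ((p.1 + p.2 - 2).factorial : ℝ) /
    (p.1.factorial * p.2.factorial) * (om c r p.1 * om c r p.2) / 2 ^ (p.1 + p.2) with hg
  have hg0 : ∀ p, 0 ≤ g p := fun p => by
    have := mul_nonneg (hb p.1).1 (hb p.2).1
    simp only [hg]
    positivity
  have hth : ∀ N ∈ Finset.Icc 2 k, th c r N / (N * (N - 1)) =
      ∑ p ∈ antidiagonal N, g p := by
    intro N hN
    rw [Finset.mem_Icc] at hN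
    rw [Finset.Nat.sum_antidiagonal_eq_sum_range_succ_mk]
    unfold th
    rw [Finset.sum_div]
    refine Finset.sum_congr rfl fun a ha => ?_
    rw [mem_range] at ha
    have ha' : a ≤ N := by omega
    simp only [hg]
    have e1 : a + (N - a) = N := by omega
    rw [e1, Nat.cast_choose ℝ ha']
    obtain ⟨m, rfl⟩ : ∃ m, N = m + 2 := ⟨N - 2, by omega⟩
    have e2 : ((m + 2).factorial : ℝ) = (m + 2) * (m + 1) * m.factorial := by
      rw [Nat.factorial_succ, Nat.factorial_succ]; push_cast; ring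
    have e3 : m + 2 - 2 = m := by omega
    have e4 : (((m + 2 : ℕ) : ℝ) - 1) = m + 1 := by push_cast; ring
    have e5 : ((1 : ℝ) / 2) ^ a * (1 - 1 / 2) ^ (m + 2 - a) = 1 / 2 ^ (m + 2) := by
      have : (1 - 1 / 2 : ℝ) = 1 / 2 := by norm_num
      rw [this, ← pow_add, e1, div_pow, one_pow]
    rw [e2, e3, e4, e5]
    push_cast
    have h1 : (m : ℝ) + 1 ≠ 0 := by positivity
    have h2 : (m : ℝ) + 2 ≠ 0 := by positivity
    have h3 : (a.factorial : ℝ) ≠ 0 := by positivity
    have h4 : ((m + 2 - a).factorial : ℝ) ≠ 0 := by positivity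
    field_simp
  rw [Finset.sum_congr rfl hth]
  unfold T2
  rw [← Finset.sum_product']
  have h5 : ∑ p ∈ range r ×ˢ range r, (if 2 ≤ p.2 + p.1 then ((p.2 + p.1 - 2).factorial : ℝ) /
      (p.2.factorial * p.1.factorial) * (om c r p.2 * om c r p.1) / 2 ^ (p.2 + p.1) else 0) =
      ∑ p ∈ (range r ×ˢ range r).filter (fun p => 2 ≤ p.1 + p.2), g p := by
    rw [Finset.sum_filter]
    refine Finset.sum_congr rfl fun p _ => ?_
    rw [add_comm p.2 p.1]
    by_cases h : 2 ≤ p.1 + p.2
    · rw [if_pos h, if_pos h]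
      simp only [hg]
      rw [mul_comm (p.2.factorial : ℝ), mul_comm (om c r p.2)]
    · rw [if_neg h, if_neg h]
  rw [h5, ← Finset.sum_fiberwise_of_maps_to (g := fun p : ℕ × ℕ => p.1 + p.2)
    (t := Finset.Icc 2 k)]
  · refine Finset.sum_le_sum fun N _ => ?_
    refine Finset.sum_le_sum_of_subset_of_nonneg ?_ (fun p _ _ => hg0 p)
    intro p hp
    rw [mem_filter] at hp
    rw [HasAntidiagonal.mem_antidiagonal]
    exact hp.2
  · intro p hp
    rw [mem_filter, mem_product, mem_range, mem_range] at hp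
    rw [Finset.mem_Icc]
    omega

theorem fin_spec (c : ℕ → ℝ) (Q num den r C : ℕ) (row : List ℕ) (hQ : 0 < Q) (hC : 0 < C)
    (hden : 0 < den) (hr : 2 ≤ r)
    (h : Inv c Q r C row) (hok : fin Q num den r C row = true) :
    c r * (1 - T2 c r) ≤ (num : ℝ) / den := by
  obtain ⟨h1, h2, h3⟩ := h
  have hC' : (0 : ℝ) < C := by exact_mod_cast hC
  have hQ' : (0 : ℝ) < Q := by exact_mod_cast hQ
  have hd' : (0 : ℝ) < den := by exact_mod_cast hden
  unfold fin at hok
  have h4 := of_decide_eq_true hok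
  set F := (r - 1).factorial with hF
  have hF0 : 0 < F := Nat.factorial_pos _
  have hF' : (0 : ℝ) < F := by exact_mod_cast hF0
  set U := ul row 0 F with hU
  set W := 0 :: 0 :: wl (2 * C) (2 * r - 3) 2 1 with hW
  set D := (2 * C) ^ (2 * r - 2) * (F * F) with hD
  have hD' : (D : ℝ) = (2 * C) ^ (2 * r - 2) * (F * F) := by rw [hD]; push_cast; ring
  have hDpos : (0 : ℝ) < D := by rw [hD']; positivity
  have hUl : U.length = r := by rw [hU, ul_length, h2]
  have hUv : ∀ i < r, (U.getD i 0 : ℝ) = C ^ i * om c r i * (F / i.factorial) := by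
    intro i hi
    have e := ul_getD F row 0 i
    rw [Nat.factorial_zero, Nat.div_one, zero_add] at e
    rw [hU, e]
    push_cast
    rw [h3 i hi, Nat.cast_div (Nat.factorial_dvd_factorial (by omega)) (by positivity)]
  have hWv : ∀ n, 2 ≤ n → n ≤ 2 * r - 2 →
      (W.getD n 0 : ℝ) = (n - 2).factorial * (2 * C) ^ (2 * r - 2 - n) := by
    intro n hn hn'
    obtain ⟨m, rfl⟩ : ∃ m, n = m + 2 := ⟨n - 2, by omega⟩
    have e := wl_getD (2 * C) (2 * r - 3) 2 m le_rfl (by omega)
    have e0 : (2 - 2 : ℕ).factorial = 1 := rfl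
    rw [e0] at e
    have e1 : W.getD (m + 2) 0 = (wl (2 * C) (2 * r - 3) 2 1).getD m 0 := by simp [hW]
    rw [e1, e]
    push_cast
    congr 2
    · congr 1; omega
    · omega
  have hW0 : W.getD 0 0 = 0 := by simp [hW]
  have hW1 : W.getD 1 0 = 0 := by simp [hW]
  have hdd : ((dd U U W : ℕ) : ℝ) = D * T2 c r := by
    rw [dd_eq, hUl]
    push_cast
    unfold T2
    rw [Finset.mul_sum]
    refine Finset.sum_congr rfl fun j hj => ?_
    rw [Finset.mul_sum, Finset.mul_sum]
    refine Finset.sum_congr rfl fun i hi => ?_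
    rw [mem_range] at hi hj
    rw [hUv i hi, hUv j hj, hD']
    split_ifs with hij
    · rw [hWv (i + j) hij (by omega)]
      have e : (2 * (C : ℝ)) ^ (2 * r - 2) = 2 ^ (i + j) * C ^ i * C ^ j *
          (2 * C) ^ (2 * r - 2 - (i + j)) := by
        have : 2 * r - 2 = (i + j) + (2 * r - 2 - (i + j)) := by omega
        rw [this, pow_add, mul_pow 2 (C : ℝ) (i + j), pow_add (C : ℝ) i j]
        have : (i + j) + (2 * r - 2 - (i + j)) - (i + j) = 2 * r - 2 - (i + j) := by omega
        rw [this]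
        ring
      rw [e]
      have h5 : (i.factorial : ℝ) ≠ 0 := by positivity
      have h6 : (j.factorial : ℝ) ≠ 0 := by positivity
      field_simp
    · have : i + j = 0 ∨ i + j = 1 := by omega
      rcases this with h | h
      · rw [h, hW0]; simp
      · rw [h, hW1]; simp
  have h6 : ((C * D * den : ℕ) : ℝ) ≤ ((num * Q * D + C * den * dd U U W : ℕ) : ℝ) := by
    exact_mod_cast h4
  push_cast at h6
  rw [hdd] at h6
  rw [h1, le_div_iff₀ hd']
  have e : (C : ℝ) / Q * (1 - T2 c r) * den = (C * D * den - C * den * (D * T2 c r)) / (Q * D) := by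
    field_simp
  rw [e, div_le_iff₀ (by positivity)]
  linarith

theorem run_spec (c : ℕ → ℝ) (Cf : ℕ → ℕ) (hCf : Monotone Cf) (Q M num den : ℕ)
    (hc : ∀ l, c l = Cf l / Q) (hpos : ∀ l, 2 ≤ l → 0 < Cf l)
    (hQ : 0 < Q) (hM : 0 < M) (hden : 0 < den) (rest : List ℕ) :
    ∀ (l : ℕ) (row : List ℕ), 2 ≤ l → Inv c Q l (Cf l) row →
      (∀ i < rest.length, rest.getD i 0 = Cf (l + 1 + i)) →
      run Q M num den l (Cf l) row rest = true →
      (∀ m, l ≤ m → m < l + rest.length → ((m : ℝ) - 1) / m ≤ c m * (1 - sg c m)) ∧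
      1 ≤ c (l + rest.length) * (1 - sg c (l + rest.length)) ∧
      c (l + rest.length) * (1 - T2 c (l + rest.length)) ≤ (num : ℝ) / den := by
  induction rest with
  | nil =>
    intro l row hl hI _ hrun
    simp only [run, Bool.and_eq_true] at hrun
    refine ⟨fun m hm hm' => ?_, ?_, ?_⟩
    · simp at hm'; omega
    · exact okL_spec c Q M l (Cf l) row hQ hM (hpos l hl) hl hI hrun.1
    · exact fin_spec c Q num den l (Cf l) row hQ (hpos l hl) hden hl hI hrun.2
  | cons C' t ih =>
    intro l row hl hI hrest hrun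
    simp only [run, Bool.and_eq_true] at hrun
    have h0 : C' = Cf (l + 1) := by
      have := hrest 0 (by simp)
      simpa using this
    subst h0
    have hI' := inv_step c Q l (Cf l) (Cf (l + 1)) row hQ hl hI (hc (l + 1)) (hCf (Nat.le_succ l))
      (hpos (l + 1) (by omega))
    have hrec := ih (l + 1) _ (by omega) hI' (by
      intro i hi
      have := hrest (i + 1) (by simpa using hi)
      simp only [List.getD_cons_succ] at this
      rw [this]
      congr 1
      omega) hrun.2
    have e : l + (Cf (l + 1) :: t).length = l + 1 + t.length := by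
      rw [List.length_cons]; omega
    rw [e]
    refine ⟨fun m hm hm' => ?_, hrec.2.1, hrec.2.2⟩
    rcases Nat.eq_or_lt_of_le hm with h | h
    · subst h
      exact okE_spec c Q M l (Cf l) row hQ hM (hpos l hl) hl hI hrun.1
    · exact hrec.1 m h hm'

/-- the sequence given by the list of its values at `2, 3, ...` -/
def seq (L : List ℕ) (last : ℕ) : ℕ → ℕ
  | 0 => 0
  | 1 => 0
  | l + 2 => L.getD l last

/-- **Certified upper bound.** -/
theorem cryptoValue_le_cert (L : List ℕ) (last Q M num den : ℕ) (hQ : 0 < Q) (hM : 0 < M)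
    (hden : 0 < den) (hmono : Monotone (seq L last)) (hpos : 0 < seq L last 2)
    (hL : 0 < L.length) (hrun : run Q M num den 2 (seq L last 2) [1, seq L last 2] L.tail = true)
    (k : ℕ) (hk : 2 * (L.length + 1) ≤ k + 2) : cryptoValue k ≤ (num : ℝ) / den := by
  set Cf := seq L last with hCf
  set c : ℕ → ℝ := fun l => (Cf l : ℝ) / Q with hc
  have hQ' : (0 : ℝ) < Q := by exact_mod_cast hQ
  have hposl : ∀ l, 2 ≤ l → 0 < Cf l := fun l hl => lt_of_lt_of_le hpos (hmono hl)
  have hc0 : ∀ l, 0 ≤ c l := fun l => by positivity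
  have hcm : Monotone c := by
    intro a b hab
    simp only [hc]
    have : (Cf a : ℝ) ≤ Cf b := by exact_mod_cast hmono hab
    gcongr
  have hc1 : c 1 = 0 := by simp [hc, hCf, seq]
  have hcpos : ∀ l, 2 ≤ l → 0 < c l := fun l hl => by
    have : (0 : ℝ) < Cf l := by exact_mod_cast hposl l hl
    simp only [hc]
    positivity
  have hI : Inv c Q 2 (Cf 2) [1, Cf 2] := by
    refine ⟨rfl, rfl, fun j hj => ?_⟩
    interval_cases j
    · simp [om_zero]
    · simp [om_one]
  obtain ⟨x, t, hxt⟩ : ∃ x t, L = x :: t := by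
    rcases L with _ | ⟨x, t⟩
    · simp at hL
    · exact ⟨x, t, rfl⟩
  have hrest : ∀ i < L.tail.length, L.tail.getD i 0 = Cf (2 + 1 + i) := by
    intro i hi
    have e : 2 + 1 + i = (i + 1) + 2 := by omega
    rw [e, hCf, seq, hxt]
    rw [hxt] at hi
    simp only [List.tail_cons] at hi ⊢
    rw [List.getD_cons_succ, List.getD_eq_getElem _ _ hi, List.getD_eq_getElem _ _ hi]
  obtain ⟨h1, h2, h3⟩ := run_spec c Cf hmono Q M num den (fun _ => rfl) hposl hQ hM hden L.tail 2
    [1, Cf 2] le_rfl hI hrest hrun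
  have e : 2 + L.tail.length = L.length + 1 := by rw [hxt]; simp; omega
  rw [e] at h1 h2 h3
  have hr : 2 ≤ L.length + 1 := by omega
  have hk0 : 0 < k := by omega
  refine le_trans (cryptoValue_le_death c hc0 hcm hc1 hcpos (L.length + 1) hr h1 h2 hk0) ?_
  refine le_trans ?_ h3
  refine mul_le_mul_of_nonneg_left ?_ (hc0 _)
  have := T2_le c hc0 hcm (L.length + 1) k hk
  linarith

end Cert

end Pool.Agent.Helper92.Crypto
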