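import Mathlib
import Pool.Agent.Helper92.CryptoCert

/-!
# Upper bound for many players

`s_k ≤ 0.6228` for all `k ≥ 254`.
-/

namespace Pool.Agent.Helper92.CryptoCert128

open Finset Pool.Agent.Helper92.Crypto

/-- the list of `1000 * c_2, ..., 1000 * c_128` -/
def L : List ℕ := [500, 1108, 1727, 2351, 2976, 3603, 4229, 4857, 5484, 6112, 6740, 7367, 7996, 8623, 9252,
  9880, 10508, 11136, 11765, 12393, 13021, 13650, 14278, 14906, 15534, 16163, 16791, 17420,
  18048, 18676, 19305, 19933, 20562, 21190, 21818, 22447, 23075, 23704, 24332, 24961, 25589,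
  26217, 26846, 27474, 28103, 28731, 29360, 29988, 30617, 31245, 31873, 32502, 33130, 33759,
  34387, 35016, 35644, 36273, 36901, 37530, 38158, 38786, 39415, 40043, 40672, 41300, 41929,
  42557, 43186, 43814, 44443, 45071, 45700, 46328, 46956, 47585, 48213, 48842, 49470, 50099,
  50727, 51356, 51984, 52613, 53241, 53870, 54498, 55127, 55755, 56384, 57012, 57640, 58269,
  58897, 59526, 60154, 60783, 61411, 62040, 62668, 63297, 63925, 64554, 65182, 65811, 66439,
  67068, 67696, 68325, 68953, 69581, 70210, 70838, 71467, 72095, 72724, 73352, 73981, 74609,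
  75238, 75866, 76495, 77123, 77752, 78380, 79009, 86575]

set_option maxRecDepth 100000 in
theorem mono : Monotone (Cert.seq L 86575) := by
  refine monotone_nat_of_le_succ fun n => ?_
  rcases Nat.lt_or_ge n 130 with h | h
  · have hd : ∀ m < 130, Cert.seq L 86575 m ≤ Cert.seq L 86575 (m + 1) := by decide +kernel
    exact hd n h
  · obtain ⟨m, rfl⟩ : ∃ m, n = m + 2 := ⟨n - 2, by omega⟩
    have e1 : m + 2 + 1 = (m + 1) + 2 := by omega
    have hl : L.length = 127 := by decide +kernel
    rw [e1, Cert.seq, Cert.seq, List.getD_eq_default _ _ (by omega),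
      List.getD_eq_default _ _ (by omega)]

theorem check : Cert.run 1000 (10 ^ 25) 6228 10000 2 (Cert.seq L 86575 2) [1, Cert.seq L 86575 2]
    L.tail = true := by
  decide +kernel

/-- **Upper bound**: `s_k ≤ 0.6228` for all `k ≥ 254`. -/
theorem upper254 : ∀ k : ℕ, 254 ≤ k → cryptoValue k ≤ 0.6228 := by
  intro k hk
  have hl : L.length = 127 := by decide +kernel
  have h := Cert.cryptoValue_le_cert L 86575 1000 (10 ^ 25) 6228 10000 (by norm_num) (by norm_num)
    (by norm_num) mono (by decide +kernel) (by rw [hl]; norm_num) check k (by rw [hl]; omega)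
  refine le_trans h ?_
  norm_num

end Pool.Agent.Helper92.CryptoCert128
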