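import Mathlib
import Pool.Agent.Helper92.CryptoLower

/-!
# Pure suspects and the lagging strategy

States in which every player is either cleared or a suspect of a pure type, and the lower
bound on the value of the game given by the strategy which always raises the lagging type.
-/

namespace Pool.Agent.Helper92.Crypto

open Finset

variable {k : ℕ}

/-- value of the state in which player `i` has likelihood ratios `a i`, `b i` for being the owner
of the secret `false`, `true` -/
noncomputable def val (a b : Fin k → ℝ) : ℝ := V (fun (x : Bool) (j : Fin k) => if x then b j else a j)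

theorem V_nonneg (hk : 0 < k) (W : Bool → Fin k → ℝ) (hW : ∀ x j, 0 ≤ W x j) : 0 ≤ V W := by
  refine le_trans ?_ (wsucc_le_V hk W hW (stopProtocol k true))
  have : Nonempty (List Bool → Fin k) := ⟨fun _ => ⟨0, hk⟩⟩
  exact le_ciInf fun g => wwin_nonneg _ _ hW g

theorem val_nonneg (hk : 0 < k) (a b : Fin k → ℝ) (ha : ∀ i, 0 ≤ a i) (hb : ∀ i, 0 ≤ b i) :
    0 ≤ val a b := by
  refine V_nonneg hk _ ?_
  intro x j
  cases x
  · simpa using ha j
  · simpa using hb j

theorem cryptoValue_eq_val : cryptoValue k = 1 / (2 * (k : ℝ)) * val (k := k) (fun _ => 1) (fun _ => 1) := by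
  rw [cryptoValue_eq_V, val, ← V_smul _ _ (by positivity)]
  congr 1
  funext x j
  simp

theorem val_stop_left (hk : 0 < k) (a b : Fin k → ℝ) (ha : ∀ i, 0 ≤ a i) (hb : ∀ i, 0 ≤ b i)
    (M : ℝ) (hM : ∀ j, a j ≤ M) : ∑ j, a j - M ≤ val a b := by
  have := V_stop hk (fun (x : Bool) (j : Fin k) => if x then b j else a j)
    (by intro x j; cases x; · simpa using ha j
        · simpa using hb j) false M (by intro j; simpa using hM j)
  simpa [val] using this

theorem val_stop_right (hk : 0 < k) (a b : Fin k → ℝ) (ha : ∀ i, 0 ≤ a i) (hb : ∀ i, 0 ≤ b i)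
    (M : ℝ) (hM : ∀ j, b j ≤ M) : ∑ j, b j - M ≤ val a b := by
  have := V_stop hk (fun (x : Bool) (j : Fin k) => if x then b j else a j)
    (by intro x j; cases x; · simpa using ha j
        · simpa using hb j) true M (by intro j; simpa using hM j)
  simpa [val] using this

/-- A single player randomises: concavity of the value. -/
theorem val_move (hk : 0 < k) (a b : Fin k → ℝ) (ha : ∀ i, 0 ≤ a i) (hb : ∀ i, 0 ≤ b i)
    (i : Fin k) (r p1 p2 q1 q2 : ℝ) (hr : 0 ≤ r) (hr1 : r ≤ 1) (hp1 : 0 ≤ p1) (hp2 : 0 ≤ p2)
    (hq1 : 0 ≤ q1) (hq2 : 0 ≤ q2) (e1 : a i = r * p1 + (1 - r) * q1)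
    (e2 : b i = r * p2 + (1 - r) * q2) :
    r * val (Function.update a i p1) (Function.update b i p2) +
      (1 - r) * val (Function.update a i q1) (Function.update b i q2) ≤ val a b := by
  set R : Bool → Fin k → ℝ := fun x j => if j = i then 1 else if x then b j else a j with hR
  have hR0 : ∀ x j, 0 ≤ R x j := by
    intro x j
    simp only [hR]
    split_ifs
    · exact zero_le_one
    · exact hb j
    · exact ha j
  set P : ℝ → ℝ → ℝ → Option Bool → ℝ := fun c u v o =>
    match o with
    | none => c
    | some false => c * u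
    | some true => c * v with hP
  have hP0 : ∀ c u v, 0 ≤ c → 0 ≤ u → 0 ≤ v → ∀ o, 0 ≤ P c u v o := by
    intro c u v hc hu hv o
    match o with
    | none => exact hc
    | some false => exact mul_nonneg hc hu
    | some true => exact mul_nonneg hc hv
  have key : ∀ c u v, 0 ≤ c → V (mulAt i (P c u v) R) =
      c * val (Function.update a i u) (Function.update b i v) := by
    intro c u v hc
    rw [val, ← V_smul _ _ hc]
    congr 1
    funext x j
    by_cases hj : j = i
    · subst hj
      cases x <;> simp [mulAt, inp, hP, hR]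
    · have hj' : ¬ i = j := fun h => hj h.symm
      cases x <;> simp [mulAt, inp, hP, hR, hj, hj']
  have h := V_superadd hk i R (P r p1 p2) (P (1 - r) q1 q2) hR0
    (hP0 _ _ _ hr hp1 hp2) (hP0 _ _ _ (by linarith) hq1 hq2)
  rw [key _ _ _ hr, key _ _ _ (by linarith)] at h
  refine le_trans h (le_of_eq ?_)
  have e3 : P r p1 p2 + P (1 - r) q1 q2 = P 1 (a i) (b i) := by
    funext o
    match o with
    | none => simp [hP]
    | some false => simp [hP, e1]
    | some true => simp [hP, e2]
  rw [e3, key _ _ _ zero_le_one]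
  simp

/-- All players in `s` randomise independently. -/
theorem val_split (hk : 0 < k) (r : ℝ) (hr : 0 ≤ r) (hr1 : r ≤ 1) (a' b' a'' b'' : Fin k → ℝ)
    (ha' : ∀ i, 0 ≤ a' i) (hb' : ∀ i, 0 ≤ b' i) (ha'' : ∀ i, 0 ≤ a'' i) (hb'' : ∀ i, 0 ≤ b'' i)
    (s : Finset (Fin k)) (a b : Fin k → ℝ) (ha : ∀ i, 0 ≤ a i) (hb : ∀ i, 0 ≤ b i)
    (e1 : ∀ i ∈ s, a i = r * a' i + (1 - r) * a'' i)
    (e2 : ∀ i ∈ s, b i = r * b' i + (1 - r) * b'' i) :
    ∑ T ∈ s.powerset, r ^ #T * (1 - r) ^ (#s - #T) *
      val (fun i => if i ∈ T then a' i else if i ∈ s then a'' i else a i)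
        (fun i => if i ∈ T then b' i else if i ∈ s then b'' i else b i) ≤ val a b := by
  induction s using Finset.induction_on with
  | empty => simp
  | insert i s hi ih =>
    have ih' := ih (fun j hj => e1 j (mem_insert_of_mem hj)) (fun j hj => e2 j (mem_insert_of_mem hj))
    refine le_trans ?_ ih'
    rw [Finset.sum_powerset_insert hi, ← Finset.sum_add_distrib]
    refine Finset.sum_le_sum fun T hT => ?_
    have hTs : T ⊆ s := mem_powerset.mp hT
    have hiT : i ∉ T := fun h => hi (hTs h)
    have hcard : #T ≤ #s := card_le_card hTs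
    rw [card_insert_of_notMem hi, card_insert_of_notMem hiT]
    have h1 : #s + 1 - #T = (#s - #T) + 1 := by omega
    have h2 : #s + 1 - (#T + 1) = #s - #T := by omega
    rw [h1, h2, pow_succ, pow_succ]
    have hm := val_move hk (fun i => if i ∈ T then a' i else if i ∈ s then a'' i else a i)
      (fun i => if i ∈ T then b' i else if i ∈ s then b'' i else b i)
      (by intro j; split_ifs; exacts [ha' j, ha'' j, ha j])
      (by intro j; split_ifs; exacts [hb' j, hb'' j, hb j])
      i r (a' i) (b' i) (a'' i) (b'' i) hr hr1 (ha' i) (hb' i) (ha'' i) (hb'' i)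
      (by simp only [hiT, hi, if_false]; exact e1 i (mem_insert_self i s))
      (by simp only [hiT, hi, if_false]; exact e2 i (mem_insert_self i s))
    have u1 : ∀ (f f' f'' : Fin k → ℝ),
        Function.update (fun i => if i ∈ T then f' i else if i ∈ s then f'' i else f i) i (f' i) =
        (fun j => if j ∈ insert i T then f' j else if j ∈ insert i s then f'' j else f j) := by
      intro f f' f''
      funext j
      by_cases hj : j = i
      · subst hj; simp
      · rw [Function.update_of_ne hj]
        simp [hj]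
    have u2 : ∀ (f f' f'' : Fin k → ℝ),
        Function.update (fun i => if i ∈ T then f' i else if i ∈ s then f'' i else f i) i (f'' i) =
        (fun j => if j ∈ T then f' j else if j ∈ insert i s then f'' j else f j) := by
      intro f f' f''
      funext j
      by_cases hj : j = i
      · subst hj; simp [hiT]
      · rw [Function.update_of_ne hj]
        simp [hj]
    rw [u1, u1, u2, u2] at hm
    have hw : 0 ≤ r ^ #T * (1 - r) ^ (#s - #T) :=
      mul_nonneg (pow_nonneg hr _) (pow_nonneg (by linarith) _)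
    calc _ = r ^ #T * (1 - r) ^ (#s - #T) *
          (r * val (fun j => if j ∈ insert i T then a' j else if j ∈ insert i s then a'' j else a j)
            (fun j => if j ∈ insert i T then b' j else if j ∈ insert i s then b'' j else b j) +
          (1 - r) * val (fun j => if j ∈ T then a' j else if j ∈ insert i s then a'' j else a j)
            (fun j => if j ∈ T then b' j else if j ∈ insert i s then b'' j else b j)) := by ring
      _ ≤ _ := mul_le_mul_of_nonneg_left hm hw

/-- the suspects in `S` have level `x`, the other players are cleared -/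
def lev (S : Finset (Fin k)) (x : ℝ) (i : Fin k) : ℝ := if i ∈ S then x else 0

theorem lev_nonneg (S : Finset (Fin k)) (x : ℝ) (hx : 0 ≤ x) (i : Fin k) : 0 ≤ lev S x i := by
  unfold lev; split_ifs; exacts [hx, le_rfl]

theorem raise_left (hk : 0 < k) (S : Finset (Fin k)) (x x' : ℝ) (hx : 0 ≤ x) (hx' : 0 < x')
    (hxx : x ≤ x') (b : Fin k → ℝ) (hb : ∀ i, 0 ≤ b i) :
    ∑ U ∈ S.powerset, (x / x') ^ #U * (1 - x / x') ^ (#S - #U) * val (lev U x') b ≤
      val (lev S x) b := by
  have h := val_split hk (x / x') (div_nonneg hx hx'.le) (div_le_one_of_le₀ hxx hx'.le)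
    (fun _ => x') b (fun _ => 0) b (fun _ => hx'.le) hb (fun _ => le_rfl) hb S (lev S x) b
    (lev_nonneg S x hx) hb
    (by intro i hi; simp only [lev, hi, if_true]; field_simp; ring)
    (by intro i hi; ring)
  refine le_trans (le_of_eq ?_) h
  refine Finset.sum_congr rfl fun U hU => ?_
  have hUS : U ⊆ S := mem_powerset.mp hU
  congr 2
  · funext i
    unfold lev
    by_cases h1 : i ∈ U
    · simp [h1]
    · by_cases h2 : i ∈ S <;> simp [h1, h2]
  · funext i
    simp

theorem raise_right (hk : 0 < k) (S : Finset (Fin k)) (x x' : ℝ) (hx : 0 ≤ x) (hx' : 0 < x')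
    (hxx : x ≤ x') (a : Fin k → ℝ) (ha : ∀ i, 0 ≤ a i) :
    ∑ U ∈ S.powerset, (x / x') ^ #U * (1 - x / x') ^ (#S - #U) * val a (lev U x') ≤
      val a (lev S x) := by
  have h := val_split hk (x / x') (div_nonneg hx hx'.le) (div_le_one_of_le₀ hxx hx'.le)
    a (fun _ => x') a (fun _ => 0) ha (fun _ => hx'.le) ha (fun _ => le_rfl) S a (lev S x)
    ha (lev_nonneg S x hx)
    (by intro i hi; ring)
    (by intro i hi; simp only [lev, hi, if_true]; field_simp; ring)
  refine le_trans (le_of_eq ?_) h
  refine Finset.sum_congr rfl fun U hU => ?_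
  have hUS : U ⊆ S := mem_powerset.mp hU
  congr 2
  · funext i
    simp
  · funext i
    unfold lev
    by_cases h1 : i ∈ U
    · simp [h1]
    · by_cases h2 : i ∈ S <;> simp [h1, h2]

theorem sum_lev (S : Finset (Fin k)) (x : ℝ) : ∑ j, lev S x j = #S * x := by
  unfold lev
  simp

theorem stop_lev_left (hk : 0 < k) (S T : Finset (Fin k)) (x y : ℝ) (hx : 0 ≤ x) (hy : 0 ≤ y) :
    ((#S : ℝ) - 1) * x ≤ val (lev S x) (lev T y) := by
  have h := val_stop_left hk (lev S x) (lev T y) (lev_nonneg S x hx) (lev_nonneg T y hy) x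
    (by intro j; unfold lev; split_ifs; exacts [le_rfl, hx])
  rw [sum_lev] at h
  linarith

theorem stop_lev_right (hk : 0 < k) (S T : Finset (Fin k)) (x y : ℝ) (hx : 0 ≤ x) (hy : 0 ≤ y) :
    ((#T : ℝ) - 1) * y ≤ val (lev S x) (lev T y) := by
  have h := val_stop_right hk (lev S x) (lev T y) (lev_nonneg S x hx) (lev_nonneg T y hy) y
    (by intro j; unfold lev; split_ifs; exacts [le_rfl, hy])
  rw [sum_lev] at h
  linarith

end Pool.Agent.Helper92.Crypto
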