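import Mathlib

/-!
# The limit of the cryptogenography value: definition

The levels `d n`, the attached Gončarov polynomials `P n`, and the number `limitValue d P`.
-/

namespace Pool.Agent.Helper92.Crypto

open Polynomial

/-- `d 0 < d 1 < ...` are the levels and `P n` the polynomials with `P 0 = 1`,
`(P (n + 1))' = P n` and `P (n + 1) (d n) = 0`; the level `d (n + 1)` is determined by `d n` and
`P (n + 1)` through the normalisation `(n + 2)! ∫ P (n + 1) (t) / t ^ (n + 1) dt = 1`, the
integral being over the interval from `d n` to `d (n + 1)`. -/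
structure IsLevels (d : ℕ → ℝ) (P : ℕ → ℝ[X]) : Prop where
  level_zero : d 0 = 0
  level_lt : ∀ n, d n < d (n + 1)
  poly_zero : P 0 = 1
  poly_deriv : ∀ n, derivative (P (n + 1)) = P n
  poly_root : ∀ n, (P (n + 1)).eval (d n) = 0
  norm : ∀ n, ((n + 2).factorial : ℝ) *
    ∫ t in (d n)..(d (n + 1)), (P (n + 1)).eval t / t ^ (n + 1) = 1

/-- The probability that a Poisson process of rate `w` on the half line has, for every `n`,
at most `n` points in `[0, d n)`. (The term with index `n` is the probability that this holds for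
the indices up to `n`; these terms decrease to the probability in question.) -/
noncomputable def surv (d : ℕ → ℝ) (P : ℕ → ℝ[X]) (w : ℝ) : ℝ :=
  ⨅ n : ℕ, Real.exp (-(w * d n)) * ∑ j ∈ Finset.range (n + 1), w ^ j * (P j).eval (d n)

/-- The number `(1 / 2) ∫ (1 - q(w) ^ 2) / w ^ 2 dw` over `(0, ∞)`, with `q = surv d P`. -/
noncomputable def limitValue (d : ℕ → ℝ) (P : ℕ → ℝ[X]) : ℝ :=
  1 / 2 * ∫ w in Set.Ioi (0 : ℝ), (1 - surv d P w ^ 2) / w ^ 2

end Pool.Agent.Helper92.Crypto
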