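import Mathlib
import Pool.Agent.Helper92.CryptoLimitDefs

/-!
# Levels and Gončarov polynomials: existence and uniqueness
-/

namespace Pool.Agent.Helper92.Crypto

open Polynomial Finset MeasureTheory

/-! ### Antiderivatives of polynomials -/

/-- the antiderivative of `p` which vanishes at `a` -/
noncomputable def anti (p : ℝ[X]) (a : ℝ) : ℝ[X] :=
  (p.sum fun n c => C (c / (n + 1)) * X ^ (n + 1)) -
    C ((p.sum fun n c => C (c / (n + 1)) * X ^ (n + 1)).eval a)

theorem derivative_anti (p : ℝ[X]) (a : ℝ) : derivative (anti p a) = p := by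
  unfold anti
  rw [derivative_sub, derivative_C, sub_zero, Polynomial.sum, derivative_sum]
  conv_rhs => rw [p.as_sum_support_C_mul_X_pow]
  refine Finset.sum_congr rfl fun n _ => ?_
  rw [derivative_C_mul_X_pow, Nat.add_sub_cancel]
  congr 2
  push_cast
  field_simp

theorem eval_anti (p : ℝ[X]) (a : ℝ) : (anti p a).eval a = 0 := by
  unfold anti
  rw [eval_sub, eval_C, sub_self]

theorem eq_of_deriv_eval {p q : ℝ[X]} (h : derivative p = derivative q) (a : ℝ)
    (ha : p.eval a = q.eval a) : p = q := by
  have h1 : derivative (p - q) = 0 := by rw [derivative_sub, h, sub_self]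
  have h2 := Polynomial.derivative_eq_zero.1 h1
  obtain ⟨c, hc⟩ := natDegree_eq_zero.1 h2
  have h3 : c = 0 := by
    have := congrArg (eval a) hc
    rw [eval_C, eval_sub, ha, sub_self] at this
    exact this
  rw [h3, C_0] at hc
  exact (sub_eq_zero.1 hc.symm)

/-! ### Existence of the next level -/

theorem exists_level_pos (n : ℕ) (x : ℝ) (p : ℝ[X]) (hx : 0 < x)
    (hp : ∀ t, x ≤ t → (t - x) ^ n / n.factorial ≤ p.eval t) (τ : ℝ) (hτ : 0 < τ) :
    ∃ y, x < y ∧ ∫ t in x..y, p.eval t / t ^ n = τ := by
  set f : ℝ → ℝ := fun t => p.eval t / t ^ n with hf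
  have hcont : ContinuousOn f (Set.Ioi 0) := by
    apply ContinuousOn.div p.continuous.continuousOn (continuous_pow n).continuousOn
    intro t ht
    exact pow_ne_zero _ (ne_of_gt ht)
  have hint : ∀ a b, 0 < a → 0 < b → IntervalIntegrable f volume a b := by
    intro a b ha hb
    apply ContinuousOn.intervalIntegrable
    apply hcont.mono
    intro t ht
    rw [Set.mem_uIcc] at ht
    rcases ht with ht | ht
    · exact lt_of_lt_of_le ha ht.1
    · exact lt_of_lt_of_le hb ht.1
  set K : ℝ := 1 / (2 ^ n * n.factorial) with hK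
  have hK0 : 0 < K := by positivity
  have hlow : ∀ t, 2 * x ≤ t → K ≤ f t := by
    intro t ht
    have ht0 : 0 < t := by linarith
    have h1 : t / 2 ≤ t - x := by linarith
    have h2 := hp t (by linarith)
    have h3 : (t / 2) ^ n ≤ (t - x) ^ n := pow_le_pow_left₀ (by linarith) h1 n
    simp only [hf]
    rw [le_div_iff₀ (by positivity)]
    calc K * t ^ n = (t / 2) ^ n / n.factorial := by rw [hK, div_pow]; field_simp
      _ ≤ (t - x) ^ n / n.factorial := by gcongr
      _ ≤ _ := h2
  have hnn : ∀ t, x ≤ t → 0 ≤ f t := by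
    intro t ht
    have ht0 : 0 < t := by linarith
    have h2 := hp t ht
    have h3 : 0 ≤ (t - x) ^ n / n.factorial := by
      have : 0 ≤ t - x := by linarith
      positivity
    exact div_nonneg (by linarith) (by positivity)
  set Y : ℝ := 2 * x + τ / K with hY
  have hYx : 2 * x ≤ Y := by have : 0 < τ / K := by positivity
                             linarith
  have hGY : τ ≤ ∫ t in x..Y, f t := by
    have h1 : ∫ t in x..Y, f t = (∫ t in x..(2 * x), f t) + ∫ t in (2 * x)..Y, f t :=
      (intervalIntegral.integral_add_adjacent_intervals (hint _ _ hx (by linarith))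
        (hint _ _ (by linarith) (by linarith))).symm
    have h2 : 0 ≤ ∫ t in x..(2 * x), f t :=
      intervalIntegral.integral_nonneg (by linarith) fun t ht => hnn t ht.1
    have h3 : ∫ _ in (2 * x)..Y, K ≤ ∫ t in (2 * x)..Y, f t := by
      apply intervalIntegral.integral_mono_on hYx (by simp) (hint _ _ (by linarith) (by linarith))
      intro t ht
      exact hlow t ht.1
    rw [intervalIntegral.integral_const, smul_eq_mul] at h3
    have h4 : (Y - 2 * x) * K = τ := by rw [hY]; field_simp; ring
    linarith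
  have hGcont : ContinuousOn (fun y => ∫ t in x..y, f t) (Set.Icc x Y) := by
    have := intervalIntegral.continuousOn_primitive_interval' (f := f) (μ := volume) (a := x)
      (b₁ := x) (b₂ := Y) (hint x Y hx (by linarith)) (by rw [Set.uIcc_of_le (by linarith)]; exact ⟨le_rfl, by linarith⟩)
    rwa [Set.uIcc_of_le (by linarith)] at this
  have hivt := intermediate_value_Icc (show x ≤ Y by linarith) hGcont
  have hmem : τ ∈ Set.Icc (∫ t in x..x, f t) (∫ t in x..Y, f t) := by
    rw [intervalIntegral.integral_same]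
    exact ⟨hτ.le, hGY⟩
  obtain ⟨y, hy, hyτ⟩ := hivt hmem
  refine ⟨y, ?_, hyτ⟩
  rcases eq_or_lt_of_le hy.1 with h | h
  · exfalso
    rw [← h] at hyτ
    simp only [intervalIntegral.integral_same] at hyτ
    linarith
  · exact h

theorem integral_X_div (y : ℝ) (hy : 0 ≤ y) :
    ∫ t in (0 : ℝ)..y, (X : ℝ[X]).eval t / t ^ 1 = y := by
  have : ∫ t in (0 : ℝ)..y, (X : ℝ[X]).eval t / t ^ 1 = ∫ _ in (0 : ℝ)..y, (1 : ℝ) := by
    rw [intervalIntegral.integral_of_le hy, intervalIntegral.integral_of_le hy]
    refine setIntegral_congr_fun measurableSet_Ioc fun t ht => ?_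
    simp only [eval_X, pow_one]
    exact div_self (ne_of_gt ht.1)
  rw [this]
  simp

/-! ### Existence -/

open Classical in
/-- the next level -/
noncomputable def nextLevel (n : ℕ) (x : ℝ) (p : ℝ[X]) : ℝ :=
  if h : ∃ y, x < y ∧ ∫ t in x..y, p.eval t / t ^ n = 1 / ((n + 1).factorial : ℝ) then
    Classical.choose h else 0

theorem nextLevel_spec (n : ℕ) (x : ℝ) (p : ℝ[X])
    (h : ∃ y, x < y ∧ ∫ t in x..y, p.eval t / t ^ n = 1 / ((n + 1).factorial : ℝ)) :
    x < nextLevel n x p ∧ ∫ t in x..(nextLevel n x p), p.eval t / t ^ n =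
      1 / ((n + 1).factorial : ℝ) := by
  unfold nextLevel
  rw [dif_pos h]
  exact Classical.choose_spec h

/-- the sequence `(d n, P (n + 1))` -/
noncomputable def levSeq : ℕ → ℝ × ℝ[X]
  | 0 => (0, X)
  | n + 1 => (nextLevel (n + 1) (levSeq n).1 (levSeq n).2,
      anti (levSeq n).2 (nextLevel (n + 1) (levSeq n).1 (levSeq n).2))

/-- lower bound for the Gončarov polynomials -/
theorem poly_lower_step (n : ℕ) (x y : ℝ) (p q : ℝ[X]) (hxy : x ≤ y)
    (hp : ∀ t, x ≤ t → (t - x) ^ n / n.factorial ≤ p.eval t) (hq : derivative q = p)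
    (hqy : q.eval y = 0) (t : ℝ) (ht : y ≤ t) :
    (t - y) ^ (n + 1) / (n + 1).factorial ≤ q.eval t := by
  set g : ℝ → ℝ := fun t => q.eval t - (t - y) ^ (n + 1) / (n + 1).factorial with hg
  have hd : ∀ t, HasDerivAt g (p.eval t - (t - y) ^ n / n.factorial) t := by
    intro t
    have h1 : HasDerivAt (fun t => q.eval t) (p.eval t) t := by
      have := q.hasDerivAt t
      rwa [hq] at this
    have h2 : HasDerivAt (fun t : ℝ => (t - y) ^ (n + 1) / (n + 1).factorial)
        ((t - y) ^ n / n.factorial) t := by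
      have h3 := (((hasDerivAt_id t).sub_const y).pow (n + 1)).div_const ((n + 1).factorial : ℝ)
      refine h3.congr_deriv ?_
      simp only [id, Nat.add_sub_cancel, mul_one]
      rw [Nat.factorial_succ]
      push_cast
      field_simp
    exact h1.sub h2
  have hmono : MonotoneOn g (Set.Ici y) := by
    apply monotoneOn_of_deriv_nonneg (convex_Ici y)
    · exact fun t _ => (hd t).continuousAt.continuousWithinAt
    · exact fun t _ => (hd t).differentiableAt.differentiableWithinAt
    · intro t ht
      rw [interior_Ici] at ht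
      rw [(hd t).deriv]
      have ht' : y < t := ht
      have h1 := hp t (by linarith)
      have h2 : (t - y) ^ n / n.factorial ≤ (t - x) ^ n / n.factorial := by
        have : (t - y) ^ n ≤ (t - x) ^ n := pow_le_pow_left₀ (by linarith) (by linarith) n
        gcongr
      linarith
  have h1 := hmono (Set.mem_Ici.2 le_rfl) (Set.mem_Ici.2 ht) ht
  simp only [hg, hqy, sub_self, zero_sub] at h1
  have h2 : ((0 : ℝ)) ^ (n + 1) / (n + 1).factorial = 0 := by simp
  rw [h2] at h1
  linarith

theorem levSeq_spec (n : ℕ) : 0 ≤ (levSeq n).1 ∧ (1 ≤ n → 0 < (levSeq n).1) ∧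
    (∀ t, (levSeq n).1 ≤ t → (t - (levSeq n).1) ^ (n + 1) / (n + 1).factorial ≤ (levSeq n).2.eval t) ∧
    (levSeq n).2.eval (levSeq n).1 = 0 ∧
    ∃ y, (levSeq n).1 < y ∧ ∫ t in (levSeq n).1..y, (levSeq n).2.eval t / t ^ (n + 1) =
      1 / ((n + 1 + 1).factorial : ℝ) := by
  induction n with
  | zero =>
    refine ⟨le_rfl, fun h => absurd h (by norm_num), ?_, ?_, ?_⟩
    · intro t _
      simp [levSeq]
    · simp [levSeq]
    · refine ⟨1 / ((0 + 1 + 1).factorial : ℝ), by simp [levSeq], ?_⟩
      have := integral_X_div (1 / ((0 + 1 + 1).factorial : ℝ)) (by positivity)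
      simpa [levSeq] using this
  | succ n ih =>
    obtain ⟨h0, _, hlow, hroot, hex⟩ := ih
    obtain ⟨hlt, hint⟩ := nextLevel_spec (n + 1) _ _ hex
    have hpos : 0 < (levSeq (n + 1)).1 := lt_of_le_of_lt h0 hlt
    have hlow' : ∀ t, (levSeq (n + 1)).1 ≤ t →
        (t - (levSeq (n + 1)).1) ^ (n + 1 + 1) / (n + 1 + 1).factorial ≤
          (levSeq (n + 1)).2.eval t := by
      intro t ht
      exact poly_lower_step (n + 1) (levSeq n).1 (levSeq (n + 1)).1 (levSeq n).2 (levSeq (n + 1)).2
        hlt.le hlow (derivative_anti _ _) (eval_anti _ _) t ht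
    refine ⟨hpos.le, fun _ => hpos, hlow', eval_anti _ _, ?_⟩
    exact exists_level_pos (n + 1 + 1) _ _ hpos hlow' _ (by positivity)

theorem exists_levels : ∃ (d : ℕ → ℝ) (P : ℕ → ℝ[X]), IsLevels d P := by
  refine ⟨fun n => (levSeq n).1, fun n => Nat.casesOn n 1 fun m => (levSeq m).2, ?_⟩
  constructor
  · rfl
  · intro n
    exact (nextLevel_spec (n + 1) _ _ (levSeq_spec n).2.2.2.2).1
  · rfl
  · intro n
    cases n with
    | zero => simp [levSeq]
    | succ m => exact derivative_anti _ _
  · intro n
    exact (levSeq_spec n).2.2.2.1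
  · intro n
    have h := (nextLevel_spec (n + 1) _ _ (levSeq_spec n).2.2.2.2).2
    have h1 : ((n + 2).factorial : ℝ) ≠ 0 := by positivity
    change ((n + 2).factorial : ℝ) * ∫ t in (levSeq n).1..(nextLevel (n + 1) (levSeq n).1 (levSeq n).2),
      (levSeq n).2.eval t / t ^ (n + 1) = 1
    rw [h]
    field_simp

/-! ### Properties of levels -/

namespace IsLevels

variable {d : ℕ → ℝ} {P : ℕ → ℝ[X]}

theorem strictMono (h : IsLevels d P) : StrictMono d := strictMono_nat_of_lt_succ h.level_lt

theorem nonneg (h : IsLevels d P) (n : ℕ) : 0 ≤ d n := by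
  rw [← h.level_zero]
  exact h.strictMono.monotone (Nat.zero_le n)

theorem pos (h : IsLevels d P) (n : ℕ) (hn : 1 ≤ n) : 0 < d n := by
  rw [← h.level_zero]
  exact h.strictMono (by omega)

theorem lower (h : IsLevels d P) (n : ℕ) : ∀ t, d n ≤ t →
    (t - d n) ^ (n + 1) / (n + 1).factorial ≤ (P (n + 1)).eval t := by
  induction n with
  | zero =>
    intro t ht
    exact poly_lower_step 0 0 (d 0) 1 (P 1) (by rw [h.level_zero]) (by simp)
      (by rw [h.poly_deriv, h.poly_zero]) (h.poly_root 0) t ht
  | succ n ih =>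
    intro t ht
    exact poly_lower_step (n + 1) (d n) (d (n + 1)) (P (n + 1)) (P (n + 2)) (h.level_lt n).le ih
      (h.poly_deriv (n + 1)) (h.poly_root (n + 1)) t ht

theorem poly_pos (h : IsLevels d P) (n : ℕ) (t : ℝ) (ht : d n < t) : 0 < (P (n + 1)).eval t := by
  have h1 := h.lower n t ht.le
  have h2 : 0 < (t - d n) ^ (n + 1) / (n + 1).factorial := by
    have : 0 < t - d n := by linarith
    positivity
  linarith

theorem poly_nonneg (h : IsLevels d P) (n : ℕ) (t : ℝ) (ht : d n ≤ t) :
    0 ≤ (P (n + 1)).eval t := by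
  have h1 := h.lower n t ht
  have h2 : 0 ≤ (t - d n) ^ (n + 1) / (n + 1).factorial := by
    have : 0 ≤ t - d n := by linarith
    positivity
  linarith

theorem poly_one (h : IsLevels d P) : P 1 = X := by
  apply eq_of_deriv_eval (a := 0)
  · rw [h.poly_deriv, h.poly_zero, derivative_X]
  · have := h.poly_root 0
    rw [h.level_zero] at this
    rw [this, eval_X]

theorem integrable (h : IsLevels d P) (n : ℕ) (a b : ℝ) (ha : d n ≤ a) (hb : d n ≤ b) :
    IntervalIntegrable (fun t => (P (n + 1)).eval t / t ^ (n + 1)) volume a b := by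
  rcases Nat.eq_zero_or_pos n with rfl | hn
  · rw [h.poly_one]
    rw [h.level_zero] at ha hb
    have : IntervalIntegrable (fun _ : ℝ => (1 : ℝ)) volume a b := by simp
    refine this.congr_ae ?_
    have h0 : ∀ᵐ t : ℝ ∂(volume.restrict (Set.uIoc a b)), t ∈ Set.uIoc a b :=
      ae_restrict_mem measurableSet_uIoc
    filter_upwards [h0] with t ht
    have ht0 : 0 < t := by
      rw [Set.mem_uIoc] at ht
      rcases ht with ht | ht
      · exact lt_of_le_of_lt ha ht.1
      · exact lt_of_le_of_lt hb ht.1
    simp only [zero_add, pow_one, eval_X]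
    exact (div_self ht0.ne').symm
  · apply ContinuousOn.intervalIntegrable
    have hpos := h.pos n hn
    apply ContinuousOn.div (P (n + 1)).continuous.continuousOn (continuous_pow _).continuousOn
    intro t ht
    rw [Set.mem_uIcc] at ht
    have : 0 < t := by
      rcases ht with ht | ht
      · linarith [ht.1]
      · linarith [ht.1]
    exact pow_ne_zero _ this.ne'

end IsLevels

/-- The levels and the polynomials are unique. -/
theorem levels_unique {d d' : ℕ → ℝ} {P P' : ℕ → ℝ[X]} (h : IsLevels d P) (h' : IsLevels d' P') :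
    d = d' ∧ P = P' := by
  have key : ∀ n, d n = d' n ∧ P (n + 1) = P' (n + 1) := by
    intro n
    induction n with
    | zero =>
      refine ⟨by rw [h.level_zero, h'.level_zero], ?_⟩
      rw [zero_add, h.poly_one, h'.poly_one]
    | succ n ih =>
      obtain ⟨hd, hP⟩ := ih
      have hn1 := h.norm n
      have hn2 := h'.norm n
      rw [← hd, ← hP] at hn2
      have hf : ((n + 2).factorial : ℝ) ≠ 0 := by positivity
      have heq : ∫ t in (d n)..(d (n + 1)), (P (n + 1)).eval t / t ^ (n + 1) =
          ∫ t in (d n)..(d' (n + 1)), (P (n + 1)).eval t / t ^ (n + 1) := by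
        apply mul_left_cancel₀ hf
        rw [hn1, hn2]
      have hlt1 := h.level_lt n
      have hlt2 := h'.level_lt n
      rw [← hd] at hlt2
      have hposf : ∀ t, d n < t → 0 < (P (n + 1)).eval t / t ^ (n + 1) := by
        intro t ht
        have h0 := h.nonneg n
        exact div_pos (h.poly_pos n t ht) (pow_pos (by linarith) _)
      have hdd : d (n + 1) = d' (n + 1) := by
        have aux : ∀ a b, d n < a → a < b →
            ∫ t in (d n)..a, (P (n + 1)).eval t / t ^ (n + 1) ≠
              ∫ t in (d n)..b, (P (n + 1)).eval t / t ^ (n + 1) := by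
          intro a b ha hab hcon
          have hsum := intervalIntegral.integral_add_adjacent_intervals
            (h.integrable n (d n) a le_rfl ha.le) (h.integrable n a b ha.le (by linarith))
          have hz : ∫ t in a..b, (P (n + 1)).eval t / t ^ (n + 1) = 0 := by linarith
          have hp := intervalIntegral.intervalIntegral_pos_of_pos_on
            (h.integrable n a b ha.le (by linarith)) (fun t ht => hposf t (by linarith [ht.1])) hab
          linarith
        rcases lt_trichotomy (d (n + 1)) (d' (n + 1)) with hl | hl | hl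
        · exact absurd heq (aux _ _ hlt1 hl)
        · exact hl
        · exact absurd heq.symm (aux _ _ hlt2 hl)
      refine ⟨hdd, ?_⟩
      apply eq_of_deriv_eval (a := d (n + 1))
      · rw [h.poly_deriv, h'.poly_deriv, hP]
      · rw [h.poly_root (n + 1), hdd, h'.poly_root (n + 1)]
  refine ⟨funext fun n => (key n).1, funext fun n => ?_⟩
  cases n with
  | zero => rw [h.poly_zero, h'.poly_zero]
  | succ n => exact (key n).2

end Pool.Agent.Helper92.Crypto
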