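import Mathlib
import Pool.Agent.Helper92.CryptoGon
import Pool.Agent.Helper92.CryptoMain

/-!
# The survival polynomials `T n`
-/

namespace Pool.Agent.Helper92.Crypto

open Polynomial Finset MeasureTheory

/-! ### Binomial sums -/

/-- `∑ C(n,j) e j w ^ j` -/
noncomputable def Tn (e : ℕ → ℝ) (n : ℕ) (w : ℝ) : ℝ :=
  ∑ j ∈ range (n + 1), (n.choose j : ℝ) * (e j * w ^ j)

/-- binomial thinning of a binomial sum -/
theorem thin (g : ℕ → ℝ) (n : ℕ) (r : ℝ) :
    ∑ i ∈ range (n + 1), (n.choose i : ℝ) * (r ^ i * (1 - r) ^ (n - i) *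
      ∑ j ∈ range (i + 1), (i.choose j : ℝ) * g j) =
      ∑ j ∈ range (n + 1), (n.choose j : ℝ) * (r ^ j * g j) := by
  have h1 : ∀ i ∈ range (n + 1), (n.choose i : ℝ) * (r ^ i * (1 - r) ^ (n - i) *
      ∑ j ∈ range (i + 1), (i.choose j : ℝ) * g j) =
      ∑ j ∈ range (n + 1), if j ≤ i then (n.choose i : ℝ) * (r ^ i * (1 - r) ^ (n - i)) *
        ((i.choose j : ℝ) * g j) else 0 := by
    intro i hi
    rw [mem_range] at hi
    rw [← Finset.sum_filter, mul_sum, mul_sum]
    apply Finset.sum_congr
    · ext j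
      rw [mem_filter, mem_range, mem_range]
      omega
    · intro j _
      ring
  rw [Finset.sum_congr rfl h1, Finset.sum_comm]
  refine Finset.sum_congr rfl fun j hj => ?_
  rw [mem_range] at hj
  rw [← Finset.sum_filter]
  have h2 : (range (n + 1)).filter (fun i => j ≤ i) = (range (n - j + 1)).map (addLeftEmbedding j) := by
    ext i
    rw [mem_filter, mem_range, mem_map]
    constructor
    · rintro ⟨h3, h4⟩
      exact ⟨i - j, by rw [mem_range]; omega, by simp; omega⟩
    · rintro ⟨l, hl, rfl⟩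
      rw [mem_range] at hl
      simp only [addLeftEmbedding_apply]
      omega
  rw [h2, Finset.sum_map]
  simp only [addLeftEmbedding_apply]
  have h3 : ∀ l ∈ range (n - j + 1), (n.choose (j + l) : ℝ) * (r ^ (j + l) *
      (1 - r) ^ (n - (j + l))) * (((j + l).choose j : ℝ) * g j) =
      (n.choose j : ℝ) * (r ^ j * g j) * (r ^ l * (1 - r) ^ (n - j - l) * ((n - j).choose l : ℝ)) := by
    intro l hl
    rw [mem_range] at hl
    have h4 : n.choose (j + l) * (j + l).choose j = n.choose j * (n - j).choose l := by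
      rw [Nat.choose_mul (by omega)]
      congr 2
      omega
    have h5 : (n.choose (j + l) : ℝ) * ((j + l).choose j : ℝ) =
        (n.choose j : ℝ) * ((n - j).choose l : ℝ) := by exact_mod_cast h4
    have h6 : n - (j + l) = n - j - l := by omega
    rw [h6, pow_add]
    linear_combination (r ^ j * r ^ l * (1 - r) ^ (n - j - l) * g j) * h5
  rw [Finset.sum_congr rfl h3, ← mul_sum]
  have h7 := add_pow r (1 - r) (n - j)
  rw [add_sub_cancel, one_pow] at h7
  rw [← h7, mul_one]

theorem Tn_thin (e : ℕ → ℝ) (n : ℕ) (r w : ℝ) :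
    ∑ i ∈ range (n + 1), (n.choose i : ℝ) * (r ^ i * (1 - r) ^ (n - i) * Tn e i w) =
      Tn e n (r * w) := by
  unfold Tn
  rw [thin (fun j => e j * w ^ j) n r]
  refine Finset.sum_congr rfl fun j _ => ?_
  rw [mul_pow]
  ring

theorem Tn_zero (e : ℕ → ℝ) (h0 : e 0 = 1) (w : ℝ) : Tn e 0 w = 1 := by
  simp [Tn, h0]

theorem Tn_one (e : ℕ → ℝ) (h0 : e 0 = 1) (h1 : e 1 = 0) (w : ℝ) : Tn e 1 w = 1 := by
  simp [Tn, Finset.sum_range_succ, h0, h1]

/-! ### The polynomials attached to levels -/

/-- the coefficients -/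
noncomputable def ecoef (P : ℕ → ℝ[X]) (j : ℕ) : ℝ := j.factorial * (P j).eval 0

/-- the levels as a sequence of death levels -/
noncomputable def lv (d : ℕ → ℝ) (l : ℕ) : ℝ := d (l - 1)

namespace IsLevels

variable {d : ℕ → ℝ} {P : ℕ → ℝ[X]}

theorem ecoef_zero (h : IsLevels d P) : ecoef P 0 = 1 := by simp [ecoef, h.poly_zero]

theorem ecoef_one (h : IsLevels d P) : ecoef P 1 = 0 := by simp [ecoef, h.poly_one]

theorem coeff_poly (h : IsLevels d P) (i : ℕ) : ∀ n, (P n).coeff i =
    if i ≤ n then (P (n - i)).coeff 0 / i.factorial else 0 := by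
  induction i with
  | zero => intro n; simp
  | succ i ih =>
    intro n
    cases n with
    | zero => simp [h.poly_zero, coeff_one]
    | succ n =>
      have h1 : (P n).coeff i = (P (n + 1)).coeff (i + 1) * (i + 1) := by
        rw [← h.poly_deriv n, coeff_derivative]
      rw [ih n] at h1
      have h2 : ((i : ℝ) + 1) ≠ 0 := by positivity
      by_cases hi : i ≤ n
      · rw [if_pos hi] at h1
        rw [if_pos (by omega), Nat.add_sub_add_right, Nat.factorial_succ]
        push_cast
        rw [eq_div_iff (by positivity)]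
        rw [div_eq_iff (by positivity)] at h1
        rw [h1]
        ring
      · rw [if_neg hi] at h1
        rw [if_neg (by omega)]
        have := mul_eq_zero.1 h1.symm
        rcases this with h3 | h3
        · exact h3
        · exact absurd h3 h2

theorem eval_poly (h : IsLevels d P) (n : ℕ) (x : ℝ) (hx : x ≠ 0) :
    (n.factorial : ℝ) * (P n).eval x = x ^ n * Tn (ecoef P) n (1 / x) := by
  have hdeg : (P n).natDegree < n + 1 := by
    rw [Nat.lt_succ_iff, natDegree_le_iff_coeff_eq_zero]
    intro N hN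
    rw [h.coeff_poly N n, if_neg (by omega)]
  rw [eval_eq_sum_range' hdeg, ← Finset.sum_range_reflect, Tn, mul_sum, mul_sum]
  refine Finset.sum_congr rfl fun j hj => ?_
  rw [mem_range] at hj
  have h1 : n + 1 - 1 - j = n - j := by omega
  have h2 : n - (n - j) = j := by omega
  rw [h1, h.coeff_poly, if_pos (by omega), h2, coeff_zero_eq_eval_zero, ecoef]
  have h3 : (n.choose j : ℝ) = n.factorial / (j.factorial * (n - j).factorial) := by
    rw [Nat.cast_choose ℝ (by omega : j ≤ n)]
  rw [h3, one_div, inv_pow]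
  have h4 : x ^ n = x ^ (n - j) * x ^ j := by
    rw [← pow_add]; congr 1; omega
  rw [h4]
  have h5 : ((n - j).factorial : ℝ) ≠ 0 := by positivity
  have h6 : (j.factorial : ℝ) ≠ 0 := by positivity
  field_simp

theorem Tn_root (h : IsLevels d P) (n : ℕ) (hn : 1 ≤ n) : Tn (ecoef P) (n + 1) (1 / d n) = 0 := by
  have hpos := h.pos n hn
  have h1 := h.eval_poly (n + 1) (d n) hpos.ne'
  rw [h.poly_root n, mul_zero] at h1
  exact (mul_eq_zero.1 h1.symm).resolve_left (pow_ne_zero _ hpos.ne')

theorem lv_mono (h : IsLevels d P) : Monotone (lv d) := fun _ _ hab =>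
  h.strictMono.monotone (by omega)

theorem lv_nonneg (h : IsLevels d P) (l : ℕ) : 0 ≤ lv d l := h.nonneg _

theorem lv_one (h : IsLevels d P) : lv d 1 = 0 := h.level_zero

theorem lv_zero (h : IsLevels d P) : lv d 0 = 0 := h.level_zero

theorem lv_pos (h : IsLevels d P) (l : ℕ) (hl : 2 ≤ l) : 0 < lv d l := h.pos _ (by omega)

theorem Tn_lv (h : IsLevels d P) (n : ℕ) (hn : 2 ≤ n) : Tn (ecoef P) n (1 / lv d n) = 0 := by
  obtain ⟨m, rfl⟩ : ∃ m, n = m + 1 := ⟨n - 1, by omega⟩
  exact h.Tn_root m (by omega)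

theorem Tn_bounds (h : IsLevels d P) : ∀ n w, 0 ≤ w → w * lv d n ≤ 1 →
    0 ≤ Tn (ecoef P) n w ∧ Tn (ecoef P) n w ≤ 1 := by
  intro n
  induction n using Nat.strong_induction_on with
  | _ n ih =>
    intro w hw hwn
    rcases Nat.lt_or_ge n 2 with hn | hn
    · interval_cases n
      · rw [Tn_zero _ h.ecoef_zero]; exact ⟨zero_le_one, le_rfl⟩
      · rw [Tn_one _ h.ecoef_zero h.ecoef_one]; exact ⟨zero_le_one, le_rfl⟩
    · have hpos := h.lv_pos n hn
      have hw' : w = (w * lv d n) * (1 / lv d n) := by field_simp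
      have hr0 : 0 ≤ w * lv d n := mul_nonneg hw hpos.le
      rw [hw', ← Tn_thin]
      have hb : ∀ i ∈ range (n + 1), 0 ≤ Tn (ecoef P) i (1 / lv d n) ∧
          Tn (ecoef P) i (1 / lv d n) ≤ 1 := by
        intro i hi
        rw [mem_range] at hi
        rcases Nat.eq_or_lt_of_le (Nat.lt_succ_iff.1 hi) with h1 | h1
        · subst h1
          rw [h.Tn_lv i hn]
          exact ⟨le_rfl, zero_le_one⟩
        · refine ih i h1 _ (by positivity) ?_
          rw [one_div, inv_mul_le_one₀ hpos]
          exact h.lv_mono h1.le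
      constructor
      · refine Finset.sum_nonneg fun i hi => mul_nonneg (Nat.cast_nonneg _) (mul_nonneg
          (mul_nonneg (pow_nonneg hr0 _) (pow_nonneg (by linarith) _)) (hb i hi).1)
      · refine le_trans (Finset.sum_le_sum fun i hi => ?_) (le_of_eq (sum_binom n (w * lv d n)))
        refine mul_le_mul_of_nonneg_left ?_ (Nat.cast_nonneg _)
        exact mul_le_of_le_one_right (mul_nonneg (pow_nonneg hr0 _) (pow_nonneg (by linarith) _))
          (hb i hi).2

/-- the nested probabilities are values of the survival polynomials -/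
theorem om_eq (h : IsLevels d P) (c : ℕ → ℝ) : ∀ l, 2 ≤ l → (∀ i < l, c i = lv d i) → 0 < c l →
    ∀ n, om c l n = if n < l then Tn (ecoef P) n (1 / c l) else 0 := by
  intro l hl
  induction l, hl using Nat.le_induction with
  | base =>
    intro hc hc2 n
    rw [om]
    by_cases hn : n < 0 + 2
    · rw [if_pos hn, if_pos (by omega)]
      have hc1 : c (0 + 1) = 0 := by
        rw [hc (0 + 1) (by norm_num)]
        exact h.lv_one
      rw [hc1]
      interval_cases n
      · rw [Tn_zero _ h.ecoef_zero]; simp [om]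
      · rw [Tn_one _ h.ecoef_zero h.ecoef_one]; simp [om, Finset.sum_range_succ]
    · rw [if_neg hn, if_neg (by omega)]
  | succ l hl ih =>
    intro hc hcl n
    obtain ⟨m, rfl⟩ : ∃ m, l = m + 1 := ⟨l - 1, by omega⟩
    rw [om]
    by_cases hn : n < m + 2
    · rw [if_pos hn, if_pos (by omega)]
      have hlv : c (m + 1) = lv d (m + 1) := hc (m + 1) (by omega)
      have hlvpos : 0 < c (m + 1) := by rw [hlv]; exact h.lv_pos _ hl
      have h1 : ∀ j ∈ range (n + 1), (n.choose j : ℝ) * ((c (m + 1) / c (m + 2)) ^ j *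
          (1 - c (m + 1) / c (m + 2)) ^ (n - j) * om c (m + 1) j) =
          (n.choose j : ℝ) * ((c (m + 1) / c (m + 2)) ^ j *
          (1 - c (m + 1) / c (m + 2)) ^ (n - j) * Tn (ecoef P) j (1 / c (m + 1))) := by
        intro j hj
        rw [mem_range] at hj
        congr 2
        rw [ih (fun i hi => hc i (by omega)) hlvpos j]
        by_cases hjm : j < m + 1
        · rw [if_pos hjm]
        · have : j = m + 1 := by omega
          subst this
          rw [if_neg (lt_irrefl _), hlv, h.Tn_lv _ hl]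
      rw [Finset.sum_congr rfl h1, Tn_thin]
      congr 1
      have : c (m + 1 + 1) = c (m + 2) := rfl
      rw [this]
      field_simp
    · rw [if_neg hn, if_neg (by omega)]

end IsLevels

end Pool.Agent.Helper92.Crypto
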