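import Mathlib
import Pool.Agent.Helper92.CryptoTpoly

/-!
# The normalisation of the levels
-/

namespace Pool.Agent.Helper92.Crypto

open Polynomial Finset MeasureTheory

/-- the quantity `x (1 - sigma)` -/
noncomputable def Fl (e : ℕ → ℝ) (l : ℕ) (x : ℝ) : ℝ :=
  x * (1 - ∑ j ∈ Finset.Icc 2 (l - 1), Tn e j (1 / x) / (j * (j - 1)))

theorem hasDerivAt_monom (i : ℕ) (x : ℝ) (hx : 0 < x) :
    HasDerivAt (fun t : ℝ => t * (1 / t) ^ i) ((1 - i) * (1 / x) ^ i) x := by
  have h1 : HasDerivAt (fun t : ℝ => (1 / t : ℝ)) (-(x ^ 2)⁻¹) x := by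
    simpa only [one_div] using hasDerivAt_inv hx.ne'
  have h2 := (hasDerivAt_id' x).fun_mul (h1.fun_pow i)
  refine h2.congr_deriv ?_
  rcases Nat.eq_zero_or_pos i with rfl | hi
  · simp
  · obtain ⟨m, rfl⟩ : ∃ m, i = m + 1 := ⟨i - 1, by omega⟩
    rw [Nat.add_sub_cancel]
    push_cast
    rw [pow_succ]
    field_simp
    ring

theorem hasDerivAt_xT (e : ℕ → ℝ) (j : ℕ) (x : ℝ) (hx : 0 < x) :
    HasDerivAt (fun t : ℝ => t * Tn e j (1 / t))
      (∑ i ∈ range (j + 1), (j.choose i : ℝ) * (e i * ((1 - i) * (1 / x) ^ i))) x := by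
  have h1 : (fun t : ℝ => t * Tn e j (1 / t)) =
      fun t : ℝ => ∑ i ∈ range (j + 1), (j.choose i : ℝ) * (e i * (t * (1 / t) ^ i)) := by
    funext t
    rw [Tn, mul_sum]
    refine Finset.sum_congr rfl fun i _ => ?_
    ring
  rw [h1]
  apply HasDerivAt.fun_sum
  intro i _
  exact ((hasDerivAt_monom i x hx).const_mul (e i)).const_mul _

theorem tele_T (e : ℕ → ℝ) (j : ℕ) (hj : 2 ≤ j) (w : ℝ) :
    (∑ i ∈ range (j + 1), (j.choose i : ℝ) * (e i * ((1 - i) * w ^ i))) / (j * (j - 1)) =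
      Tn e (j - 1) w / (j - 1) - Tn e j w / j := by
  obtain ⟨m, rfl⟩ : ∃ m, j = m + 1 := ⟨j - 1, by omega⟩
  have hm : (1 : ℝ) ≤ m := by exact_mod_cast (by omega : 1 ≤ m)
  have hm0 : (m : ℝ) ≠ 0 := by positivity
  have hm1 : ((m : ℝ) + 1) ≠ 0 := by positivity
  have h1 : Tn e m w = ∑ i ∈ range (m + 1 + 1), (m.choose i : ℝ) * (e i * w ^ i) := by
    rw [Tn, Finset.sum_range_succ _ (m + 1), Nat.choose_eq_zero_of_lt (Nat.lt_succ_self m)]
    simp
  rw [Nat.add_sub_cancel, h1, Tn]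
  push_cast
  rw [add_sub_cancel_right, Finset.sum_div, Finset.sum_div, Finset.sum_div,
    ← Finset.sum_sub_distrib]
  refine Finset.sum_congr rfl fun i hi => ?_
  rw [mem_range] at hi
  have h2 : (m.choose i : ℝ) = ((m + 1).choose i : ℝ) * ((m : ℝ) + 1 - i) / (m + 1) := by
    rw [eq_div_iff hm1]
    have h3 := Nat.choose_mul_succ_eq m i
    have h4 : ((m.choose i * (m + 1) : ℕ) : ℝ) = (((m + 1).choose i * (m + 1 - i) : ℕ) : ℝ) := by
      rw [h3]
    rw [Nat.cast_mul, Nat.cast_mul, Nat.cast_sub (by omega)] at h4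
    push_cast at h4
    exact h4
  rw [h2]
  field_simp
  ring

theorem hasDerivAt_Fl (e : ℕ → ℝ) (h0 : e 0 = 1) (h1 : e 1 = 0) (l : ℕ) (hl : 2 ≤ l) (x : ℝ)
    (hx : 0 < x) : HasDerivAt (Fl e l) (Tn e (l - 1) (1 / x) / ((l : ℝ) - 1)) x := by
  induction l, hl using Nat.le_induction with
  | base =>
    have h2 : Fl e 2 = fun x => x := by
      funext x
      simp [Fl]
    rw [h2, Tn_one e h0 h1]
    have : (1 : ℝ) / (((2 : ℕ) : ℝ) - 1) = 1 := by norm_num
    rw [this]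
    exact hasDerivAt_id x
  | succ l hl ih =>
    have hl' : (2 : ℝ) ≤ l := by exact_mod_cast hl
    have h2 : Fl e (l + 1) = fun x => Fl e l x - x * Tn e l (1 / x) / (l * (l - 1)) := by
      funext x
      unfold Fl
      have h3 : Finset.Icc 2 (l + 1 - 1) = insert l (Finset.Icc 2 (l - 1)) := by
        ext j
        rw [Finset.mem_insert, Finset.mem_Icc, Finset.mem_Icc]
        omega
      rw [h3, Finset.sum_insert (by rw [Finset.mem_Icc]; omega)]
      ring
    rw [h2]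
    have h4 := ih.sub ((hasDerivAt_xT e l x hx).div_const ((l : ℝ) * (l - 1)))
    refine h4.congr_deriv ?_
    rw [tele_T e l hl, Nat.add_sub_cancel]
    push_cast
    ring

theorem continuousOn_Tn_inv (e : ℕ → ℝ) (n : ℕ) :
    ContinuousOn (fun t : ℝ => Tn e n (1 / t)) (Set.Ioi 0) := by
  unfold Tn
  apply continuousOn_finsetSum
  intro i _
  apply ContinuousOn.mul continuousOn_const
  apply ContinuousOn.mul continuousOn_const
  apply ContinuousOn.pow
  exact continuousOn_const.div continuousOn_id (fun t ht => ne_of_gt ht)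

theorem Fl_ftc (e : ℕ → ℝ) (h0 : e 0 = 1) (h1 : e 1 = 0) (l : ℕ) (hl : 2 ≤ l) (a b : ℝ)
    (ha : 0 < a) (hab : a ≤ b) :
    Fl e l b - Fl e l a = (∫ t in a..b, Tn e (l - 1) (1 / t)) / ((l : ℝ) - 1) := by
  rw [← intervalIntegral.integral_div]
  symm
  apply intervalIntegral.integral_eq_sub_of_hasDerivAt
  · intro t ht
    rw [Set.uIcc_of_le hab] at ht
    exact hasDerivAt_Fl e h0 h1 l hl t (by linarith [ht.1])
  · apply ContinuousOn.intervalIntegrable
    apply ContinuousOn.div_const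
    apply (continuousOn_Tn_inv e (l - 1)).mono
    intro t ht
    rw [Set.uIcc_of_le hab] at ht
    exact lt_of_lt_of_le ha ht.1

namespace IsLevels

variable {d : ℕ → ℝ} {P : ℕ → ℝ[X]}

theorem integral_Tn (h : IsLevels d P) (n : ℕ) (a b : ℝ) (ha : d n ≤ a) (hab : a ≤ b) :
    ∫ t in a..b, Tn (ecoef P) (n + 1) (1 / t) =
      (n + 1).factorial * ∫ t in a..b, (P (n + 1)).eval t / t ^ (n + 1) := by
  rw [← intervalIntegral.integral_const_mul, intervalIntegral.integral_of_le hab,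
    intervalIntegral.integral_of_le hab]
  refine setIntegral_congr_fun measurableSet_Ioc fun t ht => ?_
  have ht0 : 0 < t := lt_of_le_of_lt ((h.nonneg n).trans ha) ht.1
  have h1 := h.eval_poly (n + 1) t ht0.ne'
  rw [← mul_div_assoc, h1]
  field_simp

theorem norm_T (h : IsLevels d P) (l : ℕ) (hl : 2 ≤ l) :
    (l : ℝ) * ∫ t in (lv d (l - 1))..(lv d l), Tn (ecoef P) (l - 1) (1 / t) = 1 := by
  obtain ⟨n, rfl⟩ : ∃ n, l = n + 2 := ⟨l - 2, by omega⟩
  have e1 : lv d (n + 2 - 1) = d n := rfl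
  have e2 : lv d (n + 2) = d (n + 1) := rfl
  have e3 : n + 2 - 1 = n + 1 := rfl
  rw [e1, e2, e3, h.integral_Tn n _ _ le_rfl (h.level_lt n).le, ← mul_assoc]
  have h1 : (((n + 2 : ℕ) : ℝ)) * ((n + 1).factorial : ℝ) = ((n + 2).factorial : ℝ) := by
    rw [Nat.factorial_succ (n + 1)]
    push_cast
    ring
  rw [h1]
  exact h.norm n

theorem Fl_lv (h : IsLevels d P) (l : ℕ) (hl : 2 ≤ l) :
    Fl (ecoef P) l (lv d l) = ((l : ℝ) - 1) / l := by
  induction l, hl using Nat.le_induction with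
  | base =>
    have h1 := h.norm_T 2 le_rfl
    have h2 : ∀ t : ℝ, Tn (ecoef P) (2 - 1) (1 / t) = 1 := fun t =>
      Tn_one _ h.ecoef_zero h.ecoef_one _
    simp only [h2] at h1
    rw [intervalIntegral.integral_const, smul_eq_mul, mul_one] at h1
    have h3 : lv d (2 - 1) = 0 := h.lv_one
    rw [h3] at h1
    have h4 : Fl (ecoef P) 2 (lv d 2) = lv d 2 := by simp [Fl]
    rw [h4]
    push_cast at h1 ⊢
    linarith
  | succ l hl ih =>
    have hl' : (2 : ℝ) ≤ l := by exact_mod_cast hl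
    have h1 := h.norm_T (l + 1) (by omega)
    rw [Nat.add_sub_cancel] at h1
    have h2 := Fl_ftc (ecoef P) h.ecoef_zero h.ecoef_one (l + 1) (by omega) (lv d l)
      (lv d (l + 1)) (h.lv_pos l hl) (h.lv_mono (Nat.le_succ l))
    rw [Nat.add_sub_cancel] at h2
    have h3 : Fl (ecoef P) (l + 1) (lv d l) = Fl (ecoef P) l (lv d l) := by
      unfold Fl
      have h3 : Finset.Icc 2 (l + 1 - 1) = insert l (Finset.Icc 2 (l - 1)) := by
        ext j
        rw [Finset.mem_insert, Finset.mem_Icc, Finset.mem_Icc]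
        omega
      rw [h3, Finset.sum_insert (by rw [Finset.mem_Icc]; omega), h.Tn_lv l hl]
      ring
    rw [h3, ih] at h2
    push_cast at h1 h2 ⊢
    rw [add_sub_cancel_right] at h2 ⊢
    have h4 : ∫ t in (lv d l)..(lv d (l + 1)), Tn (ecoef P) l (1 / t) = 1 / ((l : ℝ) + 1) := by
      field_simp
      linarith
    rw [h4] at h2
    have h5 : (l : ℝ) ≠ 0 := by positivity
    have h6 : (l : ℝ) + 1 ≠ 0 := by positivity
    have h7 : Fl (ecoef P) (l + 1) (lv d (l + 1)) = (l - 1) / l + 1 / (l + 1) / l := by linarith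
    rw [h7]
    field_simp
    ring

theorem sg_eq (h : IsLevels d P) (c : ℕ → ℝ) (l : ℕ) (hl : 2 ≤ l) (hc : ∀ i < l, c i = lv d i)
    (hcl : 0 < c l) : c l * (1 - sg c l) = Fl (ecoef P) l (c l) := by
  unfold sg Fl
  congr 2
  refine Finset.sum_congr rfl fun j hj => ?_
  rw [Finset.mem_Icc] at hj
  rw [h.om_eq c l hl hc hcl, if_pos (by omega)]

theorem E_lv (h : IsLevels d P) (l : ℕ) (hl : 2 ≤ l) :
    lv d l * (1 - sg (lv d) l) = ((l : ℝ) - 1) / l := by
  rw [h.sg_eq (lv d) l hl (fun _ _ => rfl) (h.lv_pos l hl), h.Fl_lv l hl]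

/-- the last level of the truncated sequences -/
theorem exists_last (h : IsLevels d P) (r : ℕ) (hr : 3 ≤ r) :
    ∃ C, lv d (r - 1) < C ∧ Fl (ecoef P) r C = 1 := by
  obtain ⟨n, rfl⟩ : ∃ n, r = n + 2 := ⟨r - 2, by omega⟩
  have hn : 1 ≤ n := by omega
  have hn' : (1 : ℝ) ≤ n := by exact_mod_cast hn
  obtain ⟨C, hC1, hC2⟩ := exists_level_pos (n + 1) (d n) (P (n + 1)) (h.pos n hn) (h.lower n)
    (1 / (n + 1).factorial) (by positivity)
  refine ⟨C, hC1, ?_⟩
  have h2 := Fl_ftc (ecoef P) h.ecoef_zero h.ecoef_one (n + 2) (by omega) (d n) C (h.pos n hn) hC1.le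
  have e3 : n + 2 - 1 = n + 1 := rfl
  rw [e3, h.integral_Tn n _ _ le_rfl hC1.le, hC2] at h2
  have h3 : Fl (ecoef P) (n + 2) (d n) = Fl (ecoef P) (n + 1) (lv d (n + 1)) := by
    have : lv d (n + 1) = d n := rfl
    rw [this]
    unfold Fl
    have h3 : Finset.Icc 2 (n + 2 - 1) = insert (n + 1) (Finset.Icc 2 (n + 1 - 1)) := by
      ext j
      rw [Finset.mem_insert, Finset.mem_Icc, Finset.mem_Icc]
      omega
    rw [h3, Finset.sum_insert (by rw [Finset.mem_Icc]; omega)]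
    have h4 := h.Tn_lv (n + 1) (by omega)
    rw [this] at h4
    rw [h4]
    ring
  rw [h3, h.Fl_lv (n + 1) (by omega)] at h2
  push_cast at h2
  rw [add_sub_cancel_right, mul_one_div_cancel (by positivity)] at h2
  have h5 : (n : ℝ) + 2 - 1 = n + 1 := by ring
  rw [h5] at h2
  have h6 : Fl (ecoef P) (n + 2) C = n / (n + 1) + 1 / (n + 1) := by linarith
  rw [h6]
  field_simp

end IsLevels

end Pool.Agent.Helper92.Crypto
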