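import Mathlib
import Pool.Agent.Helper92.CryptoNorm

/-!
# The value function at pure states of equal levels
-/

namespace Pool.Agent.Helper92.Crypto

open Polynomial Finset MeasureTheory
open scoped ENNReal

/-- coefficients of `HH` -/
noncomputable def hc (e : ℕ → ℝ) (w : ℝ) : ℕ → ℝ
  | 0 => 0
  | 1 => 0
  | j + 2 => e (j + 2) * w ^ j

/-- `(1 - T n w) / w ^ 2` -/
noncomputable def HH (e : ℕ → ℝ) (n : ℕ) (w : ℝ) : ℝ :=
  -∑ j ∈ range (n + 1), (n.choose j : ℝ) * hc e w j

theorem Tn_eq_HH (e : ℕ → ℝ) (h0 : e 0 = 1) (h1 : e 1 = 0) (n : ℕ) (w : ℝ) :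
    Tn e n w = 1 - w ^ 2 * HH e n w := by
  have h2 : ∀ j, e j * w ^ j = (if j = 0 then 1 else 0) + w ^ 2 * hc e w j := by
    intro j
    match j with
    | 0 => simp [hc, h0]
    | 1 => simp [hc, h1]
    | j + 2 =>
      rw [if_neg (by omega), hc, pow_add]
      ring
  unfold Tn HH
  have h3 : ∀ j ∈ range (n + 1), (n.choose j : ℝ) * (e j * w ^ j) =
      (if j = 0 then 1 else 0) + w ^ 2 * ((n.choose j : ℝ) * hc e w j) := by
    intro j _
    rw [h2, mul_add]
    congr 1
    · by_cases hj : j = 0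
      · subst hj; simp
      · simp [hj]
    · ring
  rw [Finset.sum_congr rfl h3, Finset.sum_add_distrib, ← mul_sum,
    Finset.sum_ite_eq' (range (n + 1)) 0 (fun _ => (1 : ℝ)), if_pos (by simp)]
  ring

theorem HH_small (e : ℕ → ℝ) (n : ℕ) (hn : n ≤ 1) (w : ℝ) : HH e n w = 0 := by
  interval_cases n
  · simp [HH, hc]
  · simp [HH, hc, Finset.sum_range_succ]

theorem HH_thin (e : ℕ → ℝ) (n : ℕ) (r w : ℝ) :
    ∑ i ∈ range (n + 1), (n.choose i : ℝ) * (r ^ i * (1 - r) ^ (n - i) * HH e i w) =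
      r ^ 2 * HH e n (r * w) := by
  unfold HH
  have h1 : ∀ i ∈ range (n + 1), (n.choose i : ℝ) * (r ^ i * (1 - r) ^ (n - i) *
      -∑ j ∈ range (i + 1), (i.choose j : ℝ) * hc e w j) =
      -((n.choose i : ℝ) * (r ^ i * (1 - r) ^ (n - i) *
        ∑ j ∈ range (i + 1), (i.choose j : ℝ) * hc e w j)) := by
    intro i _
    ring
  rw [Finset.sum_congr rfl h1, Finset.sum_neg_distrib, thin (hc e w) n r, mul_neg, mul_sum]
  congr 1
  refine Finset.sum_congr rfl fun j _ => ?_
  match j with
  | 0 => simp [hc]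
  | 1 => simp [hc]
  | j + 2 =>
    rw [hc, hc, mul_pow]
    ring

theorem continuous_hc (e : ℕ → ℝ) (j : ℕ) : Continuous (fun w => hc e w j) := by
  match j with
  | 0 => exact continuous_const
  | 1 => exact continuous_const
  | j + 2 => exact continuous_const.mul (continuous_pow j)

theorem continuous_HH (e : ℕ → ℝ) (n : ℕ) : Continuous (HH e n) := by
  unfold HH
  apply Continuous.neg
  apply continuous_finsetSum
  intro j _
  exact continuous_const.mul (continuous_hc e j)

theorem hasDerivAt_hc (e : ℕ → ℝ) (j : ℕ) (z : ℝ) (hz : z ≠ 0) :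
    HasDerivAt (fun w => hc e w j) (((j : ℝ) - 2) * hc e z j / z) z := by
  match j with
  | 0 =>
    refine (hasDerivAt_const z (0 : ℝ)).congr_deriv ?_
    simp [hc]
  | 1 =>
    refine (hasDerivAt_const z (0 : ℝ)).congr_deriv ?_
    simp [hc]
  | j + 2 =>
    refine ((hasDerivAt_pow j z).const_mul (e (j + 2))).congr_deriv ?_
    rw [hc]
    rcases Nat.eq_zero_or_pos j with rfl | hj
    · simp
    · obtain ⟨m, rfl⟩ : ∃ m, j = m + 1 := ⟨j - 1, by omega⟩
      rw [Nat.add_sub_cancel, pow_succ]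
      push_cast
      field_simp
      ring

theorem choose_id (n j : ℕ) (hj : j ≤ n + 1) :
    ((j : ℝ) - 2) * ((n + 1).choose j : ℝ) =
      ((n : ℝ) + 1 - 2) * ((n + 1).choose j : ℝ) - ((n : ℝ) + 1) * (n.choose j : ℝ) := by
  have h3 := Nat.choose_mul_succ_eq n j
  have h4 : ((n.choose j * (n + 1) : ℕ) : ℝ) = (((n + 1).choose j * (n + 1 - j) : ℕ) : ℝ) := by
    rw [h3]
  rw [Nat.cast_mul, Nat.cast_mul, Nat.cast_sub hj] at h4
  push_cast at h4
  linarith

theorem hasDerivAt_HH (e : ℕ → ℝ) (n : ℕ) (z : ℝ) (hz : z ≠ 0) :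
    HasDerivAt (HH e n) ((((n : ℝ) - 2) * HH e n z - n * HH e (n - 1) z) / z) z := by
  have h1 : HasDerivAt (HH e n)
      (-∑ j ∈ range (n + 1), (n.choose j : ℝ) * (((j : ℝ) - 2) * hc e z j / z)) z := by
    unfold HH
    apply HasDerivAt.fun_neg
    apply HasDerivAt.fun_sum
    intro j _
    exact (hasDerivAt_hc e j z hz).const_mul _
  refine h1.congr_deriv ?_
  rw [eq_div_iff hz, neg_mul, Finset.sum_mul]
  cases n with
  | zero => simp [HH, hc]
  | succ n =>
    rw [Nat.add_sub_cancel]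
    have h2 : HH e n z = -∑ j ∈ range (n + 1 + 1), (n.choose j : ℝ) * hc e z j := by
      rw [HH, Finset.sum_range_succ _ (n + 1), Nat.choose_eq_zero_of_lt (Nat.lt_succ_self n)]
      simp
    rw [h2]
    unfold HH
    rw [mul_neg, mul_neg, mul_sum, mul_sum, ← Finset.sum_neg_distrib, ← Finset.sum_neg_distrib,
      ← Finset.sum_neg_distrib, ← Finset.sum_sub_distrib]
    refine Finset.sum_congr rfl fun j hj => ?_
    rw [mem_range] at hj
    have h3 := choose_id n j (by omega)
    push_cast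
    field_simp
    linear_combination (-hc e z j) * h3

/-- the integrand -/
noncomputable def Qf (e : ℕ → ℝ) (a b : ℕ) (x y w : ℝ) : ℝ :=
  x ^ 2 * HH e a (w * x) + y ^ 2 * HH e b (w * y) -
    w ^ 2 * (x ^ 2 * y ^ 2) * (HH e a (w * x) * HH e b (w * y))

theorem Qf_eq (e : ℕ → ℝ) (h0 : e 0 = 1) (h1 : e 1 = 0) (a b : ℕ) (x y w : ℝ) :
    1 - Tn e a (w * x) * Tn e b (w * y) = w ^ 2 * Qf e a b x y w := by
  rw [Tn_eq_HH e h0 h1, Tn_eq_HH e h0 h1, Qf]
  ring

theorem Qf_comm (e : ℕ → ℝ) (a b : ℕ) (x y w : ℝ) : Qf e a b x y w = Qf e b a y x w := by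
  unfold Qf
  ring

theorem continuous_Qf (e : ℕ → ℝ) (a b : ℕ) (x y : ℝ) : Continuous (Qf e a b x y) := by
  unfold Qf
  have h1 : Continuous fun w : ℝ => HH e a (w * x) :=
    (continuous_HH e a).comp (continuous_id.mul continuous_const)
  have h2 : Continuous fun w : ℝ => HH e b (w * y) :=
    (continuous_HH e b).comp (continuous_id.mul continuous_const)
  fun_prop

/-- the value at `a` suspects of level `x` and `b` suspects of level `y` -/
noncomputable def Phi2 (e c : ℕ → ℝ) (a b : ℕ) (x y : ℝ) : ℝ :=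
  (∫ w in (0 : ℝ)..(max (c a * x) (c b * y))⁻¹, Qf e a b x y w) + max (c a * x) (c b * y)

theorem Phi2_comm (e c : ℕ → ℝ) (a b : ℕ) (x y : ℝ) : Phi2 e c a b x y = Phi2 e c b a y x := by
  unfold Phi2
  rw [max_comm]
  simp only [Qf_comm e a b]

/-- homogeneity -/
theorem Phi2_smul (e c : ℕ → ℝ) (a b : ℕ) (x y s : ℝ) (hs : 0 < s) :
    Phi2 e c a b (s * x) (s * y) = s * Phi2 e c a b x y := by
  unfold Phi2
  have h1 : max (c a * (s * x)) (c b * (s * y)) = s * max (c a * x) (c b * y) := by
    rw [mul_max_of_nonneg _ _ hs.le]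
    congr 1 <;> ring
  rw [h1]
  have h2 : ∀ w, Qf e a b (s * x) (s * y) w = s ^ 2 * Qf e a b x y (s * w) := by
    intro w
    unfold Qf
    have e1 : w * (s * x) = s * w * x := by ring
    have e2 : w * (s * y) = s * w * y := by ring
    rw [e1, e2]
    ring
  simp only [h2]
  rw [intervalIntegral.integral_const_mul, intervalIntegral.integral_comp_mul_left _ hs.ne',
    mul_zero, smul_eq_mul]
  have h3 : s * (s * max (c a * x) (c b * y))⁻¹ = (max (c a * x) (c b * y))⁻¹ := by
    rw [mul_inv]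
    field_simp
  rw [h3]
  field_simp

/-- raising the levels of the first group -/
theorem Phi2_thin (e c : ℕ → ℝ) (hc : Monotone c) (a b : ℕ) (x' y r : ℝ) (hx' : 0 ≤ x')
    (hca : 0 ≤ c a) (hr1 : r ≤ 1) (hle : c a * x' ≤ c b * y) :
    ∑ i ∈ range (a + 1), (a.choose i : ℝ) * (r ^ i * (1 - r) ^ (a - i) * Phi2 e c i b x' y) =
      Phi2 e c a b (r * x') y := by
  have h1 : ∀ i ∈ range (a + 1), max (c i * x') (c b * y) = c b * y := by
    intro i hi
    rw [mem_range] at hi
    apply max_eq_right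
    exact le_trans (mul_le_mul_of_nonneg_right (hc (by omega : i ≤ a)) hx') hle
  have h2 : max (c a * (r * x')) (c b * y) = c b * y := by
    apply max_eq_right
    refine le_trans ?_ hle
    have : r * x' ≤ x' := mul_le_of_le_one_left hx' hr1
    exact mul_le_mul_of_nonneg_left this hca
  unfold Phi2
  rw [h2]
  have h3 : ∀ i ∈ range (a + 1), (a.choose i : ℝ) * (r ^ i * (1 - r) ^ (a - i) *
      ((∫ w in (0 : ℝ)..(max (c i * x') (c b * y))⁻¹, Qf e i b x' y w) +
        max (c i * x') (c b * y))) =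
      (∫ w in (0 : ℝ)..(c b * y)⁻¹, (a.choose i : ℝ) * (r ^ i * (1 - r) ^ (a - i) *
        Qf e i b x' y w)) + (a.choose i : ℝ) * (r ^ i * (1 - r) ^ (a - i)) * (c b * y) := by
    intro i hi
    rw [h1 i hi, intervalIntegral.integral_const_mul, intervalIntegral.integral_const_mul]
    ring
  rw [Finset.sum_congr rfl h3, Finset.sum_add_distrib, ← Finset.sum_mul, sum_binom a r, one_mul,
    ← intervalIntegral.integral_finsetSum]
  · congr 1
    apply intervalIntegral.integral_congr
    intro w _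
    simp only
    have h4 := HH_thin e a r (w * x')
    have h5 := sum_binom a r
    unfold Qf
    have e1 : w * (r * x') = r * (w * x') := by ring
    rw [e1]
    calc ∑ i ∈ range (a + 1), (a.choose i : ℝ) * (r ^ i * (1 - r) ^ (a - i) *
          (x' ^ 2 * HH e i (w * x') + y ^ 2 * HH e b (w * y) -
            w ^ 2 * (x' ^ 2 * y ^ 2) * (HH e i (w * x') * HH e b (w * y)))) =
        ∑ i ∈ range (a + 1), ((x' ^ 2 - w ^ 2 * (x' ^ 2 * y ^ 2) * HH e b (w * y)) *
          ((a.choose i : ℝ) * (r ^ i * (1 - r) ^ (a - i) * HH e i (w * x'))) +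
          (y ^ 2 * HH e b (w * y)) * ((a.choose i : ℝ) * (r ^ i * (1 - r) ^ (a - i)))) := by
          refine Finset.sum_congr rfl fun i _ => ?_
          ring
      _ = (x' ^ 2 - w ^ 2 * (x' ^ 2 * y ^ 2) * HH e b (w * y)) *
          (r ^ 2 * HH e a (r * (w * x'))) + y ^ 2 * HH e b (w * y) * 1 := by
          rw [Finset.sum_add_distrib, ← mul_sum, ← mul_sum, h4, h5]
      _ = _ := by ring
  · intro i _
    apply Continuous.intervalIntegrable
    exact continuous_const.mul (continuous_const.mul (continuous_Qf e i b x' y))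

/-- the identity at critical states -/
theorem Phi2_crit (e c : ℕ → ℝ) (h0 : e 0 = 1) (h1 : e 1 = 0) (hc : Monotone c) (a b : ℕ)
    (x y : ℝ) (hx : 0 < x) (hy : 0 < y) (hca : 0 < c a) (hroot : Tn e a (1 / c a) = 0)
    (heq : c a * x = c b * y) :
    ((a : ℝ) + b - 1) * Phi2 e c a b x y =
      a * Phi2 e c (a - 1) b x y + b * Phi2 e c a (b - 1) x y := by
  set M : ℝ := c a * x with hM
  have hM0 : 0 < M := mul_pos hca hx
  have m1 : max (c a * x) (c b * y) = M := by rw [← heq]; exact max_self _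
  have m2 : max (c (a - 1) * x) (c b * y) = M := by
    rw [← heq]
    exact max_eq_right (mul_le_mul_of_nonneg_right (hc (Nat.sub_le a 1)) hx.le)
  have m3 : max (c a * x) (c (b - 1) * y) = M := by
    apply max_eq_left
    rw [← hM, heq]
    exact mul_le_mul_of_nonneg_right (hc (Nat.sub_le b 1)) hy.le
  have m1' : max M (c b * y) = M := m1
  have m3' : max M (c (b - 1) * y) = M := m3
  unfold Phi2
  rw [← hM, m1', m2, m3']
  have hint : ∀ a b, IntervalIntegrable (Qf e a b x y) volume 0 M⁻¹ := fun a b =>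
    (continuous_Qf e a b x y).intervalIntegrable _ _
  have key : ∫ w in (0 : ℝ)..M⁻¹, (((a : ℝ) + b - 1) * Qf e a b x y w -
      a * Qf e (a - 1) b x y w - b * Qf e a (b - 1) x y w) = M⁻¹ * Qf e a b x y M⁻¹ := by
    have h2 := intervalIntegral.integral_eq_sub_of_hasDerivAt_of_le (a := 0) (b := M⁻¹)
      (f := fun w => w * Qf e a b x y w)
      (f' := fun w => ((a : ℝ) + b - 1) * Qf e a b x y w -
        a * Qf e (a - 1) b x y w - b * Qf e a (b - 1) x y w)
      (by positivity) (continuous_id.mul (continuous_Qf e a b x y)).continuousOn ?_ ?_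
    · rw [h2]
      ring
    · intro w hw
      have hw0 : 0 < w := hw.1
      have d1 : HasDerivAt (fun w => HH e a (w * x))
          ((((a : ℝ) - 2) * HH e a (w * x) - a * HH e (a - 1) (w * x)) / (w * x) * x) w := by
        have := (hasDerivAt_HH e a (w * x) (mul_pos hw0 hx).ne').comp w
          ((hasDerivAt_id' w).mul_const x)
        exact HasDerivAt.congr_deriv (f := fun w => HH e a (w * x)) this (by ring)
      have d2 : HasDerivAt (fun w => HH e b (w * y))
          ((((b : ℝ) - 2) * HH e b (w * y) - b * HH e (b - 1) (w * y)) / (w * y) * y) w := by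
        have := (hasDerivAt_HH e b (w * y) (mul_pos hw0 hy).ne').comp w
          ((hasDerivAt_id' w).mul_const y)
        exact HasDerivAt.congr_deriv (f := fun w => HH e b (w * y)) this (by ring)
      have d3 : HasDerivAt (fun w : ℝ => w ^ 2) (2 * w) w := by
        simpa using hasDerivAt_pow 2 w
      have d4 : HasDerivAt (Qf e a b x y)
          (x ^ 2 * ((((a : ℝ) - 2) * HH e a (w * x) - a * HH e (a - 1) (w * x)) / (w * x) * x) +
          y ^ 2 * ((((b : ℝ) - 2) * HH e b (w * y) - b * HH e (b - 1) (w * y)) / (w * y) * y) -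
          (2 * w * (x ^ 2 * y ^ 2) * (HH e a (w * x) * HH e b (w * y)) +
          w ^ 2 * (x ^ 2 * y ^ 2) *
          ((((a : ℝ) - 2) * HH e a (w * x) - a * HH e (a - 1) (w * x)) / (w * x) * x *
            HH e b (w * y) + HH e a (w * x) *
            ((((b : ℝ) - 2) * HH e b (w * y) - b * HH e (b - 1) (w * y)) / (w * y) * y)))) w := by
        unfold Qf
        exact ((d1.const_mul (x ^ 2)).fun_add (d2.const_mul (y ^ 2))).fun_sub
          ((d3.mul_const (x ^ 2 * y ^ 2)).fun_mul (d1.fun_mul d2))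
      have d5 := (hasDerivAt_id' w).fun_mul d4
      refine d5.congr_deriv ?_
      have hx' := hx.ne'
      have hy' := hy.ne'
      have hw' := hw0.ne'
      unfold Qf
      field_simp
      ring
    · apply Continuous.intervalIntegrable
      exact ((continuous_const.mul (continuous_Qf e a b x y)).sub
        (continuous_const.mul (continuous_Qf e (a - 1) b x y))).sub
        (continuous_const.mul (continuous_Qf e a (b - 1) x y))
  rw [intervalIntegral.integral_sub (((hint a b).const_mul _).sub ((hint (a - 1) b).const_mul _))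
    ((hint a (b - 1)).const_mul _), intervalIntegral.integral_sub ((hint a b).const_mul _)
    ((hint (a - 1) b).const_mul _), intervalIntegral.integral_const_mul,
    intervalIntegral.integral_const_mul, intervalIntegral.integral_const_mul] at key
  have hQ : Qf e a b x y M⁻¹ = M ^ 2 := by
    have h3 := Qf_eq e h0 h1 a b x y M⁻¹
    have h4 : M⁻¹ * x = 1 / c a := by
      rw [hM]
      field_simp
    rw [h4, hroot, zero_mul, sub_zero] at h3
    rw [inv_pow] at h3
    have h5 : M ^ 2 ≠ 0 := by positivity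
    have h6 : M ^ 2 * 1 = M ^ 2 * ((M ^ 2)⁻¹ * Qf e a b x y M⁻¹) := by rw [h3]
    rw [← mul_assoc, mul_inv_cancel₀ h5, one_mul, mul_one] at h6
    exact h6.symm
  rw [hQ] at key
  have h5 : M⁻¹ * M ^ 2 = M := by field_simp
  rw [h5] at key
  linarith

end Pool.Agent.Helper92.Crypto
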