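import Mathlib
import Pool.Agent.Helper92.CryptoPhi2
import Pool.Agent.Helper92.CryptoLag

/-!
# The optimal strategy from pure states of equal levels
-/

namespace Pool.Agent.Helper92.Crypto

open Polynomial Finset MeasureTheory
open scoped ENNReal

namespace IsLevels

variable {d : ℕ → ℝ} {P : ℕ → ℝ[X]}

theorem HH_nonneg (h : IsLevels d P) (n : ℕ) (w : ℝ) (hw : 0 < w) (hwn : w * lv d n ≤ 1) :
    0 ≤ HH (ecoef P) n w := by
  have h1 := (h.Tn_bounds n w hw.le hwn).2
  rw [Tn_eq_HH _ h.ecoef_zero h.ecoef_one] at h1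
  have h2 : 0 ≤ w ^ 2 * HH (ecoef P) n w := by linarith
  exact nonneg_of_mul_nonneg_right h2 (by positivity)

/-- binomial form of the survival polynomial -/
theorem Tn_eq_om (h : IsLevels d P) (n l : ℕ) (hl : 2 ≤ l) (hnl : n ≤ l) (w : ℝ) :
    ∑ j ∈ range (n + 1), (n.choose j : ℝ) * ((w * lv d l) ^ j * (1 - w * lv d l) ^ (n - j) *
      om (lv d) l j) = Tn (ecoef P) n w := by
  have hpos := h.lv_pos l hl
  have h1 : ∀ j ∈ range (n + 1), (n.choose j : ℝ) * ((w * lv d l) ^ j *
      (1 - w * lv d l) ^ (n - j) * om (lv d) l j) =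
      (n.choose j : ℝ) * ((w * lv d l) ^ j * (1 - w * lv d l) ^ (n - j) *
        Tn (ecoef P) j (1 / lv d l)) := by
    intro j hj
    rw [mem_range] at hj
    rw [h.om_eq (lv d) l hl (fun _ _ => rfl) hpos]
    by_cases hjl : j < l
    · rw [if_pos hjl]
    · have : j = l := by omega
      subst this
      rw [if_neg hjl, h.Tn_lv j hl]
  rw [Finset.sum_congr rfl h1, Tn_thin]
  congr 1
  field_simp

theorem integral_HH (h : IsLevels d P) (n : ℕ) (hn : 2 ≤ n) :
    (∫ w in (0 : ℝ)..(lv d n)⁻¹, HH (ecoef P) n w) + lv d n = n - 1 := by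
  have hpos := h.lv_pos n hn
  have hn' : (2 : ℝ) ≤ n := by exact_mod_cast hn
  have hb0 : 0 < (lv d n)⁻¹ := inv_pos.2 hpos
  have hb := om_bounds (lv d) h.lv_nonneg h.lv_mono n
  have hcore := int_core n (om (lv d) n) hb (om_zero _ _) (om_one _ _) (lv d n)⁻¹ hb0
  have hleft : ∫⁻ w in Set.Ioo 0 (lv d n)⁻¹, ENNReal.ofReal (1 - ∑ j ∈ range (n + 1),
      (n.choose j : ℝ) * ((w / (lv d n)⁻¹) ^ j * (1 - w / (lv d n)⁻¹) ^ (n - j) *
        om (lv d) n j)) * ENNReal.ofReal (1 / w ^ 2) =
      ENNReal.ofReal (∫ w in (0 : ℝ)..(lv d n)⁻¹, HH (ecoef P) n w) := by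
    rw [intervalIntegral.integral_of_le hb0.le, integral_Ioc_eq_integral_Ioo]
    rw [ofReal_integral_eq_lintegral_ofReal]
    · refine setLIntegral_congr_fun measurableSet_Ioo fun w hw => ?_
      have hw0 : 0 < w := hw.1
      simp only [div_inv_eq_mul]
      rw [h.Tn_eq_om n n hn le_rfl w, Tn_eq_HH _ h.ecoef_zero h.ecoef_one,
        ← ENNReal.ofReal_mul' (by positivity)]
      congr 1
      field_simp
      ring
    · exact ((continuous_HH _ n).integrableOn_Icc (a := 0) (b := (lv d n)⁻¹)).mono_set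
        Set.Ioo_subset_Icc_self
    · filter_upwards [ae_restrict_mem measurableSet_Ioo] with w hw
      apply h.HH_nonneg n w hw.1
      have : w * lv d n < (lv d n)⁻¹ * lv d n := mul_lt_mul_of_pos_right hw.2 hpos
      rw [inv_mul_cancel₀ hpos.ne'] at this
      exact this.le
  rw [hleft, sum_om (lv d) n n hn le_rfl, one_div, inv_inv] at hcore
  have hI0 : 0 ≤ ∫ w in (0 : ℝ)..(lv d n)⁻¹, HH (ecoef P) n w := by
    rw [intervalIntegral.integral_of_le hb0.le, integral_Ioc_eq_integral_Ioo]
    apply setIntegral_nonneg measurableSet_Ioo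
    intro w hw
    apply h.HH_nonneg n w hw.1
    have : w * lv d n < (lv d n)⁻¹ * lv d n := mul_lt_mul_of_pos_right hw.2 hpos
    rw [inv_mul_cancel₀ hpos.ne'] at this
    exact this.le
  have hE := h.E_lv n hn
  have hval : lv d n * ((n : ℝ) - 1 - n * sg (lv d) n) = n - 1 - lv d n := by
    have h1 : lv d n * ((n : ℝ) - 1 - n * sg (lv d) n) =
        n * (lv d n * (1 - sg (lv d) n)) - lv d n := by ring
    rw [h1, hE]
    field_simp
  rw [hval] at hcore
  -- the right hand side is nonnegative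
  have hnn : 0 ≤ (n : ℝ) - 1 - lv d n := by
    rw [← hval]
    refine mul_nonneg hpos.le ?_
    rw [← sum_om (lv d) n n hn le_rfl]
    refine Finset.sum_nonneg fun j hj => ?_
    rw [Finset.mem_Icc] at hj
    have hj' : (2 : ℝ) ≤ j := by exact_mod_cast hj.1
    refine mul_nonneg (div_nonneg (by positivity) (mul_nonneg (by linarith) (by linarith))) ?_
    linarith [(hb j).2]
  have := (ENNReal.ofReal_eq_ofReal_iff hI0 hnn).1 hcore
  linarith

theorem Phi2_left (h : IsLevels d P) (a b : ℕ) (ha : 2 ≤ a) (hb : b ≤ 1) (x y : ℝ) (hx : 0 < x) :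
    Phi2 (ecoef P) (lv d) a b x y = (a - 1) * x := by
  have hlvb : lv d b = 0 := by
    interval_cases b
    · exact h.lv_zero
    · exact h.lv_one
  have hpos := h.lv_pos a ha
  have h1 : max (lv d a * x) (lv d b * y) = x * lv d a := by
    rw [hlvb, zero_mul, mul_comm]
    exact max_eq_left (by positivity)
  unfold Phi2
  rw [h1]
  have h2 : ∀ w, Qf (ecoef P) a b x y w = x ^ 2 * HH (ecoef P) a (x * w) := by
    intro w
    unfold Qf
    rw [HH_small _ b hb, mul_comm w x]
    ring
  simp only [h2]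
  rw [intervalIntegral.integral_const_mul, intervalIntegral.integral_comp_mul_left _ hx.ne',
    mul_zero, smul_eq_mul]
  have h3 : x * (x * lv d a)⁻¹ = (lv d a)⁻¹ := by
    rw [mul_inv]
    field_simp
  rw [h3]
  have h4 := h.integral_HH a ha
  have h5 : ∫ w in (0 : ℝ)..(lv d a)⁻¹, HH (ecoef P) a w = a - 1 - lv d a := by linarith
  rw [h5]
  field_simp
  ring

theorem Phi2_small (h : IsLevels d P) (a b : ℕ) (ha : a ≤ 1) (hb : b ≤ 1) (x y : ℝ) :
    Phi2 (ecoef P) (lv d) a b x y = 0 := by
  have hlvb : lv d b = 0 := by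
    interval_cases b
    · exact h.lv_zero
    · exact h.lv_one
  have hlva : lv d a = 0 := by
    interval_cases a
    · exact h.lv_zero
    · exact h.lv_one
  unfold Phi2
  rw [hlva, hlvb]
  simp

end IsLevels

/-! ### Moves -/

variable {k : ℕ}

theorem val_smul (a b : Fin k → ℝ) (s : ℝ) (hs : 0 ≤ s) :
    val (fun i => s * a i) (fun i => s * b i) = s * val a b := by
  unfold val
  rw [← V_smul _ _ hs]
  congr 1
  funext x j
  cases x <;> simp

theorem lev_smul (S : Finset (Fin k)) (x s : ℝ) : lev S (s * x) = fun i => s * lev S x i := by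
  funext i
  unfold lev
  split_ifs <;> simp

theorem val_lev_smul (A B : Finset (Fin k)) (x y s : ℝ) (hs : 0 ≤ s) :
    val (lev A (s * x)) (lev B (s * y)) = s * val (lev A x) (lev B y) := by
  rw [lev_smul, lev_smul, val_smul _ _ _ hs]

/-- lower bound for a sum over all subsets by the terms of at most one missing element -/
theorem sum_powerset_ge (A : Finset (Fin k)) (f : Finset (Fin k) → ℝ)
    (hf : ∀ U ∈ A.powerset, 0 ≤ f U) :
    f A + ∑ i ∈ A, f (A.erase i) ≤ ∑ U ∈ A.powerset, f U := by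
  have hnotin : A ∉ A.image (fun i => A.erase i) := by
    rw [mem_image]
    rintro ⟨i, hi, he⟩
    have : i ∉ A.erase i := notMem_erase i A
    rw [he] at this
    exact this hi
  have hsub : insert A (A.image (fun i => A.erase i)) ⊆ A.powerset := by
    intro U hU
    rw [mem_insert, mem_image] at hU
    rw [mem_powerset]
    rcases hU with rfl | ⟨i, _, rfl⟩
    · exact subset_rfl
    · exact erase_subset i A
  refine le_trans (le_of_eq ?_) (Finset.sum_le_sum_of_subset_of_nonneg hsub
    fun U hU _ => hf U hU)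
  rw [sum_insert hnotin, sum_image (Finset.erase_injOn A)]

/-- the critical move -/
theorem crit_move (hk : 0 < k) (A B : Finset (Fin k)) (x y : ℝ) (hx : 0 < x) (hy : 0 < y)
    (hA : 1 ≤ #A) (hB : 1 ≤ #B) (p q : ℝ)
    (hp : ∀ i ∈ A, p ≤ val (lev (A.erase i) x) (lev B y))
    (hq : ∀ j ∈ B, q ≤ val (lev A x) (lev (B.erase j) y)) :
    #A * p + #B * q ≤ ((#A : ℝ) + #B - 1) * val (lev A x) (lev B y) := by
  set v := val (lev A x) (lev B y) with hv
  have hv0 : 0 ≤ v := val_nonneg hk _ _ (lev_nonneg A x hx.le) (lev_nonneg B y hy.le)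
  have hstep : ∀ r : ℝ, 0 < r → r < 1 →
      r ^ (#A + #B - 2) * (#A * p + #B * q) ≤ ((#A : ℝ) + #B - 1) * v := by
    intro r hr0 hr1
    have hx' : 0 < x / r := by positivity
    have hy' : 0 < y / r := by positivity
    have hxx : x ≤ x / r := by rw [le_div_iff₀ hr0]; nlinarith
    have hyy : y ≤ y / r := by rw [le_div_iff₀ hr0]; nlinarith
    have hxr : x / (x / r) = r := by field_simp
    have hyr : y / (y / r) = r := by field_simp
    have hsc : ∀ (U W : Finset (Fin k)), val (lev U (x / r)) (lev W (y / r)) =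
        r⁻¹ * val (lev U x) (lev W y) := by
      intro U W
      rw [← val_lev_smul U W x y r⁻¹ (by positivity)]
      congr 2 <;> ring
    have hvn : ∀ (U W : Finset (Fin k)) (s t : ℝ), 0 ≤ s → 0 ≤ t → 0 ≤ val (lev U s) (lev W t) :=
      fun U W s t hs ht => val_nonneg hk _ _ (lev_nonneg U s hs) (lev_nonneg W t ht)
    have h1r : 0 ≤ 1 - r := by linarith
    have hone : 1 - r ≠ 0 := by
      intro h0
      linarith
    -- raise the first group
    have s1 := raise_left hk A x (x / r) hx.le hx' hxx (lev B y) (lev_nonneg B y hy.le)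
    rw [hxr] at s1
    have s2 := sum_powerset_ge A (fun U => r ^ #U * (1 - r) ^ (#A - #U) *
      val (lev U (x / r)) (lev B y)) (fun U _ => mul_nonneg (mul_nonneg (pow_nonneg hr0.le _)
        (pow_nonneg h1r _)) (hvn U B _ _ hx'.le hy.le))
    -- raise the second group
    have s3 : ∀ U : Finset (Fin k), r ^ #B * val (lev U (x / r)) (lev B (y / r)) +
        ∑ j ∈ B, r ^ (#B - 1) * (1 - r) * val (lev U (x / r)) (lev (B.erase j) (y / r)) ≤
        val (lev U (x / r)) (lev B y) := by
      intro U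
      have t1 := raise_right hk B y (y / r) hy.le hy' hyy (lev U (x / r)) (lev_nonneg U _ hx'.le)
      rw [hyr] at t1
      have t2 := sum_powerset_ge B (fun W => r ^ #W * (1 - r) ^ (#B - #W) *
        val (lev U (x / r)) (lev W (y / r))) (fun W _ => mul_nonneg (mul_nonneg
          (pow_nonneg hr0.le _) (pow_nonneg h1r _)) (hvn U W _ _ hx'.le hy'.le))
      refine le_trans (le_of_eq ?_) (le_trans t2 t1)
      rw [Nat.sub_self, pow_zero, mul_one]
      congr 1
      refine Finset.sum_congr rfl fun j hj => ?_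
      rw [card_erase_of_mem hj]
      have : #B - (#B - 1) = 1 := by omega
      rw [this, pow_one]
    have s4 : r ^ #A * val (lev A (x / r)) (lev B y) + ∑ i ∈ A, r ^ (#A - 1) * (1 - r) *
        val (lev (A.erase i) (x / r)) (lev B y) ≤ v := by
      refine le_trans (le_of_eq ?_) (le_trans s2 s1)
      rw [Nat.sub_self, pow_zero, mul_one]
      congr 1
      refine Finset.sum_congr rfl fun i hi => ?_
      rw [card_erase_of_mem hi]
      have : #A - (#A - 1) = 1 := by omega
      rw [this, pow_one]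
    -- combine
    have s5 : r ^ #B * (r⁻¹ * v) + #B * (r ^ (#B - 1) * (1 - r) * (r⁻¹ * q)) ≤
        val (lev A (x / r)) (lev B y) := by
      refine le_trans ?_ (s3 A)
      rw [hsc]
      refine add_le_add le_rfl ?_
      have : (#B : ℝ) * (r ^ (#B - 1) * (1 - r) * (r⁻¹ * q)) =
          ∑ j ∈ B, r ^ (#B - 1) * (1 - r) * (r⁻¹ * q) := by
        rw [Finset.sum_const, nsmul_eq_mul]
      rw [this]
      refine Finset.sum_le_sum fun j hj => ?_
      rw [hsc]
      refine mul_le_mul_of_nonneg_left ?_ (mul_nonneg (pow_nonneg hr0.le _) h1r)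
      exact mul_le_mul_of_nonneg_left (hq j hj) (by positivity)
    have s6 : ∀ i ∈ A, r ^ #B * (r⁻¹ * p) ≤ val (lev (A.erase i) (x / r)) (lev B y) := by
      intro i hi
      refine le_trans ?_ (s3 (A.erase i))
      rw [hsc]
      have : 0 ≤ ∑ j ∈ B, r ^ (#B - 1) * (1 - r) *
          val (lev (A.erase i) (x / r)) (lev (B.erase j) (y / r)) :=
        Finset.sum_nonneg fun j _ => mul_nonneg (mul_nonneg (pow_nonneg hr0.le _) h1r)
          (hvn _ _ _ _ hx'.le hy'.le)
      have h6 : r ^ #B * (r⁻¹ * p) ≤ r ^ #B * (r⁻¹ * val (lev (A.erase i) x) (lev B y)) :=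
        mul_le_mul_of_nonneg_left (mul_le_mul_of_nonneg_left (hp i hi) (by positivity))
          (by positivity)
      linarith
    have s7 : (#A : ℝ) * (r ^ (#A - 1) * (1 - r) * (r ^ #B * (r⁻¹ * p))) ≤
        ∑ i ∈ A, r ^ (#A - 1) * (1 - r) * val (lev (A.erase i) (x / r)) (lev B y) := by
      have : (#A : ℝ) * (r ^ (#A - 1) * (1 - r) * (r ^ #B * (r⁻¹ * p))) =
          ∑ i ∈ A, r ^ (#A - 1) * (1 - r) * (r ^ #B * (r⁻¹ * p)) := by
        rw [Finset.sum_const, nsmul_eq_mul]
      rw [this]
      refine Finset.sum_le_sum fun i hi => ?_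
      exact mul_le_mul_of_nonneg_left (s6 i hi) (mul_nonneg (pow_nonneg hr0.le _) h1r)
    have s8 : r ^ #A * (r ^ #B * (r⁻¹ * v) + #B * (r ^ (#B - 1) * (1 - r) * (r⁻¹ * q))) ≤
        r ^ #A * val (lev A (x / r)) (lev B y) :=
      mul_le_mul_of_nonneg_left s5 (by positivity)
    obtain ⟨a, ha⟩ : ∃ a, #A = a + 1 := ⟨#A - 1, by omega⟩
    obtain ⟨b, hb⟩ : ∃ b, #B = b + 1 := ⟨#B - 1, by omega⟩
    rw [ha] at s4
    rw [ha, hb] at s7 s8 ⊢
    rw [Nat.add_sub_cancel] at s4 s7 s8
    have e1 : a + 1 + (b + 1) - 2 = a + b := by omega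
    rw [e1]
    have hgeom : v * (1 - r ^ (a + b + 1)) ≤ v * (((a : ℝ) + b + 1) * (1 - r)) := by
      apply mul_le_mul_of_nonneg_left _ hv0
      have hB := one_add_mul_le_pow (a := r - 1) (by linarith) (a + b + 1)
      rw [add_sub_cancel] at hB
      push_cast at hB
      linarith
    have hmain : (1 - r) * (r ^ (a + b) * (((a + 1 : ℕ) : ℝ) * p + ((b + 1 : ℕ) : ℝ) * q)) ≤
        v * (1 - r ^ (a + b + 1)) := by
      have e2 : r ^ (a + 1) * (r ^ (b + 1) * (r⁻¹ * v) + ((b + 1 : ℕ) : ℝ) *
          (r ^ b * (1 - r) * (r⁻¹ * q))) = r ^ (a + b + 1) * v +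
          ((b + 1 : ℕ) : ℝ) * (r ^ (a + b) * (1 - r) * q) := by
        rw [pow_succ, pow_succ r b, pow_succ r (a + b), pow_add]
        field_simp
      have e3 : ((a + 1 : ℕ) : ℝ) * (r ^ a * (1 - r) * (r ^ (b + 1) * (r⁻¹ * p))) =
          ((a + 1 : ℕ) : ℝ) * (r ^ (a + b) * (1 - r) * p) := by
        rw [pow_succ r b, pow_add]
        field_simp
      rw [e2] at s8
      rw [e3] at s7
      linarith
    have h1r' : 0 < 1 - r := by linarith
    have hfin : (1 - r) * (r ^ (a + b) * (((a + 1 : ℕ) : ℝ) * p + ((b + 1 : ℕ) : ℝ) * q)) ≤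
        (1 - r) * ((((a + 1 : ℕ) : ℝ) + ((b + 1 : ℕ) : ℝ) - 1) * v) := by
      refine le_trans hmain (le_trans hgeom (le_of_eq ?_))
      push_cast
      ring
    exact le_of_mul_le_mul_left hfin h1r'
  -- let `r` tend to `1`
  have hlim : Filter.Tendsto (fun r : ℝ => r ^ (#A + #B - 2) * (#A * p + #B * q))
      (nhdsWithin 1 (Set.Iio 1)) (nhds (1 ^ (#A + #B - 2) * (#A * p + #B * q))) := by
    apply Filter.Tendsto.mono_left _ nhdsWithin_le_nhds
    exact ((continuous_pow _).mul continuous_const).tendsto 1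
  rw [one_pow, one_mul] at hlim
  refine le_of_tendsto hlim ?_
  have h0 : Set.Ioo (0 : ℝ) 1 ∈ nhdsWithin (1 : ℝ) (Set.Iio 1) :=
    Ioo_mem_nhdsLT zero_lt_one
  filter_upwards [h0] with r hr
  exact hstep r hr.1 hr.2

/-- **The value at pure states of equal levels** is at least `Phi2`. -/
theorem Phi2_le_val {d : ℕ → ℝ} {P : ℕ → ℝ[X]} (h : IsLevels d P) (hk : 0 < k) :
    ∀ n : ℕ, ∀ A B : Finset (Fin k), #A + #B ≤ n → ∀ x y : ℝ, 0 < x → 0 < y →
      Phi2 (ecoef P) (lv d) #A #B x y ≤ val (lev A x) (lev B y) := by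
  intro n
  induction n with
  | zero =>
    intro A B hAB x y hx hy
    rw [h.Phi2_small #A #B (by omega) (by omega)]
    exact val_nonneg hk _ _ (lev_nonneg A x hx.le) (lev_nonneg B y hy.le)
  | succ n ih =>
    intro A B hAB x y hx hy
    rcases Nat.lt_or_ge #A 2 with hA | hA
    · rcases Nat.lt_or_ge #B 2 with hB | hB
      · rw [h.Phi2_small #A #B (by omega) (by omega)]
        exact val_nonneg hk _ _ (lev_nonneg A x hx.le) (lev_nonneg B y hy.le)
      · rw [Phi2_comm, h.Phi2_left #B #A hB (by omega) y x hy]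
        exact stop_lev_right hk A B x y hx.le hy.le
    rcases Nat.lt_or_ge #B 2 with hB | hB
    · rw [h.Phi2_left #A #B hA (by omega) x y hx]
      exact stop_lev_left hk A B x y hx.le hy.le
    have hcA := h.lv_pos #A hA
    have hcB := h.lv_pos #B hB
    -- critical states
    have hcrit : ∀ x y : ℝ, 0 < x → 0 < y → lv d #A * x = lv d #B * y →
        Phi2 (ecoef P) (lv d) #A #B x y ≤ val (lev A x) (lev B y) := by
      intro x y hx hy hxy
      have hid := Phi2_crit (ecoef P) (lv d) h.ecoef_zero h.ecoef_one h.lv_mono #A #B x y hx hy hcA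
        (h.Tn_lv #A hA) hxy
      have hmove := crit_move hk A B x y hx hy (by omega) (by omega)
        (Phi2 (ecoef P) (lv d) (#A - 1) #B x y) (Phi2 (ecoef P) (lv d) #A (#B - 1) x y)
        (by intro i hi
            have := ih (A.erase i) B (by rw [card_erase_of_mem hi]; omega) x y hx hy
            rwa [card_erase_of_mem hi] at this)
        (by intro j hj
            have := ih A (B.erase j) (by rw [card_erase_of_mem hj]; omega) x y hx hy
            rwa [card_erase_of_mem hj] at this)
      rw [← hid] at hmove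
      have hA' : (2 : ℝ) ≤ #A := by exact_mod_cast hA
      have hB' : (2 : ℝ) ≤ #B := by exact_mod_cast hB
      exact le_of_mul_le_mul_left hmove (by linarith)
    rcases lt_trichotomy (lv d #A * x) (lv d #B * y) with hlt | heq | hgt
    · -- raise the first group
      set x' : ℝ := lv d #B * y / lv d #A with hx'
      have hx'0 : 0 < x' := by positivity
      have hcx : lv d #A * x' = lv d #B * y := by rw [hx']; field_simp
      have hxx : x ≤ x' := by
        rw [hx', le_div_iff₀ hcA]
        linarith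
      have h1 := raise_left hk A x x' hx.le hx'0 hxx (lev B y) (lev_nonneg B y hy.le)
      refine le_trans ?_ h1
      have hr1 : x / x' ≤ 1 := div_le_one_of_le₀ hxx hx'0.le
      have h2 := Phi2_thin (ecoef P) (lv d) h.lv_mono #A #B x' y (x / x') hx'0.le hcA.le hr1 hcx.le
      rw [div_mul_cancel₀ _ hx'0.ne'] at h2
      rw [← h2, ← sum_powerset_card2 A (x / x') (fun i => Phi2 (ecoef P) (lv d) i #B x' y)]
      refine Finset.sum_le_sum fun U hU => ?_
      have hUA : U ⊆ A := mem_powerset.1 hU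
      refine mul_le_mul_of_nonneg_left ?_ (mul_nonneg (pow_nonneg (by positivity) _)
        (pow_nonneg (by linarith) _))
      rcases eq_or_ssubset_of_subset hUA with hU' | hU'
      · rw [hU']
        exact hcrit x' y hx'0 hy hcx
      · have := card_lt_card hU'
        exact ih U B (by omega) x' y hx'0 hy
    · exact hcrit x y hx hy heq
    · -- raise the second group
      set y' : ℝ := lv d #A * x / lv d #B with hy'
      have hy'0 : 0 < y' := by positivity
      have hcy : lv d #A * x = lv d #B * y' := by rw [hy']; field_simp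
      have hyy : y ≤ y' := by
        rw [hy', le_div_iff₀ hcB]
        linarith
      have h1 := raise_right hk B y y' hy.le hy'0 hyy (lev A x) (lev_nonneg A x hx.le)
      refine le_trans ?_ h1
      have hr1 : y / y' ≤ 1 := div_le_one_of_le₀ hyy hy'0.le
      have h2 := Phi2_thin (ecoef P) (lv d) h.lv_mono #B #A y' x (y / y') hy'0.le hcB.le hr1
        hcy.ge
      rw [div_mul_cancel₀ _ hy'0.ne'] at h2
      rw [Phi2_comm, ← h2, ← sum_powerset_card2 B (y / y') (fun i => Phi2 (ecoef P) (lv d) i #A y' x)]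
      refine Finset.sum_le_sum fun U hU => ?_
      have hUB : U ⊆ B := mem_powerset.1 hU
      refine mul_le_mul_of_nonneg_left ?_ (mul_nonneg (pow_nonneg (by positivity) _)
        (pow_nonneg (by linarith) _))
      rw [Phi2_comm]
      rcases eq_or_ssubset_of_subset hUB with hU' | hU'
      · rw [hU']
        exact hcrit x y' hx hy'0 hcy
      · have := card_lt_card hU'
        exact ih A U (by omega) x y' hx hy'0

end Pool.Agent.Helper92.Crypto
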