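import Mathlib

/-!
# Integrals against `dw / w ^ 2`
-/

namespace Pool.Agent.Helper92.Crypto

open Finset MeasureTheory Filter Topology

/-- the basic integral -/
theorem int_base (x : ℝ) (hx : 0 < x) :
    IntegrableOn (fun w : ℝ => (1 - Real.exp (-(w * x)) * (1 + w * x)) / w ^ 2) (Set.Ioi 0) ∧
    ∫ w in Set.Ioi (0 : ℝ), (1 - Real.exp (-(w * x)) * (1 + w * x)) / w ^ 2 = x := by
  set h : ℝ → ℝ := fun w => -Real.exp (-(w * x)) with hh
  have hdh : ∀ w, HasDerivAt h (x * Real.exp (-(w * x))) w := by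
    intro w
    have h1 : HasDerivAt (fun w : ℝ => -(w * x)) (-(1 * x)) w := ((hasDerivAt_id w).mul_const x).neg
    have h2 := (h1.exp).neg
    refine h2.congr_deriv ?_
    ring
  set g : ℝ → ℝ := fun w => -dslope h 0 w with hg
  have hg0 : g 0 = -x := by
    simp only [hg, dslope_same, (hdh 0).deriv]
    simp
  have hcont : ContinuousWithinAt g (Set.Ici 0) 0 :=
    ((continuousAt_dslope_same.2 (hdh 0).differentiableAt).neg).continuousWithinAt
  have hgw : ∀ w, w ≠ 0 → g w = -((1 - Real.exp (-(w * x))) / w) := by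
    intro w hw
    simp only [hg, dslope_of_ne _ hw, slope_def_field, hh]
    simp
    ring
  have hderiv : ∀ w ∈ Set.Ioi (0 : ℝ),
      HasDerivAt g ((1 - Real.exp (-(w * x)) * (1 + w * x)) / w ^ 2) w := by
    intro w hw
    have hw0 : w ≠ 0 := ne_of_gt hw
    have h1 : HasDerivAt (fun w : ℝ => -((1 + h w) / w))
        (-(((x * Real.exp (-(w * x))) * w - (1 + h w) * 1) / w ^ 2)) w :=
      (((hdh w).const_add 1).div (hasDerivAt_id w) hw0).neg
    have h2 : g =ᶠ[𝓝 w] fun w : ℝ => -((1 + h w) / w) := by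
      filter_upwards [isOpen_ne.mem_nhds hw0] with u hu
      rw [hgw u hu]
      rfl
    refine (h1.congr_of_eventuallyEq h2).congr_deriv ?_
    simp only [hh]
    field_simp
    ring
  have hpos : ∀ w ∈ Set.Ioi (0 : ℝ), 0 ≤ (1 - Real.exp (-(w * x)) * (1 + w * x)) / w ^ 2 := by
    intro w hw
    have hw0 : (0 : ℝ) < w := hw
    refine div_nonneg ?_ (by positivity)
    have h1 := Real.add_one_le_exp (w * x)
    have h2 : Real.exp (-(w * x)) * (1 + w * x) ≤ Real.exp (-(w * x)) * Real.exp (w * x) :=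
      mul_le_mul_of_nonneg_left (by linarith) (Real.exp_pos _).le
    rw [← Real.exp_add, neg_add_cancel, Real.exp_zero] at h2
    linarith
  have hlim : Tendsto g atTop (𝓝 0) := by
    have h1 : Tendsto (fun w : ℝ => (-w⁻¹ : ℝ)) atTop (𝓝 0) := by
      have := (tendsto_inv_atTop_zero (𝕜 := ℝ)).neg
      rwa [neg_zero] at this
    refine tendsto_of_tendsto_of_tendsto_of_le_of_le' h1 tendsto_const_nhds ?_ ?_
    · filter_upwards [eventually_gt_atTop (0 : ℝ)] with w hw
      rw [hgw w hw.ne', inv_eq_one_div]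
      apply neg_le_neg
      apply div_le_div_of_nonneg_right _ hw.le
      linarith [Real.exp_pos (-(w * x))]
    · filter_upwards [eventually_gt_atTop (0 : ℝ)] with w hw
      rw [hgw w hw.ne']
      apply neg_nonpos_of_nonneg
      apply div_nonneg _ hw.le
      have : Real.exp (-(w * x)) ≤ 1 := by
        rw [Real.exp_le_one_iff]
        nlinarith
      linarith
  refine ⟨integrableOn_Ioi_deriv_of_nonneg hcont hderiv hpos hlim, ?_⟩
  rw [integral_Ioi_of_hasDerivAt_of_nonneg hcont hderiv hpos hlim, hg0]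
  ring

/-- the Gamma integrals -/
theorem int_term (x : ℝ) (hx : 0 < x) (n : ℕ) :
    IntegrableOn (fun w : ℝ => Real.exp (-(w * x)) * ((w * x) ^ (n + 2) / (n + 2).factorial) /
      w ^ 2) (Set.Ioi 0) ∧
    ∫ w in Set.Ioi (0 : ℝ), Real.exp (-(w * x)) * ((w * x) ^ (n + 2) / (n + 2).factorial) / w ^ 2 =
      x / ((n + 2) * (n + 1)) := by
  have hk : (0 : ℝ) < (n : ℝ) + 1 := by positivity
  have key := Real.integral_rpow_mul_exp_neg_mul_Ioi hk hx
  have hint : IntegrableOn (fun w : ℝ => w ^ (((n : ℝ) + 1) - 1) * Real.exp (-(x * w)))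
      (Set.Ioi 0) := .of_integral_ne_zero (by rw [key]; positivity)
  have heq : ∀ w ∈ Set.Ioi (0 : ℝ),
      x ^ (n + 2) / (n + 2).factorial * (w ^ (((n : ℝ) + 1) - 1) * Real.exp (-(x * w))) =
      Real.exp (-(w * x)) * ((w * x) ^ (n + 2) / (n + 2).factorial) / w ^ 2 := by
    intro w hw
    have hw0 : (0 : ℝ) < w := hw
    rw [add_sub_cancel_right, Real.rpow_natCast, mul_comm x w, mul_pow, pow_add w n 2]
    field_simp
  constructor
  · exact IntegrableOn.congr_fun (hint.const_mul _) heq measurableSet_Ioi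
  · rw [← setIntegral_congr_fun measurableSet_Ioi heq, integral_const_mul, key,
      Real.Gamma_nat_eq_factorial, one_div, Real.inv_rpow hx.le]
    have h1 : x ^ ((n : ℝ) + 1) = x ^ (n + 1) := by
      rw [← Real.rpow_natCast]
      norm_cast
    rw [h1, Nat.factorial_succ (n + 1), Nat.factorial_succ n]
    push_cast
    have h2 : (n.factorial : ℝ) ≠ 0 := by positivity
    have h3 : (n : ℝ) + 1 + 1 ≠ 0 := by positivity
    have h4 : (n : ℝ) + 1 ≠ 0 := by positivity
    have h5 : (n : ℝ) + 2 ≠ 0 := by positivity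
    field_simp
    ring

/-- **Integral of a mixture of Poisson probabilities.** -/
theorem int_poisson (θ : ℕ → ℝ) (h0 : θ 0 = 1) (h1 : θ 1 = 1) (R : ℕ) (x : ℝ) (hx : 0 < x) :
    IntegrableOn (fun w : ℝ => (1 - Real.exp (-(w * x)) *
      ∑ j ∈ range (R + 2), (w * x) ^ j / j.factorial * θ j) / w ^ 2) (Set.Ioi 0) ∧
    ∫ w in Set.Ioi (0 : ℝ), (1 - Real.exp (-(w * x)) *
      ∑ j ∈ range (R + 2), (w * x) ^ j / j.factorial * θ j) / w ^ 2 =
      x * (1 - ∑ j ∈ Finset.Icc 2 (R + 1), θ j / (j * (j - 1))) := by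
  have heq : ∀ w : ℝ, (1 - Real.exp (-(w * x)) *
      ∑ j ∈ range (R + 2), (w * x) ^ j / j.factorial * θ j) / w ^ 2 =
      (1 - Real.exp (-(w * x)) * (1 + w * x)) / w ^ 2 - ∑ n ∈ range R, θ (n + 2) *
        (Real.exp (-(w * x)) * ((w * x) ^ (n + 2) / (n + 2).factorial) / w ^ 2) := by
    intro w
    rw [Finset.sum_range_succ' _ (R + 1), Finset.sum_range_succ' _ R, h0]
    have : ∑ n ∈ range R, θ (n + 2) *
        (Real.exp (-(w * x)) * ((w * x) ^ (n + 2) / (n + 2).factorial) / w ^ 2) =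
        Real.exp (-(w * x)) * (∑ k ∈ range R,
          (w * x) ^ (k + 1 + 1) / (k + 1 + 1).factorial * θ (k + 1 + 1)) / w ^ 2 := by
      rw [mul_sum, sum_div]
      refine Finset.sum_congr rfl fun n _ => ?_
      ring
    rw [this]
    simp only [zero_add, h1, pow_zero, pow_one, Nat.factorial_zero, Nat.factorial_one, Nat.cast_one]
    ring
  have hint : ∀ n ∈ range R, IntegrableOn (fun w : ℝ => θ (n + 2) *
      (Real.exp (-(w * x)) * ((w * x) ^ (n + 2) / (n + 2).factorial) / w ^ 2)) (Set.Ioi 0) :=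
    fun n _ => ((int_term x hx n).1).const_mul _
  have hfun : (fun w : ℝ => (1 - Real.exp (-(w * x)) *
      ∑ j ∈ range (R + 2), (w * x) ^ j / j.factorial * θ j) / w ^ 2) =
      fun w => (1 - Real.exp (-(w * x)) * (1 + w * x)) / w ^ 2 - ∑ n ∈ range R, θ (n + 2) *
        (Real.exp (-(w * x)) * ((w * x) ^ (n + 2) / (n + 2).factorial) / w ^ 2) := funext heq
  rw [hfun]
  constructor
  · exact (int_base x hx).1.sub (integrable_finsetSum _ hint)
  · rw [integral_sub (int_base x hx).1 (integrable_finsetSum _ hint), (int_base x hx).2,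
      integral_finsetSum _ hint]
    simp only [integral_const_mul]
    have h2 : ∑ j ∈ Finset.Icc 2 (R + 1), θ j / (j * (j - 1)) =
        ∑ n ∈ range R, θ (n + 2) / ((n + 2) * (n + 1)) := by
      have h3 := Finset.sum_Ico_add' (fun j : ℕ => θ j / ((j : ℝ) * (j - 1))) 0 R 2
      have h4 : Finset.Icc 2 (R + 1) = Finset.Ico (0 + 2) (R + 2) := by
        ext j
        rw [Finset.mem_Icc, Finset.mem_Ico]
        omega
      rw [h4, ← h3, Finset.range_eq_Ico]
      refine Finset.sum_congr rfl fun n _ => ?_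
      push_cast
      congr 2
      ring
    rw [h2, mul_sub, mul_one, mul_sum]
    congr 1
    refine Finset.sum_congr rfl fun n _ => ?_
    rw [(int_term x hx n).2]
    ring

end Pool.Agent.Helper92.Crypto
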