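import Mathlib
import Pool.Agent.Helper92.CryptoExact
import Pool.Agent.Helper92.CryptoFinal

/-!
# Lower bound for many players by the optimal strategy
-/

namespace Pool.Agent.Helper92.Crypto

open Polynomial Finset MeasureTheory
open scoped ENNReal

variable {k : ℕ}

/-- survival probability of `n` suspects with respect to the levels up to `r` -/
noncomputable def tht (c : ℕ → ℝ) (r n : ℕ) (z : ℝ) : ℝ :=
  ∑ j ∈ range (n + 1), (n.choose j : ℝ) * (z ^ j * (1 - z) ^ (n - j) * om c r j)

theorem tht_bounds (c : ℕ → ℝ) (hc0 : ∀ l, 0 ≤ c l) (hc : Monotone c) (r n : ℕ) (z : ℝ)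
    (hz : 0 ≤ z) (hz1 : z ≤ 1) : 0 ≤ tht c r n z ∧ tht c r n z ≤ 1 := by
  have hb := om_bounds c hc0 hc r
  unfold tht
  constructor
  · exact Finset.sum_nonneg fun j _ => mul_nonneg (Nat.cast_nonneg _) (mul_nonneg
      (mul_nonneg (pow_nonneg hz _) (pow_nonneg (by linarith) _)) (hb j).1)
  · refine le_trans (Finset.sum_le_sum fun j _ => ?_) (le_of_eq (sum_binom n z))
    refine mul_le_mul_of_nonneg_left ?_ (Nat.cast_nonneg _)
    exact mul_le_of_le_one_right (mul_nonneg (pow_nonneg hz _) (pow_nonneg (by linarith) _))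
      (hb j).2

/-- `J` at a pure state of equal levels -/
theorem J_eqlev2 (c : ℕ → ℝ) (hc0 : ∀ l, 0 ≤ c l) (hc : Monotone c) (h1 : c 1 = 0)
    (hpos : ∀ l, 2 ≤ l → 0 < c l) (w : ℝ) (hw : 0 < w) (l : ℕ) (hl : 2 ≤ l)
    (A B : Finset (Fin k)) (hAB : Disjoint A B) (x : ℝ) (hx : 0 < x) (hwx : w * c l * x ≤ 1) :
    J c l w (vst A B x x) =
      ENNReal.ofReal (tht c l #A (w * c l * x) * tht c l #B (w * c l * x)) := by
  have hcl : 0 < c l := hpos l hl
  have hL : 0 < 1 / (w * c l) := by positivity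
  have hxL : x ≤ 1 / (w * c l) := by
    rw [le_div_iff₀ (by positivity)]
    linarith
  have hrat : x / (1 / (w * c l)) = w * c l * x := by field_simp
  have hlev : w * c l * (1 / (w * c l)) ≤ 1 := by apply le_of_eq; field_simp
  set z := w * c l * x with hz
  have hz0 : 0 ≤ z := by positivity
  have hb := om_bounds c hc0 hc l
  rw [J_raise_left c hc0 hc l w hw.le A B hAB x (1 / (w * c l)) x hx.le hxL hL hx.le hlev, hrat]
  have h2 : ∀ U ∈ A.powerset, ENNReal.ofReal (z ^ #U * (1 - z) ^ (#A - #U)) *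
      J c l w (vst U B (1 / (w * c l)) x) =
      ENNReal.ofReal (z ^ #U * (1 - z) ^ (#A - #U) * om c l #U * tht c l #B z) := by
    intro U hU
    have hUA : U ⊆ A := mem_powerset.mp hU
    have hUB : Disjoint U B := Finset.disjoint_of_subset_left hUA hAB
    rw [J_raise_right c hc0 hc l w hw.le U B hUB _ x (1 / (w * c l)) hx.le hxL hL hL.le hlev, hrat]
    have h3 : ∀ U' ∈ B.powerset, ENNReal.ofReal (z ^ #U' * (1 - z) ^ (#B - #U')) *
        J c l w (vst U U' (1 / (w * c l)) (1 / (w * c l))) =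
        ENNReal.ofReal (z ^ #U' * (1 - z) ^ (#B - #U') * om c l #U' * om c l #U) := by
      intro U' hU'
      have hUB' : U' ⊆ B := mem_powerset.mp hU'
      rw [J_vst c hc0 hc h1 hpos w hw l hl U U' (Finset.disjoint_of_subset_right hUB' hUB),
        ← ENNReal.ofReal_mul (mul_nonneg (pow_nonneg hz0 _) (pow_nonneg (by linarith) _))]
      congr 1
      ring
    rw [Finset.sum_congr rfl h3, ← ENNReal.ofReal_sum_of_nonneg, ← Finset.sum_mul,
      sum_powerset_card2 B z (om c l), ← ENNReal.ofReal_mul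
        (mul_nonneg (pow_nonneg hz0 _) (pow_nonneg (by linarith) _))]
    · congr 1
      unfold tht
      ring
    · intro U' _
      exact mul_nonneg (mul_nonneg (mul_nonneg (pow_nonneg hz0 _) (pow_nonneg (by linarith) _))
        (hb _).1) (hb _).1
  rw [Finset.sum_congr rfl h2, ← ENNReal.ofReal_sum_of_nonneg, ← Finset.sum_mul,
    sum_powerset_card2 A z (om c l)]
  · rfl
  · intro U _
    exact mul_nonneg (mul_nonneg (mul_nonneg (pow_nonneg hz0 _) (pow_nonneg (by linarith) _))
      (hb _).1) (tht_bounds c hc0 hc l _ z hz0 hwx).1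

/-- the initial state as a mixture of pure states -/
theorem J_init_split (c : ℕ → ℝ) (hc0 : ∀ l, 0 ≤ c l) (hc : Monotone c) (h1 : c 1 = 0)
    (hpos : ∀ l, 2 ≤ l → 0 < c l) (w : ℝ) (hw : 0 < w) (r : ℕ) (hr : 2 ≤ r)
    (hwr : 2 * w * c r ≤ 1) :
    ∑ T ∈ (univ : Finset (Fin k)).powerset, (1 / 2 : ℝ) ^ k *
      (tht c r #T (2 * w * c r) * tht c r (k - #T) (2 * w * c r)) =
      ∑ N ∈ range (k + 1), (k.choose N : ℝ) *
        ((2 * w * c r) ^ N * (1 - 2 * w * c r) ^ (k - N) * th c r N) := by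
  have hz0 : 0 ≤ 2 * w * c r := mul_nonneg (by linarith) (hc0 r)
  have hJ := J_init (k := k) c hc0 hc h1 hpos w hw r hr hwr
  have hwc : w * c r * 2 = 2 * w * c r := by ring
  rw [J_split c hc0 hc r w hw.le (1 / 2) (by norm_num) (by norm_num) (vst univ ∅ 2 0)
    (vst ∅ univ 0 2) (vst_nonneg _ _ _ _ (by norm_num) le_rfl)
    (vst_nonneg _ _ _ _ le_rfl (by norm_num)) univ (fun _ _ => 1) (fun _ _ => zero_le_one)
    ?_ ?_ ?_] at hJ
  · have h3 : ∀ T ∈ (univ : Finset (Fin k)).powerset,
        ENNReal.ofReal ((1 / 2 : ℝ) ^ #T * (1 - 1 / 2) ^ (#(univ : Finset (Fin k)) - #T)) *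
        J c r w (fun i => if i ∈ T then vst univ ∅ 2 0 i
          else if i ∈ (univ : Finset (Fin k)) then vst ∅ univ 0 2 i else fun _ => 1) =
        ENNReal.ofReal ((1 / 2 : ℝ) ^ k * (tht c r #T (2 * w * c r) *
          tht c r (k - #T) (2 * w * c r))) := by
      intro T _
      have hTc : #T ≤ k := by
        have := card_le_univ T
        simpa using this
      have e : (fun i => if i ∈ T then vst univ ∅ 2 0 i
          else if i ∈ (univ : Finset (Fin k)) then vst ∅ univ 0 2 i else fun _ => 1) =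
          vst T Tᶜ 2 2 := by
        funext i o
        by_cases h5 : i ∈ T
        · match o with
          | none => simp [h5, vst]
          | some false => simp [h5, vst]
          | some true => simp [h5, vst]
        · match o with
          | none => simp [h5, vst]
          | some false => simp [h5, vst]
          | some true => simp [h5, vst]
      have e2 : ((1 / 2 : ℝ) ^ #T * (1 - 1 / 2) ^ (#(univ : Finset (Fin k)) - #T)) =
          (1 / 2) ^ k := by
        have : (1 - 1 / 2 : ℝ) = 1 / 2 := by norm_num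
        rw [this, ← pow_add, card_univ, Fintype.card_fin]
        congr 1
        omega
      rw [e, e2, J_eqlev2 c hc0 hc h1 hpos w hw r hr T Tᶜ disjoint_compl_right 2 (by norm_num)
        (by linarith), ← ENNReal.ofReal_mul (by positivity), hwc, card_compl, Fintype.card_fin]
    rw [Finset.sum_congr rfl h3, ← ENNReal.ofReal_sum_of_nonneg] at hJ
    · refine (ENNReal.ofReal_eq_ofReal_iff ?_ ?_).1 hJ
      · refine Finset.sum_nonneg fun T _ => mul_nonneg (by positivity) (mul_nonneg
          (tht_bounds c hc0 hc r _ _ hz0 hwr).1 (tht_bounds c hc0 hc r _ _ hz0 hwr).1)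
      · exact Finset.sum_nonneg fun j _ => mul_nonneg (Nat.cast_nonneg _) (mul_nonneg
          (mul_nonneg (pow_nonneg hz0 _) (pow_nonneg (by linarith) _))
          (th_bounds c hc0 hc r j).1)
    · intro T _
      exact mul_nonneg (by positivity) (mul_nonneg
          (tht_bounds c hc0 hc r _ _ hz0 hwr).1 (tht_bounds c hc0 hc r _ _ hz0 hwr).1)
  · intro i _
    refine ⟨fun o => mul_nonneg (by norm_num) (vst_nonneg _ _ _ _ (by norm_num) le_rfl i o), ?_⟩
    simp only [vst, mem_univ, if_true, notMem_empty, if_false, mul_zero, add_zero, mul_one]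
    linarith
  · intro i _
    refine ⟨fun o => mul_nonneg (by norm_num) (vst_nonneg _ _ _ _ le_rfl (by norm_num) i o), ?_⟩
    simp only [vst, mem_univ, if_true, notMem_empty, if_false, mul_zero, zero_add, mul_one]
    linarith
  · intro i _ o
    match o with
    | none => simp [vst]
    | some false => simp [vst]
    | some true => simp [vst]; norm_num

namespace IsLevels

variable {d : ℕ → ℝ} {P : ℕ → ℝ[X]}

/-- fewer levels give a larger survival probability -/
theorem Tn_le_tht (h : IsLevels d P) (A B : Finset (Fin k)) (hAB : Disjoint A B) (r : ℕ)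
    (hr : 2 ≤ r) (R : ℕ) (hR : r ≤ R) (hA : #A ≤ R) (hB : #B ≤ R) (w : ℝ) (hw : 0 < w)
    (hwR : w * lv d R * 2 ≤ 1) :
    Tn (ecoef P) #A (w * 2) * Tn (ecoef P) #B (w * 2) ≤
      tht (lv d) r #A (w * lv d r * 2) * tht (lv d) r #B (w * lv d r * 2) := by
  have hR2 : 2 ≤ R := le_trans hr hR
  have hlr : lv d r ≤ lv d R := h.lv_mono hR
  have hwr : w * lv d r * 2 ≤ 1 := by nlinarith
  have h1 := J_eqlev2 (lv d) h.lv_nonneg h.lv_mono h.lv_one h.lv_pos w hw R hR2 A B hAB 2
    (by norm_num) hwR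
  have h2 := J_eqlev2 (lv d) h.lv_nonneg h.lv_mono h.lv_one h.lv_pos w hw r hr A B hAB 2
    (by norm_num) hwr
  have h3 := J_mono_r (lv d) r R hR w (vst A B 2 2)
  rw [h1, h2] at h3
  have h0 : 0 ≤ w * lv d r * 2 := mul_nonneg (mul_nonneg hw.le (h.lv_nonneg r)) (by norm_num)
  have h4 := (ENNReal.ofReal_le_ofReal_iff (mul_nonneg
    (tht_bounds (lv d) h.lv_nonneg h.lv_mono r _ _ h0 hwr).1
    (tht_bounds (lv d) h.lv_nonneg h.lv_mono r _ _ h0 hwr).1)).1 h3
  have h5 : ∀ n ≤ R, tht (lv d) R n (w * lv d R * 2) = Tn (ecoef P) n (w * 2) := by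
    intro n hn
    unfold tht
    have e : w * lv d R * 2 = w * 2 * lv d R := by ring
    rw [e]
    exact h.Tn_eq_om n R hR2 hn (w * 2)
  rw [h5 _ hA, h5 _ hB] at h4
  exact h4

/-- `Phi2` as an integral, truncated at the level `r` -/
theorem Phi2_ge (h : IsLevels d P) (A B : Finset (Fin k)) (hAB : Disjoint A B) (r : ℕ)
    (hr : 2 ≤ r) (hrR : r ≤ max #A #B) :
    (∫⁻ w in Set.Ioo 0 (1 / (2 * lv d r)), ENNReal.ofReal (1 - tht (lv d) r #A (2 * w * lv d r) *
      tht (lv d) r #B (2 * w * lv d r)) * ENNReal.ofReal (1 / w ^ 2)) +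
      ENNReal.ofReal (2 * lv d r) ≤
      ENNReal.ofReal (Phi2 (ecoef P) (lv d) #A #B 2 2) := by
  set R := max #A #B with hR
  have hR2 : 2 ≤ R := le_trans hr hrR
  have hlR : 0 < lv d R := h.lv_pos R hR2
  have hlr : 0 < lv d r := h.lv_pos r hr
  have hle : lv d r ≤ lv d R := h.lv_mono hrR
  set b : ℝ := 1 / (2 * lv d r) with hb
  set m : ℝ := 1 / (2 * lv d R) with hm
  have hm0 : 0 < m := by positivity
  have hmb : m ≤ b := by
    rw [hm, hb]
    exact one_div_le_one_div_of_le (by positivity) (by linarith)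
  have hmax : max (lv d #A * 2) (lv d #B * 2) = 1 / m := by
    have e1 : lv d R = max (lv d #A) (lv d #B) := h.lv_mono.map_max
    rw [hm, one_div_one_div, e1, mul_max_of_nonneg _ _ (by norm_num), mul_comm 2, mul_comm 2]
  -- split the integral on the left
  have hsub : Set.Ioo (0 : ℝ) b ⊆ Set.Ioo 0 m ∪ Set.Ico m b := by
    intro w hw
    rcases lt_or_ge w m with h1 | h1
    · exact Or.inl ⟨hw.1, h1⟩
    · exact Or.inr ⟨h1, hw.2⟩
  have hs1 := (lintegral_mono_set (μ := volume) (f := fun w => ENNReal.ofReal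
    (1 - tht (lv d) r #A (2 * w * lv d r) * tht (lv d) r #B (2 * w * lv d r)) *
      ENNReal.ofReal (1 / w ^ 2)) hsub).trans (lintegral_union_le _ _ _)
  -- first part
  have hp1 : ∫⁻ w in Set.Ioo 0 m, ENNReal.ofReal (1 - tht (lv d) r #A (2 * w * lv d r) *
      tht (lv d) r #B (2 * w * lv d r)) * ENNReal.ofReal (1 / w ^ 2) ≤
      ENNReal.ofReal (∫ w in (0 : ℝ)..m, Qf (ecoef P) #A #B 2 2 w) := by
    rw [intervalIntegral.integral_of_le hm0.le, integral_Ioc_eq_integral_Ioo]
    have hnn : ∀ w ∈ Set.Ioo 0 m, 0 ≤ Qf (ecoef P) #A #B 2 2 w := by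
      intro w hw
      have hw0 : 0 < w := hw.1
      have hwR : w * 2 * lv d R ≤ 1 := by
        have : w * (2 * lv d R) ≤ m * (2 * lv d R) :=
          mul_le_mul_of_nonneg_right hw.2.le (by positivity)
        rw [hm, one_div_mul_cancel (by positivity)] at this
        linarith
      have hb1 := h.Tn_bounds #A (w * 2) (by linarith) (le_trans
        (mul_le_mul_of_nonneg_left (h.lv_mono (le_max_left _ _)) (by linarith)) hwR)
      have hb2 := h.Tn_bounds #B (w * 2) (by linarith) (le_trans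
        (mul_le_mul_of_nonneg_left (h.lv_mono (le_max_right _ _)) (by linarith)) hwR)
      have h2 := Qf_eq (ecoef P) h.ecoef_zero h.ecoef_one #A #B 2 2 w
      have h3 : Tn (ecoef P) #A (w * 2) * Tn (ecoef P) #B (w * 2) ≤ 1 :=
        mul_le_one₀ hb1.2 hb2.1 hb2.2
      have h4 : 0 ≤ w ^ 2 * Qf (ecoef P) #A #B 2 2 w := by linarith
      exact nonneg_of_mul_nonneg_right h4 (by positivity)
    rw [ofReal_integral_eq_lintegral_ofReal]
    · refine setLIntegral_mono' measurableSet_Ioo fun w hw => ?_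
      have hw0 : 0 < w := hw.1
      have hwR : w * lv d R * 2 ≤ 1 := by
        have : w * (2 * lv d R) ≤ m * (2 * lv d R) :=
          mul_le_mul_of_nonneg_right hw.2.le (by positivity)
        rw [hm, one_div_mul_cancel (by positivity)] at this
        linarith
      have h2 := Qf_eq (ecoef P) h.ecoef_zero h.ecoef_one #A #B 2 2 w
      have h3 := h.Tn_le_tht A B hAB r hr R hrR (le_max_left _ _) (le_max_right _ _) w hw0 hwR
      have e1 : w * lv d r * 2 = 2 * w * lv d r := by ring
      rw [e1] at h3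
      rw [← ENNReal.ofReal_mul' (by positivity)]
      apply ENNReal.ofReal_le_ofReal
      rw [mul_one_div, div_le_iff₀ (by positivity)]
      linarith
    · exact ((continuous_Qf _ _ _ _ _).integrableOn_Icc (a := 0) (b := m)).mono_set
        Set.Ioo_subset_Icc_self
    · filter_upwards [ae_restrict_mem measurableSet_Ioo] with w hw
      exact hnn w hw
  -- second part
  have hp2 : (∫⁻ w in Set.Ico m b, ENNReal.ofReal (1 - tht (lv d) r #A (2 * w * lv d r) *
      tht (lv d) r #B (2 * w * lv d r)) * ENNReal.ofReal (1 / w ^ 2)) +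
      ENNReal.ofReal (2 * lv d r) ≤ ENNReal.ofReal (1 / m) := by
    have e2 : 2 * lv d r = 1 / b := by rw [hb, one_div_one_div]
    rw [e2, ← int_tail b (lt_of_lt_of_le hm0 hmb), ← int_tail m hm0]
    have h6 : ∫⁻ w in Set.Ico m b, ENNReal.ofReal (1 - tht (lv d) r #A (2 * w * lv d r) *
        tht (lv d) r #B (2 * w * lv d r)) * ENNReal.ofReal (1 / w ^ 2) ≤
        ∫⁻ w in Set.Ioc m b, ENNReal.ofReal (1 / w ^ 2) := by
      rw [setLIntegral_congr (Ico_ae_eq_Ioc (μ := volume))]
      refine setLIntegral_mono' measurableSet_Ioc fun w hw => ?_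
      refine mul_le_of_le_one_left zero_le ?_
      have hw0 : 0 < w := lt_trans hm0 hw.1
      have hwb : 2 * w * lv d r ≤ 1 := by
        have : w * (2 * lv d r) ≤ b * (2 * lv d r) :=
          mul_le_mul_of_nonneg_right hw.2 (by positivity)
        rw [hb, one_div_mul_cancel (by positivity)] at this
        linarith
      have hw1 : 0 ≤ 2 * w * lv d r := by positivity
      have h7 := mul_nonneg (tht_bounds (lv d) h.lv_nonneg h.lv_mono r #A _ hw1 hwb).1
        (tht_bounds (lv d) h.lv_nonneg h.lv_mono r #B _ hw1 hwb).1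
      rw [← ENNReal.ofReal_one]
      exact ENNReal.ofReal_le_ofReal (by linarith)
    refine le_trans (add_le_add h6 le_rfl) ?_
    rw [← lintegral_union measurableSet_Ioi]
    · apply lintegral_mono_set
      rintro w (hw | hw)
      · exact hw.1
      · exact lt_of_le_of_lt hmb hw
    · rw [Set.disjoint_left]
      intro w hw hw'
      exact absurd hw.2 (not_le.2 hw')
  unfold Phi2
  rw [hmax, one_div m, inv_inv]
  have hI0 : 0 ≤ ∫ w in (0 : ℝ)..m, Qf (ecoef P) #A #B 2 2 w := by
    rw [intervalIntegral.integral_of_le hm0.le, integral_Ioc_eq_integral_Ioo]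
    apply setIntegral_nonneg measurableSet_Ioo
    intro w hw
    have hw0 : 0 < w := hw.1
    have hwR : w * 2 * lv d R ≤ 1 := by
      have : w * (2 * lv d R) ≤ m * (2 * lv d R) :=
        mul_le_mul_of_nonneg_right hw.2.le (by positivity)
      rw [hm, one_div_mul_cancel (by positivity)] at this
      linarith
    have hb1 := h.Tn_bounds #A (w * 2) (by linarith) (le_trans
      (mul_le_mul_of_nonneg_left (h.lv_mono (le_max_left _ _)) (by linarith)) hwR)
    have hb2 := h.Tn_bounds #B (w * 2) (by linarith) (le_trans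
      (mul_le_mul_of_nonneg_left (h.lv_mono (le_max_right _ _)) (by linarith)) hwR)
    have h2 := Qf_eq (ecoef P) h.ecoef_zero h.ecoef_one #A #B 2 2 w
    have h3 : Tn (ecoef P) #A (w * 2) * Tn (ecoef P) #B (w * 2) ≤ 1 :=
      mul_le_one₀ hb1.2 hb2.1 hb2.2
    have h4 : 0 ≤ w ^ 2 * Qf (ecoef P) #A #B 2 2 w := by linarith
    exact nonneg_of_mul_nonneg_right h4 (by positivity)
  rw [← one_div m, ENNReal.ofReal_add hI0 (by positivity)]
  calc _ ≤ ((∫⁻ w in Set.Ioo 0 m, ENNReal.ofReal (1 - tht (lv d) r #A (2 * w * lv d r) *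
        tht (lv d) r #B (2 * w * lv d r)) * ENNReal.ofReal (1 / w ^ 2)) +
        ∫⁻ w in Set.Ico m b, ENNReal.ofReal (1 - tht (lv d) r #A (2 * w * lv d r) *
        tht (lv d) r #B (2 * w * lv d r)) * ENNReal.ofReal (1 / w ^ 2)) +
        ENNReal.ofReal (2 * lv d r) := add_le_add hs1 le_rfl
    _ ≤ _ := by
      rw [add_assoc]
      exact add_le_add hp1 hp2

end IsLevels

/-- the first round: every player becomes a suspect of one of the two types -/
theorem val_start (hk : 0 < k) :
    ∑ T ∈ (univ : Finset (Fin k)).powerset, (1 / 2 : ℝ) ^ k * val (lev T 2) (lev Tᶜ 2) ≤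
      val (k := k) (fun _ => 1) (fun _ => 1) := by
  have h := val_split hk (1 / 2) (by norm_num) (by norm_num) (fun _ => 2) (fun _ => 0)
    (fun _ => 0) (fun _ => 2) (fun _ => by norm_num) (fun _ => le_rfl) (fun _ => le_rfl)
    (fun _ => by norm_num) (univ : Finset (Fin k)) (fun _ => 1) (fun _ => 1)
    (fun _ => zero_le_one) (fun _ => zero_le_one) (fun _ _ => by norm_num)
    (fun _ _ => by norm_num)
  refine le_trans (le_of_eq ?_) h
  refine Finset.sum_congr rfl fun T hT => ?_
  have hc : #T ≤ k := by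
    have := card_le_univ T
    simpa using this
  have h1 : (1 / 2 : ℝ) ^ #T * (1 - 1 / 2) ^ (#(univ : Finset (Fin k)) - #T) = (1 / 2) ^ k := by
    have : (1 - 1 / 2 : ℝ) = 1 / 2 := by norm_num
    rw [this, ← pow_add, card_univ, Fintype.card_fin]
    congr 1
    omega
  rw [h1]
  congr 2
  · funext i
    simp [lev]
  · funext i
    unfold lev
    by_cases hi : i ∈ T <;> simp [hi]

theorem continuous_tht (c : ℕ → ℝ) (r n : ℕ) : Continuous (tht c r n) := by
  unfold tht
  apply continuous_finsetSum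
  intro j _
  fun_prop

/-- **Lower bound for many players.** -/
theorem cryptoValue_ge {d : ℕ → ℝ} {P : ℕ → ℝ[X]} (h : IsLevels d P) (r : ℕ) (hr : 2 ≤ r)
    (hk : 2 * r ≤ k + 1) :
    lv d r * (1 - ∑ N ∈ Finset.Icc 2 k, th (lv d) r N / (N * (N - 1))) ≤ cryptoValue k := by
  have hk0 : 0 < k := by omega
  have hk' : (0 : ℝ) < k := by exact_mod_cast hk0
  have hlr : 0 < lv d r := h.lv_pos r hr
  set b : ℝ := 1 / (2 * lv d r) with hb
  have hb0 : 0 < b := by positivity
  have hthb := th_bounds (lv d) h.lv_nonneg h.lv_mono r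
  -- bound for each announcement
  have h1 : ∀ T : Finset (Fin k), (∫⁻ w in Set.Ioo 0 b, ENNReal.ofReal
      (1 - tht (lv d) r #T (2 * w * lv d r) * tht (lv d) r (k - #T) (2 * w * lv d r)) *
      ENNReal.ofReal (1 / w ^ 2)) + ENNReal.ofReal (1 / b) ≤
      ENNReal.ofReal (val (lev T 2) (lev Tᶜ 2)) := by
    intro T
    have hcard : #Tᶜ = k - #T := by rw [card_compl, Fintype.card_fin]
    have h2 := h.Phi2_ge T Tᶜ disjoint_compl_right r hr (by rw [hcard]; omega)
    have h3 := Phi2_le_val h hk0 (#T + #Tᶜ) T Tᶜ le_rfl 2 2 (by norm_num) (by norm_num)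
    have e2 : 2 * lv d r = 1 / b := by rw [hb, one_div_one_div]
    rw [← e2, ← hcard]
    exact h2.trans (ENNReal.ofReal_le_ofReal h3)
  -- average
  have hsum : ∑ T ∈ (univ : Finset (Fin k)).powerset, (1 / 2 : ℝ) ^ k = 1 := by
    rw [Finset.sum_const, card_powerset, card_univ, Fintype.card_fin, nsmul_eq_mul]
    push_cast
    rw [← mul_pow]
    norm_num
  have h4 : (∫⁻ w in Set.Ioo 0 b, ENNReal.ofReal (1 - ∑ N ∈ range (k + 1), (k.choose N : ℝ) *
      ((w / b) ^ N * (1 - w / b) ^ (k - N) * th (lv d) r N)) * ENNReal.ofReal (1 / w ^ 2)) +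
      ENNReal.ofReal (1 / b) ≤ ENNReal.ofReal (val (k := k) (fun _ => 1) (fun _ => 1)) := by
    have h5 : ENNReal.ofReal (∑ T ∈ (univ : Finset (Fin k)).powerset,
        (1 / 2 : ℝ) ^ k * val (lev T 2) (lev Tᶜ 2)) ≤
        ENNReal.ofReal (val (k := k) (fun _ => 1) (fun _ => 1)) :=
      ENNReal.ofReal_le_ofReal (val_start hk0)
    refine le_trans ?_ h5
    have hvnn : ∀ T : Finset (Fin k), 0 ≤ val (lev T 2) (lev Tᶜ 2) := fun T =>
      val_nonneg hk0 _ _ (lev_nonneg T 2 (by norm_num)) (lev_nonneg Tᶜ 2 (by norm_num))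
    rw [ENNReal.ofReal_sum_of_nonneg fun T _ => mul_nonneg (by positivity) (hvnn T)]
    have h6 : ∑ T ∈ (univ : Finset (Fin k)).powerset, ENNReal.ofReal ((1 / 2 : ℝ) ^ k) *
        ((∫⁻ w in Set.Ioo 0 b, ENNReal.ofReal
        (1 - tht (lv d) r #T (2 * w * lv d r) * tht (lv d) r (k - #T) (2 * w * lv d r)) *
        ENNReal.ofReal (1 / w ^ 2)) + ENNReal.ofReal (1 / b)) ≤
        ∑ T ∈ (univ : Finset (Fin k)).powerset,
          ENNReal.ofReal ((1 / 2 : ℝ) ^ k * val (lev T 2) (lev Tᶜ 2)) := by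
      refine Finset.sum_le_sum fun T _ => ?_
      rw [ENNReal.ofReal_mul (by positivity)]
      exact mul_le_mul_right (h1 T) _
    refine le_trans (le_of_eq ?_) h6
    simp only [mul_add]
    rw [Finset.sum_add_distrib, ← Finset.sum_mul, ← ENNReal.ofReal_sum_of_nonneg
      (fun _ _ => by positivity), hsum, ENNReal.ofReal_one, one_mul]
    congr 1
    have hmeas : ∀ T : Finset (Fin k), Measurable fun w : ℝ => ENNReal.ofReal
        (1 - tht (lv d) r #T (2 * w * lv d r) * tht (lv d) r (k - #T) (2 * w * lv d r)) *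
        ENNReal.ofReal (1 / w ^ 2) := by
      intro T
      have c1 : Continuous fun w : ℝ => 2 * w * lv d r := by fun_prop
      have m1 : Measurable fun w : ℝ => ENNReal.ofReal
          (1 - tht (lv d) r #T (2 * w * lv d r) * tht (lv d) r (k - #T) (2 * w * lv d r)) := by
        apply Measurable.ennreal_ofReal
        apply Continuous.measurable
        exact continuous_const.sub (((continuous_tht (lv d) r #T).comp c1).mul
          ((continuous_tht (lv d) r (k - #T)).comp c1))
      have m2 : Measurable fun w : ℝ => ENNReal.ofReal (1 / w ^ 2) := by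
        apply Measurable.ennreal_ofReal
        fun_prop
      exact m1.fun_mul m2
    have h7 : ∀ T ∈ (univ : Finset (Fin k)).powerset, ENNReal.ofReal ((1 / 2 : ℝ) ^ k) *
        ∫⁻ w in Set.Ioo 0 b, ENNReal.ofReal
        (1 - tht (lv d) r #T (2 * w * lv d r) * tht (lv d) r (k - #T) (2 * w * lv d r)) *
        ENNReal.ofReal (1 / w ^ 2) = ∫⁻ w in Set.Ioo 0 b, ENNReal.ofReal ((1 / 2 : ℝ) ^ k) *
        (ENNReal.ofReal
        (1 - tht (lv d) r #T (2 * w * lv d r) * tht (lv d) r (k - #T) (2 * w * lv d r)) *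
        ENNReal.ofReal (1 / w ^ 2)) := by
      intro T _
      rw [lintegral_const_mul _ (hmeas T)]
    rw [Finset.sum_congr rfl h7, ← lintegral_finsetSum _ fun T _ => (hmeas T).const_mul _]
    refine setLIntegral_congr_fun measurableSet_Ioo fun w hw => ?_
    have hw0 : 0 < w := hw.1
    have hdiv : w / b = 2 * w * lv d r := by rw [hb]; field_simp
    have hz0 : 0 ≤ 2 * w * lv d r := by positivity
    have hz1 : 2 * w * lv d r ≤ 1 := by
      rw [← hdiv]; exact div_le_one_of_le₀ hw.2.le hb0.le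
    have h8 := J_init_split (k := k) (lv d) h.lv_nonneg h.lv_mono h.lv_one h.lv_pos w hw0 r hr hz1
    simp only [hdiv]
    rw [← h8]
    simp only [← mul_assoc]
    rw [← Finset.sum_mul]
    congr 1
    have h9 : ∀ T ∈ (univ : Finset (Fin k)).powerset, ENNReal.ofReal ((1 / 2 : ℝ) ^ k) *
        ENNReal.ofReal (1 - tht (lv d) r #T (2 * w * lv d r) *
        tht (lv d) r (k - #T) (2 * w * lv d r)) = ENNReal.ofReal ((1 / 2 : ℝ) ^ k *
        (1 - tht (lv d) r #T (2 * w * lv d r) * tht (lv d) r (k - #T) (2 * w * lv d r))) := by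
      intro T _
      rw [ENNReal.ofReal_mul (by positivity)]
    rw [Finset.sum_congr rfl h9, ← ENNReal.ofReal_sum_of_nonneg]
    · congr 1
      simp only [mul_sub, mul_one]
      rw [Finset.sum_sub_distrib, hsum]
      congr 1
      refine Finset.sum_congr rfl fun T _ => ?_
      ring
    · intro T _
      refine mul_nonneg (by positivity) ?_
      have b1 := tht_bounds (lv d) h.lv_nonneg h.lv_mono r #T _ hz0 hz1
      have b2 := tht_bounds (lv d) h.lv_nonneg h.lv_mono r (k - #T) _ hz0 hz1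
      have : tht (lv d) r #T (2 * w * lv d r) * tht (lv d) r (k - #T) (2 * w * lv d r) ≤ 1 :=
        mul_le_one₀ b1.2 b2.1 b2.2
      linarith
  rw [int_core k (th (lv d) r) hthb (th_zero _ _) (th_one _ _) b hb0,
    ← ENNReal.ofReal_add ?_ (by positivity)] at h4
  · have hv0 : 0 ≤ val (k := k) (fun _ => 1) (fun _ => 1) :=
      val_nonneg hk0 _ _ (fun _ => zero_le_one) (fun _ => zero_le_one)
    have h10 := (ENNReal.ofReal_le_ofReal_iff hv0).1 h4
    rw [cryptoValue_eq_val]
    have e1 : ∑ j ∈ Finset.Icc 2 k, (k / (j * (j - 1)) : ℝ) * (1 - th (lv d) r j) =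
        (k - 1) - k * ∑ N ∈ Finset.Icc 2 k, th (lv d) r N / (N * (N - 1)) := by
      rw [← tele k hk0, Finset.mul_sum, ← Finset.sum_sub_distrib]
      refine Finset.sum_congr rfl fun j _ => ?_
      ring
    rw [e1, hb, one_div_one_div] at h10
    have e2 : 2 * lv d r * ((k : ℝ) - 1 - k * ∑ N ∈ Finset.Icc 2 k,
        th (lv d) r N / (N * (N - 1))) + 2 * lv d r =
        2 * k * (lv d r * (1 - ∑ N ∈ Finset.Icc 2 k, th (lv d) r N / (N * (N - 1)))) := by ring
    rw [e2] at h10
    rw [one_div, inv_mul_eq_div, le_div_iff₀ (by positivity)]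
    linarith
  · refine mul_nonneg (by positivity) (Finset.sum_nonneg fun j hj => mul_nonneg ?_ ?_)
    · rw [Finset.mem_Icc] at hj
      have : (2 : ℝ) ≤ j := by exact_mod_cast hj.1
      exact div_nonneg (Nat.cast_nonneg _) (mul_nonneg (by linarith) (by linarith))
    · linarith [(hthb j).2]

end Pool.Agent.Helper92.Crypto
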