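import Mathlib
import Pool.Agent.Helper92.CryptoNorm
import Pool.Agent.Helper92.CryptoInt
import Pool.Agent.Helper92.CryptoCert

/-!
# Survival functions
-/

namespace Pool.Agent.Helper92.Crypto

open Polynomial Finset MeasureTheory Filter Topology

/-- survival probability at time `t` with respect to the first constraints -/
noncomputable def Gs (P : ℕ → ℝ[X]) (w : ℝ) (n : ℕ) (t : ℝ) : ℝ :=
  Real.exp (-(w * t)) * ∑ j ∈ range (n + 1), w ^ j * (P j).eval t

/-- survival probability of one type with levels `c` up to `r` -/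
noncomputable def qn (c : ℕ → ℝ) (r : ℕ) (w : ℝ) : ℝ :=
  Real.exp (-(w * c r)) * ∑ j ∈ range r, (w * c r) ^ j / j.factorial * om c r j

/-- square of a Poisson mixture -/
theorem sq_sum (g : ℕ → ℝ) (r : ℕ) (hg : ∀ j, r ≤ j → g j = 0) (y : ℝ) (M : ℕ)
    (hM : 2 * r ≤ M + 1) :
    (∑ j ∈ range r, y ^ j / j.factorial * g j) ^ 2 =
      ∑ N ∈ range M, (y * 2) ^ N / N.factorial * ∑ a ∈ range (N + 1), (N.choose a : ℝ) *
        ((1 / 2 : ℝ) ^ a * (1 - 1 / 2) ^ (N - a) * (g a * g (N - a))) := by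
  set f : ℕ → ℝ := fun j => y ^ j / j.factorial * g j with hf
  have hf0 : ∀ j ∉ range r, f j = 0 := by
    intro j hj
    rw [mem_range, not_lt] at hj
    simp only [hf]
    rw [hg j hj, mul_zero]
  have hs : Summable fun j => ‖f j‖ := by
    apply summable_of_ne_finset_zero (s := range r)
    intro j hj
    rw [hf0 j hj, norm_zero]
  have h1 := tsum_mul_tsum_eq_tsum_sum_antidiagonal_of_summable_norm hs hs
  rw [tsum_eq_sum hf0] at h1
  have h2 : ∀ N, ∑ kl ∈ antidiagonal N, f kl.1 * f kl.2 =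
      (y * 2) ^ N / N.factorial * ∑ a ∈ range (N + 1), (N.choose a : ℝ) *
        ((1 / 2 : ℝ) ^ a * (1 - 1 / 2) ^ (N - a) * (g a * g (N - a))) := by
    intro N
    rw [Finset.Nat.sum_antidiagonal_eq_sum_range_succ (fun a b => f a * f b), mul_sum]
    refine Finset.sum_congr rfl fun a ha => ?_
    rw [mem_range] at ha
    simp only [hf]
    rw [Nat.cast_choose ℝ (by omega : a ≤ N)]
    have e1 : (1 - 1 / 2 : ℝ) = 1 / 2 := by norm_num
    rw [e1]
    have e2 : (1 / 2 : ℝ) ^ a * (1 / 2) ^ (N - a) = (1 / 2) ^ N := by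
      rw [← pow_add]; congr 1; omega
    have e3 : y ^ a * y ^ (N - a) = y ^ N := by
      rw [← pow_add]; congr 1; omega
    rw [e2, mul_pow]
    have e4 : (2 : ℝ) ^ N * (1 / 2) ^ N = 1 := by rw [← mul_pow]; norm_num
    have h5 : (a.factorial : ℝ) ≠ 0 := by positivity
    have h6 : ((N - a).factorial : ℝ) ≠ 0 := by positivity
    have h7 : (N.factorial : ℝ) ≠ 0 := by positivity
    calc y ^ a / a.factorial * g a * (y ^ (N - a) / (N - a).factorial * g (N - a)) =
        (y ^ a * y ^ (N - a)) / (a.factorial * (N - a).factorial) * (g a * g (N - a)) := by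
          field_simp
      _ = y ^ N * (2 ^ N * (1 / 2) ^ N) / (a.factorial * (N - a).factorial) *
          (g a * g (N - a)) := by rw [e3, e4, mul_one]
      _ = _ := by field_simp
  rw [sq, h1, tsum_congr h2]
  apply tsum_eq_sum
  intro N hN
  rw [mem_range, not_lt] at hN
  have : ∑ a ∈ range (N + 1), (N.choose a : ℝ) *
        ((1 / 2 : ℝ) ^ a * (1 - 1 / 2) ^ (N - a) * (g a * g (N - a))) = 0 := by
    apply Finset.sum_eq_zero
    intro a ha
    rw [mem_range] at ha
    rcases le_or_gt r a with h | h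
    · rw [hg a h]; ring
    · rw [hg (N - a) (by omega)]; ring
  rw [this, mul_zero]

/-- `th` vanishes for large indices -/
theorem th_of_le (c : ℕ → ℝ) (r N : ℕ) (hr : 2 ≤ r) (hN : 2 * r ≤ N + 1) : th c r N = 0 := by
  unfold th
  apply Finset.sum_eq_zero
  intro a ha
  rw [mem_range] at ha
  rcases le_or_gt r a with h | h
  · rw [om_of_le c r a hr h]; ring
  · rw [om_of_le c r (N - a) hr (by omega)]; ring

theorem qn_sq (c : ℕ → ℝ) (r : ℕ) (hr : 2 ≤ r) (w : ℝ) (M : ℕ) (hM : 2 * r ≤ M + 1) :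
    qn c r w ^ 2 = Real.exp (-(w * (2 * c r))) *
      ∑ N ∈ range M, (w * (2 * c r)) ^ N / N.factorial * th c r N := by
  unfold qn
  rw [mul_pow, sq_sum (om c r) r (fun j hj => om_of_le c r j hr hj) _ M hM, ← Real.exp_nat_mul]
  congr 1
  · congr 1
    push_cast
    ring
  · refine Finset.sum_congr rfl fun N _ => ?_
    unfold th
    congr 3
    ring

/-- the potential as an integral -/
theorem int_qn_sq (c : ℕ → ℝ) (r : ℕ) (hr : 2 ≤ r) (hc : 0 < c r) (k : ℕ) (hk : 2 * r ≤ k + 2) :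
    IntegrableOn (fun w : ℝ => (1 - qn c r w ^ 2) / w ^ 2) (Set.Ioi 0) ∧
    ∫ w in Set.Ioi (0 : ℝ), (1 - qn c r w ^ 2) / w ^ 2 =
      2 * (c r * (1 - ∑ N ∈ Finset.Icc 2 k, th c r N / (N * (N - 1)))) := by
  obtain ⟨R, rfl⟩ : ∃ R, k = R + 1 := ⟨k - 1, by omega⟩
  have h := int_poisson (th c r) (th_zero _ _) (th_one _ _) R (2 * c r) (by linarith)
  have e : (fun w : ℝ => (1 - qn c r w ^ 2) / w ^ 2) = fun w : ℝ => (1 - Real.exp (-(w * (2 * c r))) *
      ∑ j ∈ range (R + 2), (w * (2 * c r)) ^ j / j.factorial * th c r j) / w ^ 2 := by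
    funext w
    rw [qn_sq c r hr w (R + 2) (by omega)]
  rw [e]
  refine ⟨h.1, ?_⟩
  rw [h.2]
  ring

theorem om_zero' (c : ℕ → ℝ) (hc1 : c 1 = 0) (r : ℕ) (hr : 2 ≤ r) : om c r 0 = 1 ∧ om c r 1 = 1 := by
  induction r, hr using Nat.le_induction with
  | base =>
    constructor
    · simp [om]
    · rw [om, if_pos (by norm_num)]
      simp [Finset.sum_range_succ, hc1, om]
  | succ r hr ih =>
    obtain ⟨m, rfl⟩ : ∃ m, r = m + 1 := ⟨r - 1, by omega⟩
    constructor
    · rw [om, if_pos (by omega)]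
      simp [ih.1]
    · rw [om, if_pos (by omega)]
      simp [Finset.sum_range_succ, ih.1, ih.2]

theorem int_qn (c : ℕ → ℝ) (hc1 : c 1 = 0) (r : ℕ) (hr : 2 ≤ r) (hc : 0 < c r) :
    IntegrableOn (fun w : ℝ => (1 - qn c r w) / w ^ 2) (Set.Ioi 0) ∧
    ∫ w in Set.Ioi (0 : ℝ), (1 - qn c r w) / w ^ 2 = c r * (1 - sg c r) := by
  obtain ⟨R, rfl⟩ : ∃ R, r = R + 2 := ⟨r - 2, by omega⟩
  have ho := om_zero' c hc1 (R + 2) hr
  exact int_poisson (om c (R + 2)) ho.1 ho.2 R (c (R + 2)) hc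

namespace IsLevels

variable {d : ℕ → ℝ} {P : ℕ → ℝ[X]}

theorem hasDerivAt_Gs (h : IsLevels d P) (w : ℝ) (n : ℕ) (t : ℝ) :
    HasDerivAt (Gs P w n) (-(Real.exp (-(w * t)) * (w ^ (n + 1) * (P n).eval t))) t := by
  have h1 : HasDerivAt (fun t : ℝ => Real.exp (-(w * t))) (Real.exp (-(w * t)) * (-(w * 1))) t :=
    (((hasDerivAt_id t).const_mul w).neg).exp
  have h2 : HasDerivAt (fun t : ℝ => ∑ j ∈ range (n + 1), w ^ j * (P j).eval t)
      (∑ j ∈ range (n + 1), w ^ j * (derivative (P j)).eval t) t := by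
    apply HasDerivAt.fun_sum
    intro j _
    exact ((P j).hasDerivAt t).const_mul _
  refine (h1.mul h2).congr_deriv ?_
  rw [Finset.sum_range_succ' (fun j => w ^ j * (derivative (P j)).eval t)]
  rw [Finset.sum_range_succ (fun j => w ^ j * (P j).eval t)]
  simp only [h.poly_deriv, h.poly_zero, derivative_one, eval_zero, mul_zero, add_zero]
  have : ∑ j ∈ range n, w ^ (j + 1) * (P j).eval t = w * ∑ j ∈ range n, w ^ j * (P j).eval t := by
    rw [mul_sum]
    refine Finset.sum_congr rfl fun j _ => ?_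
    ring
  rw [this]
  ring

theorem eval_nonneg' (h : IsLevels d P) (n : ℕ) (t : ℝ) (ht : d (n - 1) ≤ t) :
    0 ≤ (P n).eval t := by
  cases n with
  | zero => rw [h.poly_zero]; simp
  | succ n => exact h.poly_nonneg n t ht

theorem Gs_anti (h : IsLevels d P) (w : ℝ) (hw : 0 ≤ w) (n : ℕ) :
    AntitoneOn (Gs P w n) (Set.Ici (d (n - 1))) := by
  apply antitoneOn_of_deriv_nonpos (convex_Ici _)
  · exact fun t _ => (h.hasDerivAt_Gs w n t).continuousAt.continuousWithinAt
  · exact fun t _ => (h.hasDerivAt_Gs w n t).differentiableAt.differentiableWithinAt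
  · intro t ht
    rw [interior_Ici] at ht
    rw [(h.hasDerivAt_Gs w n t).deriv]
    have := h.eval_nonneg' n t (le_of_lt ht)
    have h2 := Real.exp_pos (-(w * t))
    have : 0 ≤ Real.exp (-(w * t)) * (w ^ (n + 1) * (P n).eval t) := by positivity
    linarith

theorem Gs_step (h : IsLevels d P) (w : ℝ) (n : ℕ) : Gs P w (n + 1) (d n) = Gs P w n (d n) := by
  unfold Gs
  rw [Finset.sum_range_succ _ (n + 1), h.poly_root n, mul_zero, add_zero]

theorem Gs_nonneg (h : IsLevels d P) (w : ℝ) (hw : 0 ≤ w) (n : ℕ) (t : ℝ) (ht : d (n - 1) ≤ t) :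
    0 ≤ Gs P w n t := by
  unfold Gs
  refine mul_nonneg (Real.exp_pos _).le (Finset.sum_nonneg fun j hj => ?_)
  rw [mem_range] at hj
  exact mul_nonneg (pow_nonneg hw _) (h.eval_nonneg' j t (le_trans
    (h.strictMono.monotone (by omega)) ht))

theorem Gs_le_one (h : IsLevels d P) (w : ℝ) (hw : 0 ≤ w) (n : ℕ) : ∀ (t : ℝ), d (n - 1) ≤ t →
    Gs P w n t ≤ 1 := by
  induction n with
  | zero =>
    intro t ht
    have ht' : 0 ≤ t := by
      have : d (0 - 1) = d 0 := rfl
      rw [this, h.level_zero] at ht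
      exact ht
    unfold Gs
    rw [Finset.sum_range_one, h.poly_zero]
    simp only [pow_zero, eval_one, mul_one]
    rw [Real.exp_le_one_iff]
    nlinarith
  | succ n ih =>
    intro t ht
    have e : d (n + 1 - 1) = d n := rfl
    rw [e] at ht
    refine le_trans (h.Gs_anti w hw (n + 1) (Set.mem_Ici.2 (le_of_eq e)) ht ht) ?_
    rw [h.Gs_step]
    exact ih _ (h.strictMono.monotone (by omega))

theorem Gs_level_anti (h : IsLevels d P) (w : ℝ) (hw : 0 ≤ w) : Antitone fun n => Gs P w n (d n) := by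
  apply antitone_nat_of_succ_le
  intro n
  have e : d (n + 1 - 1) = d n := rfl
  have h1 := h.Gs_anti w hw (n + 1) (Set.mem_Ici.2 (le_of_eq e)) (Set.mem_Ici.2 (h.level_lt n).le)
    (h.level_lt n).le
  rw [h.Gs_step] at h1
  exact h1

theorem surv_tendsto (h : IsLevels d P) (w : ℝ) (hw : 0 ≤ w) :
    Tendsto (fun n => Gs P w n (d n)) atTop (𝓝 (surv d P w)) := by
  refine tendsto_atTop_ciInf (h.Gs_level_anti w hw) ⟨0, ?_⟩
  rintro _ ⟨n, rfl⟩
  exact h.Gs_nonneg w hw n _ (h.strictMono.monotone (by omega))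

theorem surv_le (h : IsLevels d P) (w : ℝ) (hw : 0 ≤ w) (n : ℕ) : surv d P w ≤ Gs P w n (d n) :=
  (h.Gs_level_anti w hw).le_of_tendsto (h.surv_tendsto w hw) n

theorem surv_nonneg (h : IsLevels d P) (w : ℝ) (hw : 0 ≤ w) : 0 ≤ surv d P w :=
  ge_of_tendsto' (h.surv_tendsto w hw) fun n =>
    h.Gs_nonneg w hw n _ (h.strictMono.monotone (by omega))

theorem continuous_Gs (n : ℕ) (t : ℝ) : Continuous fun w => Gs P w n t := by
  unfold Gs
  fun_prop

/-- the survival function in terms of the nested probabilities -/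
theorem qn_eq (h : IsLevels d P) (c : ℕ → ℝ) (r : ℕ) (hr : 1 ≤ r) (hc : ∀ i < r + 1, c i = lv d i)
    (hcr : 0 < c (r + 1)) (w : ℝ) : qn c (r + 1) w = Gs P w r (c (r + 1)) := by
  unfold qn Gs
  congr 1
  refine Finset.sum_congr rfl fun j hj => ?_
  rw [mem_range] at hj
  rw [h.om_eq c (r + 1) (by omega) hc hcr, if_pos hj]
  have h1 := h.eval_poly j (c (r + 1)) hcr.ne'
  have h2 : (j.factorial : ℝ) ≠ 0 := by positivity
  have h3 : (P j).eval (c (r + 1)) = c (r + 1) ^ j * Tn (ecoef P) j (1 / c (r + 1)) / j.factorial := by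
    rw [← h1]; field_simp
  rw [h3, mul_pow]
  ring

end IsLevels

end Pool.Agent.Helper92.Crypto
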