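import Mathlib
import Pool.Agent.Helper92.CryptoSurv
import Pool.Agent.Helper92.CryptoLowerLim

/-!
# The limit of the cryptogenography value
-/

namespace Pool.Agent.Helper92.Crypto

open Polynomial Finset MeasureTheory Filter Topology

/-- the value of the truncated game -/
noncomputable def DD (d : ℕ → ℝ) (P : ℕ → ℝ[X]) (n : ℕ) : ℝ :=
  1 / 2 * ∫ w in Set.Ioi (0 : ℝ), (1 - Gs P w n (d n) ^ 2) / w ^ 2

namespace IsLevels

variable {d : ℕ → ℝ} {P : ℕ → ℝ[X]}

theorem qn_lv (h : IsLevels d P) (n : ℕ) (hn : 1 ≤ n) (w : ℝ) :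
    qn (lv d) (n + 1) w = Gs P w n (d n) :=
  h.qn_eq (lv d) n hn (fun _ _ => rfl) (h.lv_pos _ (by omega)) w

theorem int_one (h : IsLevels d P) (n : ℕ) (hn : 1 ≤ n) :
    IntegrableOn (fun w : ℝ => (1 - Gs P w n (d n)) / w ^ 2) (Set.Ioi 0) ∧
    ∫ w in Set.Ioi (0 : ℝ), (1 - Gs P w n (d n)) / w ^ 2 = (n : ℝ) / (n + 1) := by
  have h1 := int_qn (lv d) h.lv_one (n + 1) (by omega) (h.lv_pos _ (by omega))
  simp only [h.qn_lv n hn] at h1
  refine ⟨h1.1, ?_⟩
  rw [h1.2, h.E_lv (n + 1) (by omega)]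
  push_cast
  ring

theorem int_two (h : IsLevels d P) (n : ℕ) (hn : 1 ≤ n) (k : ℕ) (hk : 2 * n ≤ k) :
    IntegrableOn (fun w : ℝ => (1 - Gs P w n (d n) ^ 2) / w ^ 2) (Set.Ioi 0) ∧
    DD d P n = lv d (n + 1) * (1 - ∑ N ∈ Finset.Icc 2 k, th (lv d) (n + 1) N / (N * (N - 1))) := by
  have h1 := int_qn_sq (lv d) (n + 1) (by omega) (h.lv_pos _ (by omega)) k (by omega)
  simp only [h.qn_lv n hn] at h1
  refine ⟨h1.1, ?_⟩
  unfold DD
  rw [h1.2]
  ring

theorem DD_le_value (h : IsLevels d P) (n : ℕ) (hn : 1 ≤ n) (k : ℕ) (hk : 2 * n + 1 ≤ k) :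
    DD d P n ≤ cryptoValue k := by
  rw [(h.int_two n hn k (by omega)).2]
  exact cryptoValue_ge h (n + 1) (by omega) (by omega)

theorem level_mem (h : IsLevels d P) (n : ℕ) : d (n - 1) ≤ d n :=
  h.strictMono.monotone (by omega)

theorem Gs_bd (h : IsLevels d P) (n : ℕ) (w : ℝ) (hw : 0 ≤ w) :
    0 ≤ Gs P w n (d n) ∧ Gs P w n (d n) ≤ 1 :=
  ⟨h.Gs_nonneg w hw n _ (h.level_mem n), h.Gs_le_one w hw n _ (h.level_mem n)⟩

theorem DD_le_one (h : IsLevels d P) (n : ℕ) (hn : 1 ≤ n) : DD d P n ≤ 1 := by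
  have h1 := h.int_one n hn
  have h2 := h.int_two n hn (2 * n) le_rfl
  have h3 : ∫ w in Set.Ioi (0 : ℝ), (1 - Gs P w n (d n) ^ 2) / w ^ 2 ≤
      ∫ w in Set.Ioi (0 : ℝ), 2 * ((1 - Gs P w n (d n)) / w ^ 2) := by
    refine setIntegral_mono_on h2.1 (h1.1.const_mul 2) measurableSet_Ioi fun w hw => ?_
    have hw0 : (0 : ℝ) < w := hw
    rw [← mul_div_assoc]
    apply div_le_div_of_nonneg_right _ (by positivity)
    nlinarith [sq_nonneg (1 - Gs P w n (d n))]
  rw [integral_const_mul, h1.2] at h3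
  unfold DD
  have h4 : (n : ℝ) / (n + 1) ≤ 1 := by
    rw [div_le_one (by positivity)]
    linarith
  linarith

/-- the upper bound -/
theorem value_le (h : IsLevels d P) (n : ℕ) (hn : 1 ≤ n) (k : ℕ) (hk : 2 * n + 2 ≤ k) :
    cryptoValue k ≤ DD d P n + 1 / (n + 1) := by
  obtain ⟨C, hC1, hC2⟩ := h.exists_last (n + 2) (by omega)
  have e0 : lv d (n + 2 - 1) = d n := rfl
  rw [e0] at hC1
  have hdn : 0 < d n := h.pos n hn
  have hC : 0 < C := hdn.trans hC1
  set c : ℕ → ℝ := fun l => if l < n + 2 then lv d l else C with hc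
  have hclt : ∀ l, l < n + 2 → c l = lv d l := fun l hl => by simp only [hc, if_pos hl]
  have hcC : c (n + 2) = C := by simp only [hc, lt_irrefl, if_false]
  have hc0 : ∀ l, 0 ≤ c l := by
    intro l
    by_cases hl : l < n + 2
    · rw [hclt l hl]; exact h.lv_nonneg l
    · simp only [hc, if_neg hl]; exact hC.le
  have hmono : Monotone c := by
    intro a b hab
    by_cases hb : b < n + 2
    · rw [hclt a (by omega), hclt b hb]; exact h.lv_mono hab
    · by_cases ha : a < n + 2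
      · rw [hclt a ha]
        simp only [hc, if_neg hb]
        have : lv d a ≤ d n := h.strictMono.monotone (by omega)
        linarith
      · simp only [hc, if_neg ha, if_neg hb]; exact le_rfl
  have hc1 : c 1 = 0 := by rw [hclt 1 (by omega)]; exact h.lv_one
  have hcpos : ∀ l, 2 ≤ l → 0 < c l := by
    intro l hl
    by_cases hl' : l < n + 2
    · rw [hclt l hl']; exact h.lv_pos l hl
    · simp only [hc, if_neg hl']; exact hC
  have hEr : c (n + 2) * (1 - sg c (n + 2)) = 1 := by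
    rw [h.sg_eq c (n + 2) (by omega) hclt (hcpos _ (by omega)), hcC, hC2]
  have hup := cryptoValue_le_death c hc0 hmono hc1 hcpos (n + 2) (by omega)
    (fun l hl hln => by
      rw [h.sg_eq c l hl (fun i hi => hclt i (by omega)) (hcpos l hl), hclt l hln, h.Fl_lv l hl])
    hEr.ge (by omega : 0 < k)
  have hT := int_qn_sq c (n + 2) (by omega) (hcpos _ (by omega)) k (by omega)
  have hT1 := int_qn c hc1 (n + 2) (by omega) (hcpos _ (by omega))
  rw [hEr] at hT1
  have hq : ∀ w, qn c (n + 2) w = Gs P w (n + 1) C := by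
    intro w
    have := h.qn_eq c (n + 1) (by omega) hclt (hcpos _ (by omega)) w
    rw [this, hcC]
  simp only [hq] at hT hT1
  have hD := h.int_two n hn (2 * n) le_rfl
  have hD1 := h.int_one n hn
  -- pointwise comparison
  have hcmp : ∫ w in Set.Ioi (0 : ℝ), ((1 - Gs P w (n + 1) C ^ 2) / w ^ 2 +
      2 * ((1 - Gs P w n (d n)) / w ^ 2)) ≤
      ∫ w in Set.Ioi (0 : ℝ), ((1 - Gs P w n (d n) ^ 2) / w ^ 2 +
      2 * ((1 - Gs P w (n + 1) C) / w ^ 2)) := by
    refine setIntegral_mono_on (hT.1.add (hD1.1.const_mul 2)) (hD.1.add (hT1.1.const_mul 2))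
      measurableSet_Ioi fun w hw => ?_
    have hw0 : (0 : ℝ) < w := hw
    have hb := h.Gs_bd n w hw0.le
    have ha0 : 0 ≤ Gs P w (n + 1) C := h.Gs_nonneg w hw0.le (n + 1) C hC1.le
    have hab : Gs P w (n + 1) C ≤ Gs P w n (d n) := by
      rw [← h.Gs_step]
      exact h.Gs_anti w hw0.le (n + 1) (Set.mem_Ici.2 le_rfl) (Set.mem_Ici.2 hC1.le) hC1.le
    rw [← mul_div_assoc, ← add_div, ← mul_div_assoc, ← add_div]
    apply div_le_div_of_nonneg_right _ (by positivity)
    nlinarith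
  rw [integral_add hT.1 (hD1.1.const_mul 2), integral_add hD.1 (hT1.1.const_mul 2),
    integral_const_mul, integral_const_mul, hD1.2, hT1.2, hT.2] at hcmp
  have hn' : (0 : ℝ) < (n : ℝ) + 1 := by positivity
  have e1 : (n : ℝ) / (n + 1) = 1 - 1 / (n + 1) := by field_simp; ring
  rw [e1] at hcmp
  unfold DD
  linarith

theorem tendsto_DD (h : IsLevels d P) :
    IntegrableOn (fun w : ℝ => (1 - surv d P w ^ 2) / w ^ 2) (Set.Ioi 0) ∧
    Tendsto (fun n => DD d P n) atTop (𝓝 (limitValue d P)) ∧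
    ∀ n, 1 ≤ n → DD d P n ≤ limitValue d P := by
  set f : ℕ → ℝ → ℝ := fun n w => (1 - Gs P w (n + 1) (d (n + 1)) ^ 2) / w ^ 2 with hf
  set F : ℝ → ℝ := fun w => (1 - surv d P w ^ 2) / w ^ 2 with hF
  have hint : ∀ n, IntegrableOn (f n) (Set.Ioi 0) := fun n =>
    (h.int_two (n + 1) (by omega) _ le_rfl).1
  have hmono : ∀ w ∈ Set.Ioi (0 : ℝ), Monotone fun n => f n w := by
    intro w hw
    have hw0 : (0 : ℝ) < w := hw
    intro a b hab
    simp only [hf]
    apply div_le_div_of_nonneg_right _ (by positivity)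
    have h1 := h.Gs_level_anti w hw0.le (Nat.add_le_add_right hab 1)
    simp only at h1
    have h2 := h.Gs_bd (b + 1) w hw0.le
    have h3 := pow_le_pow_left₀ h2.1 h1 2
    linarith
  have hlim : ∀ w ∈ Set.Ioi (0 : ℝ), Tendsto (fun n => f n w) atTop (𝓝 (F w)) := by
    intro w hw
    have hw0 : (0 : ℝ) < w := hw
    have h1 := (tendsto_add_atTop_iff_nat 1).2 (h.surv_tendsto w hw0.le)
    exact ((h1.pow 2).const_sub 1).div_const _
  have hnn : ∀ n, ∀ w ∈ Set.Ioi (0 : ℝ), 0 ≤ f n w := by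
    intro n w hw
    have hw0 : (0 : ℝ) < w := hw
    have h2 := h.Gs_bd (n + 1) w hw0.le
    have h3 := pow_le_one₀ (n := 2) h2.1 h2.2
    simp only [hf]
    apply div_nonneg _ (by positivity)
    linarith
  have hmonoae : ∀ᵐ w ∂(volume.restrict (Set.Ioi (0 : ℝ))), Monotone fun n => f n w := by
    filter_upwards [ae_restrict_mem measurableSet_Ioi] with w hw using hmono w hw
  have hlimae : ∀ᵐ w ∂(volume.restrict (Set.Ioi (0 : ℝ))),
      Tendsto (fun n => f n w) atTop (𝓝 (F w)) := by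
    filter_upwards [ae_restrict_mem measurableSet_Ioi] with w hw using hlim w hw
  have hFm : AEStronglyMeasurable F (volume.restrict (Set.Ioi (0 : ℝ))) :=
    aestronglyMeasurable_of_tendsto_ae atTop (fun n => (hint n).aestronglyMeasurable) hlimae
  have hFnn : 0 ≤ᵐ[volume.restrict (Set.Ioi (0 : ℝ))] F := by
    filter_upwards [ae_restrict_mem measurableSet_Ioi] with w hw
    exact ge_of_tendsto' (hlim w hw) fun n => hnn n w hw
  have hle : ∀ n, ∫ w in Set.Ioi (0 : ℝ), f n w ≤ 2 := by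
    intro n
    have := h.DD_le_one (n + 1) (by omega)
    unfold DD at this
    simp only [hf]
    linarith
  have hFint : IntegrableOn F (Set.Ioi 0) := by
    rw [IntegrableOn, ← lintegral_ofReal_ne_top_iff_integrable hFm hFnn]
    have h1 : Tendsto (fun n => ∫⁻ w in Set.Ioi (0 : ℝ), ENNReal.ofReal (f n w)) atTop
        (𝓝 (∫⁻ w in Set.Ioi (0 : ℝ), ENNReal.ofReal (F w))) := by
      apply lintegral_tendsto_of_tendsto_of_monotone
      · exact fun n => (hint n).aemeasurable.ennreal_ofReal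
      · filter_upwards [hmonoae] with w hw a b hab
        exact ENNReal.ofReal_le_ofReal (hw hab)
      · filter_upwards [hlimae] with w hw
        exact (ENNReal.continuous_ofReal.tendsto _).comp hw
    have h2 : ∀ n, ∫⁻ w in Set.Ioi (0 : ℝ), ENNReal.ofReal (f n w) ≤ ENNReal.ofReal 2 := by
      intro n
      rw [← ofReal_integral_eq_lintegral_ofReal (hint n)]
      · exact ENNReal.ofReal_le_ofReal (hle n)
      · filter_upwards [ae_restrict_mem measurableSet_Ioi] with w hw using hnn n w hw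
    exact ne_top_of_le_ne_top ENNReal.ofReal_ne_top (le_of_tendsto' h1 h2)
  have hconv := integral_tendsto_of_tendsto_of_monotone hint hFint hmonoae hlimae
  have hconv2 : Tendsto (fun n => DD d P (n + 1)) atTop (𝓝 (limitValue d P)) :=
    hconv.const_mul (1 / 2)
  refine ⟨hFint, (tendsto_add_atTop_iff_nat 1).1 hconv2, ?_⟩
  intro n hn
  obtain ⟨m, rfl⟩ : ∃ m, n = m + 1 := ⟨n - 1, by omega⟩
  have hm : Monotone fun n => DD d P (n + 1) := by
    intro a b hab
    unfold DD
    refine mul_le_mul_of_nonneg_left ?_ (by norm_num)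
    exact setIntegral_mono_on (hint a) (hint b) measurableSet_Ioi fun w hw => hmono w hw hab
  exact hm.ge_of_tendsto hconv2 m

/-- lower and upper bounds -/
theorem value_bounds (h : IsLevels d P) (n : ℕ) (hn : 1 ≤ n) :
    limitValue d P ≤ DD d P n + 1 / (n + 1) := by
  refine le_of_tendsto h.tendsto_DD.2.1 ?_
  filter_upwards [eventually_ge_atTop n] with m hm
  exact (h.DD_le_value m (by omega) (2 * m + 2) (by omega)).trans
    (h.value_le n hn (2 * m + 2) (by omega))

/-- the rate of convergence -/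
theorem value_rate (h : IsLevels d P) (n : ℕ) (hn : 1 ≤ n) (k : ℕ) (hk : 2 * n + 2 ≤ k) :
    |cryptoValue k - limitValue d P| ≤ 1 / (n + 1) := by
  have h1 := h.DD_le_value n hn k (by omega)
  have h2 := h.value_le n hn k hk
  have h3 := h.value_bounds n hn
  have h4 := h.tendsto_DD.2.2 n hn
  rw [abs_le]
  constructor <;> linarith

end IsLevels

end Pool.Agent.Helper92.Crypto
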