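import Mathlib
import Pool.Agent.Helper92.CryptoLag

/-!
# The stages of the lagging strategy
-/

namespace Pool.Agent.Helper92.Crypto

open Finset

variable {k : ℕ}

/-- probability that `n` suspects of relative level `s ≤ 1/(n-1)` can be raised until the
total level of all but one of them is at least `1` -/
noncomputable def pol (n : ℕ) (s : ℝ) : ℝ := 1 - (1 + s) ^ n + n * s * (1 + s) ^ (n - 1)

theorem pol_eq (n : ℕ) (hn : 1 ≤ n) (s : ℝ) :
    pol n s = 1 - (1 + s) ^ (n - 1) * (1 - ((n : ℝ) - 1) * s) := by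
  obtain ⟨m, rfl⟩ : ∃ m, n = m + 1 := ⟨n - 1, by omega⟩
  unfold pol
  rw [Nat.add_sub_cancel]
  push_cast
  ring

open Classical in
/-- truncated version of `pol` -/
noncomputable def G (n : ℕ) (s : ℝ) : ℝ := if 1 ≤ ((n : ℝ) - 1) * s then 1 else pol n s

theorem G_eq_pol (n : ℕ) (s : ℝ) (hs : 0 ≤ s) (h : ((n : ℝ) - 1) * s ≤ 1) :
    G n s = pol n s := by
  unfold G
  split_ifs with h1
  · have h2 : ((n : ℝ) - 1) * s = 1 := le_antisymm h h1
    rcases Nat.eq_zero_or_pos n with rfl | hn
    · push_cast at h2; linarith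
    · rw [pol_eq n hn, h2]; ring
  · rfl

theorem G_eq_one (n : ℕ) (s : ℝ) (h : 1 ≤ ((n : ℝ) - 1) * s) : G n s = 1 := by
  unfold G; rw [if_pos h]

theorem G_small (n : ℕ) (hn : n ≤ 1) (s : ℝ) (hs : 0 ≤ s) : G n s = 0 := by
  rcases Nat.eq_zero_or_pos n with rfl | h0
  · rw [G_eq_pol 0 s hs (by push_cast; linarith)]; simp [pol]
  · have : n = 1 := by omega
    subst this
    rw [G_eq_pol 1 s hs (by simp)]; simp [pol]

/-- the elementary lower bound for `pol` -/
noncomputable def phi (z : ℝ) : ℝ := 1 - Real.exp z * (1 - z)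

theorem phi_le_pol (n : ℕ) (hn : 1 ≤ n) (s : ℝ) (hs : 0 ≤ s) (h : ((n : ℝ) - 1) * s ≤ 1) :
    phi (((n : ℝ) - 1) * s) ≤ pol n s := by
  rw [pol_eq n hn, phi]
  have h1 : (1 + s) ^ (n - 1) ≤ Real.exp (((n : ℝ) - 1) * s) := by
    calc (1 + s) ^ (n - 1) ≤ (Real.exp s) ^ (n - 1) := by
          apply pow_le_pow_left₀ (by linarith)
          linarith [Real.add_one_le_exp s]
      _ = Real.exp (((n - 1 : ℕ) : ℝ) * s) := by rw [← Real.exp_nat_mul]
      _ = _ := by rw [Nat.cast_sub hn, Nat.cast_one]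
  have h2 : 0 ≤ 1 - ((n : ℝ) - 1) * s := by linarith
  nlinarith [mul_le_mul_of_nonneg_right h1 h2]

theorem pol_nonneg (n : ℕ) (s : ℝ) (hs : 0 ≤ s) : 0 ≤ pol n s := by
  rcases Nat.eq_zero_or_pos n with rfl | hn
  · simp [pol]
  · rw [pol_eq n hn]
    obtain ⟨m, rfl⟩ : ∃ m, n = m + 1 := ⟨n - 1, by omega⟩
    rw [Nat.add_sub_cancel]
    push_cast
    have : (1 + s) ^ m * (1 - m * s) ≤ 1 := by
      induction m with
      | zero => simp
      | succ m ih =>
        have ih' := ih (by omega)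
        push_cast
        have h1 : (1 + s) ^ (m + 1) * (1 - (m + 1) * s) =
            (1 + s) ^ m * (1 - m * s) - (1 + s) ^ m * ((m + 1) * s ^ 2) := by ring
        have h2 : 0 ≤ (1 + s) ^ m * ((m + 1) * s ^ 2) := by positivity
        linarith
    have h3 : ((m : ℝ) + 1 - 1) = m := by ring
    rw [h3]
    linarith

theorem pol_le_one (n : ℕ) (s : ℝ) (hs : 0 ≤ s) (h : ((n : ℝ) - 1) * s ≤ 1) : pol n s ≤ 1 := by
  rcases Nat.eq_zero_or_pos n with rfl | hn
  · simp [pol]
  · rw [pol_eq n hn]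
    have : 0 ≤ (1 + s) ^ (n - 1) * (1 - ((n : ℝ) - 1) * s) :=
      mul_nonneg (pow_nonneg (by linarith) _) (by linarith)
    linarith

theorem G_nonneg (n : ℕ) (s : ℝ) (hs : 0 ≤ s) : 0 ≤ G n s := by
  unfold G; split_ifs; exacts [zero_le_one, pol_nonneg n s hs]

theorem G_le_one (n : ℕ) (s : ℝ) (hs : 0 ≤ s) : G n s ≤ 1 := by
  unfold G
  split_ifs with h
  · exact le_rfl
  · exact pol_le_one n s hs (le_of_lt (not_le.mp h))

/-- `pol` is a martingale under raising the level. -/
theorem sum_pol (n : ℕ) (r s : ℝ) :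
    ∑ j ∈ range (n + 1), (n.choose j : ℝ) * (r ^ j * (1 - r) ^ (n - j) * pol j s) =
      pol n (r * s) := by
  have h1 : ∑ j ∈ range (n + 1), (n.choose j : ℝ) * (r ^ j * (1 - r) ^ (n - j)) = 1 := by
    have := add_pow r (1 - r) n
    rw [add_sub_cancel, one_pow] at this
    refine (Finset.sum_congr rfl fun j _ => ?_).trans this.symm
    ring
  have h2 : ∑ j ∈ range (n + 1), (n.choose j : ℝ) * (r ^ j * (1 - r) ^ (n - j) * (1 + s) ^ j) =
      (1 + r * s) ^ n := by
    have := add_pow (r * (1 + s)) (1 - r) n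
    have e : r * (1 + s) + (1 - r) = 1 + r * s := by ring
    rw [e] at this
    refine (Finset.sum_congr rfl fun j _ => ?_).trans this.symm
    rw [mul_pow]
    ring
  have h3 : ∑ j ∈ range (n + 1), (n.choose j : ℝ) * (r ^ j * (1 - r) ^ (n - j) *
      (j * (1 + s) ^ (j - 1))) = n * r * (1 + r * s) ^ (n - 1) := by
    rcases Nat.eq_zero_or_pos n with rfl | hn
    · simp
    obtain ⟨m, rfl⟩ : ∃ m, n = m + 1 := ⟨n - 1, by omega⟩
    rw [Finset.sum_range_succ']
    simp only [Nat.cast_zero, zero_mul, mul_zero, add_zero, Nat.add_sub_cancel]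
    have := add_pow (r * (1 + s)) (1 - r) m
    have e : r * (1 + s) + (1 - r) = 1 + r * s := by ring
    rw [e] at this
    rw [this, Finset.mul_sum]
    refine Finset.sum_congr rfl fun j hj => ?_
    have hc : ((m + 1).choose (j + 1) : ℝ) * ((j : ℝ) + 1) = ((m : ℝ) + 1) * (m.choose j : ℝ) := by
      have := Nat.add_one_mul_choose_eq m j
      have h' : (((m + 1) * m.choose j : ℕ) : ℝ) = (((m + 1).choose (j + 1) * (j + 1) : ℕ) : ℝ) := by
        rw [this]
      push_cast at h'
      linarith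
    have e2 : m + 1 - (j + 1) = m - j := by omega
    rw [e2, mul_pow, pow_succ]
    push_cast
    linear_combination (r ^ j * r * (1 - r) ^ (m - j) * (1 + s) ^ j) * hc
  unfold pol
  have : ∀ j ∈ range (n + 1), (n.choose j : ℝ) * (r ^ j * (1 - r) ^ (n - j) *
      (1 - (1 + s) ^ j + j * s * (1 + s) ^ (j - 1))) =
      (n.choose j : ℝ) * (r ^ j * (1 - r) ^ (n - j)) -
      (n.choose j : ℝ) * (r ^ j * (1 - r) ^ (n - j) * (1 + s) ^ j) +
      s * ((n.choose j : ℝ) * (r ^ j * (1 - r) ^ (n - j) * (j * (1 + s) ^ (j - 1)))) := by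
    intro j _; ring
  rw [Finset.sum_congr rfl this, Finset.sum_add_distrib, Finset.sum_sub_distrib, h1, h2,
    ← Finset.mul_sum, h3]
  ring

/-- the lower bound of stage `l` -/
noncomputable def Lb (τ : ℕ → ℝ) (N l n m : ℕ) (x y : ℝ) : ℝ :=
  τ l + ∑ i ∈ Ico l N, (τ (i + 1) - τ i) * (G n (x / τ (i + 1)) * G m (y / τ (i + 1)))

theorem Lb_succ_le (τ : ℕ → ℝ) (hτ : Monotone τ) (h0 : ∀ i, 0 < τ i) (N l n m : ℕ) (hl : l < N)
    (x y : ℝ) (hx : 0 ≤ x) (hy : 0 ≤ y) : Lb τ N l n m x y ≤ Lb τ N (l + 1) n m x y := by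
  unfold Lb
  rw [Finset.sum_eq_sum_Ico_succ_bot hl]
  have h1 : G n (x / τ (l + 1)) * G m (y / τ (l + 1)) ≤ 1 :=
    mul_le_one₀ (G_le_one _ _ (div_nonneg hx (h0 _).le)) (G_nonneg _ _ (div_nonneg hy (h0 _).le))
      (G_le_one _ _ (div_nonneg hy (h0 _).le))
  have h2 : 0 ≤ τ (l + 1) - τ l := sub_nonneg.mpr (hτ (Nat.le_succ l))
  nlinarith [mul_le_mul_of_nonneg_left h1 h2]

theorem sum_powerset_card (S : Finset (Fin k)) (r : ℝ) (f : ℕ → ℝ) :
    ∑ U ∈ S.powerset, r ^ #U * (1 - r) ^ (#S - #U) * f #U =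
      ∑ j ∈ range (#S + 1), (#S).choose j * (r ^ j * (1 - r) ^ (#S - j) * f j) := by
  have := Finset.sum_powerset_apply_card (fun j => r ^ j * (1 - r) ^ (#S - j) * f j) (x := S)
  rw [this]
  refine Finset.sum_congr rfl fun j _ => ?_
  simp [nsmul_eq_mul]

/-- Raising `n` suspects of level `x` to the level `τ (l+1) / (n-1)` keeps `Lb`. -/
theorem sum_Lb_left (τ : ℕ → ℝ) (hτ : Monotone τ) (h0 : ∀ i, 0 < τ i) (N l : ℕ)
    (S : Finset (Fin k)) (hS : 2 ≤ #S) (m : ℕ) (x x' y : ℝ) (hx : 0 < x)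
    (hx' : x' = τ (l + 1) / ((#S : ℝ) - 1)) (hxx : x ≤ x') :
    ∑ U ∈ S.powerset, (x / x') ^ #U * (1 - x / x') ^ (#S - #U) * Lb τ N l #U m x' y =
      Lb τ N l #S m x y := by
  have hS' : (2 : ℝ) ≤ #S := by exact_mod_cast hS
  have hS1 : (0 : ℝ) < (#S : ℝ) - 1 := by linarith
  have hx'0 : 0 < x' := lt_of_lt_of_le hx hxx
  have e1 : ∑ j ∈ range (#S + 1), ((#S).choose j : ℝ) *
      ((x / x') ^ j * (1 - x / x') ^ (#S - j)) = 1 := by
    have := add_pow (x / x') (1 - x / x') #S
    rw [add_sub_cancel, one_pow] at this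
    refine (Finset.sum_congr rfl fun j _ => ?_).trans this.symm
    ring
  rw [sum_powerset_card S (x / x') (fun j => Lb τ N l j m x' y)]
  unfold Lb
  have e2 : ∀ j ∈ range (#S + 1), ((#S).choose j : ℝ) * ((x / x') ^ j * (1 - x / x') ^ (#S - j) *
      (τ l + ∑ i ∈ Ico l N, (τ (i + 1) - τ i) * (G j (x' / τ (i + 1)) * G m (y / τ (i + 1))))) =
      τ l * (((#S).choose j : ℝ) * ((x / x') ^ j * (1 - x / x') ^ (#S - j))) +
      ∑ i ∈ Ico l N, (τ (i + 1) - τ i) * G m (y / τ (i + 1)) *
        (((#S).choose j : ℝ) * ((x / x') ^ j * (1 - x / x') ^ (#S - j) *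
          pol j (x' / τ (i + 1)))) := by
    intro j hj
    have hj' : j ≤ #S := by have := mem_range.mp hj; omega
    have : ∀ i ∈ Ico l N, (τ (i + 1) - τ i) * (G j (x' / τ (i + 1)) * G m (y / τ (i + 1))) =
        (τ (i + 1) - τ i) * (pol j (x' / τ (i + 1)) * G m (y / τ (i + 1))) := by
      intro i hi
      have hli : l ≤ i := (mem_Ico.mp hi).1
      rw [G_eq_pol _ _ (div_nonneg hx'0.le (h0 _).le)]
      have hjr : (j : ℝ) ≤ #S := by exact_mod_cast hj'
      have h3 : ((j : ℝ) - 1) * (x' / τ (i + 1)) ≤ ((#S : ℝ) - 1) * (x' / τ (i + 1)) :=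
        mul_le_mul_of_nonneg_right (by linarith) (div_nonneg hx'0.le (h0 _).le)
      refine le_trans h3 ?_
      rw [hx']
      have h4 : ((#S : ℝ) - 1) * (τ (l + 1) / ((#S : ℝ) - 1) / τ (i + 1)) =
          τ (l + 1) / τ (i + 1) := by field_simp
      rw [h4]
      exact div_le_one_of_le₀ (hτ (by omega)) (h0 _).le
    rw [Finset.sum_congr rfl this, mul_add, mul_add, Finset.mul_sum, Finset.mul_sum]
    congr 1
    · ring
    · refine Finset.sum_congr rfl fun i _ => ?_
      ring
  rw [Finset.sum_congr rfl e2, Finset.sum_add_distrib, ← Finset.mul_sum, e1, mul_one,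
    Finset.sum_comm]
  congr 1
  refine Finset.sum_congr rfl fun i hi => ?_
  have hli : l ≤ i := (mem_Ico.mp hi).1
  rw [← Finset.mul_sum, sum_pol, G_eq_pol #S (x / τ (i + 1)) (div_nonneg hx.le (h0 _).le)]
  · have : x / x' * (x' / τ (i + 1)) = x / τ (i + 1) := by
      field_simp
    rw [this]
    ring
  · have h3 : ((#S : ℝ) - 1) * (x / τ (i + 1)) ≤ ((#S : ℝ) - 1) * (x' / τ (i + 1)) :=
      mul_le_mul_of_nonneg_left (div_le_div_of_nonneg_right hxx (h0 _).le) hS1.le
    refine le_trans h3 ?_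
    rw [hx']
    have h4 : ((#S : ℝ) - 1) * (τ (l + 1) / ((#S : ℝ) - 1) / τ (i + 1)) =
        τ (l + 1) / τ (i + 1) := by field_simp
    rw [h4]
    exact div_le_one_of_le₀ (hτ (by omega)) (h0 _).le

theorem Lb_comm (τ : ℕ → ℝ) (N l n m : ℕ) (x y : ℝ) : Lb τ N l n m x y = Lb τ N l m n y x := by
  unfold Lb
  congr 1
  refine Finset.sum_congr rfl fun i _ => ?_
  ring

/-- **The lagging strategy.** -/
theorem lagging (hk : 0 < k) (τ : ℕ → ℝ) (hτ : Monotone τ) (h0 : ∀ i, 0 < τ i) (N : ℕ) :
    ∀ d l : ℕ, l + d = N → ∀ c : ℕ, ∀ (S T : Finset (Fin k)) (x y : ℝ), #S + #T ≤ c →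
      0 < x → 0 < y → (τ l ≤ ((#S : ℝ) - 1) * x ∨ τ l ≤ ((#T : ℝ) - 1) * y) →
      Lb τ N l #S #T x y ≤ val (lev S x) (lev T y) := by
  intro d
  induction d with
  | zero =>
    intro l hl c S T x y _ hx hy h
    have : l = N := by omega
    subst this
    unfold Lb
    rw [Finset.Ico_self, Finset.sum_empty, add_zero]
    rcases h with h | h
    · exact le_trans h (stop_lev_left hk S T x y hx.le hy.le)
    · exact le_trans h (stop_lev_right hk S T x y hx.le hy.le)
  | succ d ihd =>
    intro l hl c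
    have hlN : l < N := by omega
    -- the case in which the next stage is already reached
    have up : ∀ (S T : Finset (Fin k)) (x y : ℝ), 0 < x → 0 < y →
        (τ (l + 1) ≤ ((#S : ℝ) - 1) * x ∨ τ (l + 1) ≤ ((#T : ℝ) - 1) * y) →
        Lb τ N l #S #T x y ≤ val (lev S x) (lev T y) := by
      intro S T x y hx hy h
      exact le_trans (Lb_succ_le τ hτ h0 N l _ _ hlN x y hx.le hy.le)
        (ihd (l + 1) (by omega) (#S + #T) S T x y le_rfl hx hy h)
    induction c with
    | zero =>
      intro S T x y hc hx hy h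
      have h1 : #S = 0 := by omega
      have h2 : #T = 0 := by omega
      rw [h1, h2] at h
      have := h0 l
      rcases h with h | h <;> push_cast at h <;> linarith
    | succ c ihc =>
      intro S T x y hc hx hy h
      by_cases hup : τ (l + 1) ≤ ((#S : ℝ) - 1) * x ∨ τ (l + 1) ≤ ((#T : ℝ) - 1) * y
      · exact up S T x y hx hy hup
      push Not at hup
      obtain ⟨hu1, hu2⟩ := hup
      rcases h with h | h
      · -- type `false` leads, raise `T`
        rcases Nat.lt_or_ge #T 2 with hT | hT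
        · have : Lb τ N l #S #T x y = τ l := by
            unfold Lb
            rw [Finset.sum_eq_zero, add_zero]
            intro i _
            rw [G_small #T (by omega) _ (div_nonneg hy.le (h0 _).le)]
            ring
          rw [this]
          exact le_trans h (stop_lev_left hk S T x y hx.le hy.le)
        · have hT' : (2 : ℝ) ≤ #T := by exact_mod_cast hT
          have hT1 : (0 : ℝ) < (#T : ℝ) - 1 := by linarith
          set y' := τ (l + 1) / ((#T : ℝ) - 1) with hy'
          have hyy : y ≤ y' := by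
            rw [hy', le_div_iff₀ hT1]; linarith
          have hy'0 : 0 < y' := lt_of_lt_of_le hy hyy
          refine le_trans ?_ (raise_right hk T y y' hy.le hy'0 hyy _ (lev_nonneg S x hx.le))
          rw [Lb_comm, ← sum_Lb_left τ hτ h0 N l T hT #S y y' x hy hy' hyy]
          refine Finset.sum_le_sum fun U hU => ?_
          have hUT : U ⊆ T := mem_powerset.mp hU
          have hw : 0 ≤ (y / y') ^ #U * (1 - y / y') ^ (#T - #U) := by
            have : y / y' ≤ 1 := div_le_one_of_le₀ hyy hy'0.le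
            exact mul_nonneg (pow_nonneg (div_nonneg hy.le hy'0.le) _)
              (pow_nonneg (by linarith) _)
          refine mul_le_mul_of_nonneg_left ?_ hw
          rw [Lb_comm]
          by_cases hUe : U = T
          · subst hUe
            apply up S U x y' hx hy'0
            right
            rw [hy']
            have : ((#U : ℝ) - 1) * (τ (l + 1) / ((#U : ℝ) - 1)) = τ (l + 1) := by
              field_simp
            rw [this]
          · have hlt : #U < #T := card_lt_card (Finset.ssubset_iff_subset_ne.mpr ⟨hUT, hUe⟩)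
            exact ihc S U x y' (by omega) hx hy'0 (Or.inl h)
      · -- type `true` leads, raise `S`
        rcases Nat.lt_or_ge #S 2 with hS | hS
        · have : Lb τ N l #S #T x y = τ l := by
            unfold Lb
            rw [Finset.sum_eq_zero, add_zero]
            intro i _
            rw [G_small #S (by omega) _ (div_nonneg hx.le (h0 _).le)]
            ring
          rw [this]
          exact le_trans h (stop_lev_right hk S T x y hx.le hy.le)
        · have hS' : (2 : ℝ) ≤ #S := by exact_mod_cast hS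
          have hS1 : (0 : ℝ) < (#S : ℝ) - 1 := by linarith
          set x' := τ (l + 1) / ((#S : ℝ) - 1) with hx'
          have hxx : x ≤ x' := by
            rw [hx', le_div_iff₀ hS1]; linarith
          have hx'0 : 0 < x' := lt_of_lt_of_le hx hxx
          refine le_trans ?_ (raise_left hk S x x' hx.le hx'0 hxx _ (lev_nonneg T y hy.le))
          rw [← sum_Lb_left τ hτ h0 N l S hS #T x x' y hx hx' hxx]
          refine Finset.sum_le_sum fun U hU => ?_
          have hUS : U ⊆ S := mem_powerset.mp hU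
          have hw : 0 ≤ (x / x') ^ #U * (1 - x / x') ^ (#S - #U) := by
            have : x / x' ≤ 1 := div_le_one_of_le₀ hxx hx'0.le
            exact mul_nonneg (pow_nonneg (div_nonneg hx.le hx'0.le) _)
              (pow_nonneg (by linarith) _)
          refine mul_le_mul_of_nonneg_left ?_ hw
          by_cases hUe : U = S
          · subst hUe
            apply up U T x' y hx'0 hy
            left
            rw [hx']
            have : ((#U : ℝ) - 1) * (τ (l + 1) / ((#U : ℝ) - 1)) = τ (l + 1) := by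
              field_simp
            rw [this]
          · have hlt : #U < #S := card_lt_card (Finset.ssubset_iff_subset_ne.mpr ⟨hUS, hUe⟩)
            exact ihc U T x' y (by omega) hx'0 hy (Or.inr h)

end Pool.Agent.Helper92.Crypto
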