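import Mathlib
import Pool.Agent.Helper92.CryptoStage

/-!
# Lower bound for many players

`liminf s_k ≥ (3 - (e - 2) ^ 2) / 4 = 0.62101...`
-/

namespace Pool.Agent.Helper92.CryptoLowerE

open Finset Pool.Agent.Helper92.Crypto

variable {k : ℕ}

theorem start (hk : 0 < k) :
    ∑ T ∈ (univ : Finset (Fin k)).powerset, (1 / 2 : ℝ) ^ k * val (lev T 2) (lev Tᶜ 2) ≤
      val (k := k) (fun _ => 1) (fun _ => 1) := by
  have h := val_split hk (1 / 2) (by norm_num) (by norm_num) (fun _ => 2) (fun _ => 0)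
    (fun _ => 0) (fun _ => 2) (fun _ => by norm_num) (fun _ => le_rfl) (fun _ => le_rfl)
    (fun _ => by norm_num) (univ : Finset (Fin k)) (fun _ => 1) (fun _ => 1)
    (fun _ => zero_le_one) (fun _ => zero_le_one) (fun _ _ => by norm_num)
    (fun _ _ => by norm_num)
  refine le_trans (le_of_eq ?_) h
  refine Finset.sum_congr rfl fun T hT => ?_
  have hc : #T ≤ k := by
    have := card_le_univ T
    simpa using this
  have h1 : (1 / 2 : ℝ) ^ #T * (1 - 1 / 2) ^ (#(univ : Finset (Fin k)) - #T) = (1 / 2) ^ k := by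
    have : (1 - 1 / 2 : ℝ) = 1 / 2 := by norm_num
    rw [this, ← pow_add, card_univ, Fintype.card_fin]
    congr 1
    omega
  rw [h1]
  congr 2
  · funext i
    simp [lev]
  · funext i
    unfold lev
    by_cases hi : i ∈ T <;> simp [hi]

theorem sum_var : ∑ T ∈ (univ : Finset (Fin k)).powerset,
    (1 / 2 : ℝ) ^ k * ((#T : ℝ) - (k : ℝ) / 2) ^ 2 = (k : ℝ) / 4 := by
  have h1 := Finset.sum_powerset_apply_card
    (fun j : ℕ => (1 / 2 : ℝ) ^ k * ((j : ℝ) - (k : ℝ) / 2) ^ 2) (x := (univ : Finset (Fin k)))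
  rw [h1, card_univ, Fintype.card_fin]
  have h2 := congr_arg (Polynomial.eval (1 / 2 : ℝ)) (bernsteinPolynomial.variance ℝ k)
  rw [Polynomial.eval_finsetSum] at h2
  have h3 : ∀ j ∈ range (k + 1), (k.choose j) • ((1 / 2 : ℝ) ^ k * ((j : ℝ) - k / 2) ^ 2) =
      Polynomial.eval (1 / 2 : ℝ) ((k • Polynomial.X - (j : Polynomial ℝ)) ^ 2 *
        bernsteinPolynomial ℝ k j) := by
    intro j hj
    have hj' : j ≤ k := by have := mem_range.mp hj; omega
    have : (1 / 2 : ℝ) ^ k = (1 / 2) ^ j * (1 / 2) ^ (k - j) := by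
      rw [← pow_add]; congr 1; omega
    rw [this]
    have e : (1 - 1 / 2 : ℝ) = 1 / 2 := by norm_num
    simp only [bernsteinPolynomial, nsmul_eq_mul, Polynomial.eval_mul, Polynomial.eval_pow,
      Polynomial.eval_sub, Polynomial.eval_natCast, Polynomial.eval_X, Polynomial.eval_one]
    rw [e]
    ring
  rw [Finset.sum_congr rfl h3, h2]
  simp only [nsmul_eq_mul, Polynomial.eval_mul, Polynomial.eval_sub, Polynomial.eval_natCast,
    Polynomial.eval_X, Polynomial.eval_one]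
  ring

theorem hasDerivAt_phi (z : ℝ) : HasDerivAt phi (z * Real.exp z) z := by
  unfold phi
  have h := ((Real.hasDerivAt_exp z).mul ((hasDerivAt_id z).const_sub 1)).const_sub 1
  refine h.congr_deriv ?_
  simp
  ring

theorem phi_mono {a b : ℝ} (ha : 0 ≤ a) (hab : a ≤ b) : phi a ≤ phi b := by
  have hm : MonotoneOn phi (Set.Ici 0) := by
    apply monotoneOn_of_deriv_nonneg (convex_Ici 0)
    · exact fun z _ => (hasDerivAt_phi z).continuousAt.continuousWithinAt
    · exact fun z _ => (hasDerivAt_phi z).differentiableAt.differentiableWithinAt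
    · intro z hz
      rw [(hasDerivAt_phi z).deriv]
      rw [interior_Ici] at hz
      exact mul_nonneg (le_of_lt hz) (Real.exp_pos z).le
  exact hm ha (le_trans ha hab) hab

theorem phi_zero : phi 0 = 0 := by simp [phi]

theorem phi_nonneg {a : ℝ} (ha : 0 ≤ a) : 0 ≤ phi a := by
  have := phi_mono le_rfl ha
  rwa [phi_zero] at this

theorem phi_le_one {a : ℝ} (ha : a ≤ 1) : phi a ≤ 1 := by
  unfold phi
  have : 0 ≤ Real.exp a * (1 - a) := mul_nonneg (Real.exp_pos a).le (by linarith)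
  linarith

theorem phi_le_G (n : ℕ) (hn : 1 ≤ n) (s z : ℝ) (hs : 0 ≤ s) (hz : 0 ≤ z) (hz1 : z ≤ 1)
    (hzs : z ≤ ((n : ℝ) - 1) * s) : phi z ≤ G n s := by
  by_cases h : 1 ≤ ((n : ℝ) - 1) * s
  · rw [G_eq_one n s h]; exact phi_le_one hz1
  · push Not at h
    rw [G_eq_pol n s hs h.le]
    exact le_trans (phi_mono hz hzs) (phi_le_pol n hn s hs h.le)

/-- antiderivative of `phi (1/t) ^ 2` -/
noncomputable def F (t : ℝ) : ℝ :=
  t * phi t⁻¹ ^ 2 - 2 * (Real.exp t⁻¹ + (t⁻¹ - 1) * Real.exp (2 * t⁻¹) / 2 -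
    Real.exp (2 * t⁻¹) / 4)

theorem hasDerivAt_F (t : ℝ) (ht : 0 < t) : HasDerivAt F (phi t⁻¹ ^ 2) t := by
  have hi := hasDerivAt_inv ht.ne'
  have h1 : HasDerivAt (fun t : ℝ => phi t⁻¹) (t⁻¹ * Real.exp t⁻¹ * -(t ^ 2)⁻¹) t :=
    (hasDerivAt_phi t⁻¹).comp t hi
  have h2 : HasDerivAt (fun t : ℝ => Real.exp t⁻¹) (Real.exp t⁻¹ * -(t ^ 2)⁻¹) t :=
    (Real.hasDerivAt_exp t⁻¹).comp t hi
  have h3 : HasDerivAt (fun t : ℝ => Real.exp (2 * t⁻¹))
      (Real.exp (2 * t⁻¹) * (2 * -(t ^ 2)⁻¹)) t :=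
    (hi.const_mul 2).exp
  have h4 := ((hasDerivAt_id t).mul (h1.pow 2)).sub
    (((h2.add (((hi.sub_const 1).mul h3).div_const 2)).sub (h3.div_const 4)).const_mul 2)
  refine (h4.congr_deriv ?_)
  have e : Real.exp (2 * t⁻¹) = Real.exp t⁻¹ ^ 2 := by
    rw [← Real.exp_nat_mul]; norm_num
  have ht' : t ≠ 0 := ht.ne'
  simp only [id, e, phi, Pi.pow_apply, Nat.cast_ofNat, Nat.add_one_sub_one, pow_one]
  field_simp
  ring

theorem F_step {a b : ℝ} (ha : 1 ≤ a) (hab : a ≤ b) : F b - F a ≤ (b - a) * phi a⁻¹ ^ 2 := by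
  rcases eq_or_lt_of_le hab with h | h
  · subst h; simp
  · obtain ⟨c, hc, hcd⟩ := exists_hasDerivAt_eq_slope F (fun t => phi t⁻¹ ^ 2) h
      (fun t ht => (hasDerivAt_F t (by linarith [ht.1])).continuousAt.continuousWithinAt)
      (fun t ht => hasDerivAt_F t (by linarith [ht.1]))
    have hba : 0 < b - a := by linarith
    have h1 : F b - F a = (b - a) * phi c⁻¹ ^ 2 := by
      rw [hcd]; field_simp
    rw [h1]
    have hc0 : 0 < c := by linarith [hc.1]
    have h2 : phi c⁻¹ ≤ phi a⁻¹ :=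
      phi_mono (inv_nonneg.mpr hc0.le) (inv_anti₀ (by linarith) hc.1.le)
    have h3 : 0 ≤ phi c⁻¹ := phi_nonneg (inv_nonneg.mpr hc0.le)
    exact mul_le_mul_of_nonneg_left (pow_le_pow_left₀ h3 h2 2) hba.le

/-- the lower Riemann sum -/
theorem riemann (h : ℝ) (hh : 0 < h) (N : ℕ) :
    F (1 + (N + 1) * h) - F (1 + h) ≤
      ∑ i ∈ range N, h * phi (1 + ((i : ℝ) + 1) * h)⁻¹ ^ 2 := by
  induction N with
  | zero => simp
  | succ N ih =>
    rw [Finset.sum_range_succ]
    have := F_step (a := 1 + ((N : ℝ) + 1) * h) (b := 1 + (((N + 1 : ℕ) : ℝ) + 1) * h)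
      (by have : 0 ≤ ((N : ℝ) + 1) * h := by positivity
          linarith) (by push_cast; nlinarith)
    have e : (1 + (((N + 1 : ℕ) : ℝ) + 1) * h) - (1 + ((N : ℝ) + 1) * h) = h := by
      push_cast; ring
    rw [e] at this
    linarith

theorem main_bound (hk : 0 < k) (h δ : ℝ) (hh : 0 < h) (N : ℕ) (hδ : 0 < δ) (hδ1 : δ < 1)
    (hkδ : 1 < δ * k / 2) :
    (1 - δ) * (1 + (F (1 + (N + 1) * h) - F (1 + h))) / 2 *
      (1 - (k / 4) / (δ * k / 2 - 1) ^ 2) ≤ cryptoValue k ∨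
      (1 - δ) * (1 + (F (1 + (N + 1) * h) - F (1 + h))) < 0 := by
  by_cases hA : (1 - δ) * (1 + (F (1 + (N + 1) * h) - F (1 + h))) < 0
  · exact Or.inr hA
  left
  push Not at hA
  have hk' : (0 : ℝ) < k := by exact_mod_cast hk
  set A : ℝ := 1 + (F (1 + (N + 1) * h) - F (1 + h)) with hAdef
  set c : ℝ := (1 - δ) * k with hc
  have hc0 : 0 < c := mul_pos (by linarith) hk'
  set τ : ℕ → ℝ := fun i => c * (1 + i * h) with hτ
  have hτm : Monotone τ := by
    intro i j hij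
    have : (i : ℝ) ≤ j := by exact_mod_cast hij
    exact mul_le_mul_of_nonneg_left (by nlinarith) hc0.le
  have hτ0 : ∀ i, 0 < τ i := fun i => by positivity
  set g : ℝ := δ * k / 2 - 1 with hg
  have hg0 : 0 < g := by linarith
  have hcA : 0 ≤ c * A := by
    have : c * A = k * ((1 - δ) * A) := by rw [hc]; ring
    rw [this]; exact mul_nonneg hk'.le hA
  -- the bound for each announcement
  have hT : ∀ T : Finset (Fin k), c * A * (1 - ((#T : ℝ) - k / 2) ^ 2 / g ^ 2) ≤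
      val (lev T 2) (lev Tᶜ 2) := by
    intro T
    have hcc : (#Tᶜ : ℝ) = k - #T := by
      rw [card_compl, Fintype.card_fin, Nat.cast_sub]
      have := card_le_univ T
      simpa using this
    by_cases hgood : c ≤ ((#T : ℝ) - 1) * 2 ∧ c ≤ ((#Tᶜ : ℝ) - 1) * 2
    · obtain ⟨g1, g2⟩ := hgood
      have hT1 : 1 ≤ #T := by
        by_contra hcon
        have : #T = 0 := by omega
        rw [this] at g1; push_cast at g1; linarith
      have hT2 : 1 ≤ #Tᶜ := by
        by_contra hcon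
        have : #Tᶜ = 0 := by omega
        rw [this] at g2; push_cast at g2; linarith
      have hlag := lagging hk τ hτm hτ0 N N 0 (by omega) (#T + #Tᶜ) T Tᶜ 2 2 le_rfl
        (by norm_num) (by norm_num) (Or.inl (by simp only [hτ]; push_cast; linarith))
      refine le_trans ?_ hlag
      have h1 : c * A ≤ Lb τ N 0 #T #Tᶜ 2 2 := by
        unfold Lb
        have hr := riemann h hh N
        have : c * A ≤ c * (1 + ∑ i ∈ range N, h * phi (1 + ((i : ℝ) + 1) * h)⁻¹ ^ 2) :=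
          mul_le_mul_of_nonneg_left (by rw [hAdef]; linarith) hc0.le
        refine le_trans this ?_
        rw [mul_add, Finset.mul_sum]
        have e0 : τ 0 = c * 1 := by simp [hτ]
        rw [e0, ← Finset.range_eq_Ico]
        refine add_le_add le_rfl (Finset.sum_le_sum fun i _ => ?_)
        have e1 : τ (i + 1) - τ i = c * h := by
          simp only [hτ]; push_cast; ring
        rw [e1, pow_two]
        have ht1 : 1 ≤ 1 + ((i : ℝ) + 1) * h := by
          have : 0 ≤ ((i : ℝ) + 1) * h := by positivity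
          linarith
        have ht0 : 0 < 1 + ((i : ℝ) + 1) * h := by linarith
        have e2 : τ (i + 1) = c * (1 + ((i : ℝ) + 1) * h) := by
          simp only [hτ]; push_cast; ring
        have b : ∀ n : ℕ, 1 ≤ n → c ≤ ((n : ℝ) - 1) * 2 →
            phi (1 + ((i : ℝ) + 1) * h)⁻¹ ≤ G n (2 / τ (i + 1)) := by
          intro n hn hcn
          apply phi_le_G n hn
          · exact div_nonneg (by norm_num) (hτ0 _).le
          · exact inv_nonneg.mpr ht0.le
          · exact inv_le_one_of_one_le₀ ht1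
          · rw [e2, inv_eq_one_div, div_le_iff₀ ht0]
            have : ((n : ℝ) - 1) * (2 / (c * (1 + ((i : ℝ) + 1) * h))) *
                (1 + ((i : ℝ) + 1) * h) = ((n : ℝ) - 1) * 2 / c := by
              field_simp
            rw [this, le_div_iff₀ hc0]
            linarith
        have hp0 : 0 ≤ phi (1 + ((i : ℝ) + 1) * h)⁻¹ := phi_nonneg (inv_nonneg.mpr ht0.le)
        have := mul_le_mul (b #T hT1 g1) (b #Tᶜ hT2 g2) hp0
          (G_nonneg _ _ (div_nonneg (by norm_num) (hτ0 _).le))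
        calc c * (h * (phi (1 + ((i : ℝ) + 1) * h)⁻¹ * phi (1 + ((i : ℝ) + 1) * h)⁻¹)) =
            c * h * (phi (1 + ((i : ℝ) + 1) * h)⁻¹ * phi (1 + ((i : ℝ) + 1) * h)⁻¹) := by ring
          _ ≤ _ := mul_le_mul_of_nonneg_left this (by positivity)
      refine le_trans ?_ h1
      have : 0 ≤ ((#T : ℝ) - k / 2) ^ 2 / g ^ 2 := by positivity
      nlinarith
    · have hbad : g ^ 2 ≤ ((#T : ℝ) - k / 2) ^ 2 := by
        rw [not_and_or] at hgood
        rcases hgood with hb | hb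
        · push Not at hb
          have : g ≤ k / 2 - #T := by rw [hg]; rw [hc] at hb; nlinarith
          nlinarith
        · push Not at hb
          rw [hcc] at hb
          have : g ≤ #T - k / 2 := by rw [hg]; rw [hc] at hb; nlinarith
          nlinarith
      have h1 : 1 ≤ ((#T : ℝ) - k / 2) ^ 2 / g ^ 2 := by
        rw [le_div_iff₀ (by positivity)]; linarith
      have h2 : 0 ≤ val (lev T 2) (lev Tᶜ 2) :=
        val_nonneg hk _ _ (lev_nonneg T 2 (by norm_num)) (lev_nonneg Tᶜ 2 (by norm_num))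
      have h3 : c * A * (1 - ((#T : ℝ) - k / 2) ^ 2 / g ^ 2) ≤ 0 :=
        mul_nonpos_of_nonneg_of_nonpos hcA (by linarith)
      linarith
  have hsum : c * A * (1 - (k / 4) / g ^ 2) ≤ val (k := k) (fun _ => 1) (fun _ => 1) := by
    refine le_trans ?_ (start hk)
    refine le_trans ?_ (Finset.sum_le_sum fun T _ =>
      mul_le_mul_of_nonneg_left (hT T) (by positivity))
    have e1 : ∑ T ∈ (univ : Finset (Fin k)).powerset, (1 / 2 : ℝ) ^ k = 1 := by
      rw [Finset.sum_const, card_powerset, card_univ, Fintype.card_fin, nsmul_eq_mul]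
      push_cast
      rw [← mul_pow]; norm_num
    have e2 : ∀ T ∈ (univ : Finset (Fin k)).powerset,
        (1 / 2 : ℝ) ^ k * (c * A * (1 - ((#T : ℝ) - k / 2) ^ 2 / g ^ 2)) =
        c * A * (1 / 2 : ℝ) ^ k - c * A / g ^ 2 * ((1 / 2 : ℝ) ^ k * ((#T : ℝ) - k / 2) ^ 2) := by
      intro T _
      field_simp
    rw [Finset.sum_congr rfl e2, Finset.sum_sub_distrib, ← Finset.mul_sum, ← Finset.mul_sum, e1,
      sum_var]
    apply le_of_eq
    field_simp
  rw [cryptoValue_eq_val]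
  have h5 : (1 - δ) * A / 2 * (1 - k / 4 / g ^ 2) =
      1 / (2 * k) * (c * A * (1 - (k / 4) / g ^ 2)) := by
    rw [hc]
    field_simp
  rw [h5]
  exact mul_le_mul_of_nonneg_left hsum (by positivity)

theorem F_one : F 1 = 1 - 2 * Real.exp 1 + Real.exp 1 ^ 2 / 2 := by
  have e : Real.exp 2 = Real.exp 1 ^ 2 := by
    rw [← Real.exp_nat_mul]; norm_num
  simp only [F, phi, inv_one, mul_one, sub_self, mul_zero, sub_zero, one_pow, zero_mul, zero_div,
    add_zero, e]
  ring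

theorem exists_params (ε : ℝ) (hε : 0 < ε) : ∃ h : ℝ, 0 < h ∧ ∃ N : ℕ,
    2 * Real.exp 1 - 1 / 2 - Real.exp 1 ^ 2 / 2 - ε ≤ 1 + (F (1 + (N + 1) * h) - F (1 + h)) := by
  -- choice of `h`
  have c1 : ContinuousAt F 1 := (hasDerivAt_F 1 one_pos).continuousAt
  obtain ⟨η, hη, hη2⟩ := Metric.continuousAt_iff.mp c1 (ε / 2) (by linarith)
  refine ⟨η / 2, by linarith, ?_⟩
  have h1 : F (1 + η / 2) ≤ F 1 + ε / 2 := by
    have := hη2 (x := 1 + η / 2) (by
      rw [Real.dist_eq]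
      have : (1 + η / 2 - 1) = η / 2 := by ring
      rw [this, abs_of_pos (by linarith)]
      linarith)
    rw [Real.dist_eq] at this
    have := (abs_lt.mp this).2
    linarith
  -- choice of `N`
  set E : ℝ → ℝ := fun w => -2 * (Real.exp w + (w - 1) * Real.exp (2 * w) / 2 -
    Real.exp (2 * w) / 4) with hE
  have c2 : ContinuousAt E 0 := by
    apply Continuous.continuousAt
    fun_prop
  have hE0 : E 0 = -1 / 2 := by simp only [hE]; norm_num
  obtain ⟨ρ, hρ, hρ2⟩ := Metric.continuousAt_iff.mp c2 (ε / 2) (by linarith)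
  obtain ⟨N, hN⟩ := exists_nat_gt (1 / (ρ * (η / 2)))
  refine ⟨N, ?_⟩
  set t : ℝ := 1 + (N + 1) * (η / 2) with ht
  have hη2' : 0 < η / 2 := by linarith
  have ht0 : 0 < t := by
    have : (0 : ℝ) ≤ N := Nat.cast_nonneg N
    positivity
  have htρ : t⁻¹ < ρ := by
    rw [inv_lt_comm₀ ht0 hρ]
    rw [div_lt_iff₀ (by positivity)] at hN
    have h2 : ρ⁻¹ * (ρ * (η / 2) * N) = (η / 2) * N := by field_simp
    have h3 : ρ⁻¹ * 1 < ρ⁻¹ * (N * (ρ * (η / 2))) :=
      mul_lt_mul_of_pos_left hN (inv_pos.mpr hρ)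
    have h4 : ρ⁻¹ * (N * (ρ * (η / 2))) = (η / 2) * N := by field_simp
    rw [h4] at h3
    rw [ht]
    nlinarith
  have h5 : -1 / 2 - ε / 2 ≤ E t⁻¹ := by
    have := hρ2 (x := t⁻¹) (by
      rw [Real.dist_eq, sub_zero, abs_of_pos (inv_pos.mpr ht0)]
      exact htρ)
    rw [Real.dist_eq, hE0] at this
    have := (abs_lt.mp this).1
    linarith
  have h6 : E t⁻¹ ≤ F t := by
    simp only [hE, F]
    have : 0 ≤ t * phi t⁻¹ ^ 2 := mul_nonneg ht0.le (sq_nonneg _)
    linarith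
  rw [F_one] at h1
  linarith

/-- **Lower bound for many players**: `liminf s_k ≥ (3 - (e - 2) ^ 2) / 4 = 0.62101...`. -/
theorem lowerLarge : ∀ ε : ℝ, 0 < ε → ∃ K : ℕ, ∀ k : ℕ, K ≤ k →
    (3 - (Real.exp 1 - 2) ^ 2) / 4 - ε ≤ cryptoValue k := by
  -- it is enough to treat small `ε`
  suffices H : ∀ ε : ℝ, 0 < ε → ε ≤ 1 / 2 → ∃ K : ℕ, ∀ k : ℕ, K ≤ k →
      (3 - (Real.exp 1 - 2) ^ 2) / 4 - ε ≤ cryptoValue k by
    intro ε hε
    obtain ⟨K, hK⟩ := H (min ε (1 / 2)) (lt_min hε (by norm_num)) (min_le_right _ _)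
    refine ⟨K, fun k hk => le_trans ?_ (hK k hk)⟩
    linarith [min_le_left ε (1 / 2)]
  intro ε hε hε1
  obtain ⟨h, hh, N, hA⟩ := exists_params ε hε
  set A : ℝ := 1 + (F (1 + (N + 1) * h) - F (1 + h)) with hAdef
  have hA1 : 0 < A := by
    have e1 := Real.exp_one_gt_d9
    have e2 := Real.exp_one_lt_d9
    nlinarith
  set δ : ℝ := min (1 / 2) (ε / (2 * A)) with hδdef
  have hδ : 0 < δ := lt_min (by norm_num) (by positivity)
  have hδ1 : δ ≤ 1 / 2 := min_le_left _ _
  have hδA : δ * A ≤ ε / 2 := by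
    have : δ ≤ ε / (2 * A) := min_le_right _ _
    calc δ * A ≤ ε / (2 * A) * A := mul_le_mul_of_nonneg_right this hA1.le
      _ = ε / 2 := by field_simp
  obtain ⟨K, hK⟩ := exists_nat_gt (max (4 / δ) (4 / (δ ^ 2 * δ)))
  refine ⟨K, fun k hk => ?_⟩
  have hkK : (K : ℝ) ≤ k := by exact_mod_cast hk
  have hk1 : 4 / δ < k := lt_of_lt_of_le (lt_of_le_of_lt (le_max_left _ _) hK) hkK
  have hk2 : 4 / (δ ^ 2 * δ) < k := lt_of_lt_of_le (lt_of_le_of_lt (le_max_right _ _) hK) hkK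
  rw [div_lt_iff₀ hδ] at hk1
  rw [div_lt_iff₀ (by positivity)] at hk2
  have hk0 : (0 : ℝ) < k := by
    by_contra hcon
    push Not at hcon
    nlinarith
  have hkpos : 0 < k := by exact_mod_cast hk0
  rcases main_bound hkpos h δ hh N hδ (by linarith) (by nlinarith) with hm | hm
  · refine le_trans ?_ hm
    rw [← hAdef]
    have hg : δ * k / 4 ≤ δ * k / 2 - 1 := by nlinarith
    have hg0 : 0 < δ * k / 4 := by positivity
    have h1 : (k : ℝ) / 4 / (δ * k / 2 - 1) ^ 2 ≤ δ := by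
      rw [div_le_iff₀ (by nlinarith)]
      have : (δ * k / 4) ^ 2 ≤ (δ * k / 2 - 1) ^ 2 := pow_le_pow_left₀ hg0.le hg 2
      have h2 : (k : ℝ) / 4 ≤ δ * (δ * k / 4) ^ 2 := by nlinarith
      nlinarith
    have h3 : (1 - δ) * A / 2 * (1 - δ) ≤
        (1 - δ) * A / 2 * (1 - (k : ℝ) / 4 / (δ * k / 2 - 1) ^ 2) := by
      apply mul_le_mul_of_nonneg_left (by linarith)
      have : 0 < 1 - δ := by linarith
      positivity
    refine le_trans ?_ h3
    have h4 : (1 - δ) * A / 2 * (1 - δ) = A / 2 - δ * A + δ ^ 2 * A / 2 := by ring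
    rw [h4]
    have h5 : 0 ≤ δ ^ 2 * A / 2 := by positivity
    nlinarith
  · exfalso
    have : 0 < (1 - δ) * A := mul_pos (by linarith) hA1
    linarith

end Pool.Agent.Helper92.CryptoLowerE
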