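import Mathlib
import Pool.Agent.Helper92.CryptoFinal

/-!
# Upper bound for two players: `s_2 ≤ (log 2) / 2 < 0.3466`
-/

namespace Pool.Agent.Results.MP_5b9e43_lc.TwoUpper

open Finset MeasureTheory Pool.Agent.Helper92.Crypto
open scoped ENNReal

/-- the levels -/
noncomputable def c (l : ℕ) : ℝ := if l ≤ 1 then 0 else 1 / 2

theorem c_of (l : ℕ) (hl : 2 ≤ l) : c l = 1 / 2 := by rw [c, if_neg (by omega)]

theorem c_one : c 1 = 0 := by simp [c]

theorem c_nonneg (l : ℕ) : 0 ≤ c l := by unfold c; split_ifs <;> norm_num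

theorem c_pos (l : ℕ) (hl : 2 ≤ l) : 0 < c l := by rw [c_of l hl]; norm_num

theorem c_mono : Monotone c := by
  intro a b hab
  unfold c
  split_ifs with h1 h2
  · exact le_rfl
  · norm_num
  · omega
  · exact le_rfl

theorem sg_two : sg c 2 = 0 := by simp [sg]

theorem om_two (n : ℕ) : om c 2 n = if n < 2 then 1 else 0 := by
  rw [om]
  by_cases hn : n < 0 + 2
  · rw [if_pos hn, if_pos (by omega)]
    interval_cases n
    · simp [om]
    · simp [om, c_one, Finset.sum_range_succ]
  · rw [if_neg hn, if_neg (by omega)]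

theorem th_two : th c 2 2 = 1 / 2 := by
  simp only [th, om_two, Finset.sum_range_succ, Finset.sum_range_zero]
  norm_num [Nat.choose]

theorem card_lt_two (P : Fin 2 → Prop) [DecidablePred P] (i : Fin 2) (hi : ¬ P i) :
    #{j | P j} < 2 := by
  have h1 : ({j | P j} : Finset (Fin 2)) ⊆ univ.erase i := by
    intro j hj
    rw [mem_filter] at hj
    rw [Finset.mem_erase]
    refine ⟨?_, mem_univ _⟩
    rintro rfl
    exact hi hj.2
  have h2 := Finset.card_le_card h1
  rw [Finset.card_erase_of_mem (mem_univ i), card_univ, Fintype.card_fin] at h2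
  omega

/-- the box -/
def box (w : ℝ) (i : Fin 2) : Set (Fin 2 → ℝ) :=
  Set.pi Set.univ (fun j => Set.Ioo (if j = i then 0 else w / 2) (if j = i then 1 - w / 2 else 1))

theorem vol_box (w : ℝ) (hw : w ≤ 2) (i : Fin 2) :
    volume (box w i) = ENNReal.ofReal ((1 - w / 2) ^ 2) := by
  unfold box
  rw [Real.volume_pi_Ioo]
  have : ∀ j : Fin 2, ((if j = i then 1 - w / 2 else 1) - (if j = i then 0 else w / 2) : ℝ) =
      1 - w / 2 := by
    intro j
    split_ifs <;> ring
  rw [Finset.prod_congr rfl fun j _ => by rw [this j]]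
  rw [Finset.prod_const, card_univ, Fintype.card_fin, ENNReal.ofReal_pow (by linarith)]

theorem other_ne (i : Fin 2) : 1 - i ≠ i := by
  fin_cases i <;> decide

theorem box_sub (w : ℝ) (hw1 : 1 < w) (hw2 : w < 2) (i : Fin 2) :
    box w i ⊆ ES c 2 w (fun _ _ => 1) := by
  classical
  intro v hv
  have hv' : ∀ j, (if j = i then 0 else w / 2) < v j ∧ v j < (if j = i then 1 - w / 2 else 1) :=
    fun j => Set.mem_Ioo.mp (Set.mem_univ_pi.mp hv j)
  have h1 := hv' i
  have h2 := hv' (1 - i)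
  rw [if_pos rfl, if_pos rfl] at h1
  rw [if_neg (other_ne i), if_neg (other_ne i)] at h2
  refine ⟨fun j => ?_, ?_, ?_⟩
  · have h := hv' j
    split_ifs at h
    · exact ⟨h.1, by linarith [h.2]⟩
    · exact ⟨by linarith [h.1], h.2⟩
  · intro l hl
    rw [Finset.mem_Icc] at hl
    have hl2 : l = 2 := by omega
    subst hl2
    refine lt_of_eq_of_lt ?_ (card_lt_two (fun j => v j < w * c 2 * 1) (1 - i) ?_)
    · congr 1
    · rw [c_of 2 le_rfl]
      linarith [h2.1]
  · intro l hl
    rw [Finset.mem_Icc] at hl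
    have hl2 : l = 2 := by omega
    subst hl2
    refine lt_of_eq_of_lt ?_ (card_lt_two (fun j => 1 - v j < w * c 2 * 1) i ?_)
    · congr 1
    · rw [c_of 2 le_rfl]
      linarith [h1.2]

theorem J_low (w : ℝ) (hw1 : 1 < w) (hw2 : w < 2) :
    ENNReal.ofReal (2 * (1 - w / 2) ^ 2) ≤ J c 2 w (fun (_ : Fin 2) _ => 1) := by
  have hd : Disjoint (box w 0) (box w 1) := by
    rw [Set.disjoint_left]
    intro v h0 h1
    have a0 := Set.mem_Ioo.mp (Set.mem_univ_pi.mp h0 0)
    have a1 := Set.mem_Ioo.mp (Set.mem_univ_pi.mp h1 0)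
    simp at a0 a1
    linarith [a0.2, a1.1]
  have hm : MeasurableSet (box w 1) := MeasurableSet.univ_pi fun _ => measurableSet_Ioo
  have h1 : volume (box w 0 ∪ box w 1) ≤ J c 2 w (fun (_ : Fin 2) _ => 1) :=
    measure_mono (Set.union_subset (box_sub w hw1 hw2 0) (box_sub w hw1 hw2 1))
  rw [measure_union hd hm, vol_box w hw2.le, vol_box w hw2.le,
    ← ENNReal.ofReal_add (by positivity) (by positivity)] at h1
  refine le_trans (le_of_eq ?_) h1
  congr 1
  ring

theorem int_mid : ∫⁻ w in Set.Ioo (1 : ℝ) 2, ENNReal.ofReal (1 - 2 * (1 - w / 2) ^ 2) *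
    ENNReal.ofReal (1 / w ^ 2) = ENNReal.ofReal (2 * Real.log 2 - 1) := by
  set G : ℝ → ℝ := fun w => -(1 / w ^ 2) + 2 * (1 / w) - 1 / 2 with hG
  have hGc : ContinuousOn G (Set.Icc 1 2) := by
    intro w hw
    have hw0 : w ≠ 0 := by linarith [hw.1]
    apply ContinuousAt.continuousWithinAt
    simp only [hG]
    fun_prop (disch := simp [hw0])
  have hpt : ∀ w ∈ Set.Ioo (1 : ℝ) 2, ENNReal.ofReal (1 - 2 * (1 - w / 2) ^ 2) *
      ENNReal.ofReal (1 / w ^ 2) = ENNReal.ofReal (G w) := by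
    intro w hw
    have hw0 : w ≠ 0 := by linarith [hw.1]
    rw [← ENNReal.ofReal_mul' (by positivity)]
    congr 1
    simp only [hG]
    field_simp
    ring
  have hnn : ∀ w ∈ Set.Ioo (1 : ℝ) 2, 0 ≤ G w := by
    intro w hw
    have hw0 : 0 < w := by linarith [hw.1]
    have h1 := hw.1
    have h2 := hw.2
    have e : G w = (1 - 2 * (1 - w / 2) ^ 2) / w ^ 2 := by
      simp only [hG]
      field_simp
      ring
    rw [e]
    apply div_nonneg _ (by positivity)
    nlinarith
  rw [setLIntegral_congr_fun measurableSet_Ioo hpt]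
  have hint : IntegrableOn G (Set.Ioo 1 2) volume :=
    (hGc.integrableOn_Icc).mono_set Set.Ioo_subset_Icc_self
  rw [← ofReal_integral_eq_lintegral_ofReal hint
    ((ae_restrict_iff' measurableSet_Ioo).mpr (Filter.Eventually.of_forall hnn))]
  congr 1
  rw [← integral_Ioc_eq_integral_Ioo, ← intervalIntegral.integral_of_le (by norm_num)]
  have hd : ∀ x ∈ Set.uIcc (1 : ℝ) 2, HasDerivAt
      (fun w : ℝ => w⁻¹ + 2 * Real.log w - w / 2) (G x) x := by
    intro x hx
    rw [Set.uIcc_of_le (by norm_num)] at hx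
    have hx0 : x ≠ 0 := by linarith [hx.1]
    have h := ((hasDerivAt_inv hx0).add ((Real.hasDerivAt_log hx0).const_mul 2)).sub
      ((hasDerivAt_id x).div_const 2)
    refine h.congr_deriv ?_
    simp only [hG]
    field_simp
  have hii : IntervalIntegrable G volume 1 2 := by
    apply ContinuousOn.intervalIntegrable
    rw [Set.uIcc_of_le (by norm_num)]
    exact hGc
  rw [intervalIntegral.integral_eq_sub_of_hasDerivAt hd hii]
  norm_num
  ring

theorem Phi_init_two : Phi (k := 2) c 2 (fun _ _ => 1) ≤ ENNReal.ofReal (2 * Real.log 2) := by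
  unfold Phi
  simp only [Finset.prod_const_one, ENNReal.ofReal_one]
  have hsub : Set.Ioi (0 : ℝ) ⊆ Set.Ioo 0 1 ∪ ({1} ∪ (Set.Ioo 1 2 ∪ ({2} ∪ Set.Ioi 2))) := by
    intro w hw
    rcases lt_trichotomy w 1 with h | h | h
    · exact Or.inl ⟨hw, h⟩
    · exact Or.inr (Or.inl h)
    · rcases lt_trichotomy w 2 with h' | h' | h'
      · exact Or.inr (Or.inr (Or.inl ⟨h, h'⟩))
      · exact Or.inr (Or.inr (Or.inr (Or.inl h')))
      · exact Or.inr (Or.inr (Or.inr (Or.inr h')))
  refine le_trans (lintegral_mono_set hsub) ?_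
  refine le_trans (lintegral_union_le _ _ _) ?_
  refine le_trans (add_le_add le_rfl (lintegral_union_le _ _ _)) ?_
  refine le_trans (add_le_add le_rfl (add_le_add le_rfl (lintegral_union_le _ _ _))) ?_
  refine le_trans (add_le_add le_rfl (add_le_add le_rfl (add_le_add le_rfl
    (lintegral_union_le _ _ _)))) ?_
  rw [Measure.restrict_singleton, Real.volume_singleton, zero_smul, lintegral_zero_measure,
    zero_add, Measure.restrict_singleton, Real.volume_singleton, zero_smul,
    lintegral_zero_measure, zero_add]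
  have hI1 : ∫⁻ w in Set.Ioo (0 : ℝ) 1, (1 - J (k := 2) c 2 w (fun _ _ => 1)) *
      ENNReal.ofReal (1 / w ^ 2) = ENNReal.ofReal (1 / 2) := by
    have h := int_core 2 (th c 2) (th_bounds c c_nonneg c_mono 2) (th_zero c 2) (th_one c 2) 1
      one_pos
    have e : (1 / 1 * ∑ j ∈ Finset.Icc (2 : ℕ) 2, (((2 : ℕ) : ℝ) / (j * (j - 1)) : ℝ) *
        (1 - th c 2 j)) = 1 / 2 := by
      rw [Finset.Icc_self, Finset.sum_singleton]
      push_cast
      rw [th_two]
      norm_num
    rw [e] at h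
    rw [← h]
    refine setLIntegral_congr_fun measurableSet_Ioo fun w hw => ?_
    have hw0 : 0 < w := hw.1
    have hw1 : 2 * w * c 2 ≤ 1 := by
      rw [c_of 2 le_rfl]
      linarith [hw.2]
    beta_reduce
    rw [J_init c c_nonneg c_mono c_one c_pos w hw0 2 le_rfl hw1]
    have e2 : 2 * w * c 2 = w / 1 := by rw [c_of 2 le_rfl]; ring
    rw [e2]
    have hs0 : 0 ≤ ∑ N ∈ range (2 + 1), (Nat.choose 2 N : ℝ) *
      ((w / 1) ^ N * (1 - w / 1) ^ (2 - N) * th c 2 N) :=
      Finset.sum_nonneg fun j _ => mul_nonneg (Nat.cast_nonneg _) (mul_nonneg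
        (mul_nonneg (pow_nonneg (by linarith) _) (pow_nonneg (by linarith [hw.2]) _))
        (th_bounds c c_nonneg c_mono _ _).1)
    rw [ENNReal.ofReal_sub _ hs0, ENNReal.ofReal_one]
  have hI2 : ∫⁻ w in Set.Ioo (1 : ℝ) 2, (1 - J (k := 2) c 2 w (fun _ _ => 1)) *
      ENNReal.ofReal (1 / w ^ 2) ≤ ENNReal.ofReal (2 * Real.log 2 - 1) := by
    rw [← int_mid]
    refine setLIntegral_mono' measurableSet_Ioo fun w hw => ?_
    refine mul_le_mul_left ?_ _
    rw [ENNReal.ofReal_sub _ (by positivity), ENNReal.ofReal_one]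
    exact tsub_le_tsub_left (J_low w hw.1 hw.2) _
  have hI3 : ∫⁻ w in Set.Ioi (2 : ℝ), (1 - J (k := 2) c 2 w (fun _ _ => 1)) *
        ENNReal.ofReal (1 / w ^ 2) ≤ ENNReal.ofReal (1 / 2) := by
    rw [← int_tail 2 two_pos]
    refine setLIntegral_mono' measurableSet_Ioi fun w _ => ?_
    exact mul_le_of_le_one_left zero_le tsub_le_self
  refine le_trans (add_le_add (le_of_eq hI1) (add_le_add hI2 hI3)) ?_
  have hlog : (1 : ℝ) / 2 < Real.log 2 := by
    have := Real.log_two_gt_d9
    linarith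
  rw [← ENNReal.ofReal_add (by linarith) (by norm_num), ← ENNReal.ofReal_add (by norm_num)
    (by linarith)]
  refine ENNReal.ofReal_le_ofReal (le_of_eq ?_)
  ring

/-- **Upper bound for two players**: `s_2 ≤ (log 2) / 2 < 0.3466`. -/
theorem result : cryptoValue 2 ≤ Real.log 2 / 2 := by
  have hM : EMajor (k := 2) (Phi c 2) := by
    refine Phi_major c c_nonneg c_mono c_one c_pos 2 le_rfl (fun n hn hn' => ?_) two_pos
    have : n = 2 := by omega
    subst this
    rw [min_self, c_of 2 le_rfl, sg_two]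
    norm_num
  have h := cryptoValue_le_of_epotential two_pos hM (Phi_super c c_nonneg c_mono 2)
    (2 * Real.log 2) (by positivity) Phi_init_two
  refine le_trans h (le_of_eq ?_)
  push_cast
  ring

end Pool.Agent.Results.MP_5b9e43_lc.TwoUpper
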