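import Mathlib
import Pool.Agent.Helper92.Crypto

/-!
# Multilinear potentials for the cryptogenography problem
-/

namespace Pool.Agent.Helper92.Crypto

open Finset

variable {k : ℕ}

/-- the multilinear form attached to a sequence of coefficients -/
noncomputable def part (c : ℕ → ℝ) (x : Bool) (S : Fin k → Option Bool → ℝ) : ℝ :=
  ∑ I ∈ (univ : Finset (Fin k)).powerset, c I.card * ∏ i, S i (if i ∈ I then some x else none)

/-- the potential -/
noncomputable def pot (c0 : ℝ) (c : ℕ → ℝ) (S : Fin k → Option Bool → ℝ) : ℝ :=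
  c0 * ∏ i, S i none + (part c true S + part c false S)

theorem prod_update_add (S : Fin k → Option Bool → ℝ) (i : Fin k) (p q : Option Bool → ℝ)
    (sel : Fin k → Option Bool) :
    ∏ l, Function.update S i (p + q) l (sel l) =
      ∏ l, Function.update S i p l (sel l) + ∏ l, Function.update S i q l (sel l) := by
  classical
  have h : ∀ r : Option Bool → ℝ, ∏ l, Function.update S i r l (sel l) =
      r (sel i) * ∏ l ∈ univ.erase i, S l (sel l) := by
    intro r
    rw [← Finset.mul_prod_erase univ (fun l => Function.update S i r l (sel l)) (mem_univ i)]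
    rw [Function.update_self]
    congr 1
    apply Finset.prod_congr rfl
    intro l hl
    rw [Function.update_of_ne (Finset.mem_erase.mp hl).1]
  rw [h, h, h, Pi.add_apply]
  ring

theorem part_update_add (c : ℕ → ℝ) (x : Bool) (S : Fin k → Option Bool → ℝ) (i : Fin k)
    (p q : Option Bool → ℝ) :
    part c x (Function.update S i (p + q)) =
      part c x (Function.update S i p) + part c x (Function.update S i q) := by
  unfold part
  rw [← Finset.sum_add_distrib]
  apply Finset.sum_congr rfl
  intro I _
  rw [prod_update_add S i p q (fun l => if l ∈ I then some x else none)]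
  ring

theorem superAdd_pot (c0 : ℝ) (c : ℕ → ℝ) : SuperAdd (k := k) (pot c0 c) := by
  intro i S p q _ _ _
  unfold pot
  rw [part_update_add, part_update_add, prod_update_add S i p q (fun _ => none)]
  exact le_of_eq (by ring)

theorem part_nonneg (c : ℕ → ℝ) (hc : ∀ j, 0 ≤ c j) (x : Bool) (S : Fin k → Option Bool → ℝ)
    (hS : ∀ l o, 0 ≤ S l o) : 0 ≤ part c x S :=
  Finset.sum_nonneg fun I _ => mul_nonneg (hc _) (Finset.prod_nonneg fun _ _ => hS _ _)

/-- the normalised affine function -/
noncomputable def aff (c0 : ℝ) (c : ℕ → ℝ) (m : Fin k) (u : Fin k → ℝ) : ℝ :=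
  c0 + ∑ I ∈ (univ : Finset (Fin k)).powerset, c I.card * ∏ i ∈ I, u i - ∑ i ∈ univ.erase m, u i

theorem aff_update (c0 : ℝ) (c : ℕ → ℝ) (m : Fin k) (u : Fin k → ℝ) (i : Fin k)
    (t a b : ℝ) :
    aff c0 c m (Function.update u i (t * a + (1 - t) * b)) =
      t * aff c0 c m (Function.update u i a) + (1 - t) * aff c0 c m (Function.update u i b) := by
  classical
  unfold aff
  have h1 : ∀ I : Finset (Fin k), ∏ l ∈ I, Function.update u i (t * a + (1 - t) * b) l =
      t * ∏ l ∈ I, Function.update u i a l + (1 - t) * ∏ l ∈ I, Function.update u i b l := by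
    intro I
    by_cases hi : i ∈ I
    · rw [Finset.prod_update_of_mem hi, Finset.prod_update_of_mem hi, Finset.prod_update_of_mem hi]
      ring
    · rw [Finset.prod_update_of_notMem hi, Finset.prod_update_of_notMem hi,
        Finset.prod_update_of_notMem hi]
      ring
  have h2 : ∑ l ∈ univ.erase m, Function.update u i (t * a + (1 - t) * b) l =
      t * ∑ l ∈ univ.erase m, Function.update u i a l +
        (1 - t) * ∑ l ∈ univ.erase m, Function.update u i b l := by
    by_cases hi : i ∈ univ.erase m
    · rw [Finset.sum_update_of_mem hi, Finset.sum_update_of_mem hi, Finset.sum_update_of_mem hi]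
      ring
    · rw [Finset.sum_update_of_notMem hi, Finset.sum_update_of_notMem hi,
        Finset.sum_update_of_notMem hi]
      ring
  simp_rw [h1]
  rw [h2]
  simp_rw [mul_add]
  rw [Finset.sum_add_distrib]
  have h3 : ∀ (r : ℝ) (v : Fin k → ℝ), ∑ I ∈ (univ : Finset (Fin k)).powerset,
      c I.card * (r * ∏ l ∈ I, v l) =
      r * ∑ I ∈ (univ : Finset (Fin k)).powerset, c I.card * ∏ l ∈ I, v l := by
    intro r v
    rw [Finset.mul_sum]
    apply Finset.sum_congr rfl
    intro I _
    ring
  rw [h3, h3]
  ring

/-- values at the vertices of the cube -/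
theorem aff_vertex (c0 : ℝ) (c : ℕ → ℝ) (m : Fin k) (x : ℝ) (T : Finset (Fin k)) (hm : m ∈ T) :
    aff c0 c m (fun i => if i ∈ T then x else 0) =
      c0 + ∑ j ∈ range (T.card + 1), (T.card.choose j : ℝ) * (c j * x ^ j)
        - ((T.card : ℝ) - 1) * x := by
  classical
  unfold aff
  have h1 : ∑ I ∈ (univ : Finset (Fin k)).powerset, c I.card *
      ∏ i ∈ I, (if i ∈ T then x else 0) = ∑ I ∈ T.powerset, c I.card * x ^ I.card := by
    rw [← Finset.sum_subset (Finset.powerset_mono.mpr (Finset.subset_univ T))]
    · apply Finset.sum_congr rfl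
      intro I hI
      congr 1
      rw [← Finset.prod_const]
      apply Finset.prod_congr rfl
      intro i hi
      rw [if_pos (Finset.mem_powerset.mp hI hi)]
    · intro I _ hI
      have : ∃ i ∈ I, i ∉ T := by
        by_contra hcon
        push Not at hcon
        exact hI (Finset.mem_powerset.mpr hcon)
      obtain ⟨i, hi, hiT⟩ := this
      rw [Finset.prod_eq_zero hi (by rw [if_neg hiT]), mul_zero]
  have h2 : ∑ i ∈ univ.erase m, (if i ∈ T then x else 0) = ((T.card : ℝ) - 1) * x := by
    rw [Finset.sum_erase_eq_sub (mem_univ m), if_pos hm]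
    rw [Finset.sum_ite_mem, Finset.univ_inter, Finset.sum_const, nsmul_eq_mul]
    ring
  rw [h1, h2, Finset.sum_powerset_apply_card (fun j => c j * x ^ j)]
  simp only [nsmul_eq_mul]

/-- the condition on the coefficients -/
def Good (c0 : ℝ) (c : ℕ → ℝ) : Prop :=
  ∀ n : ℕ, 1 ≤ n → ∀ x : ℝ, 0 ≤ x →
    ((n : ℝ) - 1) * x ≤ c0 + ∑ j ∈ range (n + 1), (n.choose j : ℝ) * (c j * x ^ j)

theorem aff_nonneg_aux (c0 : ℝ) (c : ℕ → ℝ) (hG : Good c0 c) (m : Fin k) (x : ℝ) (hx : 0 ≤ x)
    (s : Finset (Fin k)) : ∀ u : Fin k → ℝ, m ∉ s → u m = x →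
      (∀ i, i ∉ s → u i = 0 ∨ u i = x) → (∀ i, 0 ≤ u i ∧ u i ≤ x) → 0 ≤ aff c0 c m u := by
  classical
  induction s using Finset.induction_on with
  | empty =>
    intro u _ hm hv _
    rcases eq_or_lt_of_le hx with h0 | hpos
    · -- x = 0
      have : u = fun i => if i ∈ (univ : Finset (Fin k)) then x else 0 := by
        funext i
        rcases hv i (by simp) with h | h <;> simp [h, ← h0]
      rw [this, aff_vertex c0 c m x univ (mem_univ m)]
      have hn : 1 ≤ (univ : Finset (Fin k)).card := Finset.card_pos.mpr ⟨m, mem_univ m⟩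
      linarith [hG _ hn x hx]
    · have : u = fun i => if i ∈ (univ.filter fun i => u i = x) then x else 0 := by
        funext i
        rcases hv i (by simp) with h | h
        · have : ¬ (u i = x) := by rw [h]; exact ne_of_lt hpos
          simp [this, h]
        · simp [h]
      have hmem : m ∈ (univ.filter fun i => u i = x) := by simp [hm]
      rw [this, aff_vertex c0 c m x _ hmem]
      have hn : 1 ≤ (univ.filter fun i => u i = x).card := Finset.card_pos.mpr ⟨m, hmem⟩
      linarith [hG _ hn x hx]
  | insert i s his ih =>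
    intro u hms hm hv hb
    have him : m ≠ i := fun e => hms (by rw [e]; exact Finset.mem_insert_self _ _)
    have hms' : m ∉ s := fun h => hms (Finset.mem_insert_of_mem h)
    rcases eq_or_lt_of_le hx with h0 | hpos
    · apply ih u hms' hm
      · intro l hl
        left
        have := hb l
        rw [← h0] at this
        linarith [this.1, this.2]
      · exact hb
    · have e : u = Function.update u i (u i / x * x + (1 - u i / x) * 0) := by
        rw [div_mul_cancel₀ _ (ne_of_gt hpos), mul_zero, add_zero, Function.update_eq_self]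
      rw [e, aff_update]
      have ht0 : 0 ≤ u i / x := div_nonneg (hb i).1 hx
      have ht1 : u i / x ≤ 1 := (div_le_one hpos).mpr (hb i).2
      have key : ∀ v : ℝ, (v = 0 ∨ v = x) → 0 ≤ aff c0 c m (Function.update u i v) := by
        intro v hvv
        apply ih _ hms'
        · rw [Function.update_of_ne him, hm]
        · intro l hl
          by_cases hli : l = i
          · subst hli; rw [Function.update_self]; exact hvv
          · rw [Function.update_of_ne hli]
            exact hv l (by rw [Finset.mem_insert]; push Not; exact ⟨hli, hl⟩)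
        · intro l
          by_cases hli : l = i
          · subst hli; rw [Function.update_self]
            rcases hvv with h | h <;> rw [h] <;> constructor <;> linarith
          · rw [Function.update_of_ne hli]; exact hb l
      have k1 := key x (Or.inr rfl)
      have k2 := key 0 (Or.inl rfl)
      have := mul_nonneg ht0 k1
      have := mul_nonneg (by linarith : (0:ℝ) ≤ 1 - u i / x) k2
      linarith

theorem aff_nonneg (c0 : ℝ) (c : ℕ → ℝ) (hG : Good c0 c) (m : Fin k) (u : Fin k → ℝ)
    (hu : ∀ i, 0 ≤ u i) (hm : ∀ i, u i ≤ u m) : 0 ≤ aff c0 c m u :=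
  aff_nonneg_aux c0 c hG m (u m) (hu m) (univ.erase m) u (by simp) rfl
    (fun i hi => by
      have : i = m := by
        by_contra h
        exact hi (Finset.mem_erase.mpr ⟨h, mem_univ i⟩)
      right; rw [this])
    (fun i => ⟨hu i, hm i⟩)

theorem majorizes_pot (hk : 0 < k) (c0 : ℝ) (h0 : 0 ≤ c0) (c : ℕ → ℝ) (hc : ∀ j, 0 ≤ c j)
    (hG : Good c0 c) : Majorizes (k := k) (pot c0 c) := by
  classical
  intro S hS out
  have hother : 0 ≤ part c (!out) S := part_nonneg c hc (!out) S hS
  have hsum : pot c0 c S = c0 * ∏ i, S i none + part c out S + part c (!out) S := by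
    unfold pot
    cases out
    · simp only [Bool.not_false]; ring
    · simp only [Bool.not_true]; ring
  by_cases hz : ∃ i, S i none = 0
  · obtain ⟨i, hi⟩ := hz
    refine ⟨i, ?_⟩
    have hw : ∀ j, j ≠ i → wt S out j = 0 := by
      intro j hj
      unfold wt
      apply Finset.prod_eq_zero (mem_univ i)
      unfold inp
      rw [if_neg (fun e => hj e.symm)]
      exact hi
    have : ∑ j, wt S out j = wt S out i :=
      Finset.sum_eq_single i (fun j _ hj => hw j hj) (fun h => absurd (mem_univ _) h)
    rw [this, sub_self, hsum]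
    have : 0 ≤ c0 * ∏ i, S i none := mul_nonneg h0 (Finset.prod_nonneg fun _ _ => hS _ _)
    have := part_nonneg c hc out S hS
    linarith
  · push Not at hz
    have hpos : ∀ i, 0 < S i none := fun i => lt_of_le_of_ne (hS _ _) (Ne.symm (hz i))
    set N : ℝ := ∏ i, S i none with hN
    have hNpos : 0 < N := Finset.prod_pos fun i _ => hpos i
    set u : Fin k → ℝ := fun i => S i (some out) / S i none with hu
    haveI : Nonempty (Fin k) := ⟨⟨0, hk⟩⟩
    obtain ⟨m, hm⟩ := Finite.exists_max u
    refine ⟨m, ?_⟩
    have hprod : ∀ I : Finset (Fin k), ∏ i, S i (if i ∈ I then some out else none) =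
        N * ∏ i ∈ I, u i := by
      intro I
      have : ∏ i ∈ I, u i = ∏ i, (if i ∈ I then u i else 1) := by
        rw [Finset.prod_ite_mem, Finset.univ_inter]
      rw [this, hN, ← Finset.prod_mul_distrib]
      apply Finset.prod_congr rfl
      intro i _
      by_cases hi : i ∈ I
      · simp only [if_pos hi, hu]
        field_simp [ne_of_gt (hpos i)]
      · simp [if_neg hi]
    have hwt : ∀ j, wt S out j = N * u j := by
      intro j
      have := hprod {j}
      rw [Finset.prod_singleton] at this
      rw [← this]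
      unfold wt inp
      apply Finset.prod_congr rfl
      intro i _
      simp [Finset.mem_singleton]
    have hpart : part c out S = N * ∑ I ∈ (univ : Finset (Fin k)).powerset,
        c I.card * ∏ i ∈ I, u i := by
      unfold part
      rw [Finset.mul_sum]
      apply Finset.sum_congr rfl
      intro I _
      rw [hprod]
      ring
    have haff := aff_nonneg c0 c hG m u (fun i => div_nonneg (hS _ _) (hS _ _)) hm
    unfold aff at haff
    rw [Finset.sum_erase_eq_sub (mem_univ m)] at haff
    rw [hsum, hpart]
    simp_rw [hwt]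
    rw [← Finset.mul_sum]
    have := mul_nonneg hNpos.le haff
    have e : N * (c0 + ∑ I ∈ (univ : Finset (Fin k)).powerset, c I.card * ∏ i ∈ I, u i
        - (∑ i, u i - u m)) = c0 * N + N * ∑ I ∈ (univ : Finset (Fin k)).powerset,
        c I.card * ∏ i ∈ I, u i - (N * ∑ i, u i - N * u m) := by ring
    rw [e] at this
    linarith

theorem part_one (c : ℕ → ℝ) (x : Bool) :
    part c x (fun (_ : Fin k) _ => 1) = ∑ j ∈ range (k + 1), (k.choose j : ℝ) * c j := by
  unfold part
  simp only [Finset.prod_const_one, mul_one]
  rw [Finset.sum_powerset_apply_card (fun j => c j)]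
  simp [nsmul_eq_mul]

/-- **Upper bound for `s_k` for all `k`** from a good sequence of coefficients. -/
theorem cryptoValue_le_of_good (hk : 0 < k) (c0 : ℝ) (h0 : 0 ≤ c0) (c : ℕ → ℝ)
    (hc : ∀ j, 0 ≤ c j) (hG : Good c0 c) :
    cryptoValue k ≤ (c0 + 2 * ∑ j ∈ range (k + 1), (k.choose j : ℝ) / (k : ℝ) ^ j * c j) / 2 := by
  have hk' : (0 : ℝ) < k := by exact_mod_cast hk
  set c' : ℕ → ℝ := fun j => (k : ℝ) * (c j / (k : ℝ) ^ j) with hc'
  have hG' : Good (k * c0) c' := by
    intro n hn x hx
    have := hG n hn (x / k) (div_nonneg hx hk'.le)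
    have h2 := mul_le_mul_of_nonneg_left this hk'.le
    have e1 : (k : ℝ) * (((n : ℝ) - 1) * (x / k)) = ((n : ℝ) - 1) * x := by
      field_simp
    have e2 : (k : ℝ) * (c0 + ∑ j ∈ range (n + 1), (n.choose j : ℝ) * (c j * (x / k) ^ j)) =
        k * c0 + ∑ j ∈ range (n + 1), (n.choose j : ℝ) * (c' j * x ^ j) := by
      rw [mul_add, Finset.mul_sum]
      congr 1
      apply Finset.sum_congr rfl
      intro j _
      simp only [hc', div_pow]
      field_simp
    rw [e1, e2] at h2
    exact h2
  have := cryptoValue_le_of_potential hk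
    (majorizes_pot hk (k * c0) (mul_nonneg hk'.le h0) c'
      (fun j => mul_nonneg hk'.le (div_nonneg (hc j) (by positivity))) hG')
    (superAdd_pot (k * c0) c')
  refine le_trans this (le_of_eq ?_)
  unfold pot
  rw [part_one, part_one]
  simp only [Finset.prod_const_one, mul_one]
  have e : ∑ j ∈ range (k + 1), (k.choose j : ℝ) * c' j =
      k * ∑ j ∈ range (k + 1), (k.choose j : ℝ) / (k : ℝ) ^ j * c j := by
    rw [Finset.mul_sum]
    apply Finset.sum_congr rfl
    intro j _
    simp only [hc']
    field_simp
  rw [e]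
  field_simp
  ring

end Pool.Agent.Helper92.Crypto
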