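import Mathlib
import Pool.Agent.Helper92.CryptoUpper

/-!
# Cryptogenography: `s_k ≤ 0.6528` for every number `k` of players

The proof uses the multilinear potential
`c₀ + ∑_{j=2}^{5} c_j (e_j(a) + e_j(b))` in the likelihood ratios `a_i, b_i` of the players.
-/

namespace Pool.Agent.Helper92.CryptoUpperAll

open Pool.Agent.Helper92.Crypto Finset

/-- the coefficients of the potential -/
noncomputable def cf : ℕ → ℝ
  | 2 => 317 / 1000
  | 3 => 4354 / 10000
  | 4 => 433 / 1000
  | 5 => 10984 / 10000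
  | _ => 0

theorem cf_nonneg (j : ℕ) : 0 ≤ cf j := by
  unfold cf
  split <;> norm_num

theorem choose_step (n j : ℕ) :
    (n.choose (j + 1) : ℝ) * ((j : ℝ) + 1) = (n.choose j : ℝ) * ((n : ℝ) - j) := by
  rcases le_or_gt j n with h | h
  · have := Nat.choose_succ_right_eq n j
    have h2 : ((n.choose (j + 1) * (j + 1) : ℕ) : ℝ) = ((n.choose j * (n - j) : ℕ) : ℝ) := by
      rw [this]
    push_cast [Nat.cast_sub h] at h2
    exact h2
  · rw [Nat.choose_eq_zero_of_lt h, Nat.choose_eq_zero_of_lt (by omega)]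
    simp

theorem sum_cf (n : ℕ) (x : ℝ) :
    ∑ j ∈ range (n + 1), (n.choose j : ℝ) * (cf j * x ^ j) =
      (n.choose 2 : ℝ) * (317 / 1000 * x ^ 2) + (n.choose 3 : ℝ) * (4354 / 10000 * x ^ 3) +
      (n.choose 4 : ℝ) * (433 / 1000 * x ^ 4) + (n.choose 5 : ℝ) * (10984 / 10000 * x ^ 5) := by
  have h : ∑ j ∈ range (n + 1), (n.choose j : ℝ) * (cf j * x ^ j) =
      ∑ j ∈ range (n + 6), (n.choose j : ℝ) * (cf j * x ^ j) := by
    apply Finset.sum_subset
    · intro j hj
      rw [mem_range] at hj ⊢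
      omega
    · intro j _ hj
      rw [mem_range] at hj
      rw [Nat.choose_eq_zero_of_lt (by omega)]
      simp
  have h' : ∑ j ∈ range 6, (n.choose j : ℝ) * (cf j * x ^ j) =
      ∑ j ∈ range (n + 6), (n.choose j : ℝ) * (cf j * x ^ j) := by
    apply Finset.sum_subset
    · intro j hj
      rw [mem_range] at hj ⊢
      omega
    · intro j _ hj
      rw [mem_range] at hj
      have : cf j = 0 := by
        unfold cf
        split <;> first | omega | rfl
      rw [this]
      simp
  rw [h, ← h']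
  simp only [Finset.sum_range_succ, Finset.sum_range_zero, cf]
  ring

theorem poly_2 (y : ℝ) (hy : 0 ≤ y) :
    0 ≤ (789/1000) - 1 * y + (317/1000) * y ^ 2 + 0 * y ^ 3 + 0 * y ^ 4 + 0 * y ^ 5 := by
  have e : (789/1000) - 1 * y + (317/1000) * y ^ 2 + 0 * y ^ 3 + 0 * y ^ 4 + 0 * y ^ 5 =
      (y - (631/400)) ^ 2 * ((317/1000) + 0 * y + 0 * y ^ 2 + 0 * y ^ 3) + ((27/200000) * y + (22963/160000000)) := by ring
  rw [e]
  positivity

theorem poly_3 (y : ℝ) (hy : 0 ≤ y) :
    0 ≤ (789/1000) - 2 * y + (951/1000) * y ^ 2 + (2177/5000) * y ^ 3 + 0 * y ^ 4 + 0 * y ^ 5 := by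
  have e : (789/1000) - 2 * y + (951/1000) * y ^ 2 + (2177/5000) * y ^ 3 + 0 * y ^ 4 + 0 * y ^ 5 =
      (y - (177/250)) ^ 2 * ((122463/78125) + (2177/5000) * y + 0 * y ^ 2 + 0 * y ^ 3) + ((427199/312500000) * y + (31791471/9765625000)) := by ring
  rw [e]
  positivity

theorem poly_4 (y : ℝ) (hy : 0 ≤ y) :
    0 ≤ (789/1000) - 3 * y + (951/500) * y ^ 2 + (2177/1250) * y ^ 3 + (433/1000) * y ^ 4 + 0 * y ^ 5 := by
  have e : (789/1000) - 3 * y + (951/500) * y ^ 2 + (2177/1250) * y ^ 3 + (433/1000) * y ^ 4 + 0 * y ^ 5 =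
      (y - (286/625)) ^ 2 * ((735921877/195312500) + (167022/78125) * y + (433/1000) * y ^ 2 + 0 * y ^ 3) + ((22362524/30517578125) * y + (914000941/152587890625000)) := by ring
  rw [e]
  positivity

theorem poly_5 (y : ℝ) (hy : 0 ≤ y) :
    0 ≤ (789/1000) - 4 * y + (317/100) * y ^ 2 + (2177/500) * y ^ 3 + (433/200) * y ^ 4 + (1373/1250) * y ^ 5 := by
  have e : (789/1000) - 4 * y + (317/100) * y ^ 2 + (2177/500) * y ^ 3 + (433/200) * y ^ 4 + (1373/1250) * y ^ 5 =
      (y - (33583/100000)) ^ 2 * ((2185417247370280801/312500000000000000) + (77247280634791/12500000000000) * y + (181421959/62500000) * y ^ 2 + (1373/1250) * y ^ 3) + ((4414874193711108733/25000000000000000000000) * y + (872333486659105678950911/3125000000000000000000000000)) := by ring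
  rw [e]
  positivity

theorem poly_6 (y : ℝ) (hy : 0 ≤ y) :
    0 ≤ (789/1000) - 5 * y + (951/200) * y ^ 2 + (2177/250) * y ^ 3 + (1299/200) * y ^ 4 + (4119/625) * y ^ 5 := by
  have e : (789/1000) - 5 * y + (951/200) * y ^ 2 + (2177/250) * y ^ 3 + (1299/200) * y ^ 4 + (4119/625) * y ^ 5 =
      (y - (53/200)) ^ 2 * ((56145768077/5000000000) + (338469563/25000000) * y + (1248489/125000) * y ^ 2 + (4119/625) * y ^ 3) + ((138082739/200000000000) * y + (86537471707/200000000000000)) := by ring
  rw [e]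
  positivity

theorem poly_7 (y : ℝ) (hy : 0 ≤ y) :
    0 ≤ (789/1000) - 6 * y + (6657/1000) * y ^ 2 + (15239/1000) * y ^ 3 + (3031/200) * y ^ 4 + (28833/1250) * y ^ 5 := by
  have e : (789/1000) - 6 * y + (6657/1000) * y ^ 2 + (15239/1000) * y ^ 3 + (3031/200) * y ^ 4 + (28833/1250) * y ^ 5 =
      (y - (547/2500)) ^ 2 * ((321652492774361/19531250000000) + (196747123041/7812500000) * y + (78902677/3125000) * y ^ 2 + (28833/1250) * y ^ 3) + ((10113431435273/9765625000000000) * y + (72155851976219551/122070312500000000000)) := by ring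
  rw [e]
  positivity

theorem poly_8 (y : ℝ) (hy : 0 ≤ y) :
    0 ≤ (789/1000) - 7 * y + (2219/250) * y ^ 2 + (15239/625) * y ^ 3 + (3031/100) * y ^ 4 + (38444/625) * y ^ 5 := by
  have e : (789/1000) - 7 * y + (2219/250) * y ^ 2 + (15239/625) * y ^ 3 + (3031/100) * y ^ 4 + (38444/625) * y ^ 5 =
      (y - (1863/10000)) ^ 2 * ((3548088745349393/156250000000000) + (657508713827/15625000000) * y + (83169961/1562500) * y ^ 2 + (38444/625) * y ^ 3) + ((123560798243071/312500000000000000) * y + (13528573392432606783/15625000000000000000000)) := by ring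
  rw [e]
  positivity

theorem poly_9 (y : ℝ) (hy : 0 ≤ y) :
    0 ≤ (789/1000) - 8 * y + (2853/250) * y ^ 2 + (45717/1250) * y ^ 3 + (27279/500) * y ^ 4 + (86499/625) * y ^ 5 := by
  have e : (789/1000) - 8 * y + (2853/250) * y ^ 2 + (45717/1250) * y ^ 3 + (27279/500) * y ^ 4 + (86499/625) * y ^ 5 =
      (y - (8111/50000)) ^ 2 * ((292463812306606497/9765625000000000) + (101875618059537/1562500000000) * y + (1554062139/15625000) * y ^ 2 + (86499/625) * y ^ 3) + ((511568585589497459/781250000000000000000) * y + (21992147589221354678463/24414062500000000000000000)) := by ring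
  rw [e]
  positivity

theorem poly_10 (y : ℝ) (hy : 0 ≤ y) :
    0 ≤ (789/1000) - 9 * y + (2853/200) * y ^ 2 + (6531/125) * y ^ 3 + (9093/100) * y ^ 4 + (172998/625) * y ^ 5 := by
  have e : (789/1000) - 9 * y + (2853/200) * y ^ 2 + (6531/125) * y ^ 3 + (9093/100) * y ^ 4 + (172998/625) * y ^ 5 =
      (y - (1437/10000)) ^ 2 * ((5968676194757469/156250000000000) + (2985268323093/31250000000) * y + (66594297/390625) * y ^ 2 + (172998/625) * y ^ 3) + ((3692844719380539/625000000000000000) * y + (2993686787863996539/15625000000000000000000)) := by ring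
  rw [e]
  positivity

theorem poly_11 (y : ℝ) (hy : 0 ≤ y) :
    0 ≤ (789/1000) - 10 * y + (3487/200) * y ^ 2 + (71841/1000) * y ^ 3 + (14289/100) * y ^ 4 + (317163/625) * y ^ 5 := by
  have e : (789/1000) - 10 * y + (3487/200) * y ^ 2 + (71841/1000) * y ^ 3 + (14289/100) * y ^ 4 + (317163/625) * y ^ 5 =
      (y - (1289/10000)) ^ 2 * ((3705106891181311/78125000000000) + (8373296579769/62500000000) * y + (855354357/3125000) * y ^ 2 + (317163/625) * y ^ 3) + ((343283441797883/1250000000000000000) * y + (7949593057536965969/7812500000000000000000)) := by ring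
  rw [e]
  positivity

theorem poly_12 (y : ℝ) (hy : 0 ≤ y) :
    0 ≤ (789/1000) - 11 * y + (10461/500) * y ^ 2 + (23947/250) * y ^ 3 + (42867/200) * y ^ 4 + (543708/625) * y ^ 5 := by
  have e : (789/1000) - 11 * y + (10461/500) * y ^ 2 + (23947/250) * y ^ 3 + (42867/200) * y ^ 4 + (543708/625) * y ^ 5 =
      (y - (1169/10000)) ^ 2 * ((18019748338354169/312500000000000) + (88654301813/488281250) * y + (1305391527/3125000) * y ^ 2 + (543708/625) * y ^ 3) + ((147488932004117/312500000000000000) * y + (31164690990388457191/31250000000000000000000)) := by ring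
  rw [e]
  positivity

theorem poly_13 (y : ℝ) (hy : 0 ≤ y) :
    0 ≤ (789/1000) - 12 * y + (12363/500) * y ^ 2 + (311311/2500) * y ^ 3 + (61919/200) * y ^ 4 + (1767051/1250) * y ^ 5 := by
  have e : (789/1000) - 12 * y + (12363/500) * y ^ 2 + (311311/2500) * y ^ 3 + (61919/200) * y ^ 4 + (1767051/1250) * y ^ 5 =
      (y - (2139/20000)) ^ 2 * ((172257174216621819/2500000000000000) + (119627861895113/500000000000) * y + (7649659589/12500000) * y ^ 2 + (1767051/1250) * y ^ 3) + ((65779296204452091/40000000000000000000) * y + (868133406031642471101/1000000000000000000000000)) := by ring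
  rw [e]
  positivity

theorem poly_14 (y : ℝ) (hy : 0 ≤ y) :
    0 ≤ (789/1000) - 13 * y + (28847/1000) * y ^ 2 + (198107/1250) * y ^ 3 + (433433/1000) * y ^ 4 + (1374373/625) * y ^ 5 := by
  have e : (789/1000) - 13 * y + (28847/1000) * y ^ 2 + (198107/1250) * y ^ 3 + (433433/1000) * y ^ 4 + (1374373/625) * y ^ 5 =
      (y - (308/3125)) ^ 2 * ((12381031456910207/152587890625000) + (3759857949757/12207031250) * y + (13545300769/15625000) * y ^ 2 + (1374373/625) * y ^ 3) + ((28291565826758/11920928955078125) * y + (1187450066250201277/1490116119384765625000)) := by ring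
  rw [e]
  positivity

theorem poly_15 (y : ℝ) (hy : 0 ≤ y) :
    0 ≤ (789/1000) - 14 * y + (6657/200) * y ^ 2 + (198107/1000) * y ^ 3 + (118209/200) * y ^ 4 + (4123119/1250) * y ^ 5 := by
  have e : (789/1000) - 14 * y + (6657/200) * y ^ 2 + (198107/1000) * y ^ 3 + (118209/200) * y ^ 4 + (4123119/1250) * y ^ 5 =
      (y - (457/5000)) ^ 2 * ((7373902199495209/78125000000000) + (12150516152593/31250000000) * y + (466410126/390625) * y ^ 2 + (4123119/1250) * y ^ 3) + ((874014544869319/156250000000000000) * y + (983524537625095559/1953125000000000000000)) := by ring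
  rw [e]
  positivity

theorem poly_16 (y : ℝ) (hy : 0 ≤ y) :
    0 ≤ (789/1000) - 15 * y + (951/25) * y ^ 2 + (30478/125) * y ^ 3 + (39403/50) * y ^ 4 + (2998632/625) * y ^ 5 := by
  have e : (789/1000) - 15 * y + (951/25) * y ^ 2 + (30478/125) * y ^ 3 + (39403/50) * y ^ 4 + (2998632/625) * y ^ 5 =
      (y - (213/2500)) ^ 2 * ((530363769289233/4882812500000) + (471281185781/976562500) * y + (1254380491/781250) * y ^ 2 + (2998632/625) * y ^ 3) + ((829809147711/152587890625000) * y + (16295291741788023/30517578125000000000)) := by ring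
  rw [e]
  positivity

theorem poly_17 (y : ℝ) (hy : 0 ≤ y) :
    0 ≤ (789/1000) - 16 * y + (5389/125) * y ^ 2 + (37009/125) * y ^ 3 + (51527/50) * y ^ 4 + (4248062/625) * y ^ 5 := by
  have e : (789/1000) - 16 * y + (5389/125) * y ^ 2 + (37009/125) * y ^ 3 + (51527/50) * y ^ 4 + (4248062/625) * y ^ 5 =
      (y - (399/5000)) ^ 2 * ((2419307831994463/19531250000000) + (4612460640193/7812500000) * y + (826298872/390625) * y ^ 2 + (4248062/625) * y ^ 3) + ((381390696759431/39062500000000000) * y + (97680088649495937/488281250000000000000)) := by ring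
  rw [e]
  positivity

theorem poly_18 (y : ℝ) (hy : 0 ≤ y) :
    0 ≤ (789/1000) - 17 * y + (48501/1000) * y ^ 2 + (222054/625) * y ^ 3 + (66249/50) * y ^ 4 + (5881932/625) * y ^ 5 := by
  have e : (789/1000) - 17 * y + (48501/1000) * y ^ 2 + (222054/625) * y ^ 3 + (66249/50) * y ^ 4 + (5881932/625) * y ^ 5 =
      (y - (3751/50000)) ^ 2 * ((1367900977806542841/9765625000000000) + (278509091528949/390625000000) * y + (5345742429/1953125) * y ^ 2 + (5881932/625) * y ^ 3) + ((760114937592965483/195312500000000000000) * y + (16327186860964420587159/24414062500000000000000000)) := by ring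
  rw [e]
  positivity

theorem poly_19 (y : ℝ) (hy : 0 ≤ y) :
    0 ≤ (789/1000) - 18 * y + (54207/1000) * y ^ 2 + (2109513/5000) * y ^ 3 + (419577/250) * y ^ 4 + (7982622/625) * y ^ 5 := by
  have e : (789/1000) - 18 * y + (54207/1000) * y ^ 2 + (2109513/5000) * y ^ 3 + (419577/250) * y ^ 4 + (7982622/625) * y ^ 5 =
      (y - (177/2500)) ^ 2 * ((768153408034977/4882812500000) + (207914614854/244140625) * y + (2724102219/781250) * y ^ 2 + (7982622/625) * y ^ 3) + ((8968819429413/1220703125000000) * y + (12891020297205567/30517578125000000000)) := by ring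
  rw [e]
  positivity

theorem poly_20 (y : ℝ) (hy : 0 ≤ y) :
    0 ≤ (789/1000) - 19 * y + (6023/100) * y ^ 2 + (124089/250) * y ^ 3 + (419577/200) * y ^ 4 + (10643496/625) * y ^ 5 := by
  have e : (789/1000) - 19 * y + (6023/100) * y ^ 2 + (124089/250) * y ^ 3 + (419577/200) * y ^ 4 + (10643496/625) * y ^ 5 =
      (y - (6701/100000)) ^ 2 * ((27423272508196967471/156250000000000000) + (98332084842417/97656250000) * y + (68440486473/15625000) * y ^ 2 + (10643496/625) * y ^ 3) + ((457756533460028287/1562500000000000000000) * y + (1414297832155782665731129/1562500000000000000000000000)) := by ring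
  rw [e]
  positivity

theorem poly_A (y : ℝ) (hy : 0 ≤ y) :
    0 ≤ (789/1000) - 1 * y + (317/2000) * y ^ 2 + (2177/30000) * y ^ 3 + (433/24000) * y ^ 4 + (1373/150000) * y ^ 5 := by
  have e : (789/1000) - 1 * y + (317/2000) * y ^ 2 + (2177/30000) * y ^ 3 + (433/24000) * y ^ 4 + (1373/150000) * y ^ 5 =
      (y - (1257/1000)) ^ 2 * ((12479282101251/25000000000000) + (24196734331/150000000000) * y + (1539493/37500000) * y ^ 2 + (1373/150000) * y ^ 3) + ((364355487191/10000000000000000) * y + (7122795200458701/25000000000000000000)) := by ring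
  rw [e]
  positivity

theorem poly_B (y : ℝ) (hy : 0 ≤ y) :
    0 ≤ (789/1000) - 1 * y + (6657/40000) * y ^ 2 + (289541/4000000) * y ^ 3 + (155447/9600000) * y ^ 4 + (1373/200000) * y ^ 5 := by
  have e : (789/1000) - 1 * y + (6657/40000) * y ^ 2 + (289541/4000000) * y ^ 3 + (155447/9600000) * y ^ 4 + (1373/200000) * y ^ 5 =
      (y - (2547/2000)) ^ 2 * ((778060401883791/1600000000000000) + (117622639621/800000000000) * y + (40413061/1200000000) * y ^ 2 + (1373/200000) * y ^ 3) + ((79408168584713/640000000000000000) * y + (2159558355854070681/6400000000000000000000)) := by ring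
  rw [e]
  positivity

theorem rest_ineq (x y : ℝ) (hx : 0 ≤ x) (hy0 : 0 ≤ y) (hxy : 20 * x ≤ y) :
    0 ≤ 433 / 1000 * (2 * x ^ 3 * y) / 24
        + 10984 / 10000 * (5 * x ^ 2 * y ^ 3 + 5 * x ^ 3 * y ^ 2 - 6 * x ^ 4 * y) / 120 := by
  have hxy' : x ≤ y := by linarith
  have t1 : 0 ≤ x ^ 3 * y := by positivity
  have t4 : 0 ≤ x ^ 2 * y ^ 3 := by positivity
  have t2 : x ^ 4 * y ≤ x ^ 2 * y ^ 3 := by
    have h : x ^ 2 ≤ y ^ 2 := by gcongr
    calc x ^ 4 * y = x ^ 2 * y * (x ^ 2) := by ring
      _ ≤ x ^ 2 * y * (y ^ 2) := by gcongr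
      _ = x ^ 2 * y ^ 3 := by ring
  have t3 : x ^ 4 * y ≤ x ^ 3 * y ^ 2 := by
    calc x ^ 4 * y = x ^ 3 * y * x := by ring
      _ ≤ x ^ 3 * y * y := by gcongr
      _ = x ^ 3 * y ^ 2 := by ring
  linarith

theorem main_ineq (x y : ℝ) (hx : 0 ≤ x) (hy0 : 0 ≤ y) (hxy : 20 * x ≤ y) :
    0 ≤ 789 / 1000 - y + 317 / 1000 * (y ^ 2 + x * y) / 2
        + 4354 / 10000 * (y ^ 3 - x ^ 2 * y) / 6
        + 433 / 1000 * (y ^ 4 - 2 * x * y ^ 3 - x ^ 2 * y ^ 2) / 24
        + 10984 / 10000 * (y ^ 5 - 5 * x * y ^ 4) / 120 := by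
  rcases eq_or_lt_of_le hy0 with h0 | hpos
  · have hx0 : x = 0 := by linarith
    rw [← h0, hx0]; norm_num
  · have hA := poly_A y hy0
    have hB := poly_B y hy0
    have e : y * (789 / 1000 - y + 317 / 1000 * (y ^ 2 + x * y) / 2
        + 4354 / 10000 * (y ^ 3 - x ^ 2 * y) / 6
        + 433 / 1000 * (y ^ 4 - 2 * x * y ^ 3 - x ^ 2 * y ^ 2) / 24
        + 10984 / 10000 * (y ^ 5 - 5 * x * y ^ 4) / 120) =
        (y - 20 * x) * ((789/1000) - 1 * y + (317/2000) * y ^ 2 + (2177/30000) * y ^ 3 + (433/24000) * y ^ 4 + (1373/150000) * y ^ 5) + 20 * x * ((789/1000) - 1 * y + (6657/40000) * y ^ 2 + (289541/4000000) * y ^ 3 + (155447/9600000) * y ^ 4 + (1373/200000) * y ^ 5)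
        + (4354 / 10000 * y / 6 + 433 / 1000 * y ^ 2 / 24) *
          ((20 * x) * (y - 20 * x) * y / 400) := by
      ring
    have h1 : 0 ≤ y - 20 * x := by linarith
    have h2 : 0 ≤ 20 * x := by linarith
    have h3 := mul_nonneg h1 hA
    have h4 := mul_nonneg h2 hB
    have h6 : 0 ≤ (4354 / 10000 * y / 6 + 433 / 1000 * y ^ 2 / 24) := by positivity
    have h5 := mul_nonneg h6 (div_nonneg (mul_nonneg (mul_nonneg h2 h1) hy0)
      (by norm_num : (0 : ℝ) ≤ 400))
    have hm := add_nonneg (add_nonneg h3 h4) h5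
    rw [← e] at hm
    exact nonneg_of_mul_nonneg_right hm hpos

theorem unif (n : ℕ) (hn : 21 ≤ n) (x : ℝ) (hx : 0 ≤ x) :
    0 ≤ 789 / 1000 - ((n : ℝ) - 1) * x +
      ((n.choose 2 : ℝ) * (317 / 1000 * x ^ 2) + (n.choose 3 : ℝ) * (4354 / 10000 * x ^ 3) +
      (n.choose 4 : ℝ) * (433 / 1000 * x ^ 4) + (n.choose 5 : ℝ) * (10984 / 10000 * x ^ 5)) := by
  have h1 := choose_step n 1
  have h2 := choose_step n 2
  have h3 := choose_step n 3
  have h4 := choose_step n 4
  push_cast at h1 h2 h3 h4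
  rw [Nat.choose_one_right] at h1
  have hn' : (21 : ℝ) ≤ n := by exact_mod_cast hn
  obtain ⟨N, hnN⟩ : ∃ N : ℝ, (n : ℝ) = N + 1 := ⟨(n : ℝ) - 1, by ring⟩
  have hN20 : (20 : ℝ) ≤ N := by linarith
  rw [hnN] at h1 h2 h3 h4
  have e2 : (n.choose 2 : ℝ) = (N + 1) * N / 2 := by linarith
  have e3 : (n.choose 3 : ℝ) = (N + 1) * N * (N - 1) / 6 := by
    rw [e2] at h2; linarith
  have e4 : (n.choose 4 : ℝ) = (N + 1) * N * (N - 1) * (N - 2) / 24 := by
    rw [e3] at h3; linarith
  have e5 : (n.choose 5 : ℝ) = (N + 1) * N * (N - 1) * (N - 2) * (N - 3) / 120 := by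
    rw [e4] at h4; linarith
  rw [e2, e3, e4, e5, hnN]
  have hy0 : 0 ≤ N * x := mul_nonneg (by linarith) hx
  have hxy : 20 * x ≤ N * x := mul_le_mul_of_nonneg_right hN20 hx
  have r1 := rest_ineq x (N * x) hx hy0 hxy
  have r2 := main_ineq x (N * x) hx hy0 hxy
  have r3 := add_nonneg r2 r1
  refine le_trans r3 (le_of_eq ?_)
  ring

theorem good_cf : Good (789 / 1000) cf := by
  intro n hn x hx
  rw [sum_cf]
  rcases lt_or_ge n 21 with h | h
  · interval_cases n
    · norm_num [Nat.choose]
    · have := poly_2 x hx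
      norm_num [Nat.choose] at this ⊢
      linarith
    · have := poly_3 x hx
      norm_num [Nat.choose] at this ⊢
      linarith
    · have := poly_4 x hx
      norm_num [Nat.choose] at this ⊢
      linarith
    · have := poly_5 x hx
      norm_num [Nat.choose] at this ⊢
      linarith
    · have := poly_6 x hx
      norm_num [Nat.choose] at this ⊢
      linarith
    · have := poly_7 x hx
      norm_num [Nat.choose] at this ⊢
      linarith
    · have := poly_8 x hx
      norm_num [Nat.choose] at this ⊢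
      linarith
    · have := poly_9 x hx
      norm_num [Nat.choose] at this ⊢
      linarith
    · have := poly_10 x hx
      norm_num [Nat.choose] at this ⊢
      linarith
    · have := poly_11 x hx
      norm_num [Nat.choose] at this ⊢
      linarith
    · have := poly_12 x hx
      norm_num [Nat.choose] at this ⊢
      linarith
    · have := poly_13 x hx
      norm_num [Nat.choose] at this ⊢
      linarith
    · have := poly_14 x hx
      norm_num [Nat.choose] at this ⊢
      linarith
    · have := poly_15 x hx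
      norm_num [Nat.choose] at this ⊢
      linarith
    · have := poly_16 x hx
      norm_num [Nat.choose] at this ⊢
      linarith
    · have := poly_17 x hx
      norm_num [Nat.choose] at this ⊢
      linarith
    · have := poly_18 x hx
      norm_num [Nat.choose] at this ⊢
      linarith
    · have := poly_19 x hx
      norm_num [Nat.choose] at this ⊢
      linarith
    · have := poly_20 x hx
      norm_num [Nat.choose] at this ⊢
      linarith
  · have := unif n h x hx
    linarith

theorem sum_choose_bound (k : ℕ) (hk : 1 ≤ k) :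
    ∑ j ∈ range (k + 1), (k.choose j : ℝ) / (k : ℝ) ^ j * cf j ≤
      317 / 1000 / 2 + 4354 / 10000 / 6 + 433 / 1000 / 24 + 10984 / 10000 / 120 := by
  have hk' : (0 : ℝ) < k := by exact_mod_cast hk
  have e : ∑ j ∈ range (k + 1), (k.choose j : ℝ) / (k : ℝ) ^ j * cf j =
      ∑ j ∈ range (k + 1), (k.choose j : ℝ) * (cf j * (1 / (k : ℝ)) ^ j) := by
    apply Finset.sum_congr rfl
    intro j _
    rw [one_div, inv_pow]
    ring
  rw [e, sum_cf]
  have hb : ∀ j : ℕ, (k.choose j : ℝ) * (1 / (k : ℝ)) ^ j ≤ 1 / (j.factorial : ℝ) := by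
    intro j
    have := Nat.choose_le_pow_div (α := ℝ) j k
    rw [one_div, inv_pow]
    rw [← div_eq_mul_inv, div_le_iff₀ (by positivity)]
    calc (k.choose j : ℝ) ≤ (k : ℝ) ^ j / j.factorial := this
      _ = 1 / (j.factorial : ℝ) * (k : ℝ) ^ j := by ring
  have h2 := hb 2
  have h3 := hb 3
  have h4 := hb 4
  have h5 := hb 5
  norm_num [Nat.factorial] at h2 h3 h4 h5 ⊢
  linarith

/-- **Upper bound for every number of players**: `s_k ≤ 0.6528` for all `k ≥ 1`. -/
theorem upperAll : ∀ k : ℕ, 1 ≤ k → cryptoValue k ≤ 0.6528 := by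
  intro k hk
  refine le_trans (cryptoValue_le_of_good hk (789 / 1000) (by norm_num) cf cf_nonneg good_cf) ?_
  have := sum_choose_bound k hk
  linarith

end Pool.Agent.Helper92.CryptoUpperAll
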