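import Pool.Agent.Helper1.SD.Cone
import Pool.Agent.Helper79.SD5
import Pool.Agent.Helper53.SDGood

set_option autoImplicit false

/-!
The half-cube instance of the construction of self-dual polytopes: the cone in `ℝ^7` obtained from
the even sign vectors (demihypercube) and its dual.
-/

namespace Pool.Agent.Helper1.SD

open Matrix

namespace D6

/-- a sign -/
def Sg (x : ℝ) : Prop := x = 1 ∨ x = -1

/-- zero or plus or minus two -/
def Tw (x : ℝ) : Prop := x = 0 ∨ x = 2 ∨ x = -2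

theorem Sg.neg {x : ℝ} (h : Sg x) : Sg (-x) := by
  rcases h with h | h
  · right; rw [h]
  · left; rw [h]; norm_num

theorem Sg.mul {x y : ℝ} (h : Sg x) (h' : Sg y) : Sg (x * y) := by
  rcases h with h | h <;> rcases h' with h' | h' <;> subst h <;> subst h' <;> simp [Sg]

theorem Sg.le {x : ℝ} (h : Sg x) : x ≤ 1 := by
  rcases h with h | h <;> linarith

theorem Sg.ge {x : ℝ} (h : Sg x) : -1 ≤ x := by
  rcases h with h | h <;> linarith

theorem Tw.neg {x : ℝ} (h : Tw x) : Tw (-x) := by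
  rcases h with h | h | h <;> subst h <;> simp [Tw]

/-- the even sign vectors at height two -/
def AA : Set (Fin 7 → ℝ) :=
  {x | Sg (x 0) ∧ Sg (x 1) ∧ Sg (x 2) ∧ Sg (x 3) ∧ Sg (x 4) ∧ Sg (x 5) ∧
    x 0 * x 1 * x 2 * x 3 * x 4 * x 5 = 1 ∧ x 6 = 2}

/-- the odd sign vectors at height two -/
def BS : Set (Fin 7 → ℝ) :=
  {x | Sg (x 0) ∧ Sg (x 1) ∧ Sg (x 2) ∧ Sg (x 3) ∧ Sg (x 4) ∧ Sg (x 5) ∧
    x 0 * x 1 * x 2 * x 3 * x 4 * x 5 = -1 ∧ x 6 = 2}

/-- the vectors `(± 2 e_i ; 1)` -/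
def BV : Set (Fin 7 → ℝ) :=
  {x | Tw (x 0) ∧ Tw (x 1) ∧ Tw (x 2) ∧ Tw (x 3) ∧ Tw (x 4) ∧ Tw (x 5) ∧
    x 0 ^ 2 + x 1 ^ 2 + x 2 ^ 2 + x 3 ^ 2 + x 4 ^ 2 + x 5 ^ 2 = 4 ∧ x 6 = 1}

def BB : Set (Fin 7 → ℝ) := BS ∪ BV

/-- the simple roots -/
def al : Fin 6 → (Fin 7 → ℝ) :=
  ![![1, -1, 0, 0, 0, 0, 0], ![0, 1, -1, 0, 0, 0, 0], ![0, 0, 1, -1, 0, 0, 0],
    ![0, 0, 0, 1, -1, 0, 0], ![0, 0, 0, 0, 1, -1, 0], ![0, 0, 0, 0, 1, 1, 0]]

theorem dot7 (x y : Fin 7 → ℝ) : x ⬝ᵥ y = x 0 * y 0 + x 1 * y 1 + x 2 * y 2 + x 3 * y 3 +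
    x 4 * y 4 + x 5 * y 5 + x 6 * y 6 := by
  simp [dotProduct, Fin.sum_univ_succ]
  ring

theorem eq7 {x : Fin 7 → ℝ} {c0 c1 c2 c3 c4 c5 c6 : ℝ} (h0 : x 0 = c0) (h1 : x 1 = c1)
    (h2 : x 2 = c2) (h3 : x 3 = c3) (h4 : x 4 = c4) (h5 : x 5 = c5) (h6 : x 6 = c6) :
    x = ![c0, c1, c2, c3, c4, c5, c6] := by
  subst h0 h1 h2 h3 h4 h5 h6
  ext j
  fin_cases j <;> rfl

theorem al_dot0 (x : Fin 7 → ℝ) : al 0 ⬝ᵥ x = x 0 - x 1 := by
  rw [dot7]; simp [al]; ring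
theorem al_dot1 (x : Fin 7 → ℝ) : al 1 ⬝ᵥ x = x 1 - x 2 := by
  rw [dot7]; simp [al]; ring
theorem al_dot2 (x : Fin 7 → ℝ) : al 2 ⬝ᵥ x = x 2 - x 3 := by
  rw [dot7]; simp [al]; ring
theorem al_dot3 (x : Fin 7 → ℝ) : al 3 ⬝ᵥ x = x 3 - x 4 := by
  rw [dot7]; simp [al]; ring
theorem al_dot4 (x : Fin 7 → ℝ) : al 4 ⬝ᵥ x = x 4 - x 5 := by
  rw [dot7]; simp [al]; ring
theorem al_dot5 (x : Fin 7 → ℝ) : al 5 ⬝ᵥ x = x 4 + x 5 := by
  rw [dot7]; simp [al]

theorem refl0 (x : Fin 7 → ℝ) : refl (al 0) x = ![x 1, x 0, x 2, x 3, x 4, x 5, x 6] := by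
  apply eq7 <;> simp only [refl, al_dot0, Pi.sub_apply, Pi.smul_apply, smul_eq_mul] <;>
    simp [al] <;> ring
theorem refl1 (x : Fin 7 → ℝ) : refl (al 1) x = ![x 0, x 2, x 1, x 3, x 4, x 5, x 6] := by
  apply eq7 <;> simp only [refl, al_dot1, Pi.sub_apply, Pi.smul_apply, smul_eq_mul] <;>
    simp [al] <;> ring
theorem refl2 (x : Fin 7 → ℝ) : refl (al 2) x = ![x 0, x 1, x 3, x 2, x 4, x 5, x 6] := by
  apply eq7 <;> simp only [refl, al_dot2, Pi.sub_apply, Pi.smul_apply, smul_eq_mul] <;>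
    simp [al] <;> ring
theorem refl3 (x : Fin 7 → ℝ) : refl (al 3) x = ![x 0, x 1, x 2, x 4, x 3, x 5, x 6] := by
  apply eq7 <;> simp only [refl, al_dot3, Pi.sub_apply, Pi.smul_apply, smul_eq_mul] <;>
    simp [al] <;> ring
theorem refl4 (x : Fin 7 → ℝ) : refl (al 4) x = ![x 0, x 1, x 2, x 3, x 5, x 4, x 6] := by
  apply eq7 <;> simp only [refl, al_dot4, Pi.sub_apply, Pi.smul_apply, smul_eq_mul] <;>
    simp [al] <;> ring
theorem refl5 (x : Fin 7 → ℝ) : refl (al 5) x = ![x 0, x 1, x 2, x 3, -x 5, -x 4, x 6] := by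
  apply eq7 <;> simp only [refl, al_dot5, Pi.sub_apply, Pi.smul_apply, smul_eq_mul] <;>
    simp [al] <;> ring

theorem sum6 {a b c d e f : ℝ} (ha : Sg a) (hb : Sg b) (hc : Sg c) (hd : Sg d) (he : Sg e)
    (hf : Sg f) (hp : a * b * c * d * e * f = -1) :
    -4 ≤ a + b + c + d + e + f ∧ a + b + c + d + e + f ≤ 4 := by
  rcases ha with ha | ha <;> rcases hb with hb | hb <;> rcases hc with hc | hc <;>
    rcases hd with hd | hd <;> rcases he with he | he <;> rcases hf with hf | hf <;>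
    subst ha hb hc hd he hf <;> first | (exfalso; norm_num at hp; done) | norm_num

/-- the vector at height one with `s` at place `i` -/
theorem BV_cases {x : Fin 7 → ℝ} (h : x ∈ BV) : ∃ s : ℝ, (s = 2 ∨ s = -2) ∧
    (x = ![s, 0, 0, 0, 0, 0, 1] ∨ x = ![0, s, 0, 0, 0, 0, 1] ∨ x = ![0, 0, s, 0, 0, 0, 1] ∨
      x = ![0, 0, 0, s, 0, 0, 1] ∨ x = ![0, 0, 0, 0, s, 0, 1] ∨ x = ![0, 0, 0, 0, 0, s, 1]) := by
  obtain ⟨h0, h1, h2, h3, h4, h5, hs, h6⟩ := h
  have key : ∀ a b c d e f : ℝ, (a = 2 ∨ a = -2) → a ^ 2 + b ^ 2 + c ^ 2 + d ^ 2 + e ^ 2 + f ^ 2 = 4 →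
      b = 0 ∧ c = 0 ∧ d = 0 ∧ e = 0 ∧ f = 0 := by
    intro a b c d e f ha hs
    have ha2 : a ^ 2 = 4 := by rcases ha with h | h <;> rw [h] <;> norm_num
    have hb := sq_nonneg b
    have hc := sq_nonneg c
    have hd := sq_nonneg d
    have he := sq_nonneg e
    have hf := sq_nonneg f
    refine ⟨?_, ?_, ?_, ?_, ?_⟩ <;> apply pow_eq_zero_iff (two_ne_zero) |>.1 <;> linarith
  rcases h0 with h0 | h0
  · rcases h1 with h1 | h1
    · rcases h2 with h2 | h2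
      · rcases h3 with h3 | h3
        · rcases h4 with h4 | h4
          · rcases h5 with h5 | h5
            · rw [h0, h1, h2, h3, h4, h5] at hs; norm_num at hs
            · exact ⟨x 5, h5, by right; right; right; right; right; exact eq7 h0 h1 h2 h3 h4 rfl h6⟩
          · obtain ⟨k1, k2, k3, k4, k5⟩ := key (x 4) (x 0) (x 1) (x 2) (x 3) (x 5) h4 (by linarith)
            exact ⟨x 4, h4, by right; right; right; right; left; exact eq7 h0 h1 h2 h3 rfl k5 h6⟩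
        · obtain ⟨k1, k2, k3, k4, k5⟩ := key (x 3) (x 0) (x 1) (x 2) (x 4) (x 5) h3 (by linarith)
          exact ⟨x 3, h3, by right; right; right; left; exact eq7 h0 h1 h2 rfl k4 k5 h6⟩
      · obtain ⟨k1, k2, k3, k4, k5⟩ := key (x 2) (x 0) (x 1) (x 3) (x 4) (x 5) h2 (by linarith)
        exact ⟨x 2, h2, by right; right; left; exact eq7 h0 h1 rfl k3 k4 k5 h6⟩
    · obtain ⟨k1, k2, k3, k4, k5⟩ := key (x 1) (x 0) (x 2) (x 3) (x 4) (x 5) h1 (by linarith)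
      exact ⟨x 1, h1, by right; left; exact eq7 h0 rfl k2 k3 k4 k5 h6⟩
  · obtain ⟨k1, k2, k3, k4, k5⟩ := key (x 0) (x 1) (x 2) (x 3) (x 4) (x 5) h0 (by linarith)
    exact ⟨x 0, h0, by left; exact eq7 rfl k1 k2 k3 k4 k5 h6⟩

theorem nonnegAB (a : Fin 7 → ℝ) (ha : a ∈ AA) (b : Fin 7 → ℝ) (hb : b ∈ BB) : 0 ≤ a ⬝ᵥ b := by
  obtain ⟨h0, h1, h2, h3, h4, h5, hp, h6⟩ := ha
  rcases hb with hb | hb
  · obtain ⟨g0, g1, g2, g3, g4, g5, gp, g6⟩ := hb
    have := (sum6 (h0.mul g0) (h1.mul g1) (h2.mul g2) (h3.mul g3) (h4.mul g4) (h5.mul g5)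
      (by linear_combination (b 0 * b 1 * b 2 * b 3 * b 4 * b 5) * hp + gp)).1
    rw [dot7, h6, g6]
    linarith
  · obtain ⟨s, hs, hx⟩ := BV_cases hb
    have l0 := h0.le
    have l1 := h1.le
    have l2 := h2.le
    have l3 := h3.le
    have l4 := h4.le
    have l5 := h5.le
    have m0 := h0.ge
    have m1 := h1.ge
    have m2 := h2.ge
    have m3 := h3.ge
    have m4 := h4.ge
    have m5 := h5.ge
    rcases hs with hs | hs <;> subst hs <;> rcases hx with hx | hx | hx | hx | hx | hx <;>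
      subst hx <;> rw [dot7] <;> simp <;> linarith

theorem reflA (i : Fin 6) (a : Fin 7 → ℝ) (ha : a ∈ AA) : refl (al i) a ∈ AA := by
  obtain ⟨h0, h1, h2, h3, h4, h5, hp, h6⟩ := ha
  fin_cases i
  · change refl (al 0) a ∈ AA
    rw [refl0]
    exact ⟨h1, h0, h2, h3, h4, h5, by simp; linarith, h6⟩
  · change refl (al 1) a ∈ AA
    rw [refl1]
    exact ⟨h0, h2, h1, h3, h4, h5, by simp; linarith, h6⟩
  · change refl (al 2) a ∈ AA
    rw [refl2]
    exact ⟨h0, h1, h3, h2, h4, h5, by simp; linarith, h6⟩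
  · change refl (al 3) a ∈ AA
    rw [refl3]
    exact ⟨h0, h1, h2, h4, h3, h5, by simp; linarith, h6⟩
  · change refl (al 4) a ∈ AA
    rw [refl4]
    exact ⟨h0, h1, h2, h3, h5, h4, by simp; linarith, h6⟩
  · change refl (al 5) a ∈ AA
    rw [refl5]
    exact ⟨h0, h1, h2, h3, h5.neg, h4.neg, by simp; linarith, h6⟩

theorem reflB (i : Fin 6) (b : Fin 7 → ℝ) (hb : b ∈ BB) : refl (al i) b ∈ BB := by
  rcases hb with hb | hb
  · left
    obtain ⟨h0, h1, h2, h3, h4, h5, hp, h6⟩ := hb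
    fin_cases i
    · change refl (al 0) b ∈ BS
      rw [refl0]
      exact ⟨h1, h0, h2, h3, h4, h5, by simp; linarith, h6⟩
    · change refl (al 1) b ∈ BS
      rw [refl1]
      exact ⟨h0, h2, h1, h3, h4, h5, by simp; linarith, h6⟩
    · change refl (al 2) b ∈ BS
      rw [refl2]
      exact ⟨h0, h1, h3, h2, h4, h5, by simp; linarith, h6⟩
    · change refl (al 3) b ∈ BS
      rw [refl3]
      exact ⟨h0, h1, h2, h4, h3, h5, by simp; linarith, h6⟩
    · change refl (al 4) b ∈ BS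
      rw [refl4]
      exact ⟨h0, h1, h2, h3, h5, h4, by simp; linarith, h6⟩
    · change refl (al 5) b ∈ BS
      rw [refl5]
      exact ⟨h0, h1, h2, h3, h5.neg, h4.neg, by simp; linarith, h6⟩
  · right
    obtain ⟨h0, h1, h2, h3, h4, h5, hp, h6⟩ := hb
    fin_cases i
    · change refl (al 0) b ∈ BV
      rw [refl0]
      exact ⟨h1, h0, h2, h3, h4, h5, by simp; linarith, h6⟩
    · change refl (al 1) b ∈ BV
      rw [refl1]
      exact ⟨h0, h2, h1, h3, h4, h5, by simp; linarith, h6⟩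
    · change refl (al 2) b ∈ BV
      rw [refl2]
      exact ⟨h0, h1, h3, h2, h4, h5, by simp; linarith, h6⟩
    · change refl (al 3) b ∈ BV
      rw [refl3]
      exact ⟨h0, h1, h2, h4, h3, h5, by simp; linarith, h6⟩
    · change refl (al 4) b ∈ BV
      rw [refl4]
      exact ⟨h0, h1, h2, h3, h5, h4, by simp; linarith, h6⟩
    · change refl (al 5) b ∈ BV
      rw [refl5]
      exact ⟨h0, h1, h2, h3, h5.neg, h4.neg, by simp; linarith, h6⟩

theorem finA : AA.Finite := by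
  apply Set.Finite.subset (Set.Finite.pi' (fun _ : Fin 7 => Set.toFinite ({1, -1, 2} : Set ℝ)))
  intro x hx
  obtain ⟨h0, h1, h2, h3, h4, h5, hp, h6⟩ := hx
  intro i
  have e : ∀ y : ℝ, Sg y → y ∈ ({1, -1, 2} : Set ℝ) := by
    intro y hy
    rcases hy with hy | hy <;> simp [hy]
  fin_cases i
  · exact e _ h0
  · exact e _ h1
  · exact e _ h2
  · exact e _ h3
  · exact e _ h4
  · exact e _ h5
  · change x 6 ∈ _
    rw [h6]; simp

theorem finB : BB.Finite := by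
  apply Set.Finite.subset
    (Set.Finite.pi' (fun _ : Fin 7 => Set.toFinite ({1, -1, 0, 2, -2} : Set ℝ)))
  intro x hx
  rcases hx with hx | hx
  · obtain ⟨h0, h1, h2, h3, h4, h5, hp, h6⟩ := hx
    intro i
    have e : ∀ y : ℝ, Sg y → y ∈ ({1, -1, 0, 2, -2} : Set ℝ) := by
      intro y hy
      rcases hy with hy | hy <;> simp [hy]
    fin_cases i
    · exact e _ h0
    · exact e _ h1
    · exact e _ h2
    · exact e _ h3
    · exact e _ h4
    · exact e _ h5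
    · change x 6 ∈ _
      rw [h6]; simp
  · obtain ⟨h0, h1, h2, h3, h4, h5, hp, h6⟩ := hx
    intro i
    have e : ∀ y : ℝ, Tw y → y ∈ ({1, -1, 0, 2, -2} : Set ℝ) := by
      intro y hy
      rcases hy with hy | hy | hy <;> simp [hy]
    fin_cases i
    · exact e _ h0
    · exact e _ h1
    · exact e _ h2
    · exact e _ h3
    · exact e _ h4
    · exact e _ h5
    · change x 6 ∈ _
      rw [h6]; simp

/-- consequences of the root inequalities -/
theorem roots_pos {x : Fin 7 → ℝ} (h : ∀ i, 0 ≤ al i ⬝ᵥ x) :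
    x 1 ≤ x 0 ∧ x 2 ≤ x 1 ∧ x 3 ≤ x 2 ∧ x 4 ≤ x 3 ∧ x 5 ≤ x 4 ∧ 0 ≤ x 4 + x 5 := by
  have h0 := h 0
  have h1 := h 1
  have h2 := h 2
  have h3 := h 3
  have h4 := h 4
  have h5 := h 5
  rw [al_dot0] at h0
  rw [al_dot1] at h1
  rw [al_dot2] at h2
  rw [al_dot3] at h3
  rw [al_dot4] at h4
  rw [al_dot5] at h5
  refine ⟨?_, ?_, ?_, ?_, ?_, ?_⟩ <;> linarith

theorem roots_neg {x : Fin 7 → ℝ} (h : ∀ i, al i ⬝ᵥ x ≤ 0) :
    x 0 ≤ x 1 ∧ x 1 ≤ x 2 ∧ x 2 ≤ x 3 ∧ x 3 ≤ x 4 ∧ x 4 ≤ x 5 ∧ x 4 + x 5 ≤ 0 := by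
  have h0 := h 0
  have h1 := h 1
  have h2 := h 2
  have h3 := h 3
  have h4 := h 4
  have h5 := h 5
  rw [al_dot0] at h0
  rw [al_dot1] at h1
  rw [al_dot2] at h2
  rw [al_dot3] at h3
  rw [al_dot4] at h4
  rw [al_dot5] at h5
  refine ⟨?_, ?_, ?_, ?_, ?_, ?_⟩ <;> linarith

theorem lam_mem : (![1, 1, 1, 1, 1, 1, 2] : Fin 7 → ℝ) ∈ AA := by
  simp [AA, Sg]

theorem negEta_mem : (![-1, -1, -1, -1, -1, 1, 2] : Fin 7 → ℝ) ∈ BB := by
  left
  simp [BS, Sg]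

theorem v0_mem : (![-2, 0, 0, 0, 0, 0, 1] : Fin 7 → ℝ) ∈ BB := by
  right
  simp [BV, Tw]
  norm_num

/-- the two extreme inequalities for a dominant vector that is nonnegative on `BB` -/
theorem dom_ineq {x : Fin 7 → ℝ} (h : ∀ b ∈ BB, 0 ≤ x ⬝ᵥ b) :
    2 * x 0 ≤ x 6 ∧ x 0 + x 1 + x 2 + x 3 + x 4 - x 5 ≤ 2 * x 6 := by
  have h1 := h _ v0_mem
  have h2 := h _ negEta_mem
  rw [dot7] at h1 h2
  simp at h1 h2
  constructor <;> linarith

theorem anti_ineq {y : Fin 7 → ℝ} (h : ∀ a ∈ AA, 0 ≤ y ⬝ᵥ a) :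
    -(y 0 + y 1 + y 2 + y 3 + y 4 + y 5) ≤ 2 * y 6 := by
  have h1 := h _ lam_mem
  rw [dot7] at h1
  simp at h1
  linarith

theorem key (x y : Fin 7 → ℝ) (hx : ∀ i, 0 ≤ al i ⬝ᵥ x) (hy : ∀ i, al i ⬝ᵥ y ≤ 0)
    (hxb : ∀ b ∈ BB, 0 ≤ x ⬝ᵥ b) (hya : ∀ a ∈ AA, 0 ≤ y ⬝ᵥ a) : 0 ≤ x ⬝ᵥ y := by
  obtain ⟨a0, a1, a2, a3, a4, a5⟩ := roots_pos hx
  obtain ⟨b0, b1, b2, b3, b4, b5⟩ := roots_neg hy
  obtain ⟨c0, c1⟩ := dom_ineq hxb
  have d := anti_ineq hya
  have hs : 0 ≤ x 6 := by linarith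
  have e0 : 0 ≤ (y 1 - y 0) * (x 6 / 2 - x 0) := mul_nonneg (by linarith) (by linarith)
  have e1 : 0 ≤ (y 2 - y 1) * (x 6 - x 0 - x 1) := mul_nonneg (by linarith) (by linarith)
  have e2 : 0 ≤ (y 3 - y 2) * (3 * x 6 / 2 - x 0 - x 1 - x 2) :=
    mul_nonneg (by linarith) (by linarith)
  have e3 : 0 ≤ (y 4 - y 3) * (2 * x 6 - x 0 - x 1 - x 2 - x 3) :=
    mul_nonneg (by linarith) (by linarith)
  have e4 : 0 ≤ (y 5 - y 4) * (x 6 - (x 0 + x 1 + x 2 + x 3 + x 4 - x 5) / 2) :=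
    mul_nonneg (by linarith) (by linarith)
  have e5 : 0 ≤ (-y 5 - y 4) * (3 * x 6 / 2 - (x 0 + x 1 + x 2 + x 3 + x 4 + x 5) / 2) :=
    mul_nonneg (by linarith) (by linarith)
  have e6 : 0 ≤ x 6 * (y 6 + (y 0 + y 1 + y 2 + y 3 + y 4 + y 5) / 2) :=
    mul_nonneg hs (by linarith)
  rw [dot7]
  linarith

theorem zeroA {y : Fin 7 → ℝ} (hy : ∀ i, al i ⬝ᵥ y ≤ 0) (hya : ∀ a ∈ AA, 0 ≤ y ⬝ᵥ a)
    {a : Fin 7 → ℝ} (ha : a ∈ AA) (h : y ⬝ᵥ a = 0) :
    (y 1 - y 0) * (1 - a 0) = 0 ∧ (y 2 - y 1) * (2 - a 0 - a 1) = 0 ∧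
    (y 3 - y 2) * (3 - a 0 - a 1 - a 2) = 0 ∧ (y 4 - y 3) * (4 - a 0 - a 1 - a 2 - a 3) = 0 ∧
    (y 5 - y 4) * (4 - (a 0 + a 1 + a 2 + a 3 + a 4 - a 5)) = 0 ∧
    (-y 5 - y 4) * (6 - (a 0 + a 1 + a 2 + a 3 + a 4 + a 5)) = 0 ∧
    -(y 0 + y 1 + y 2 + y 3 + y 4 + y 5) = 2 * y 6 := by
  obtain ⟨b0, b1, b2, b3, b4, b5⟩ := roots_neg hy
  have d := anti_ineq hya
  obtain ⟨h0, h1, h2, h3, h4, h5, hp, h6⟩ := ha
  have l0 := h0.le
  have l1 := h1.le
  have l2 := h2.le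
  have l3 := h3.le
  have l4 := h4.le
  have l5 := h5.le
  have hs := (sum6 h0 h1 h2 h3 h4 h5.neg (by linear_combination (-1 : ℝ) * hp)).2
  have e0 : 0 ≤ (y 1 - y 0) * (1 - a 0) := mul_nonneg (by linarith) (by linarith)
  have e1 : 0 ≤ (y 2 - y 1) * (2 - a 0 - a 1) := mul_nonneg (by linarith) (by linarith)
  have e2 : 0 ≤ (y 3 - y 2) * (3 - a 0 - a 1 - a 2) := mul_nonneg (by linarith) (by linarith)
  have e3 : 0 ≤ (y 4 - y 3) * (4 - a 0 - a 1 - a 2 - a 3) := mul_nonneg (by linarith) (by linarith)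
  have e4 : 0 ≤ (y 5 - y 4) * (4 - (a 0 + a 1 + a 2 + a 3 + a 4 - a 5)) :=
    mul_nonneg (by linarith) (by linarith)
  have e5 : 0 ≤ (-y 5 - y 4) * (6 - (a 0 + a 1 + a 2 + a 3 + a 4 + a 5)) :=
    mul_nonneg (by linarith) (by linarith)
  rw [dot7, h6] at h
  refine ⟨?_, ?_, ?_, ?_, ?_, ?_, ?_⟩
  · apply le_antisymm _ e0; linarith
  · apply le_antisymm _ e1; linarith
  · apply le_antisymm _ e2; linarith
  · apply le_antisymm _ e3; linarith
  · apply le_antisymm _ e4; linarith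
  · apply le_antisymm _ e5; linarith
  · apply le_antisymm d; linarith

theorem coverA (y : Fin 7 → ℝ) (hy : ∀ i, al i ⬝ᵥ y ≤ 0) (hya : ∀ a ∈ AA, 0 ≤ y ⬝ᵥ a) :
    Cover 3 {a | a ∈ AA ∧ y ⬝ᵥ a = 0} := by
  obtain ⟨b0, b1, b2, b3, b4, b5⟩ := roots_neg hy
  by_cases H5 : y 4 + y 5 < 0
  · left
    refine ⟨1, ![![1, 1, 1, 1, 1, 1, 2]], ?_, ?_⟩
    · rw [Fintype.linearIndependent_iff]
      intro g hg i
      have e0 := congrFun hg 0
      simp at e0
      fin_cases i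
      simpa using e0
    · rintro a ⟨ha, h⟩
      obtain ⟨z0, z1, z2, z3, z4, z5, z6⟩ := zeroA hy hya ha h
      obtain ⟨h0, h1, h2, h3, h4, h5, hp, h6⟩ := ha
      have l0 := h0.le
      have l1 := h1.le
      have l2 := h2.le
      have l3 := h3.le
      have l4 := h4.le
      have l5 := h5.le
      have hs : 6 - (a 0 + a 1 + a 2 + a 3 + a 4 + a 5) = 0 := by
        rcases mul_eq_zero.1 z5 with h | h
        · exfalso; linarith
        · exact h
      refine ⟨0, ?_⟩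
      symm
      apply eq7 <;> linarith
  by_cases H3 : y 3 < y 4
  · left
    refine ⟨2, ![![1, 1, 1, 1, 1, 1, 2], ![1, 1, 1, 1, -1, -1, 2]], ?_, ?_⟩
    · rw [Fintype.linearIndependent_iff]
      intro g hg i
      have e0 := congrFun hg 0
      have e4 := congrFun hg 4
      simp [Fin.sum_univ_succ] at e0 e4
      fin_cases i <;> simp <;> linarith
    · rintro a ⟨ha, h⟩
      obtain ⟨z0, z1, z2, z3, z4, z5, z6⟩ := zeroA hy hya ha h
      obtain ⟨h0, h1, h2, h3, h4, h5, hp, h6⟩ := ha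
      have l0 := h0.le
      have l1 := h1.le
      have l2 := h2.le
      have l3 := h3.le
      have hs : 4 - a 0 - a 1 - a 2 - a 3 = 0 := by
        rcases mul_eq_zero.1 z3 with h | h
        · exfalso; linarith
        · exact h
      have k0 : a 0 = 1 := by linarith
      have k1 : a 1 = 1 := by linarith
      have k2 : a 2 = 1 := by linarith
      have k3 : a 3 = 1 := by linarith
      rw [k0, k1, k2, k3] at hp
      rcases h4 with h4 | h4
      · refine ⟨0, ?_⟩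
        rw [h4] at hp
        symm
        exact eq7 k0 k1 k2 k3 h4 (by linarith) h6
      · refine ⟨1, ?_⟩
        rw [h4] at hp
        symm
        exact eq7 k0 k1 k2 k3 h4 (by linarith) h6
  by_cases H2 : y 2 < y 3
  · left
    refine ⟨4, ![![1, 1, 1, 1, 1, 1, 2], ![1, 1, 1, 1, -1, -1, 2], ![1, 1, 1, -1, 1, -1, 2],
      ![1, 1, 1, -1, -1, 1, 2]], ?_, ?_⟩
    · rw [Fintype.linearIndependent_iff]
      intro g hg i
      have e0 := congrFun hg 0
      have e3 := congrFun hg 3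
      have e4 := congrFun hg 4
      have e5 := congrFun hg 5
      simp [Fin.sum_univ_succ] at e0 e3 e4 e5
      fin_cases i <;> simp <;> linarith
    · rintro a ⟨ha, h⟩
      obtain ⟨z0, z1, z2, z3, z4, z5, z6⟩ := zeroA hy hya ha h
      obtain ⟨h0, h1, h2, h3, h4, h5, hp, h6⟩ := ha
      have l0 := h0.le
      have l1 := h1.le
      have l2 := h2.le
      have hs : 3 - a 0 - a 1 - a 2 = 0 := by
        rcases mul_eq_zero.1 z2 with h | h
        · exfalso; linarith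
        · exact h
      have k0 : a 0 = 1 := by linarith
      have k1 : a 1 = 1 := by linarith
      have k2 : a 2 = 1 := by linarith
      rw [k0, k1, k2] at hp
      rcases h3 with h3 | h3 <;> rcases h4 with h4 | h4 <;> rw [h3, h4] at hp
      · refine ⟨0, ?_⟩
        symm
        exact eq7 k0 k1 k2 h3 h4 (by linarith) h6
      · refine ⟨1, ?_⟩
        symm
        exact eq7 k0 k1 k2 h3 h4 (by linarith) h6
      · refine ⟨2, ?_⟩
        symm
        exact eq7 k0 k1 k2 h3 h4 (by linarith) h6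
      · refine ⟨3, ?_⟩
        symm
        exact eq7 k0 k1 k2 h3 h4 (by linarith) h6
  by_cases H4 : y 4 < y 5 ∧ y 1 < y 2
  · left
    refine ⟨4, ![![1, 1, 1, 1, 1, 1, 2], ![1, 1, 1, 1, -1, -1, 2], ![1, 1, 1, -1, 1, -1, 2],
      ![1, 1, -1, 1, 1, -1, 2]], ?_, ?_⟩
    · rw [Fintype.linearIndependent_iff]
      intro g hg i
      have e0 := congrFun hg 0
      have e2 := congrFun hg 2
      have e3 := congrFun hg 3
      have e4 := congrFun hg 4
      simp [Fin.sum_univ_succ] at e0 e2 e3 e4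
      fin_cases i <;> simp <;> linarith
    · rintro a ⟨ha, h⟩
      obtain ⟨z0, z1, z2, z3, z4, z5, z6⟩ := zeroA hy hya ha h
      obtain ⟨h0, h1, h2, h3, h4, h5, hp, h6⟩ := ha
      have l0 := h0.le
      have l1 := h1.le
      have hs : 2 - a 0 - a 1 = 0 := by
        rcases mul_eq_zero.1 z1 with h | h
        · exfalso; linarith [H4.2]
        · exact h
      have ht : 4 - (a 0 + a 1 + a 2 + a 3 + a 4 - a 5) = 0 := by
        rcases mul_eq_zero.1 z4 with h | h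
        · exfalso; linarith [H4.1]
        · exact h
      have k0 : a 0 = 1 := by linarith
      have k1 : a 1 = 1 := by linarith
      rw [k0, k1] at ht
      rcases h2 with h2 | h2 <;> rcases h3 with h3 | h3 <;> rcases h4 with h4 | h4 <;>
        rcases h5 with h5 | h5 <;> rw [h2, h3, h4, h5] at ht <;>
        first
        | (exfalso; norm_num at ht; done)
        | exact ⟨0, (eq7 k0 k1 h2 h3 h4 h5 h6).symm⟩
        | exact ⟨1, (eq7 k0 k1 h2 h3 h4 h5 h6).symm⟩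
        | exact ⟨2, (eq7 k0 k1 h2 h3 h4 h5 h6).symm⟩
        | exact ⟨3, (eq7 k0 k1 h2 h3 h4 h5 h6).symm⟩
  by_cases hz : -(y 0 + y 1 + y 2 + y 3 + y 4 + y 5) = 2 * y 6
  · right
    by_cases H6 : y 4 = y 5
    · refine ⟨![![1, 1, 1, 1, 1, 1, 2], ![1, 1, 1, 1, -1, -1, 2], ![1, 1, 1, -1, 1, -1, 2],
        ![1, 1, -1, 1, 1, -1, 2], ![1, 1, 1, -1, -1, 1, 2]], ?_, ?_⟩
      · rw [Fintype.linearIndependent_iff]
        intro g hg i
        have e0 := congrFun hg 0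
        have e2 := congrFun hg 2
        have e3 := congrFun hg 3
        have e4 := congrFun hg 4
        have e5 := congrFun hg 5
        simp [Fin.sum_univ_succ] at e0 e2 e3 e4 e5
        fin_cases i <;> simp <;> linarith
      · intro i
        fin_cases i
        · refine ⟨by simp [AA, Sg], ?_⟩
          rw [dot7]; simp; linarith
        · refine ⟨by simp [AA, Sg], ?_⟩
          rw [dot7]; simp; linarith
        · refine ⟨by simp [AA, Sg], ?_⟩
          rw [dot7]; simp; linarith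
        · refine ⟨by simp [AA, Sg], ?_⟩
          rw [dot7]; simp; linarith
        · refine ⟨by simp [AA, Sg], ?_⟩
          rw [dot7]; simp; linarith
    · have H7 : y 1 = y 2 := by
        rcases not_and_or.1 H4 with h | h
        · exfalso; exact H6 (by linarith)
        · linarith
      refine ⟨![![1, 1, 1, 1, 1, 1, 2], ![1, 1, 1, 1, -1, -1, 2], ![1, 1, 1, -1, 1, -1, 2],
        ![1, 1, -1, 1, 1, -1, 2], ![1, -1, 1, 1, 1, -1, 2]], ?_, ?_⟩
      · rw [Fintype.linearIndependent_iff]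
        intro g hg i
        have e0 := congrFun hg 0
        have e1 := congrFun hg 1
        have e2 := congrFun hg 2
        have e3 := congrFun hg 3
        have e4 := congrFun hg 4
        simp [Fin.sum_univ_succ] at e0 e1 e2 e3 e4
        fin_cases i <;> simp <;> linarith
      · intro i
        fin_cases i
        · refine ⟨by simp [AA, Sg], ?_⟩
          rw [dot7]; simp; linarith
        · refine ⟨by simp [AA, Sg], ?_⟩
          rw [dot7]; simp; linarith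
        · refine ⟨by simp [AA, Sg], ?_⟩
          rw [dot7]; simp; linarith
        · refine ⟨by simp [AA, Sg], ?_⟩
          rw [dot7]; simp; linarith
        · refine ⟨by simp [AA, Sg], ?_⟩
          rw [dot7]; simp; linarith
  · left
    refine ⟨0, fun i => i.elim0, linearIndependent_empty_type, ?_⟩
    rintro a ⟨ha, h⟩
    exact absurd (zeroA hy hya ha h).2.2.2.2.2.2 hz

theorem zeroBS {x : Fin 7 → ℝ} (hx : ∀ i, 0 ≤ al i ⬝ᵥ x) (hxb : ∀ b ∈ BB, 0 ≤ x ⬝ᵥ b)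
    {b : Fin 7 → ℝ} (hb : b ∈ BS) (h : x ⬝ᵥ b = 0) :
    (x 4 - x 5) * (6 + (b 0 + b 1 + b 2 + b 3 + b 4 - b 5)) = 0 ∧
    x 0 + x 1 + x 2 + x 3 + x 4 - x 5 = 2 * x 6 := by
  obtain ⟨a0, a1, a2, a3, a4, a5⟩ := roots_pos hx
  obtain ⟨d0, d1⟩ := dom_ineq hxb
  obtain ⟨h0, h1, h2, h3, h4, h5, hp, h6⟩ := hb
  have l0 := h0.ge
  have l1 := h1.ge
  have l2 := h2.ge
  have l3 := h3.ge
  have l4 := h4.ge
  have l5 := h5.le
  have hs := (sum6 h0 h1 h2 h3 h4 h5 hp).1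
  have e0 : 0 ≤ (x 0 - x 1) * (1 + b 0) := mul_nonneg (by linarith) (by linarith)
  have e1 : 0 ≤ (x 1 - x 2) * (2 + b 0 + b 1) := mul_nonneg (by linarith) (by linarith)
  have e2 : 0 ≤ (x 2 - x 3) * (3 + b 0 + b 1 + b 2) := mul_nonneg (by linarith) (by linarith)
  have e3 : 0 ≤ (x 3 - x 4) * (4 + b 0 + b 1 + b 2 + b 3) :=
    mul_nonneg (by linarith) (by linarith)
  have e4 : 0 ≤ (x 4 - x 5) * (6 + (b 0 + b 1 + b 2 + b 3 + b 4 - b 5)) :=
    mul_nonneg (by linarith) (by linarith)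
  have e5 : 0 ≤ (x 4 + x 5) * (4 + (b 0 + b 1 + b 2 + b 3 + b 4 + b 5)) :=
    mul_nonneg (by linarith) (by linarith)
  rw [dot7, h6] at h
  constructor
  · apply le_antisymm _ e4; linarith
  · apply le_antisymm d1; linarith

theorem zeroBS' {x : Fin 7 → ℝ} (hx : ∀ i, 0 ≤ al i ⬝ᵥ x) (hxb : ∀ b ∈ BB, 0 ≤ x ⬝ᵥ b)
    {b : Fin 7 → ℝ} (hb : b ∈ BS) (h : x ⬝ᵥ b = 0) (h45 : x 5 < x 4) :
    b = ![-1, -1, -1, -1, -1, 1, 2] := by
  have h1 := (zeroBS hx hxb hb h).1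
  have h2 : 6 + (b 0 + b 1 + b 2 + b 3 + b 4 - b 5) = 0 := by
    rcases mul_eq_zero.1 h1 with h | h
    · exfalso; linarith
    · exact h
  obtain ⟨h0, h1, h2, h3, h4, h5, hp, h6⟩ := hb
  have l0 := h0.ge
  have l1 := h1.ge
  have l2 := h2.ge
  have l3 := h3.ge
  have l4 := h4.ge
  have l5 := h5.le
  apply eq7 <;> linarith

theorem coverB (x : Fin 7 → ℝ) (hx : ∀ i, 0 ≤ al i ⬝ᵥ x) (hxb : ∀ b ∈ BB, 0 ≤ x ⬝ᵥ b) :
    Cover 3 {b | b ∈ BB ∧ x ⬝ᵥ b = 0} := by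
  obtain ⟨a0, a1, a2, a3, a4, a5⟩ := roots_pos hx
  obtain ⟨d0, d1⟩ := dom_ineq hxb
  by_cases H : x 3 < x 0
  · left
    refine ⟨4, ![![-2, 0, 0, 0, 0, 0, 1], ![0, -2, 0, 0, 0, 0, 1], ![0, 0, -2, 0, 0, 0, 1],
      ![-1, -1, -1, -1, -1, 1, 2]], ?_, ?_⟩
    · rw [Fintype.linearIndependent_iff]
      intro g hg i
      have e0 := congrFun hg 0
      have e1 := congrFun hg 1
      have e2 := congrFun hg 2
      have e3 := congrFun hg 3
      simp [Fin.sum_univ_succ] at e0 e1 e2 e3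
      fin_cases i <;> simp <;> linarith
    · rintro b ⟨hb, h⟩
      rcases hb with hb | hb
      · by_cases h45 : x 5 < x 4
        · exact ⟨3, (zeroBS' hx hxb hb h h45).symm⟩
        · exfalso
          have := (zeroBS hx hxb hb h).2
          linarith
      · obtain ⟨s, hs, hc⟩ := BV_cases hb
        rcases hs with hs | hs <;> subst hs <;> rcases hc with hc | hc | hc | hc | hc | hc <;>
          rw [hc, dot7] at h <;> simp at h
        · exfalso; linarith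
        · exfalso; linarith
        · exfalso; linarith
        · exfalso; linarith
        · exfalso; linarith
        · exfalso; linarith
        · exact ⟨0, hc.symm⟩
        · exact ⟨1, hc.symm⟩
        · exact ⟨2, hc.symm⟩
        · exfalso; linarith
        · exfalso; linarith
        · exfalso; linarith
  by_cases h45 : x 5 < x 4
  · left
    refine ⟨1, ![![-1, -1, -1, -1, -1, 1, 2]], ?_, ?_⟩
    · rw [Fintype.linearIndependent_iff]
      intro g hg i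
      have e0 := congrFun hg 5
      simp at e0
      fin_cases i
      simpa using e0
    · rintro b ⟨hb, h⟩
      rcases hb with hb | hb
      · exact ⟨0, (zeroBS' hx hxb hb h h45).symm⟩
      · exfalso
        obtain ⟨s, hs, hc⟩ := BV_cases hb
        rcases hs with hs | hs <;> subst hs <;> rcases hc with hc | hc | hc | hc | hc | hc <;>
          rw [hc, dot7] at h <;> simp at h <;> linarith
  by_cases hz : x 6 = 2 * x 0
  · right
    refine ⟨![![-2, 0, 0, 0, 0, 0, 1], ![0, -2, 0, 0, 0, 0, 1], ![0, 0, -2, 0, 0, 0, 1],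
      ![0, 0, 0, -2, 0, 0, 1], ![-1, -1, -1, -1, -1, 1, 2]], ?_, ?_⟩
    · rw [Fintype.linearIndependent_iff]
      intro g hg i
      have e0 := congrFun hg 0
      have e1 := congrFun hg 1
      have e2 := congrFun hg 2
      have e3 := congrFun hg 3
      have e4 := congrFun hg 4
      simp [Fin.sum_univ_succ] at e0 e1 e2 e3 e4
      fin_cases i <;> simp <;> linarith
    · intro i
      fin_cases i
      · refine ⟨v0_mem, ?_⟩
        rw [dot7]; simp; linarith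
      · refine ⟨Or.inr (by simp [BV, Tw]; norm_num), ?_⟩
        rw [dot7]; simp; linarith
      · refine ⟨Or.inr (by simp [BV, Tw]; norm_num), ?_⟩
        rw [dot7]; simp; linarith
      · refine ⟨Or.inr (by simp [BV, Tw]; norm_num), ?_⟩
        rw [dot7]; simp; linarith
      · refine ⟨negEta_mem, ?_⟩
        rw [dot7]; simp; linarith
  · left
    refine ⟨0, fun i => i.elim0, linearIndependent_empty_type, ?_⟩
    rintro b ⟨hb, h⟩
    exfalso
    have hlt : 2 * x 0 < x 6 := lt_of_le_of_ne d0 (Ne.symm hz)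
    rcases hb with hb | hb
    · have := (zeroBS hx hxb hb h).2
      linarith
    · obtain ⟨s, hs, hc⟩ := BV_cases hb
      rcases hs with hs | hs <;> subst hs <;> rcases hc with hc | hc | hc | hc | hc | hc <;>
        rw [hc, dot7] at h <;> simp at h <;> linarith

theorem spanA : Submodule.span ℝ AA = ⊤ := by
  have hli : LinearIndependent ℝ (![![1, 1, 1, 1, 1, 1, 2], ![1, 1, 1, 1, -1, -1, 2],
      ![1, 1, 1, -1, 1, -1, 2], ![1, 1, -1, 1, 1, -1, 2], ![1, -1, 1, 1, 1, -1, 2],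
      ![-1, 1, 1, 1, 1, -1, 2], ![1, 1, 1, -1, -1, 1, 2]] : Fin 7 → (Fin 7 → ℝ)) := by
    rw [Fintype.linearIndependent_iff]
    intro g hg i
    have e0 := congrFun hg 0
    have e1 := congrFun hg 1
    have e2 := congrFun hg 2
    have e3 := congrFun hg 3
    have e4 := congrFun hg 4
    have e5 := congrFun hg 5
    have e6 := congrFun hg 6
    simp [Fin.sum_univ_succ] at e0 e1 e2 e3 e4 e5 e6
    fin_cases i <;> simp <;> linarith
  have hsp := hli.span_eq_top_of_card_eq_finrank (by simp)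
  rw [eq_top_iff, ← hsp]
  apply Submodule.span_mono
  rintro _ ⟨i, rfl⟩
  fin_cases i <;> simp [AA, Sg]

/-- the half-cube reflection system -/
def sys : RefSys 7 where
  m := 6
  α := al
  ρ := ![5, 4, 3, 2, 1, 0, 0]
  pos := by
    intro i
    fin_cases i
    · change 0 < al 0 ⬝ᵥ _
      rw [al_dot0]; simp; norm_num
    · change 0 < al 1 ⬝ᵥ _
      rw [al_dot1]; simp; norm_num
    · change 0 < al 2 ⬝ᵥ _
      rw [al_dot2]; simp; norm_num
    · change 0 < al 3 ⬝ᵥ _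
      rw [al_dot3]; simp
    · change 0 < al 4 ⬝ᵥ _
      rw [al_dot4]; simp
    · change 0 < al 5 ⬝ᵥ _
      rw [al_dot5]; simp
  A := AA
  B := BB
  finA := finA
  finB := finB
  spanA := spanA
  reflA := reflA
  reflB := reflB

theorem sys_good : sys.Good 3 where
  nonneg := nonnegAB
  key := key
  coverA := coverA
  coverB := coverB

/-- the dual frames used for the gluing -/
noncomputable def pp : Fin 7 → (Fin 7 → ℝ) :=
  ![(1 / 4 : ℝ) • ![-1, 1, 1, 1, 1, -1, 2], (1 / 4 : ℝ) • ![1, -1, 1, 1, 1, -1, 2],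
    (1 / 4 : ℝ) • ![1, 1, -1, 1, 1, -1, 2], (1 / 4 : ℝ) • ![1, 1, 1, -1, 1, -1, 2],
    (1 / 4 : ℝ) • ![1, 1, 1, 1, -1, -1, 2], (1 / 4 : ℝ) • ![1, 1, 1, 1, 1, 1, 2],
    ![-1 / 2, -1 / 2, -1 / 2, -1 / 2, -1 / 2, 1 / 2, -1]]

def qq : Fin 7 → (Fin 7 → ℝ) :=
  ![![-2, 0, 0, 0, 0, 0, 1], ![0, -2, 0, 0, 0, 0, 1], ![0, 0, -2, 0, 0, 0, 1],
    ![0, 0, 0, -2, 0, 0, 1], ![0, 0, 0, 0, -2, 0, 1], ![0, 0, 0, 0, 0, 2, 1],
    ![-1, -1, -1, -1, -1, 1, 2]]

theorem qq_pp (i j : Fin 7) : qq i ⬝ᵥ pp j = if i = j then 1 else 0 := by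
  rw [dot7]
  fin_cases i <;> fin_cases j <;> simp [qq, pp] <;> norm_num

theorem pp_mem (i : Fin 6) : pp i.castSucc ∈ coneOf AA := by
  have h : ∀ v : Fin 7 → ℝ, v ∈ AA → (1 / 4 : ℝ) • v ∈ coneOf AA := fun v hv =>
    smul_mem_coneOf (by norm_num) (subset_coneOf _ hv)
  fin_cases i
  · exact h _ (by simp [AA, Sg])
  · exact h _ (by simp [AA, Sg])
  · exact h _ (by simp [AA, Sg])
  · exact h _ (by simp [AA, Sg])
  · exact h _ (by simp [AA, Sg])
  · exact h _ (by simp [AA, Sg])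

theorem qq_mem (i : Fin 7) : qq i ∈ BB := by
  fin_cases i
  · exact v0_mem
  · exact Or.inr (by simp [BV, Tw, qq]; norm_num)
  · exact Or.inr (by simp [BV, Tw, qq]; norm_num)
  · exact Or.inr (by simp [BV, Tw, qq]; norm_num)
  · exact Or.inr (by simp [BV, Tw, qq]; norm_num)
  · exact Or.inr (by simp [BV, Tw, qq]; norm_num)
  · exact negEta_mem

theorem hb_qq (b : Fin 7 → ℝ) (hb : b ∈ BB) :
    b = qq (Fin.last 6) ∨ b ⬝ᵥ pp (Fin.last 6) ≤ 0 := by
  change b = ![-1, -1, -1, -1, -1, 1, 2] ∨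
    b ⬝ᵥ ![-1 / 2, -1 / 2, -1 / 2, -1 / 2, -1 / 2, 1 / 2, -1] ≤ 0
  rw [dot7]
  rcases hb with hb | hb
  · obtain ⟨h0, h1, h2, h3, h4, h5, hp, h6⟩ := hb
    have g0 := h0
    have g1 := h1
    have g2 := h2
    have g3 := h3
    have g4 := h4
    have g5 := h5
    rcases g0 with g0 | g0 <;> rcases g1 with g1 | g1 <;> rcases g2 with g2 | g2 <;>
      rcases g3 with g3 | g3 <;> rcases g4 with g4 | g4 <;> rcases g5 with g5 | g5 <;>
      rw [g0, g1, g2, g3, g4, g5] at hp <;>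
      first
      | (exfalso; norm_num at hp; done)
      | (right; simp [g0, g1, g2, g3, g4, g5, h6]; norm_num; done)
      | (left; exact eq7 g0 g1 g2 g3 g4 g5 h6)
  · right
    obtain ⟨s, hs, hc⟩ := BV_cases hb
    rcases hs with hs | hs <;> subst hs <;> rcases hc with hc | hc | hc | hc | hc | hc <;>
      rw [hc] <;> simp <;> norm_num

end D6

theorem goodCone_D6 : ∃ K : Set (Fin 7 → ℝ), GoodCone 3 K := by
  have h := D6.sys_good
  obtain ⟨hA, hB⟩ := h.dualAB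
  obtain ⟨k1, k2⟩ := h.ks
  refine exists_goodCone (d := 6) (A := D6.AA) (B := D6.BB) D6.finA D6.finB hA hB k1 k2 D6.pp D6.qq
    D6.qq_pp D6.pp_mem D6.qq_mem D6.hb_qq ?_ ?_
  · intro i
    fin_cases i
    · refine ⟨![1, -1, -1, -1, 1, -1, 2], by simp [D6.AA, D6.Sg], ?_, ?_⟩ <;>
        rw [D6.dot7] <;> simp [D6.qq]
    · refine ⟨![-1, 1, -1, -1, 1, -1, 2], by simp [D6.AA, D6.Sg], ?_, ?_⟩ <;>
        rw [D6.dot7] <;> simp [D6.qq]
    · refine ⟨![-1, -1, 1, -1, 1, -1, 2], by simp [D6.AA, D6.Sg], ?_, ?_⟩ <;>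
        rw [D6.dot7] <;> simp [D6.qq]
    · refine ⟨![-1, -1, -1, 1, 1, -1, 2], by simp [D6.AA, D6.Sg], ?_, ?_⟩ <;>
        rw [D6.dot7] <;> simp [D6.qq]
    · refine ⟨![-1, -1, -1, 1, 1, -1, 2], by simp [D6.AA, D6.Sg], ?_, ?_⟩ <;>
        rw [D6.dot7] <;> simp [D6.qq]
    · refine ⟨![-1, -1, -1, 1, 1, -1, 2], by simp [D6.AA, D6.Sg], ?_, ?_⟩ <;>
        rw [D6.dot7] <;> simp [D6.qq]
  · refine ⟨0, ![-1, -1, -1, 1, 1, -1, 2], by simp [D6.AA, D6.Sg], ![0, 2, 0, 0, 0, 0, 1],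
      Or.inr (by simp [D6.BV, D6.Tw]; norm_num), ?_, ?_, ?_, ?_⟩ <;>
      rw [D6.dot7] <;> simp [D6.qq, D6.pp] <;> norm_num

end Pool.Agent.Helper1.SD
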