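import Pool.Agent.Helper10.Sub.ApplyInf

/-!
# Generic lattice parametrisation of exponents
-/

set_option autoImplicit false

namespace Pool.Agent.Helper92.Sub

open Pool.Agent.Helper10.Sub

/-- Two exponents are close (Laurent version in `k` variables). -/
lemma two_closeG {K L : Type} [Field K] [NontriviallyNormedField L] [Algebra K L] (ε : K)
    (hε : 1 < ‖algebraMap K L ε‖) {k : ℕ} (S : Finset (Fin k → ℤ)) (g : (Fin k → ℤ) → K)
    (hS : S.Nonempty) (hg : ∀ α ∈ S, g α ≠ 0) :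
    ∃ M : ℕ, ∀ z : Fin k → ℤ, ∑ α ∈ S, g α * ε ^ (∑ j, α j * z j) = 0 →
      ∃ α ∈ S, ∃ β ∈ S, α ≠ β ∧ |∑ j, (α j - β j) * z j| ≤ M := by
  classical
  set r : ℝ := ‖algebraMap K L ε‖ with hr
  have hr0 : 0 < r := by linarith
  have hε0 : ε ≠ 0 := by
    rintro rfl
    rw [hr, map_zero, norm_zero] at hr0
    exact lt_irrefl _ hr0
  set A : ℝ := ∑ α ∈ S, ‖algebraMap K L (g α)‖ with hA
  have hinj : Function.Injective (algebraMap K L) := (algebraMap K L).injective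
  obtain ⟨α₁, hα₁, hmin⟩ := S.exists_min_image
    (fun α => ‖algebraMap K L (g α)‖) hS
  set a : ℝ := ‖algebraMap K L (g α₁)‖ with ha
  have ha0 : 0 < a := norm_pos_iff.mpr
    (by rw [Ne, map_eq_zero_iff _ hinj]; exact hg _ hα₁)
  have hA0 : 0 ≤ A := Finset.sum_nonneg fun _ _ => norm_nonneg _
  obtain ⟨M, hM⟩ := pow_unbounded_of_one_lt ((A + 1) / a) hε
  refine ⟨M, fun z hz => ?_⟩
  set n : (Fin k → ℤ) → ℤ := fun α => ∑ j, α j * z j with hn
  obtain ⟨α, hα, hmax⟩ := S.exists_max_image n hS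
  by_contra hcon
  push Not at hcon
  have hsmall : ∀ β ∈ S.erase α, n β ≤ n α - M := by
    intro β hβ
    have hβ' := Finset.mem_of_mem_erase hβ
    have h2 := hcon α hα β hβ' (Ne.symm (Finset.ne_of_mem_erase hβ))
    have h3 : ∑ j, (α j - β j) * z j = n α - n β := by
      simp only [hn, sub_mul, Finset.sum_sub_distrib]
    rw [h3, abs_of_nonneg (by have := hmax β hβ'; omega)] at h2
    omega
  have hz' : ∑ β ∈ S, g β * ε ^ (n β) = 0 := hz
  rw [← Finset.add_sum_erase _ _ hα] at hz'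
  have h4 : g α * ε ^ (n α) = -∑ β ∈ S.erase α, g β * ε ^ (n β) := by
    linear_combination hz'
  have h5 : a * r ^ (n α) ≤ A * r ^ (n α - M) := by
    calc a * r ^ (n α) ≤ ‖algebraMap K L (g α)‖ * r ^ (n α) :=
          mul_le_mul_of_nonneg_right (hmin α hα) (zpow_nonneg hr0.le _)
      _ = ‖algebraMap K L (g α * ε ^ (n α))‖ := by
          rw [map_mul, norm_mul, map_zpow₀, norm_zpow]
      _ = ‖algebraMap K L (∑ β ∈ S.erase α, g β * ε ^ (n β))‖ := by
          rw [h4, map_neg, norm_neg]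
      _ ≤ ∑ β ∈ S.erase α, ‖algebraMap K L (g β)‖ * r ^ (n α - M) := by
          rw [map_sum]
          refine (norm_sum_le _ _).trans (Finset.sum_le_sum fun β hβ => ?_)
          rw [map_mul, norm_mul, map_zpow₀, norm_zpow]
          apply mul_le_mul_of_nonneg_left _ (norm_nonneg _)
          exact zpow_le_zpow_right₀ hε.le (hsmall β hβ)
      _ ≤ A * r ^ (n α - M) := by
          rw [← Finset.sum_mul]
          apply mul_le_mul_of_nonneg_right _ (zpow_nonneg hr0.le _)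
          exact Finset.sum_le_sum_of_subset_of_nonneg (Finset.erase_subset _ _)
            fun _ _ _ => norm_nonneg _
  have h6 : r ^ (n α) = r ^ M * r ^ (n α - M) := by
    rw [← zpow_natCast, ← zpow_add₀ hr0.ne']
    congr 1
    ring
  rw [h6, ← mul_assoc] at h5
  have h7 : a * r ^ M ≤ A := le_of_mul_le_mul_right h5 (zpow_pos hr0 _)
  rw [div_lt_iff₀ ha0] at hM
  linarith

/-- The kernel of a nonzero linear form on `ℤ ^ k` has a basis with fewer than `k` elements. -/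
lemma ker_basis {k : ℕ} (δ : Fin k → ℤ) (hδ : δ ≠ 0) :
    ∃ (n : ℕ), n < k ∧ ∃ b : Fin n → Fin k → ℤ, ∀ v : Fin k → ℤ, ∑ j, δ j * v j = 0 →
      ∃ c : Fin n → ℤ, ∀ j, v j = ∑ i, c i * b i j := by
  classical
  let f : (Fin k → ℤ) →ₗ[ℤ] ℤ :=
    { toFun := fun v => ∑ j, δ j * v j
      map_add' := fun u v => by simp [mul_add, Finset.sum_add_distrib]
      map_smul' := fun c v => by
        simp only [Pi.smul_apply, smul_eq_mul, Finset.mul_sum, RingHom.id_apply]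
        exact Finset.sum_congr rfl fun _ _ => by ring }
  obtain ⟨n, ⟨b⟩⟩ := Submodule.nonempty_basis_of_pid (Pi.basisFun ℤ (Fin k)) (LinearMap.ker f)
  have hn : Module.finrank ℤ (LinearMap.ker f) = n := by
    rw [Module.finrank_eq_card_basis b, Fintype.card_fin]
  have hk : Module.finrank ℤ (LinearMap.range f) + Module.finrank ℤ (LinearMap.ker f) = k := by
    have h := (LinearMap.ker f).finrank_quotient_add_finrank
    rw [LinearEquiv.finrank_eq f.quotKerEquivRange] at h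
    rw [h]
    simp
  have hr : 0 < Module.finrank ℤ (LinearMap.range f) := by
    obtain ⟨j, hj⟩ := Function.ne_iff.mp hδ
    rw [Module.finrank_pos_iff (R := ℤ)]
    rw [Submodule.nontrivial_iff_ne_bot, Ne, LinearMap.range_eq_bot]
    intro h0
    apply hj
    have h1 := congrArg (fun φ => φ (Pi.single j 1)) h0
    simpa [f, Pi.single_apply] using h1
  refine ⟨n, by omega, fun i => (b i : Fin k → ℤ), fun v hv => ?_⟩
  have hv' : v ∈ LinearMap.ker f := hv
  refine ⟨fun i => b.repr ⟨v, hv'⟩ i, fun j => ?_⟩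
  have h1 := b.sum_repr ⟨v, hv'⟩
  have h2 := congrArg (fun w : LinearMap.ker f => (w : Fin k → ℤ) j) h1
  simp only [Submodule.coe_sum, Submodule.coe_smul, Finset.sum_apply, Pi.smul_apply,
    smul_eq_mul] at h2
  exact h2.symm

/-- **Generic lattice parametrisation of exponents.** -/
theorem gen {K L : Type} [Field K] [NontriviallyNormedField L] [Algebra K L] (ε : K)
    (hε : 1 < ‖algebraMap K L ε‖) {β : Type} (𝔅 : LN β) (E : Set β) (hE : 𝔅.Big E) {r : ℕ}
    (q : β → Fin r → ℤ) :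
    ∃ (k : ℕ) (q₀ : Fin r → ℤ) (ψ : Fin r → Fin k → ℤ) (z : β → Fin k → ℤ) (E' : Set β),
      E' ⊆ E ∧ 𝔅.Big E' ∧ (∀ x ∈ E', ∀ i, q x i = q₀ i + ∑ j, ψ i j * z x j) ∧
      ∀ E'' ⊆ E', 𝔅.Big E'' → ∀ (A : Finset (Fin k → ℤ)) (g : (Fin k → ℤ) → K),
        (∀ x ∈ E'', ∑ α ∈ A, g α * ε ^ (∑ j, α j * z x j) = 0) → ∀ α ∈ A, g α = 0 := by
  classical
  have hex : ∃ k : ℕ, ∃ (q₀ : Fin r → ℤ) (ψ : Fin r → Fin k → ℤ) (z : β → Fin k → ℤ)
      (E' : Set β), E' ⊆ E ∧ 𝔅.Big E' ∧ (∀ x ∈ E', ∀ i, q x i = q₀ i + ∑ j, ψ i j * z x j) := by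
    refine ⟨r, 0, fun i j => if i = j then 1 else 0, q, E, subset_rfl, hE, fun x _ i => ?_⟩
    simp
  obtain ⟨q₀, ψ, z, E', hE'E, hE', hq⟩ := Nat.find_spec hex
  have hmin := fun {m : ℕ} (hm : m < Nat.find hex) => Nat.find_min hex hm
  generalize Nat.find hex = k at q₀ ψ z E' hE'E hE' hq hmin
  refine ⟨k, q₀, ψ, z, E', hE'E, hE', hq, ?_⟩
  intro E'' hE''E' hE'' A g hrel
  by_contra hcon
  push Not at hcon
  obtain ⟨α₀, hα₀, hgα₀⟩ := hcon
  set S : Finset (Fin k → ℤ) := A.filter (fun α => g α ≠ 0) with hS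
  have hSn : S.Nonempty := ⟨α₀, Finset.mem_filter.mpr ⟨hα₀, hgα₀⟩⟩
  have hSg : ∀ α ∈ S, g α ≠ 0 := fun α hα => (Finset.mem_filter.mp hα).2
  obtain ⟨M, hM⟩ := two_closeG (L := L) ε hε S g hSn hSg
  have hrel' : ∀ x ∈ E'', ∑ α ∈ S, g α * ε ^ (∑ j, α j * z x j) = 0 := by
    intro x hx
    rw [← hrel x hx, hS, Finset.sum_filter]
    apply Finset.sum_congr rfl
    intro α _
    by_cases h : g α = 0
    · simp [h]
    · simp [h]
  obtain ⟨⟨⟨α, β'⟩, m⟩, -, hE₃⟩ := 𝔅.partition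
    ((S ×ˢ S) ×ˢ Finset.Icc (-(M : ℤ)) M) hE''
    (fun t x => t.1.1 ≠ t.1.2 ∧ ∑ j, (t.1.1 j - t.1.2 j) * z x j = t.2) (by
    intro x hx
    obtain ⟨α, hα, β', hβ', hne, hab⟩ := hM (z x) (hrel' x hx)
    rw [abs_le] at hab
    exact ⟨((α, β'), _), Finset.mem_product.mpr ⟨Finset.mem_product.mpr ⟨hα, hβ'⟩,
      Finset.mem_Icc.mpr hab⟩, hne, rfl⟩)
  simp only at hE₃
  set E₃ : Set β := _ with hE₃def
  change 𝔅.Big E₃ at hE₃
  obtain ⟨x₁, hx₁⟩ := 𝔅.nonempty hE₃
  have hne : α ≠ β' := hx₁.2.1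
  obtain ⟨n, hnk, b, hb⟩ := ker_basis (fun j => α j - β' j) (by
    intro h0
    apply hne
    funext j
    have := congrFun h0 j
    simp only [Pi.zero_apply] at this
    omega)
  have hker : ∀ x ∈ E₃, ∃ c : Fin n → ℤ, ∀ j, z x j - z x₁ j = ∑ i, c i * b i j := by
    intro x hx
    apply hb (fun j => z x j - z x₁ j)
    simp only [mul_sub, Finset.sum_sub_distrib]
    rw [hx.2.2, hx₁.2.2, sub_self]
  choose! c hc using hker
  apply hmin hnk
  refine ⟨fun i => q₀ i + ∑ j, ψ i j * z x₁ j, fun i l => ∑ j, ψ i j * b l j, c, E₃, ?_, hE₃, ?_⟩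
  · exact fun x hx => hE'E (hE''E' hx.1)
  · intro x hx i
    rw [hq x (hE''E' hx.1) i]
    have h1 : ∀ j, z x j = z x₁ j + ∑ l, c x l * b l j := by
      intro j
      have := hc x hx j
      linarith
    have h2 : ∑ j, ψ i j * z x j = ∑ j, ψ i j * z x₁ j + ∑ j, ∑ l, ψ i j * (c x l * b l j) := by
      rw [← Finset.sum_add_distrib]
      apply Finset.sum_congr rfl
      intro j _
      rw [h1 j, mul_add, Finset.mul_sum]
    rw [h2, Finset.sum_comm, ← add_assoc]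
    congr 1
    apply Finset.sum_congr rfl
    intro l _
    rw [Finset.sum_mul]
    exact Finset.sum_congr rfl fun j _ => by ring

end Pool.Agent.Helper92.Sub
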